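import Pool.Agent.H.MP_6c077c_gt.Ix.Hom

/-! Index theorem: pushing the bodies of a family into each other. -/

set_option autoImplicit false

namespace Pool.Schoen

open Filter Set
open scoped Topology RealInnerProductSpace ContDiff

variable {V : Type*} [NormedAddCommGroup V] [InnerProductSpace ℝ V] [FiniteDimensional ℝ V]

omit [FiniteDimensional ℝ V] in
/-- Unfolding of the descent property. -/
private theorem TopB_desc {H : ℝ → V → ℝ} {t : ℝ} {x v : V}
    (h : Desc H (𝓝[Icc 0 1] t) x v) :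
    ∃ c d : ℝ, 0 < c ∧ 0 < d ∧ ∀ t' ∈ Icc (0 : ℝ) 1, |t' - t| < d → ∀ y : V, ‖y - x‖ < 2 * d →
      ∀ s : ℝ, 0 < s → s < d → H t' (y + s • v) ≤ H t' y - c * s := by
  obtain ⟨c, hc, h⟩ := h
  obtain ⟨pa, ha, pb, hb, h1⟩ := eventually_prod_iff.1 h
  obtain ⟨pc, hpc, pd, hpd, h2⟩ := eventually_prod_iff.1 hb
  obtain ⟨pe, hpe, pf, hpf, h3⟩ := eventually_prod_iff.1 hpd
  obtain ⟨d₁, hd₁, ha'⟩ := (Metric.nhdsWithin_basis_ball.eventually_iff).1 ha
  obtain ⟨d₂, hd₂, hc'⟩ := (Metric.nhds_basis_ball.eventually_iff).1 hpc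
  obtain ⟨d₃, hd₃, hf'⟩ := (Metric.nhdsWithin_basis_ball.eventually_iff).1 hpf
  refine ⟨c, min d₁ (min d₂ d₃) / 2, hc, by positivity, ?_⟩
  intro t' ht' htt y hy s hs hs'
  have e1 : min d₁ (min d₂ d₃) ≤ d₁ := min_le_left _ _
  have e2 : min d₁ (min d₂ d₃) ≤ d₂ := (min_le_right _ _).trans (min_le_left _ _)
  have e3 : min d₁ (min d₂ d₃) ≤ d₃ := (min_le_right _ _).trans (min_le_right _ _)
  have e0 : 0 < min d₁ (min d₂ d₃) := by positivity
  have f1 : pa t' := ha' ⟨by rw [Metric.mem_ball, Real.dist_eq]; linarith, ht'⟩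
  have f2 : pc y := hc' (by rw [Metric.mem_ball, dist_eq_norm]; linarith)
  have f3 : pf s := hf' ⟨by
    rw [Metric.mem_ball, Real.dist_eq, sub_zero, abs_of_pos hs]; linarith, hs⟩
  have f4 : pe v := hpe.self_of_nhds
  exact h1 f1 (h2 f2 (h3 f4 f3))

/-- Pushing the bodies of a family into each other. -/
theorem exists_push (H : ℝ → V → ℝ) (hc : Continuous fun p : ℝ × V => H p.1 p.2)
    (hb : ∃ R : ℝ, ∀ t ∈ Icc (0 : ℝ) 1, ∀ x, H t x ≤ 0 → ‖x‖ ≤ R)
    (hd : ∀ t ∈ Icc (0 : ℝ) 1, ∀ x, H t x = 0 → ∃ v, Desc H (𝓝[Icc 0 1] t) x v)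
    (t : ℝ) (ht : t ∈ Icc (0 : ℝ) 1) :
    ∃ g : ℝ → V → V, Continuous (fun p : ℝ × V => g p.1 p.2) ∧ (∀ x, g 0 x = x) ∧
      ∃ s : ℝ, 0 ≤ s ∧ ∃ ε : ℝ, 0 < ε ∧ ∀ t' ∈ Icc (0 : ℝ) 1, |t' - t| < ε →
        (∀ σ ∈ Icc (0 : ℝ) s, MapsTo (g σ) {x | H t' x ≤ 0} {x | H t' x ≤ 0}) ∧
        MapsTo (g s) {x | H t' x ≤ 0} {x | H t x ≤ 0} ∧
        MapsTo (g s) {x | H t x ≤ 0} {x | H t' x ≤ 0} := by
  classical
  have hprop : ProperSpace V := FiniteDimensional.proper ℝ V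
  obtain ⟨R, hR0, hR⟩ : ∃ R : ℝ, 0 ≤ R ∧ ∀ t ∈ Icc (0 : ℝ) 1, ∀ x, H t x ≤ 0 → ‖x‖ ≤ R := by
    obtain ⟨R, hR⟩ := hb
    exact ⟨max R 0, le_max_right _ _, fun t ht x hx => (hR t ht x hx).trans (le_max_left _ _)⟩
  have hct : Continuous (H t) := hc.comp (Continuous.prodMk continuous_const continuous_id)
  obtain ⟨K, hK⟩ : ∃ K : Set V, K = Metric.closedBall 0 R := ⟨_, rfl⟩
  have hKc : IsCompact K := by rw [hK]; exact isCompact_closedBall 0 R
  have hKm : ∀ x, x ∈ K ↔ ‖x‖ ≤ R := by intro x; rw [hK, mem_closedBall_zero_iff]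
  obtain ⟨Z, hZ⟩ : ∃ Z : Set V, Z = K ∩ {x | H t x = 0} := ⟨_, rfl⟩
  have hZc : IsCompact Z := by
    rw [hZ]
    exact hKc.inter_right (isClosed_eq hct continuous_const)
  have hloc : ∀ x, x ∈ Z → ∃ (v : V) (c d : ℝ), 0 < c ∧ 0 < d ∧ ∀ t' ∈ Icc (0 : ℝ) 1,
      |t' - t| < d → ∀ y : V, ‖y - x‖ < 2 * d → ∀ s : ℝ, 0 < s → s < d →
        H t' (y + s • v) ≤ H t' y - c * s := by
    intro x hx
    rw [hZ] at hx
    obtain ⟨v, hv⟩ := hd t ht x hx.2
    obtain ⟨c, d, h⟩ := TopB_desc hv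
    exact ⟨v, c, d, h⟩
  choose! v c d hc0 hd0 hdesc using hloc
  obtain ⟨T, hTZ, hT⟩ := hZc.elim_nhds_subcover (fun x => Metric.ball x (d x))
    fun x hx => Metric.ball_mem_nhds x (hd0 x hx)
  -- the bound for all centres
  obtain ⟨D, hD0, hD⟩ : ∃ D : ℝ, 0 < D ∧ ∀ j ∈ T, D < d j := by
    have h1 : ∀ᶠ D : ℝ in 𝓝[>] (0 : ℝ), ∀ j ∈ T, D < d j := by
      refine (Finset.eventually_all T).2 fun j hj => ?_
      exact (eventually_lt_nhds (hd0 j (hTZ j hj))).filter_mono nhdsWithin_le_nhds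
    obtain ⟨D, h2, h3⟩ := (h1.and self_mem_nhdsWithin).exists
    exact ⟨D, h3, h2⟩
  obtain ⟨B, hB⟩ : ∃ B : ℝ, B = ∑ i ∈ T, ‖v i‖ := ⟨_, rfl⟩
  have hB0 : 0 ≤ B := by rw [hB]; exact Finset.sum_nonneg fun i _ => norm_nonneg _
  obtain ⟨s, hs⟩ : ∃ s : ℝ, s = D / (2 * (1 + B)) := ⟨_, rfl⟩
  have hs0 : 0 < s := by rw [hs]; positivity
  have hsB : s * (2 * (1 + B)) = D := by rw [hs]; field_simp
  have hsD : s < D := by nlinarith
  have hsBD : s * B < D := by nlinarith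
  obtain ⟨χ, hχ⟩ : ∃ χ : V → V → ℝ, χ = fun i x => max 0 (1 - ‖x - i‖ / d i) := ⟨_, rfl⟩
  have hχc : ∀ i, Continuous (χ i) := by
    intro i
    rw [hχ]
    have : Continuous fun x : V => ‖x - i‖ / d i :=
      (continuous_norm.comp (continuous_id.sub continuous_const)).div_const _
    exact continuous_const.max (continuous_const.sub this)
  have hχ0 : ∀ i x, 0 ≤ χ i x := by intro i x; rw [hχ]; exact le_max_left _ _
  have hχ1 : ∀ i ∈ T, ∀ x, χ i x ≤ 1 := by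
    intro i hi x
    rw [hχ]
    refine max_le zero_le_one ?_
    have := div_nonneg (norm_nonneg (x - i)) (hd0 i (hTZ i hi)).le
    linarith
  have hχ2 : ∀ i ∈ T, ∀ x, 0 < χ i x → ‖x - i‖ < d i := by
    intro i hi x h
    by_contra hcon
    push Not at hcon
    have h1 : 1 ≤ ‖x - i‖ / d i := (one_le_div (hd0 i (hTZ i hi))).2 hcon
    have h2 : χ i x = 0 := by
      rw [hχ]
      exact max_eq_left (by linarith)
    rw [h2] at h
    exact lt_irrefl _ h
  have hχ3 : ∀ i ∈ T, ∀ x, ‖x - i‖ < d i → 0 < χ i x := by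
    intro i hi x h
    have h1 : ‖x - i‖ / d i < 1 := (div_lt_one (hd0 i (hTZ i hi))).2 h
    rw [hχ]
    exact lt_max_of_lt_right (by linarith)
  obtain ⟨w, hw⟩ : ∃ w : V → ℝ, w = fun x => ∑ i ∈ T, c i * χ i x := ⟨_, rfl⟩
  have hwc : Continuous w := by
    rw [hw]
    exact continuous_finsetSum _ fun i _ => continuous_const.mul (hχc i)
  have hw0 : ∀ x, 0 ≤ w x := by
    intro x
    rw [hw]
    exact Finset.sum_nonneg fun i hi => mul_nonneg (hc0 i (hTZ i hi)).le (hχ0 i x)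
  have hwZ : ∀ x ∈ Z, 0 < w x := by
    intro x hx
    have h1 := hT hx
    rw [mem_iUnion₂] at h1
    obtain ⟨i, hi, h2⟩ := h1
    rw [Metric.mem_ball, dist_eq_norm] at h2
    rw [hw]
    exact Finset.sum_pos' (fun j hj => mul_nonneg (hc0 j (hTZ j hj)).le (hχ0 j x))
      ⟨i, hi, mul_pos (hc0 i (hTZ i hi)) (hχ3 i hi x h2)⟩
  -- the walk
  have hwalk : ∀ t' ∈ Icc (0 : ℝ) 1, |t' - t| < D → ∀ σ ∈ Icc (0 : ℝ) s, ∀ x : V,
      ∀ S : Finset V, S ⊆ T →
        H t' (x + σ • ∑ i ∈ S, χ i x • v i) ≤ H t' x - σ * ∑ i ∈ S, c i * χ i x := by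
    intro t' ht' htt σ hσ x S
    induction S using Finset.induction_on with
    | empty => intro _; simp
    | insert j S hj ih =>
      intro hS
      have hjT : j ∈ T := hS (Finset.mem_insert_self _ _)
      have hST : S ⊆ T := fun i hi => hS (Finset.mem_insert_of_mem hi)
      have ih' := ih hST
      rw [Finset.sum_insert hj, Finset.sum_insert hj]
      obtain ⟨y, hy⟩ : ∃ y, y = x + σ • ∑ i ∈ S, χ i x • v i := ⟨_, rfl⟩
      rw [← hy] at ih'
      have hyx : x + σ • (χ j x • v j + ∑ i ∈ S, χ i x • v i) = y + (σ * χ j x) • v j := by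
        rw [hy, smul_add, smul_smul]
        abel
      rw [hyx]
      rcases eq_or_lt_of_le (mul_nonneg hσ.1 (hχ0 j x)) with h0 | h0
      · rw [← h0, zero_smul, add_zero]
        have : σ * (c j * χ j x + ∑ i ∈ S, c i * χ i x)
            = c j * (σ * χ j x) + σ * ∑ i ∈ S, c i * χ i x := by ring
        rw [this, ← h0, mul_zero, zero_add]
        exact ih'
      · have hχj : 0 < χ j x := by
          rcases eq_or_lt_of_le (hχ0 j x) with h1 | h1
          · rw [← h1, mul_zero] at h0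
            exact absurd h0 (lt_irrefl _)
          · exact h1
        have h1 : ‖y - x‖ < D := by
          have h2 : y - x = σ • ∑ i ∈ S, χ i x • v i := by rw [hy]; abel
          rw [h2, norm_smul, Real.norm_eq_abs, abs_of_nonneg hσ.1]
          have h3 : ‖∑ i ∈ S, χ i x • v i‖ ≤ B := by
            rw [hB]
            refine (norm_sum_le _ _).trans ?_
            calc ∑ i ∈ S, ‖χ i x • v i‖ ≤ ∑ i ∈ S, ‖v i‖ := by
                  refine Finset.sum_le_sum fun i hi => ?_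
                  rw [norm_smul, Real.norm_eq_abs, abs_of_nonneg (hχ0 i x)]
                  exact mul_le_of_le_one_left (norm_nonneg _) (hχ1 i (hST hi) x)
              _ ≤ ∑ i ∈ T, ‖v i‖ :=
                  Finset.sum_le_sum_of_subset_of_nonneg hST fun i _ _ => norm_nonneg _
          calc σ * ‖∑ i ∈ S, χ i x • v i‖ ≤ s * B :=
                mul_le_mul hσ.2 h3 (norm_nonneg _) hs0.le
            _ < D := hsBD
        have h2 : ‖y - j‖ < 2 * d j := by
          have h3 : y - j = (y - x) + (x - j) := by abel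
          rw [h3]
          refine (norm_add_le _ _).trans_lt ?_
          have h4 := hχ2 j hjT x hχj
          have h5 := hD j hjT
          linarith
        have h3 : σ * χ j x < d j := by
          have h4 : σ * χ j x ≤ s := by
            calc σ * χ j x ≤ σ * 1 := mul_le_mul_of_nonneg_left (hχ1 j hjT x) hσ.1
              _ ≤ s := by rw [mul_one]; exact hσ.2
          have h5 := hD j hjT
          linarith
        have h4 := hdesc j (hTZ j hjT) t' ht' (htt.trans (hD j hjT)) y h2 (σ * χ j x) h0 h3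
        calc H t' (y + (σ * χ j x) • v j) ≤ H t' y - c j * (σ * χ j x) := h4
          _ ≤ H t' x - σ * ∑ i ∈ S, c i * χ i x - c j * (σ * χ j x) := by linarith
          _ = _ := by ring
  have hwalk' : ∀ t' ∈ Icc (0 : ℝ) 1, |t' - t| < D → ∀ σ ∈ Icc (0 : ℝ) s, ∀ x : V,
      H t' (x + σ • ∑ i ∈ T, χ i x • v i) ≤ H t' x - σ * w x := by
    intro t' ht' htt σ hσ x
    rw [hw]
    exact hwalk t' ht' htt σ hσ x T (Finset.Subset.refl _)
  -- positivity near the zero set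
  obtain ⟨μ, hμ0, hμ⟩ : ∃ μ : ℝ, 0 < μ ∧ ∀ x ∈ K, μ ≤ max (w x) |H t x| := by
    obtain ⟨x₀, hx₀, hmin⟩ := hKc.exists_isMinOn (f := fun x => max (w x) |H t x|)
      ⟨0, by rw [hKm, norm_zero]; exact hR0⟩ (hwc.max hct.abs).continuousOn
    refine ⟨max (w x₀) |H t x₀|, ?_, fun x hx => hmin hx⟩
    by_cases h : H t x₀ = 0
    · refine lt_max_of_lt_left (hwZ x₀ ?_)
      rw [hZ]
      exact ⟨hx₀, h⟩
    · exact lt_max_of_lt_right (abs_pos.2 h)
  have hμ' : ∀ x ∈ K, |H t x| ≤ μ / 2 → μ ≤ w x := by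
    intro x hx h
    rcases le_max_iff.1 (hμ x hx) with h1 | h1
    · exact h1
    · linarith
  obtain ⟨κ, hκ⟩ : ∃ κ : ℝ, κ = min (μ / 2) (s * μ) := ⟨_, rfl⟩
  have hκ0 : 0 < κ := by rw [hκ]; positivity
  have hκ1 : κ ≤ μ / 2 := by rw [hκ]; exact min_le_left _ _
  have hκ2 : κ ≤ s * μ := by rw [hκ]; exact min_le_right _ _
  obtain ⟨ε, hε0, hε⟩ : ∃ ε : ℝ, 0 < ε ∧ ∀ t', |t' - t| < ε → ∀ x ∈ K,
      |H t' x - H t x| < κ := by
    have h1 : ∀ᶠ t' in 𝓝 t, ∀ x ∈ K, |H t' x - H t x| < κ := by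
      apply hKc.eventually_forall_of_forall_eventually
      intro x _
      have h2 : Continuous fun z : ℝ × V => |H z.1 z.2 - H t z.2| :=
        (hc.sub (hct.comp continuous_snd)).abs
      exact h2.continuousAt.eventually_lt continuousAt_const (by simpa using hκ0)
    obtain ⟨ε, hε, h⟩ := (Metric.nhds_basis_ball.eventually_iff).1 h1
    exact ⟨ε, hε, fun t' ht' => h (by rw [Metric.mem_ball, Real.dist_eq]; exact ht')⟩
  have hgc : Continuous fun p : ℝ × V => p.2 + p.1 • ∑ i ∈ T, χ i p.2 • v i := by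
    refine continuous_snd.add (continuous_fst.smul ?_)
    exact continuous_finsetSum _ fun i _ =>
      ((hχc i).comp continuous_snd).smul continuous_const
  refine ⟨fun σ x => x + σ • ∑ i ∈ T, χ i x • v i, hgc, fun x => by simp, s, hs0.le,
    min ε D, lt_min hε0 hD0, ?_⟩
  intro t' ht' htt
  have htε : |t' - t| < ε := htt.trans_le (min_le_left _ _)
  have htD : |t' - t| < D := htt.trans_le (min_le_right _ _)
  have hsI : s ∈ Icc (0 : ℝ) s := ⟨hs0.le, le_rfl⟩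
  have hself : ∀ σ ∈ Icc (0 : ℝ) s, ∀ x, H t' x ≤ 0 →
      H t' (x + σ • ∑ i ∈ T, χ i x • v i) ≤ 0 := by
    intro σ hσ x hx
    have h1 := hwalk' t' ht' htD σ hσ x
    have h2 := mul_nonneg hσ.1 (hw0 x)
    linarith
  refine ⟨fun σ hσ x hx => hself σ hσ x hx, ?_, ?_⟩
  · intro x hx
    have hx' : H t' x ≤ 0 := hx
    have hxK : x ∈ K := (hKm x).2 (hR t' ht' x hx')
    have h1 := abs_lt.1 (hε t' htε x hxK)
    have h2 := hwalk' t ht (by rw [sub_self, abs_zero]; exact hD0) s hsI x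
    show H t (x + s • ∑ i ∈ T, χ i x • v i) ≤ 0
    by_cases h3 : H t x ≤ 0
    · have h4 := mul_nonneg hs0.le (hw0 x)
      linarith
    · push Not at h3
      have h4 : μ ≤ w x := hμ' x hxK (by rw [abs_of_pos h3]; linarith)
      have h5 : s * μ ≤ s * w x := mul_le_mul_of_nonneg_left h4 hs0.le
      linarith
  · intro x hx
    have hx' : H t x ≤ 0 := hx
    have hxK : x ∈ K := (hKm x).2 (hR t ht x hx')
    have h1 := abs_lt.1 (hε t' htε x hxK)
    show H t' (x + s • ∑ i ∈ T, χ i x • v i) ≤ 0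
    by_cases h3 : H t' x ≤ 0
    · exact hself s hsI x h3
    · push Not at h3
      have h2 := hwalk' t' ht' htD s hsI x
      have h4 : μ ≤ w x := hμ' x hxK (by rw [abs_of_nonpos hx']; linarith)
      have h5 : s * μ ≤ s * w x := mul_le_mul_of_nonneg_left h4 hs0.le
      linarith

end Pool.Schoen
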