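import Pool.Agent.H.MP_6c077c_gt.Ix.TopA
import Pool.Agent.H.MP_6c077c_gt.Ix.TopB

/-! Index theorem: topology of the bodies of homotopic good functions. -/

set_option autoImplicit false

namespace Pool.Schoen

open Filter Set
open scoped Topology RealInnerProductSpace ContDiff

variable {V : Type*} [NormedAddCommGroup V] [InnerProductSpace ℝ V] [FiniteDimensional ℝ V]
variable {f g : V → ℝ}

/-- The sublevel sets of a homotopy are uniformly bounded if the first one is bounded.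
PROOF. Let `R` be a bound for the zeros (enlarged such that `0 < f x` for `‖x‖ > R`). For `‖x‖ > R` the
function `t ↦ H t x` has no zero on `[0, 1]`, and is positive at `0`. -/
theorem hom_bdd (H : ℝ → V → ℝ) (hc : Continuous fun p : ℝ × V => H p.1 p.2)
    (hz : ∃ R : ℝ, ∀ t ∈ Icc (0 : ℝ) 1, ∀ x, H t x = 0 → ‖x‖ ≤ R)
    (hb : Bornology.IsBounded {x | H 0 x ≤ 0}) :
    ∃ R : ℝ, ∀ t ∈ Icc (0 : ℝ) 1, ∀ x, H t x ≤ 0 → ‖x‖ ≤ R := by
  obtain ⟨R, hR⟩ := hz
  obtain ⟨R₀, hR₀⟩ := hb.subset_closedBall (0 : V)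
  refine ⟨max R R₀, fun t ht x hx => ?_⟩
  by_contra hcon
  rw [not_le, max_lt_iff] at hcon
  have h0 : 0 < H 0 x := by
    by_contra h1
    have h2 := hR₀ (show x ∈ {x | H 0 x ≤ 0} from not_lt.1 h1)
    rw [Metric.mem_closedBall, dist_zero_right] at h2
    linarith [hcon.2]
  have h3 : ContinuousOn (fun s => H s x) (Icc 0 t) :=
    (hc.comp (Continuous.prodMk continuous_id continuous_const)).continuousOn
  have h4 := intermediate_value_Icc' ht.1 h3
  obtain ⟨s, hs, hs0⟩ := h4 ⟨hx, h0.le⟩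
  have h5 := hR s ⟨hs.1, hs.2.trans ht.2⟩ x hs0
  linarith [hcon.1]

private theorem TopC_compact {H : ℝ → V → ℝ} (hc : Continuous fun p : ℝ × V => H p.1 p.2)
    {R : ℝ} (hR : ∀ t ∈ Icc (0 : ℝ) 1, ∀ x, H t x ≤ 0 → ‖x‖ ≤ R) {t : ℝ}
    (ht : t ∈ Icc (0 : ℝ) 1) : IsCompact {x | H t x ≤ 0} := by
  have : ProperSpace V := FiniteDimensional.proper ℝ V
  have h1 : Continuous (H t) := hc.comp (Continuous.prodMk continuous_const continuous_id)
  refine Metric.isCompact_of_isClosed_isBounded (isClosed_le h1 continuous_const) ?_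
  refine (Metric.isBounded_closedBall (x := (0 : V)) (r := R)).subset fun x hx => ?_
  rw [Metric.mem_closedBall, dist_zero_right]
  exact hR t ht x hx

theorem Hom.bdd (h : Hom f g) (hb : Bornology.IsBounded {x | f x ≤ 0}) :
    Bornology.IsBounded {x | g x ≤ 0} := by
  obtain ⟨H, hc, h0, h1, hz, hd⟩ := h
  subst h0
  subst h1
  obtain ⟨R, hR⟩ := hom_bdd H hc hz hb
  refine (Metric.isBounded_closedBall (x := (0 : V)) (r := R)).subset fun x hx => ?_
  rw [Metric.mem_closedBall, dist_zero_right]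
  exact hR 1 ⟨zero_le_one, le_refl _⟩ x hx

/-- PROOF. `chain` (Small.lean) for `IsConnected {H s ≤ 0} ↔ IsConnected {H t ≤ 0}` on `Icc 0 1`, locally
true by `exists_push` and `transfer_conn` (in both directions; the self maps of `{H t ≤ 0}` are the
case `t' = t`). -/
theorem Hom.isConnected (h : Hom f g) (hb : Bornology.IsBounded {x | f x ≤ 0})
    (hc : IsConnected {x | f x ≤ 0}) : IsConnected {x | g x ≤ 0} := by
  obtain ⟨H, hH, h0, h1, hz, hd⟩ := h
  subst h0
  subst h1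
  have hR := hom_bdd H hH hz hb
  have key := chain (fun s t => IsConnected {x | H s x ≤ 0} ↔ IsConnected {x | H t x ≤ 0})
    (fun _ => Iff.rfl) (fun _ _ h => h.symm) (fun _ _ _ h h' => h.trans h') ?_
  · exact key.1 hc
  · intro t ht
    obtain ⟨g, hg, hg0, s, hs, ε, hε, hpush⟩ := exists_push H hH hR hd t ht
    refine ⟨ε, hε, fun t' ht' htt => ?_⟩
    obtain ⟨p1, p2, p3⟩ := hpush t' ht' htt
    obtain ⟨q1, _, _⟩ := hpush t ht (by rw [sub_self, abs_zero]; exact hε)
    exact ⟨fun hA => transfer_conn g hg hg0 hs p1 p3 p2 hA,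
      fun hA => transfer_conn g hg hg0 hs q1 p2 p3 hA⟩

/-- The same with `transfer_lift` (the sublevel sets are compact). -/
theorem Hom.liftS (h : Hom f g) (hb : Bornology.IsBounded {x | f x ≤ 0})
    (hc : LiftS {x | f x ≤ 0}) : LiftS {x | g x ≤ 0} := by
  obtain ⟨H, hH, h0, h1, hz, hd⟩ := h
  subst h0
  subst h1
  have hR := hom_bdd H hH hz hb
  obtain ⟨R, hR'⟩ := hom_bdd H hH hz hb
  have key := chain (fun s t => LiftS {x | H s x ≤ 0} ↔ LiftS {x | H t x ≤ 0})
    (fun _ => Iff.rfl) (fun _ _ h => h.symm) (fun _ _ _ h h' => h.trans h') ?_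
  · exact key.1 hc
  · intro t ht
    obtain ⟨g, hg, hg0, s, hs, ε, hε, hpush⟩ := exists_push H hH hR hd t ht
    refine ⟨ε, hε, fun t' ht' htt => ?_⟩
    obtain ⟨p1, p2, p3⟩ := hpush t' ht' htt
    obtain ⟨q1, _, _⟩ := hpush t ht (by rw [sub_self, abs_zero]; exact hε)
    exact ⟨fun hA => transfer_lift (TopC_compact hH hR' ht') g hg hg0 hs p1 p3 p2 hA,
      fun hA => transfer_lift (TopC_compact hH hR' ht) g hg hg0 hs q1 p2 p3 hA⟩

end Pool.Schoen
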