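import Pool.Agent.H.MP_6c077c_gt.Ix.ModB

/-! Index theorem: passing to the model at an inward point. -/

set_option autoImplicit false

namespace Pool.Schoen

open Filter Set
open scoped Topology RealInnerProductSpace ContDiff

variable {V : Type*} [NormedAddCommGroup V] [InnerProductSpace ℝ V] [FiniteDimensional ℝ V]

theorem ModC_orth_zero (e : V) : orth e (0 : V) = 0 := by
  unfold orth
  rw [inner_zero_right, zero_smul, sub_zero]

theorem ModC_orth_of {e w : V} (hw : ⟪e, w⟫ = 0) : orth e w = w := by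
  unfold orth
  rw [hw, zero_smul, sub_zero]

/-- The linear part of `orth e`. -/
noncomputable def ModC_L (e : V) : V →L[ℝ] V :=
  ContinuousLinearMap.id ℝ V - (innerSL ℝ e).smulRight e

theorem ModC_L_apply (e x : V) : ModC_L e x = orth e x := by
  simp [ModC_L, orth]

/-- The second derivative of the model. -/
theorem ModC_hess (B : V →L[ℝ] V →L[ℝ] ℝ) (μ : ℝ) (e p w w' : V) :
    fderiv ℝ (fderiv ℝ (mdl0 B μ e p)) p w w' =
      (B (orth e w) (orth e w') + B (orth e w') (orth e w)) / 2 := by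
  have hC : ContDiff ℝ ∞ (mdl0 B μ e p) := mdl0_contDiff B μ e p
  have h1 : HasFDerivAt (fderiv ℝ (mdl0 B μ e p)) (fderiv ℝ (fderiv ℝ (mdl0 B μ e p)) p) p :=
    ((hC.fderiv_right (m := ∞) (by simp)).differentiable (by simp)).differentiableAt.hasFDerivAt
  have h2 := h1.clm_apply (hasFDerivAt_const w' p)
  have h3 : (fun x => fderiv ℝ (mdl0 B μ e p) x w') = fun x => -(μ * ⟪e, w'⟫) +
      (((B.flip (orth e w')).comp (ModC_L e)) (x - p) + ((B (orth e w')).comp (ModC_L e)) (x - p)) *
        (2 : ℝ)⁻¹ := by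
    funext x
    rw [mdl0_fderiv]
    simp only [ContinuousLinearMap.comp_apply, ContinuousLinearMap.flip_apply, ModC_L_apply]
    ring
  have h4 : HasFDerivAt (fun x => fderiv ℝ (mdl0 B μ e p) x w')
      ((2 : ℝ)⁻¹ • ((B.flip (orth e w')).comp (ModC_L e) + (B (orth e w')).comp (ModC_L e))) p := by
    rw [h3]
    have e0 : HasFDerivAt (fun y : V => y - p) (ContinuousLinearMap.id ℝ V) p :=
      (hasFDerivAt_id p).sub_const p
    have e1 : HasFDerivAt (fun y => ((B.flip (orth e w')).comp (ModC_L e)) (y - p))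
        ((B.flip (orth e w')).comp (ModC_L e)) p := by
      have := ((B.flip (orth e w')).comp (ModC_L e)).hasFDerivAt.comp p e0
      rw [ContinuousLinearMap.comp_id] at this
      exact this
    have e2 : HasFDerivAt (fun y => ((B (orth e w')).comp (ModC_L e)) (y - p))
        ((B (orth e w')).comp (ModC_L e)) p := by
      have := ((B (orth e w')).comp (ModC_L e)).hasFDerivAt.comp p e0
      rw [ContinuousLinearMap.comp_id] at this
      exact this
    exact ((e1.add e2).mul_const ((2 : ℝ)⁻¹)).const_add _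
  have h5 := h2.unique h4
  have h6 := DFunLike.congr_fun h5 w
  simp only [_root_.add_apply, ContinuousLinearMap.comp_apply, ContinuousLinearMap.flip_apply,
    _root_.smul_apply, ModC_L_apply, smul_eq_mul, _root_.zero_apply, map_zero, zero_add] at h6
  rw [h6]
  ring

/-- The model itself has the same type of inward point, in one of the two normal forms.
PROOF. `B = fderiv (fderiv f) p`. First case of the index: `Mod0`. Second case: with
`orth e (x - p) = y₁ u + w`, `B y y = y₁ ^ 2 B u u + B w w` (`B u w = 0 = B w u`), `a = - B u u`, so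
`mdl0 B μ e p = mdl1 B μ a e u p`. -/
theorem model_cases {f g : V → ℝ} {e p : V} (he : ‖e‖ = 1) (h : Inw f e p) {μ r : ℝ} (hμ0 : 0 < μ)
    (hr : 0 < r) (hg : ∀ x, ‖x - p‖ < r → g x = mdl0 (fderiv ℝ (fderiv ℝ f) p) μ e p x) :
    (∃ B, Mod0 g e p B μ r) ∨ ∃ u B a, Mod1 g e u p B μ a r := by
  rcases h.index with h1 | ⟨u, hu, heu, huu, huw, hww⟩
  · left
    exact ⟨fderiv ℝ (fderiv ℝ f) p, he, hμ0, hr, h1, hg⟩
  · right
    refine ⟨u, fderiv ℝ (fderiv ℝ f) p, -(hess f p u u), he, hu, heu, hμ0, neg_pos.2 huu, hr,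
      hww, fun x hx => ?_⟩
    rw [hg x hx]
    obtain ⟨hw1, hw2⟩ := inner_wc he hu heu (x - p)
    have hdec : orth e (x - p) = ⟪u, x - p⟫ • u + wc e u (x - p) := by
      unfold orth wc
      abel
    have e1 := huw _ hw1 hw2
    have e2 := hess_symm h.smooth (wc e u (x - p)) u
    rw [e1] at e2
    unfold hess at e1 e2
    unfold mdl0 mdl1 hess
    rw [hdec]
    simp only [map_add, map_smul, _root_.add_apply, _root_.smul_apply, smul_eq_mul]
    rw [e1, e2]
    ring

/-- `f + t χ (m - f)` still has an inward point of the same type at `p`.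
PROOF. For the first derivative at `p` both `f` and `m` have `-μ ⟪e, ·⟫`, and both vanish at `p`. Second
derivative of `f + t χ (m - f)` at `p` on vectors of the hyperplane: that of `m` and of `f` agree there
(`m'' (w, w') = B (orth e w) (orth e w')`, symmetric), and `m - f` has vanishing value and first
derivative at `p`. SIMPLER: `χ = 1` near `p`, so the function is `(1 - t) f + t m` near `p`
(`Inw.congr`). -/
theorem model_inw {f χ : V → ℝ} {e p : V} (he : ‖e‖ = 1) (h : Inw f e p) {μ : ℝ} (hμ0 : 0 < μ)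
    (hμ : ∀ v, fderiv ℝ f p v = -(μ * ⟪e, v⟫)) (hχ : ∀ᶠ x in 𝓝 p, χ x = 1) (t : ℝ) :
    Inw (fun x => f x + t * (χ x * (mdl0 (fderiv ℝ (fderiv ℝ f) p) μ e p x - f x))) e p := by
  have hsym : ∀ w w' : V, fderiv ℝ (fderiv ℝ f) p w w' = fderiv ℝ (fderiv ℝ f) p w' w :=
    h.smooth.isSymmSndFDerivAt (by simp)
  have hmC : ContDiff ℝ ∞ (mdl0 (fderiv ℝ (fderiv ℝ f) p) μ e p) := mdl0_contDiff _ _ _ _
  have hmess := ModC_hess (fderiv ℝ (fderiv ℝ f) p) μ e p
  have hmfd := mdl0_fderiv (fderiv ℝ (fderiv ℝ f) p) μ e p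
  have hmp : mdl0 (fderiv ℝ (fderiv ℝ f) p) μ e p p = 0 := by
    unfold mdl0
    rw [sub_self, inner_zero_right, ModC_orth_zero, map_zero]
    simp
  set B := fderiv ℝ (fderiv ℝ f) p with hB
  set m := mdl0 B μ e p with hm
  have hm2 : ContDiffAt ℝ 2 m p := (contDiff_infty.1 hmC 2).contDiffAt
  have hev : (fun x => (1 - t) * f x + t * m x) =ᶠ[𝓝 p] fun x => f x + t * (χ x * (m x - f x)) := by
    filter_upwards [hχ] with x hx
    rw [hx]
    ring
  refine Inw.congr ?_ hev
  have hfd : ∀ᶠ x in 𝓝 p, DifferentiableAt ℝ f x := by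
    filter_upwards [h.smooth.eventually (by simp)] with x hx
    exact hx.differentiableAt (by simp)
  have hFd : ∀ x, DifferentiableAt ℝ f x → fderiv ℝ (fun x => (1 - t) * f x + t * m x) x =
      (1 - t) • fderiv ℝ f x + t • fderiv ℝ m x := by
    intro x hx
    have hmx : DifferentiableAt ℝ m x := (hmC.differentiable (by simp)).differentiableAt
    have h1 := (hx.hasFDerivAt.const_mul (1 - t)).add (hmx.hasFDerivAt.const_mul t)
    exact h1.fderiv
  have hFev : fderiv ℝ (fun x => (1 - t) * f x + t * m x) =ᶠ[𝓝 p]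
      fun x => (1 - t) • fderiv ℝ f x + t • fderiv ℝ m x := by
    filter_upwards [hfd] with x hx
    exact hFd x hx
  have hd2 : DifferentiableAt ℝ (fderiv ℝ f) p :=
    (h.smooth.fderiv_right (m := 1) (by norm_num)).differentiableAt (by simp)
  have hd2m : DifferentiableAt ℝ (fderiv ℝ m) p :=
    ((hmC.fderiv_right (m := ∞) (by simp)).differentiable (by simp)).differentiableAt
  have hsec : ∀ w w', fderiv ℝ (fderiv ℝ (fun x => (1 - t) * f x + t * m x)) p w w' =
      (1 - t) * B w w' + t * fderiv ℝ (fderiv ℝ m) p w w' := by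
    intro w w'
    rw [hFev.fderiv_eq]
    have h1 := (hd2.hasFDerivAt.const_smul (1 - t)).add (hd2m.hasFDerivAt.const_smul t)
    have h2 : fderiv ℝ (fun x => (1 - t) • fderiv ℝ f x + t • fderiv ℝ m x) p = _ := h1.fderiv
    rw [h2]
    rfl
  have hhess : ∀ w w', ⟪e, w⟫ = 0 → ⟪e, w'⟫ = 0 →
      hess (fun x => (1 - t) * f x + t * m x) p w w' = hess f p w w' := by
    intro w w' hw hw'
    unfold hess
    rw [hsec, hmess, ModC_orth_of hw, ModC_orth_of hw', hsym w' w, ← hB]
    ring
  refine ⟨?_, ?_, ?_, ?_⟩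
  · exact (contDiffAt_const.mul h.smooth).add (contDiffAt_const.mul hm2)
  · show (1 - t) * f p + t * m p = 0
    rw [h.zero, hmp]
    ring
  · refine ⟨μ, hμ0, fun v => ?_⟩
    rw [hFd p (h.smooth.differentiableAt (by simp))]
    rw [_root_.add_apply, _root_.smul_apply, _root_.smul_apply, hμ v, hmfd, sub_self,
      ModC_orth_zero, map_zero, map_zero]
    simp only [smul_eq_mul, _root_.zero_apply]
    ring
  · rcases h.index with h1 | ⟨u, hu, heu, huu, huw, hww⟩
    · left
      intro w hw hw0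
      rw [hhess w w hw hw]
      exact h1 w hw hw0
    · right
      refine ⟨u, hu, heu, ?_, ?_, ?_⟩
      · rw [hhess u u heu heu]
        exact huu
      · intro w hw hw'
        rw [hhess u w heu hw]
        exact huw w hw hw'
      · intro w hw hw' hw0
        rw [hhess w w hw hw]
        exact hww w hw hw' hw0

/-- PROOF. Take `C` of `cutoff_exists`, `r < r0` of `model_zero`, also smaller than the distances of `p`
to the other points of `P`; `χ` for this `r`, `k x = χ x (m x - f x)`, `g = f + k`. Family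
`H t = f + t k`, continuous, same bounded sublevel set outside of the ball of radius `r`. Zeros `x` with
`‖x - p‖ ≥ r`: `k = 0` near `x`, direction of `f`. Zeros in the ball: `x = p`: direction `e`
(`Inw.desc` of `model_inw`; for the family use `desc_smooth` for `(t, x) ↦ f x + t k x`, which is `C¹` near
`(t, p)`); `x ≠ p`: `model_zero` and `desc_smooth`. So `Hom f g`, and for `t = 1` the same gives
`Class g e P`. `g = m` for `‖x - p‖ < r / 4`; `model_cases`. -/
theorem model {f : V → ℝ} {e p : V} (he : ‖e‖ = 1) {P : Finset V} (hf : Class f e P) (hp : p ∈ P) :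
    ∃ (g : V → ℝ) (μ r : ℝ), Hom f g ∧ Class g e P ∧
      ((∃ B, Mod0 g e p B μ r) ∨ ∃ u B a, Mod1 g e u p B μ a r) := by
  classical
  have hin := hf.inw p hp
  obtain ⟨μ, hμ0, hμ⟩ := hin.grad
  obtain ⟨C, hC, hcut⟩ := cutoff_exists V p
  obtain ⟨r0, hr0, hzero⟩ := model_zero he hin hμ0 hμ C hC
  obtain ⟨r, hr, hrr0, hrP⟩ : ∃ r : ℝ, 0 < r ∧ r < r0 ∧ ∀ q ∈ P, q ≠ p → r ≤ ‖q - p‖ := by
    have h1 : ∀ Q : Finset V, ∃ r : ℝ, 0 < r ∧ r < r0 ∧ ∀ q ∈ Q, q ≠ p → r ≤ ‖q - p‖ := by
      intro Q
      induction Q using Finset.induction_on with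
      | empty => exact ⟨r0 / 2, by positivity, by linarith, fun q hq => by simp at hq⟩
      | insert a Q _ ih =>
        obtain ⟨r, hr, hr1, hr2⟩ := ih
        by_cases ha : a = p
        · refine ⟨r, hr, hr1, fun q hq hqp => ?_⟩
          rcases Finset.mem_insert.1 hq with h | h
          · exact absurd (h.trans ha) hqp
          · exact hr2 q h hqp
        · have hpos : 0 < ‖a - p‖ := norm_pos_iff.2 (sub_ne_zero.2 ha)
          refine ⟨min r ‖a - p‖, lt_min hr hpos, lt_of_le_of_lt (min_le_left _ _) hr1,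
            fun q hq hqp => ?_⟩
          rcases Finset.mem_insert.1 hq with h | h
          · rw [h]
            exact min_le_right _ _
          · exact (min_le_left _ _).trans (hr2 q h hqp)
    exact h1 P
  obtain ⟨hsm, hz⟩ := hzero r hr hrr0
  obtain ⟨χ, hχ, hχ01, hχ1, hχ0, hχd⟩ := hcut r hr
  have hz' := hz χ hχ hχ01 hχd
  have hmi : ∀ t : ℝ, Inw (fun x => f x + t * (χ x * (mdl0 (fderiv ℝ (fderiv ℝ f) p) μ e p x - f x)))
      e p := by
    intro t
    refine model_inw he hin hμ0 hμ ?_ t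
    filter_upwards [Metric.ball_mem_nhds p (show 0 < r / 4 by positivity)] with x hx
    apply hχ1
    rw [← dist_eq_norm]
    exact (Metric.mem_ball.1 hx).le
  have hcases := @model_cases V _ _ _ f (fun x => f x + 1 * (χ x *
    (mdl0 (fderiv ℝ (fderiv ℝ f) p) μ e p x - f x))) e p he hin μ (r / 4) hμ0 (by positivity)
    (fun x hx => by
      show f x + 1 * (χ x * (mdl0 (fderiv ℝ (fderiv ℝ f) p) μ e p x - f x)) = _
      rw [hχ1 x hx.le]
      ring)
  have hmC : ContDiff ℝ ∞ (mdl0 (fderiv ℝ (fderiv ℝ f) p) μ e p) := mdl0_contDiff _ _ _ _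
  set m := mdl0 (fderiv ℝ (fderiv ℝ f) p) μ e p with hm
  have hfc : Continuous f := hf.good.cont
  -- outside of the ball
  have hout : ∀ x, r ≤ ‖x - p‖ → ∀ᶠ y in 𝓝 x, χ y = 0 := by
    intro x hx
    have hc : Continuous fun y : V => ‖y - p‖ := by fun_prop
    have h1 : ∀ᶠ y in 𝓝 x, r / 2 < ‖y - p‖ :=
      hc.continuousAt.eventually (lt_mem_nhds (by linarith))
    filter_upwards [h1] with y hy
    exact hχ0 y hy.le
  have hout' : ∀ t x, r ≤ ‖x - p‖ → f =ᶠ[𝓝 x] fun y => f y + t * (χ y * (m y - f y)) := by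
    intro t x hx
    filter_upwards [hout x hx] with y hy
    rw [hy]
    ring
  -- smoothness in the ball
  have hG : ∀ t x, ‖x - p‖ < r → ContDiffAt ℝ 1
      (fun q : ℝ × V => f q.2 + q.1 * (χ q.2 * (m q.2 - f q.2))) (t, x) := by
    intro t x hx
    have hfx : ContDiffAt ℝ 1 f x := (hsm x hx).of_le (by norm_num)
    have h1 : ContDiffAt ℝ 1 (fun q : ℝ × V => f q.2) (t, x) :=
      ContDiffAt.comp (t, x) (f := fun q : ℝ × V => q.2) (g := f) hfx contDiffAt_snd
    have h2 : ContDiffAt ℝ 1 (fun q : ℝ × V => χ q.2) (t, x) :=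
      ((hχ.of_le (by exact_mod_cast le_top)).comp contDiff_snd).contDiffAt
    have h3 : ContDiffAt ℝ 1 (fun q : ℝ × V => m q.2) (t, x) :=
      ((hmC.of_le (by exact_mod_cast le_top)).comp contDiff_snd).contDiffAt
    exact h1.add (contDiffAt_fst.mul (h2.mul (h3.sub h1)))
  have hGs : ∀ t x, ‖x - p‖ < r → ContDiffAt ℝ 1 (fun y => f y + t * (χ y * (m y - f y))) x := by
    intro t x hx
    have h1 : ContDiffAt ℝ 1 (fun y : V => (t, y)) x := contDiffAt_const.prodMk contDiffAt_id
    exact ContDiffAt.comp x (f := fun y : V => (t, y))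
      (g := fun q : ℝ × V => f q.2 + q.1 * (χ q.2 * (m q.2 - f q.2))) (hG t x hx) h1
  have hGd : ∀ t x v, ‖x - p‖ < r →
      fderiv ℝ (fun q : ℝ × V => f q.2 + q.1 * (χ q.2 * (m q.2 - f q.2))) (t, x) (0, v) =
        fderiv ℝ (fun y => f y + t * (χ y * (m y - f y))) x v := by
    intro t x v hx
    have h1 := ((hG t x hx).differentiableAt (by simp)).hasFDerivAt
    have h2 : HasFDerivAt (fun y : V => (t, y)) (ContinuousLinearMap.inr ℝ ℝ V) x :=
      hasFDerivAt_prodMk_right t x
    have h3 := h1.comp x h2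
    have h4 : fderiv ℝ (fun y => f y + t * (χ y * (m y - f y))) x = _ := h3.fderiv
    rw [h4]
    rfl
  have hdesc : ∀ t x v, ‖x - p‖ < r →
      fderiv ℝ (fun y => f y + t * (χ y * (m y - f y))) x v < 0 →
      Desc (fun s y => f y + s * (χ y * (m y - f y))) (𝓝 t) x v := by
    intro t x v hx hv
    have h1 := desc_smooth (hG t x hx) (v := v) (by rw [hGd t x v hx]; exact hv)
    exact h1
  have hbd : ∀ t x, f x + t * (χ x * (m x - f x)) ≤ 0 → x ∈ {x | f x ≤ 0} ∪ Metric.ball p r := by
    intro t x hx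
    by_cases hxr : ‖x - p‖ < r
    · right
      rw [Metric.mem_ball, dist_eq_norm]
      exact hxr
    · left
      rw [hχ0 x (by linarith [not_lt.1 hxr])] at hx
      have : f x ≤ 0 := by linarith
      exact this
  have hbdd : Bornology.IsBounded ({x | f x ≤ 0} ∪ Metric.ball p r) :=
    hf.bdd.union Metric.isBounded_ball
  have hHom : Hom f (fun x => f x + 1 * (χ x * (m x - f x))) := by
    refine ⟨fun t x => f x + t * (χ x * (m x - f x)), ?_, ?_, rfl, ?_, ?_⟩
    · have hχc : Continuous χ := hχ.continuous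
      have hmc : Continuous m := hmC.continuous
      fun_prop
    · funext x
      ring
    · obtain ⟨R, hR⟩ := hbdd.exists_norm_le
      exact ⟨R, fun t _ x hx => hR x (hbd t x hx.le)⟩
    · intro t ht x hx
      by_cases hxr : ‖x - p‖ < r
      · by_cases hxp : x = p
        · obtain ⟨μ', hμ', hgr⟩ := (hmi t).grad
          refine ⟨e, (hdesc t x e hxr ?_).mono nhdsWithin_le_nhds⟩
          rw [hxp, hgr e, real_inner_self_eq_norm_sq, he]
          linarith
        · obtain ⟨v, _, hv⟩ := hz' t ht x hxp hxr hx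
          exact ⟨v, (hdesc t x v hxr hv).mono nhdsWithin_le_nhds⟩
      · have hxr' := not_lt.1 hxr
        have hfx : f x = 0 := by
          have hx' : f x + t * (χ x * (m x - f x)) = 0 := hx
          rw [hχ0 x (by linarith)] at hx'
          linarith
        obtain ⟨v, hv⟩ := hf.good.desc x hfx
        refine ⟨v, Desc.congr (hv.const (𝓝[Icc 0 1] t)) ?_⟩
        have h1 : ∀ᶠ q : ℝ × V in 𝓝[Icc 0 1] t ×ˢ 𝓝 x, χ q.2 = 0 :=
          tendsto_snd.eventually (hout x hxr')
        filter_upwards [h1] with q hq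
        rw [hq]
        ring
  refine ⟨fun x => f x + 1 * (χ x * (m x - f x)), μ, r / 4, hHom, ?_, hcases⟩
  refine ⟨?_, hHom.good_right, ?_, ?_⟩
  · exact hbdd.subset fun x hx => hbd 1 x hx
  · intro q hq
    by_cases hqp : q = p
    · rw [hqp]
      exact hmi 1
    · exact (hf.inw q hq).congr (hout' 1 q (hrP q hq hqp))
  · intro x hx hxP
    by_cases hxr : ‖x - p‖ < r
    · have hxp : x ≠ p := fun h0 => hxP (h0 ▸ hp)
      obtain ⟨v, hv1, hv2⟩ := hz' 1 ⟨zero_le_one, le_rfl⟩ x hxp hxr hx
      exact ⟨v, desc1_smooth (hGs 1 x hxr) hv2, hv1⟩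
    · have hxr' := not_lt.1 hxr
      have hfx : f x = 0 := by
        have hx' : f x + 1 * (χ x * (m x - f x)) = 0 := hx
        rw [hχ0 x (by linarith)] at hx'
        linarith
      exact (hf.free x hfx hxP).congr (hout' 1 x hxr')

end Pool.Schoen
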