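import Pool.Agent.H.MP_6c077c_gt.Ix.Hom

/-! Index theorem: the class of good functions with finitely many inward points of index at
most one, and the lifting property of maps to the circle. -/

set_option autoImplicit false

namespace Pool.Schoen

open Filter Set
open scoped Topology RealInnerProductSpace ContDiff

variable {V : Type*} [NormedAddCommGroup V] [InnerProductSpace ℝ V]

/-- There is a descent direction of `f` at `x` pointing down (the height is `⟪e, ·⟫`). -/
def FreeAt (f : V → ℝ) (e x : V) : Prop := ∃ v, Desc1 f x v ∧ ⟪e, v⟫ < 0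

/-- The second derivative. -/
noncomputable def hess (f : V → ℝ) (p w w' : V) : ℝ := fderiv ℝ (fderiv ℝ f) p w w'

/-- `p` is an inward point of index zero or one: `f` is `C²` near `p`, `f p = 0`, the gradient is a
negative multiple of `e` (the outer normal of `{f ≤ 0}` is `-e`) and the second derivative is
nondegenerate with at most one negative eigenvalue on the hyperplane orthogonal to `e`. -/
structure Inw (f : V → ℝ) (e p : V) : Prop where
  smooth : ContDiffAt ℝ 2 f p
  zero : f p = 0
  grad : ∃ μ : ℝ, 0 < μ ∧ ∀ v, fderiv ℝ f p v = -(μ * ⟪e, v⟫)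
  index : (∀ w, ⟪e, w⟫ = 0 → w ≠ 0 → 0 < hess f p w w) ∨
    ∃ u, ‖u‖ = 1 ∧ ⟪e, u⟫ = 0 ∧ hess f p u u < 0 ∧
      (∀ w, ⟪e, w⟫ = 0 → ⟪u, w⟫ = 0 → hess f p u w = 0) ∧
      ∀ w, ⟪e, w⟫ = 0 → ⟪u, w⟫ = 0 → w ≠ 0 → 0 < hess f p w w

/-- `f` is good, the points of `P` are inward points of index at most one, and all other zeros are
free. -/
structure Class (f : V → ℝ) (e : V) (P : Finset V) : Prop where
  bdd : Bornology.IsBounded {x | f x ≤ 0}
  good : Good f
  inw : ∀ p ∈ P, Inw f e p
  free : ∀ x, f x = 0 → x ∉ P → FreeAt f e x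

/-- Every continuous map of `A` to the circle lifts to the line. -/
def LiftS {Y : Type*} [TopologicalSpace Y] (A : Set Y) : Prop :=
  ∀ u : Y → ℂ, ContinuousOn u A → (∀ x ∈ A, ‖u x‖ = 1) →
    ∃ v : Y → ℝ, ContinuousOn v A ∧ ∀ x ∈ A, u x = Complex.exp (v x * Complex.I)

end Pool.Schoen
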