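import Pool.Agent.H.MP_6c077c_gt.Ix.MollB

/-! Index theorem: homotopic regular functions bound carried sets. -/

set_option autoImplicit false

namespace Pool.Schoen

open Filter Set
open scoped Topology RealInnerProductSpace ContDiff

variable {V : Type*} [NormedAddCommGroup V] [InnerProductSpace ℝ V] [FiniteDimensional ℝ V]

/-- the relation on times used in the chain -/
private def MollC_rel (H : ℝ → V → ℝ) (t u : ℝ) : Prop :=
  t = u ∨ (t ∈ Icc (0 : ℝ) 1 ∧ u ∈ Icc (0 : ℝ) 1 ∧ ∃ ε₀ : ℝ, 0 < ε₀ ∧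
    ∀ F F' : V → ℝ, IsMoll (H t) ε₀ F → IsMoll (H u) ε₀ F' →
      Carries2 {x | F x = 0} {x | F x ≤ 0} {x | F' x = 0} {x | F' x ≤ 0})

/-- Homotopic smooth functions are carried to each other.
PROOF. Relation on times `t, t'`: there is `ε₀ > 0` such that for all `F`, `F'` with
`IsMoll (H t) ε₀ F`, `IsMoll (H t') ε₀ F'` one has `Carries2` of the zero and sublevel sets.  It is
symmetric, transitive by `moll_exists` (use `IsMoll.mono`), and locally true by `adapted_near` and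
`Adapted.carries`; so it holds for `0` and `1` (`chain` of H/MP_6c077c_gt/Small.lean or Family.lean, used
at the end of FamilySub.lean).  At the ends `H 0 = F` itself is adapted. -/
theorem Hom.carries {F G : V → ℝ} (h : Hom F G) (hF : ContDiff ℝ ∞ F) (hG : ContDiff ℝ ∞ G) :
    Carries2 {x | F x = 0} {x | F x ≤ 0} {x | G x = 0} {x | G x ≤ 0} := by
  obtain ⟨H, hc, h0, h1, hb, hd⟩ := h
  have hct : ∀ t, Continuous (H t) := fun t => hc.comp (Continuous.prodMk_right t)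
  have m0 : (0 : ℝ) ∈ Icc (0 : ℝ) 1 := ⟨le_rfl, zero_le_one⟩
  have m1 : (1 : ℝ) ∈ Icc (0 : ℝ) 1 := ⟨zero_le_one, le_rfl⟩
  have key : MollC_rel H 0 1 := by
    refine chain (MollC_rel H) (fun s => Or.inl rfl) ?_ ?_ ?_
    · rintro s t (e | ⟨hs, ht, ε₀, hε, hr⟩)
      · exact Or.inl e.symm
      · exact Or.inr ⟨ht, hs, ε₀, hε, fun F F' hF hF' => (hr F' F hF' hF).symm⟩
    · rintro s t u (rfl | ⟨hs, ht, ε₁, hε₁, hr₁⟩) h2
      · exact h2
      · rcases h2 with rfl | ⟨_, hu, ε₂, hε₂, hr₂⟩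
        · exact Or.inr ⟨hs, ht, ε₁, hε₁, hr₁⟩
        · refine Or.inr ⟨hs, hu, min ε₁ ε₂, lt_min hε₁ hε₂, fun F F'' hF hF'' => ?_⟩
          obtain ⟨F', hF'⟩ := moll_exists (H t) (hct t) (min ε₁ ε₂) (lt_min hε₁ hε₂)
          exact (hr₁ F F' (hF.mono (min_le_left _ _)) (hF'.mono (min_le_left _ _))).trans
            (hr₂ F' F'' (hF'.mono (min_le_right _ _)) (hF''.mono (min_le_right _ _)))
    · intro s hs
      obtain ⟨v, δ, R, ε, _, hε, had, _⟩ := adapted_near H hc hb hd s hs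
      refine ⟨ε, hε, fun t ht hts => Or.inr ⟨hs, ht, ε, hε, fun F F' hF hF' => ?_⟩⟩
      exact (had s hs (by simpa using hε) F hF).carries (had t ht hts F' hF')
  rcases key with e | ⟨_, _, ε₀, hε₀, hr⟩
  · exact absurd e (by norm_num)
  obtain ⟨v, δ, R, ε, _, hε, had, hself⟩ := adapted_near H hc hb hd 0 m0
  obtain ⟨v', δ', R', ε', _, hε', had', hself'⟩ := adapted_near H hc hb hd 1 m1
  obtain ⟨F₀, hF₀⟩ := moll_exists (H 0) (hct 0) (min ε ε₀) (lt_min hε hε₀)
  obtain ⟨F₁, hF₁⟩ := moll_exists (H 1) (hct 1) (min ε' ε₀) (lt_min hε' hε₀)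
  have c0 : Carries2 {x | H 0 x = 0} {x | H 0 x ≤ 0} {x | F₀ x = 0} {x | F₀ x ≤ 0} :=
    (hself (by rw [h0]; exact hF)).carries
      (had 0 m0 (by simpa using hε) F₀ (hF₀.mono (min_le_left _ _)))
  have c1 : Carries2 {x | F₁ x = 0} {x | F₁ x ≤ 0} {x | H 1 x = 0} {x | H 1 x ≤ 0} :=
    (had' 1 m1 (by simpa using hε') F₁ (hF₁.mono (min_le_left _ _))).carries
      (hself' (by rw [h1]; exact hG))
  have cm := hr F₀ F₁ (hF₀.mono (min_le_right _ _)) (hF₁.mono (min_le_right _ _))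
  have := (c0.trans cm).trans c1
  rw [h0, h1] at this
  exact this

/-- The zeros of a good smooth function are regular. -/
theorem Good.regular {F : V → ℝ} (h : Good F) (hF : ContDiff ℝ ∞ F) (x : V) (hx : F x = 0) :
    fderiv ℝ F x ≠ 0 := by
  obtain ⟨v, hv⟩ := h.desc x hx
  have h1 := fderiv_neg_of_desc1 (hF.contDiffAt.differentiableAt (by simp)) hv
  intro h0
  rw [h0] at h1
  simp at h1

end Pool.Schoen
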