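import Pool.Agent.H.MP_6c077c_gt.Ix.GlA

/-! Gluing lemma: retract the tube into `C`. -/

set_option autoImplicit false

namespace Pool.Schoen

open Filter Set
open scoped Topology RealInnerProductSpace ContDiff

variable {V : Type*} [NormedAddCommGroup V] [InnerProductSpace ℝ V] [FiniteDimensional ℝ V]

omit [FiniteDimensional ℝ V] in
private theorem GlR_mono (q u : V) {α α' β ρ : ℝ} (h : α ≤ α') (x : V) :
    tubeF q u α β ρ x ≤ tubeF q u α' β ρ x := by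
  unfold tubeF
  exact max_le_max (max_le_max (by linarith) le_rfl) le_rfl

omit [FiniteDimensional ℝ V] in
private theorem GlR_inner {q u : V} (hu : ‖u‖ = 1) (ℓ : ℝ) (y : V) :
    ⟪u, y - (q + ℓ • u)⟫ = ⟪u, y - q⟫ - ℓ := by
  rw [← sub_sub, inner_sub_right, real_inner_smul_right, real_inner_self_eq_norm_sq, hu]
  ring

omit [FiniteDimensional ℝ V] in
/-- The last piece of the tube is close to the end of the segment, beyond it. -/
private theorem GlR_end {q u : V} (hu : ‖u‖ = 1) {ℓ ρ : ℝ} (hρ : 0 < ρ) {y : V}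
    (hy : tubeF q u (ℓ + ρ / 2) (ℓ + ρ) ρ y ≤ 0) :
    ‖y - (q + ℓ • u)‖ ≤ 2 * ρ ∧ ρ / 2 ≤ ⟪u, y - (q + ℓ • u)⟫ := by
  obtain ⟨h1, h2, h3⟩ := (tubeF_le hρ.le y).1 hy
  refine ⟨?_, by rw [GlR_inner hu]; linarith⟩
  have e2 : y - (q + ℓ • u) = (y - (q + ⟪u, y - q⟫ • u)) + (⟪u, y - q⟫ - ℓ) • u := by
    rw [sub_smul]
    abel
  rw [e2]
  calc ‖(y - (q + ⟪u, y - q⟫ • u)) + (⟪u, y - q⟫ - ℓ) • u‖
      ≤ ‖y - (q + ⟪u, y - q⟫ • u)‖ + ‖(⟪u, y - q⟫ - ℓ) • u‖ := norm_add_le _ _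
    _ ≤ ρ + ρ := by
      refine add_le_add (by rw [orth_near hu]; exact h3) ?_
      rw [norm_smul, hu, mul_one, Real.norm_eq_abs, abs_le]
      constructor <;> linarith
    _ = 2 * ρ := by ring

omit [FiniteDimensional ℝ V] in
/-- First step: the lower end of the tube moves beyond the end of the segment. -/
private theorem GlR_move {C : V → ℝ} (hC : Good C) {q u : V} (hu : ‖u‖ = 1) {ℓ : ℝ} (hℓ : 0 < ℓ)
    {r0 : ℝ} (hfl : ∀ x, ‖x - (q + ℓ • u)‖ < r0 → ∀ᶠ y in 𝓝 x, C y = -⟪u, y - (q + ℓ • u)⟫)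
    {ρ : ℝ} (hρ : 0 < ρ)
    (h1 : ∀ x, tau q u ℓ ρ x ≤ 0 → ‖x - (q + ℓ • u)‖ < r0 ∨ 0 < C x) :
    Hom (fun x => min (C x) (tau q u ℓ ρ x))
      (fun x => min (C x) (tubeF q u (ℓ + ρ / 2) (ℓ + ρ) ρ x)) := by
  have hαc : Continuous fun t : ℝ => -ρ + t * (ℓ + 3 * ρ / 2) := by fun_prop
  have hTc : Continuous fun p : ℝ × V =>
      tubeF q u (-ρ + p.1 * (ℓ + 3 * ρ / 2)) (ℓ + ρ) ρ p.2 :=
    tubeF_continuous' q u hαc continuous_const continuous_const
  have hCc : Continuous fun p : ℝ × V => C p.2 := hC.cont.comp continuous_snd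
  have hk : ∀ t ∈ Icc (0 : ℝ) 1, 0 ≤ t * (ℓ + 3 * ρ / 2) ∧ t * (ℓ + 3 * ρ / 2) ≤ ℓ + 3 * ρ / 2 := by
    intro t ht
    have hp : 0 ≤ ℓ + 3 * ρ / 2 := by positivity
    exact ⟨mul_nonneg ht.1 hp, by nlinarith [ht.2]⟩
  have htau : ∀ t ∈ Icc (0 : ℝ) 1, ∀ x,
      tubeF q u (-ρ + t * (ℓ + 3 * ρ / 2)) (ℓ + ρ) ρ x ≤ 0 → tau q u ℓ ρ x ≤ 0 := by
    intro t ht x hx
    exact le_trans (GlR_mono q u (by linarith [(hk t ht).1]) x) hx
  refine ⟨fun t x => min (C x) (tubeF q u (-ρ + t * (ℓ + 3 * ρ / 2)) (ℓ + ρ) ρ x),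
    hCc.min hTc, ?_, ?_, ?_, ?_⟩
  · funext x
    simp [tau]
  · funext x
    have e : -ρ + 1 * (ℓ + 3 * ρ / 2) = ℓ + ρ / 2 := by ring
    simp only [e]
  · obtain ⟨R, hR⟩ := hC.bdd.subset_closedBall (0 : V)
    refine ⟨max R (‖q‖ + ℓ + 2 * ρ), fun t ht x hx => ?_⟩
    rcases min_choice (C x) (tubeF q u (-ρ + t * (ℓ + 3 * ρ / 2)) (ℓ + ρ) ρ x) with h | h
    · have h4 : C x = 0 := by rw [← h]; exact hx
      have h5 := hR h4
      rw [Metric.mem_closedBall, dist_zero_right] at h5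
      exact h5.trans (le_max_left _ _)
    · have h4 : tubeF q u (-ρ + t * (ℓ + 3 * ρ / 2)) (ℓ + ρ) ρ x = 0 := by rw [← h]; exact hx
      obtain ⟨s, hs, h5⟩ := tubeF_near hu hℓ.le hρ.le (htau t ht x h4.le)
      refine le_trans ?_ (le_max_right _ _)
      calc ‖x‖ = ‖(x - (q + s • u)) + (q + s • u)‖ := by rw [sub_add_cancel]
        _ ≤ ‖x - (q + s • u)‖ + (‖q‖ + ‖s • u‖) :=
          (norm_add_le _ _).trans (add_le_add le_rfl (norm_add_le _ _))
        _ ≤ 2 * ρ + (‖q‖ + ℓ) := by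
          refine add_le_add h5 (add_le_add le_rfl ?_)
          rw [norm_smul, hu, mul_one, Real.norm_eq_abs, abs_of_nonneg hs.1]
          exact hs.2
        _ = ‖q‖ + ℓ + 2 * ρ := by ring
  · intro t ht x hx
    have hnear : 𝓝[Icc 0 1] t ×ˢ 𝓝 x ≤ 𝓝 ((t, x) : ℝ × V) := by
      rw [nhds_prod_eq]
      exact Filter.prod_mono nhdsWithin_le_nhds le_rfl
    have hx' : min (C x) (tubeF q u (-ρ + t * (ℓ + 3 * ρ / 2)) (ℓ + ρ) ρ x) = 0 := hx
    have hC0 : 0 ≤ C x := by rw [← hx']; exact min_le_left _ _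
    have hT0 : 0 ≤ tubeF q u (-ρ + t * (ℓ + 3 * ρ / 2)) (ℓ + ρ) ρ x := by
      rw [← hx']
      exact min_le_right _ _
    rcases hC0.lt_or_eq with hCx | hCx
    · have hT : tubeF q u (-ρ + t * (ℓ + 3 * ρ / 2)) (ℓ + ρ) ρ x = 0 := by
        rcases min_choice (C x) (tubeF q u (-ρ + t * (ℓ + 3 * ρ / 2)) (ℓ + ρ) ρ x) with h | h
        · rw [hx'] at h
          exact absurd h hCx.ne
        · rw [← h]
          exact hx'
      obtain ⟨v, hv⟩ := tubeF_desc_move hu hαc hρ (β := ℓ + ρ) (t := t)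
        (by linarith [(hk t ht).2]) hT
      refine ⟨v, desc_min_right (H := fun _ : ℝ => C) hv ?_⟩
      have h5 : ∀ᶠ p : ℝ × V in 𝓝 (t, x),
          tubeF q u (-ρ + p.1 * (ℓ + 3 * ρ / 2)) (ℓ + ρ) ρ p.2 < C p.2 :=
        hTc.continuousAt.eventually_lt hCc.continuousAt (by rw [hT]; exact hCx)
      exact (h5.filter_mono hnear).mono fun p hp => hp.le
    · rcases hT0.lt_or_eq with hT | hT
      · obtain ⟨v, hv⟩ := hC.desc x hCx.symm
        refine ⟨v, desc_min_left (H := fun _ : ℝ => C) (hv.const _) ?_⟩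
        have h5 : ∀ᶠ p : ℝ × V in 𝓝 (t, x),
            C p.2 < tubeF q u (-ρ + p.1 * (ℓ + 3 * ρ / 2)) (ℓ + ρ) ρ p.2 :=
          hCc.continuousAt.eventually_lt hTc.continuousAt (by rw [← hCx]; exact hT)
        exact (h5.filter_mono hnear).mono fun p hp => hp.le
      · have h5 : ‖x - (q + ℓ • u)‖ < r0 := by
          rcases h1 x (htau t ht x hT.symm.le) with h | h
          · exact h
          · exact absurd hCx h.ne
        have h6 := hfl x h5
        have h7 : ⟪u, x - q⟫ = ℓ := by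
          have h8 := h6.self_of_nhds
          rw [← hCx, GlR_inner hu] at h8
          linarith
        have h9 : Desc1 C x (u - orth u (x - q)) := by
          have h10 : Desc1 (fun y => ⟪-u, y - (q + ℓ • u)⟫) x (u - orth u (x - q)) := by
            apply desc1_affine
            rw [inner_neg_left, inner_sub_right, inner_orth hu, real_inner_self_eq_norm_sq, hu]
            norm_num
          refine h10.congr ?_
          filter_upwards [h6] with y hy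
          rw [hy, inner_neg_left]
        have h11 := tubeF_dz_end hu hαc hρ (β := ℓ + ρ) (t := t) (x := x) (by linarith)
        exact ⟨_, desc_min (H := fun _ : ℝ => C) (h9.const _) (h11 hT.symm)⟩

/-- PROOF. `b = q + ℓ u`, `C x = - ⟪u, x - b⟫` for `‖x - b‖ < r0` (`r0 ≤ ℓ`). `tau_small'` for `G = C`: for
small `ρ < r0 / 4` the points `x` of the tube have `‖x - b‖ < r0` or `0 < C x`. Family
`H t = min C (tubeF q u (α t) (ℓ + ρ) ρ)`, `α t = - ρ + t (ℓ + 3 ρ / 2)`. At a zero `x`: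
`C x = 0`, tube positive: `hC.desc`; `C x > 0`, tube zero: `tubeF_desc_move`; both zero: then `x` is in the
tube `τ` (`α t ≥ -ρ`), so `‖x - b‖ < r0`, `⟪u, x - b⟫ = 0`, `⟪u, x - q⟫ = ℓ`, and
`v = u - orth u (x - q)` is a direction for both (`desc1_affine`, `tubeF_dz_end`). At `t = 1` the tube
`ℓ + ρ / 2 ≤ ⟪u, x - q⟫ ≤ ℓ + ρ` is within `{C < 0}` (its points have `‖x - b‖ ≤ 2 ρ < r0`), so
`Hom.of_eq_near'` removes it. -/
theorem glue_retract {C : V → ℝ} (hC : Good C) {q u : V} (hu : ‖u‖ = 1) {ℓ : ℝ} (hℓ : 0 < ℓ)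
    (hflat : ∀ᶠ x in 𝓝 (q + ℓ • u), C x = -⟪u, x - (q + ℓ • u)⟫)
    (hs : ∀ s ∈ Ico (0 : ℝ) ℓ, 0 < C (q + s • u)) :
    ∀ᶠ ρ in 𝓝[>] (0 : ℝ), Hom (fun x => min (C x) (tau q u ℓ ρ x)) C := by
  obtain ⟨r0, hr0, hflat'⟩ := Metric.eventually_nhds_iff.1 hflat
  have hfl : ∀ x, ‖x - (q + ℓ • u)‖ < r0 → C x = -⟪u, x - (q + ℓ • u)⟫ := fun x hx =>
    hflat' (by rwa [dist_eq_norm])
  have hfl' : ∀ x, ‖x - (q + ℓ • u)‖ < r0 → ∀ᶠ y in 𝓝 x, C y = -⟪u, y - (q + ℓ • u)⟫ := by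
    intro x hx
    have hc : Continuous fun y : V => ‖y - (q + ℓ • u)‖ := by fun_prop
    filter_upwards [hc.continuousAt.eventually_lt continuousAt_const hx] with y hy
    exact hfl y hy
  have hsm : ∀ᶠ ρ in 𝓝[>] (0 : ℝ), ρ < r0 / 4 :=
    nhdsWithin_le_nhds (Iio_mem_nhds (by linarith))
  filter_upwards [tau_small' hu hℓ hC.cont hs hr0, hsm, self_mem_nhdsWithin] with ρ h1 h2 h3
  have hρ : 0 < ρ := h3
  refine (GlR_move hC hu hℓ hfl' hρ h1).trans (Hom.symm ?_)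
  have hneg : ∀ y, tubeF q u (ℓ + ρ / 2) (ℓ + ρ) ρ y ≤ 0 → C y < 0 := by
    intro y hy
    obtain ⟨h4, h5⟩ := GlR_end hu hρ hy
    rw [hfl y (by linarith)]
    linarith
  have hTc : Continuous (tubeF q u (ℓ + ρ / 2) (ℓ + ρ) ρ) := tubeF_continuous q u _ _ _
  refine Hom.of_eq_near' hC (hC.cont.min hTc) ?_ ?_
  · intro x hx
    have hCx : C x = 0 := by
      rcases hx with hx | hx
      · exact hx
      · rcases min_choice (C x) (tubeF q u (ℓ + ρ / 2) (ℓ + ρ) ρ x) with h | h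
        · rw [← h]
          exact hx
        · have h4 : tubeF q u (ℓ + ρ / 2) (ℓ + ρ) ρ x = 0 := by rw [← h]; exact hx
          have h5 := hneg x h4.le
          have h6 : 0 ≤ C x := by rw [← hx]; exact min_le_left _ _
          exact absurd h5 (not_lt.2 h6)
    have hTx : 0 < tubeF q u (ℓ + ρ / 2) (ℓ + ρ) ρ x := by
      by_contra h
      exact absurd (hneg x (not_lt.1 h)) (not_lt.2 hCx.ge)
    filter_upwards [hC.cont.continuousAt.eventually_lt hTc.continuousAt (by rw [hCx]; exact hTx)]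
      with y hy
    exact (min_eq_left hy.le).symm
  · intro x hx hx'
    rcases lt_or_gt_of_ne hx with h | h
    · exact mul_pos_of_neg_of_neg h (lt_of_le_of_lt (min_le_left _ _) h)
    · refine mul_pos h (lt_min h ?_)
      by_contra h'
      exact absurd (hneg x (not_lt.1 h')) (not_lt.2 h.le)

end Pool.Schoen
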