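import Pool.Agent.H.MP_6c077c_gt.Ix.GlN
import Pool.Agent.H.MP_6c077c_gt.Ix.GlR

/-! Gluing lemma. -/

set_option autoImplicit false

namespace Pool.Schoen

open Filter Set
open scoped Topology RealInnerProductSpace ContDiff

variable {V : Type*} [NormedAddCommGroup V] [InnerProductSpace ℝ V] [FiniteDimensional ℝ V]

/-- The common direction at the points where the tube enters `C`. -/
private theorem Glue_dir {C : V → ℝ} {q u : V} (hu : ‖u‖ = 1) {ℓ ρ : ℝ} (hρ : 0 < ρ) {r0 : ℝ}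
    (hC0 : ∀ y, ‖y - (q + ℓ • u)‖ < r0 → C y = -⟪u, y - (q + ℓ • u)⟫) {M : ℝ → V → ℝ} {r : ℝ}
    (hM : ∀ t ∈ Icc (0 : ℝ) 1, ∀ y, ‖y - (q + ℓ • u)‖ < r → M t y = tau q u ℓ ρ y)
    {t : ℝ} (ht : t ∈ Icc (0 : ℝ) 1) {x : V} (hx : ‖x - (q + ℓ • u)‖ < min r r0) (hCx : C x = 0)
    (hMx : M t x = 0) :
    Desc (fun _ : ℝ => C) (𝓝[Icc 0 1] t) x (u - orth u (x - q)) ∧
      Desc M (𝓝[Icc 0 1] t) x (u - orth u (x - q)) := by
  have hxr : ‖x - (q + ℓ • u)‖ < r := lt_of_lt_of_le hx (min_le_left _ _)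
  have hxr0 : ‖x - (q + ℓ • u)‖ < r0 := lt_of_lt_of_le hx (min_le_right _ _)
  have hcn : Continuous fun y : V => ‖y - (q + ℓ • u)‖ := by fun_prop
  have hnr : ∀ᶠ y in 𝓝 x, ‖y - (q + ℓ • u)‖ < r :=
    hcn.continuousAt.eventually_lt continuousAt_const hxr
  have hnr0 : ∀ᶠ y in 𝓝 x, ‖y - (q + ℓ • u)‖ < r0 :=
    hcn.continuousAt.eventually_lt continuousAt_const hxr0
  have huu : ⟪u, u⟫ = 1 := by rw [real_inner_self_eq_norm_sq, hu, one_pow]
  have hin : ⟪u, x - (q + ℓ • u)⟫ = 0 := by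
    have := hC0 x hxr0
    linarith
  have hin' : ⟪u, x - q⟫ = ℓ := by
    have h1 : x - q = (x - (q + ℓ • u)) + ℓ • u := by abel
    rw [h1, inner_add_right, hin, inner_smul_right, huu]
    ring
  constructor
  · have h1 : ⟪-u, u - orth u (x - q)⟫ < 0 := by
      rw [inner_neg_left, inner_sub_right, huu, inner_orth hu]
      norm_num
    have h2 := desc1_affine (x := x) (v := u - orth u (x - q)) (-u) (q + ℓ • u) h1
    have h3 : Desc1 C x (u - orth u (x - q)) := by
      refine h2.congr ?_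
      filter_upwards [hnr0] with y hy
      rw [hC0 y hy, inner_neg_left]
    exact h3.const _
  · have h1 := tubeF_dz_end (q := q) hu (α := fun _ => -ρ) continuous_const (β := ℓ + ρ) hρ
      (t := t) (x := x) (by rw [hin']; linarith)
    have h2 : tau q u ℓ ρ x = 0 := by rw [← hM t ht x hxr, hMx]
    have h3 : Desc (fun _ : ℝ => tau q u ℓ ρ) (𝓝[Icc 0 1] t) x (u - orth u (x - q)) := h1 h2
    refine h3.congr ?_
    have h4 : ∀ᶠ p : ℝ × V in 𝓝[Icc 0 1] t ×ˢ 𝓝 x, p.1 ∈ Icc (0 : ℝ) 1 :=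
      tendsto_fst.eventually self_mem_nhdsWithin
    have h5 : ∀ᶠ p : ℝ × V in 𝓝[Icc 0 1] t ×ˢ 𝓝 x, ‖p.2 - (q + ℓ • u)‖ < r :=
      tendsto_snd.eventually hnr
    filter_upwards [h4, h5] with p hp hp'
    rw [hM p.1 hp p.2 hp']

/-- Gluing lemma. A ball `A` connected to a disjoint `C` by a thin straight tube between flat pieces of
the boundaries can be absorbed by `C`.
PROOF. `glue_near` with `N = {0 < C} ∩ ball 0 R` (`R` with `{A ≤ 0} ⊆ ball 0 R`), and the family
`min C (M t)`, bounded zero set (`Good.bdd` of `C`, bounds of `N` and of the tube). At a zero `x` of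
`min C (M t)`: `C x > 0`: the direction of `M` (`dz_min`); `C x = 0`, `M t x > 0`: the direction of `C`;
both zero: `x ∉ N`, so `τ x ≤ 0`, and for small `ρ` (`tau_small'` for `G = C`) `x` is near
`b = q + ℓ u`, so `M s = τ` near `x` for all `s ∈ Icc 0 1` (the family is only used for such `s`: filter
`𝓝[Icc 0 1] t`), `τ x = 0`, `⟪u, x - b⟫ = 0`, `v = u - orth u (x - q)` (`tubeF_dz_end` with constant `α`, or
`tubeF_dz1`). Then `glue_retract`. -/
theorem glue {A C : V → ℝ} (hA : IsBall A) (hC : Good C) (hdisj : ∀ x, A x ≤ 0 → 0 < C x)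
    {q u : V} (hu : ‖u‖ = 1) {ℓ : ℝ} (hℓ : 0 < ℓ) (hflatA : ∀ᶠ x in 𝓝 q, A x = ⟪u, x - q⟫)
    (hflatC : ∀ᶠ x in 𝓝 (q + ℓ • u), C x = -⟪u, x - (q + ℓ • u)⟫)
    (hs : ∀ s ∈ Ioo (0 : ℝ) ℓ, 0 < A (q + s • u) ∧ 0 < C (q + s • u)) :
    ∀ᶠ ρ in 𝓝[>] (0 : ℝ), Hom (fun x => min (min (A x) (C x)) (tau q u ℓ ρ x)) C := by
  have hCb : C (q + ℓ • u) = 0 := by
    have := hflatC.self_of_nhds
    simpa using this
  have hAq : A q = 0 := by
    have := hflatA.self_of_nhds
    simpa using this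
  have hAb : 0 < A (q + ℓ • u) := by
    by_contra h
    have := hdisj (q + ℓ • u) (not_lt.1 h)
    linarith
  have hCq : 0 < C q := hdisj q hAq.le
  have hsA : ∀ s ∈ Ioc (0 : ℝ) ℓ, 0 < A (q + s • u) := by
    intro s hs'
    rcases eq_or_lt_of_le hs'.2 with h | h
    · rw [h]; exact hAb
    · exact (hs s ⟨hs'.1, h⟩).1
  have hsC : ∀ s ∈ Ico (0 : ℝ) ℓ, 0 < C (q + s • u) := by
    intro s hs'
    rcases eq_or_lt_of_le hs'.1 with h | h
    · rw [← h, zero_smul, add_zero]; exact hCq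
    · exact (hs s ⟨h, hs'.2⟩).2
  obtain ⟨R0, hR0⟩ := Hom.sign hA
  have hl1 := le_max_left R0 1
  have hl2 := le_max_right R0 1
  set R : ℝ := max R0 1 + 1 with hR
  set N : Set V := {x | 0 < C x} ∩ Metric.ball 0 R with hN
  have hNo : IsOpen N := (isOpen_lt continuous_const hC.cont).inter Metric.isOpen_ball
  have hAN : ∀ x, A x ≤ 0 → x ∈ N := by
    intro x hx
    refine ⟨hdisj x hx, ?_⟩
    rw [mem_ball_zero_iff]
    by_contra h
    push Not at h
    have h1 : R0 < ‖x‖ := by linarith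
    have h2 : 1 < ‖x‖ := by linarith
    have h3 := hR0 x h1
    have h4 : 0 < ‖x‖ ^ 2 - 1 := by nlinarith
    nlinarith
  obtain ⟨r, hr, hnear⟩ := glue_near hA hu hℓ hflatA hsA hNo hAN
  obtain ⟨r0, hr0, hC0⟩ := Metric.eventually_nhds_iff.1 hflatC
  have hC0' : ∀ y, ‖y - (q + ℓ • u)‖ < r0 → C y = -⟪u, y - (q + ℓ • u)⟫ := by
    intro y hy
    exact hC0 (by rwa [dist_eq_norm])
  have hmin : 0 < min r r0 := lt_min hr hr0
  obtain ⟨RC, hRC⟩ := hC.bdd.subset_closedBall (0 : V)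
  filter_upwards [hnear, glue_retract hC hu hℓ hflatC hsC, tau_small' hu hℓ hC.cont hsC hmin,
    self_mem_nhdsWithin] with ρ h1 h2 h3 hρ
  have hρ' : 0 < ρ := hρ
  refine Hom.trans ?_ h2
  obtain ⟨M, hMc, hM0, hM1, hMP, hMd⟩ := h1
  refine ⟨fun t x => min (C x) (M t x), (hC.cont.comp continuous_snd).min hMc, ?_, ?_,
    ⟨max RC (max R (‖q‖ + ℓ + 2 * ρ)), ?_⟩, ?_⟩
  · funext x
    show min (C x) (M 0 x) = _
    rw [hM0, min_comm (A x) (C x), min_assoc]
  · funext x
    show min (C x) (M 1 x) = _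
    rw [hM1]
  · intro t ht x hx
    have hx' : min (C x) (M t x) = 0 := hx
    rcases min_choice (C x) (M t x) with h | h
    · rw [h] at hx'
      have h4 := hRC hx'
      rw [Metric.mem_closedBall, dist_zero_right] at h4
      exact h4.trans (le_max_left _ _)
    · rw [h] at hx'
      rcases (hMP t ht).1 x hx'.le with h4 | h4
      · have h5 := h4.2
        rw [mem_ball_zero_iff] at h5
        exact h5.le.trans ((le_max_left _ _).trans (le_max_right _ _))
      · obtain ⟨s, hs', h5⟩ := tubeF_near hu hℓ.le hρ'.le h4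
        refine le_trans ?_ ((le_max_right _ _).trans (le_max_right _ _))
        have h6 : ‖x‖ ≤ ‖x - (q + s • u)‖ + (‖q‖ + ‖s • u‖) := by
          have h7 : x = (x - (q + s • u)) + (q + s • u) := by abel
          calc ‖x‖ = ‖(x - (q + s • u)) + (q + s • u)‖ := by rw [← h7]
            _ ≤ ‖x - (q + s • u)‖ + ‖q + s • u‖ := norm_add_le _ _
            _ ≤ _ := by gcongr; exact norm_add_le _ _
        have h8 : ‖s • u‖ ≤ ℓ := by
          rw [norm_smul, hu, mul_one, Real.norm_eq_abs, abs_of_nonneg hs'.1]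
          exact hs'.2
        linarith
  · intro t ht x hx
    have hx' : min (C x) (M t x) = 0 := hx
    have hCx : 0 ≤ C x := hx' ▸ min_le_left _ _
    have hMx : 0 ≤ M t x := hx' ▸ min_le_right _ _
    have hKc : Continuous fun p : ℝ × V => (fun _ : ℝ => C) p.1 p.2 := hC.cont.comp continuous_snd
    rcases eq_or_lt_of_le hCx with h4 | h4
    · rcases eq_or_lt_of_le hMx with h5 | h5
      · have h6 : tau q u ℓ ρ x ≤ 0 := by
          rcases (hMP t ht).1 x h5.symm.le with h7 | h7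
          · exact absurd h7.1 (by rw [mem_setOf_eq, ← h4]; exact lt_irrefl _)
          · exact h7
        have h7 : ‖x - (q + ℓ • u)‖ < min r r0 := by
          rcases h3 x h6 with h8 | h8
          · exact h8
          · exact absurd h8 (by rw [← h4]; exact lt_irrefl _)
        obtain ⟨h8, h9⟩ := Glue_dir hu hρ' hC0' (fun t ht => (hMP t ht).2) ht h7 h4.symm h5.symm
        exact ⟨_, desc_min h8 h9⟩
      · obtain ⟨v, hv⟩ := hC.desc x h4.symm
        refine ⟨v, dz_min (H := fun _ => C) (K := M) hKc hMc (fun _ => hv.const _)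
          (dz_of_ne h5.ne') hx⟩
    · have h5 : M t x = 0 := by
        rcases min_choice (C x) (M t x) with h | h
        · rw [h] at hx'
          exact absurd hx' h4.ne'
        · rwa [h] at hx'
      obtain ⟨v, hv⟩ := hMd t ht x h5
      exact ⟨v, dz_min (H := fun _ => C) (K := M) hKc hMc (dz_of_ne (H := fun _ => C) h4.ne')
        (fun _ => hv) hx⟩

end Pool.Schoen
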