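import Pool.Agent.H.MP_6c077c_gt.Ix.LiftA

/-! Index theorem: topology of the cut. -/

set_option autoImplicit false

namespace Pool.Schoen

open Filter Set
open scoped Topology RealInnerProductSpace ContDiff

variable {V : Type*} [NormedAddCommGroup V] [InnerProductSpace ℝ V]

/-- a continuous function with values in `2 π ℤ` is constant on a preconnected set -/
private theorem liftB_const {A : Set V} (hA : IsPreconnected A) {f : V → ℝ} (hf : ContinuousOn f A)
    (h1 : ∀ x ∈ A, Complex.exp (f x * Complex.I) = 1) : ∀ x ∈ A, ∀ x' ∈ A, f x ≤ f x' := by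
  intro x hx x' hx'
  by_contra hlt
  push Not at hlt
  have key : ∀ x ∈ A, ∃ n : ℤ, f x = n * (2 * Real.pi) := by
    intro x hx
    obtain ⟨n, hn⟩ := Complex.exp_eq_one_iff.1 (h1 x hx)
    refine ⟨n, ?_⟩
    have h2 : ((f x : ℂ)) * Complex.I = ((n * (2 * Real.pi) : ℝ) : ℂ) * Complex.I := by
      rw [hn]
      push_cast
      ring
    have h3 := mul_right_cancel₀ Complex.I_ne_zero h2
    exact_mod_cast h3
  obtain ⟨n, hn⟩ := key x hx
  obtain ⟨m, hm⟩ := key x' hx'
  have hpi := Real.pi_pos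
  have hmn : m < n := by
    have : (m : ℝ) * (2 * Real.pi) < n * (2 * Real.pi) := by rw [← hn, ← hm]; exact hlt
    have := lt_of_mul_lt_mul_right this (by positivity)
    exact_mod_cast this
  have hle : (m : ℝ) + 1 ≤ n := by exact_mod_cast hmn
  have hmem : f x' + Real.pi ∈ f '' A := by
    have hord := (hA.image f hf).ordConnected
    refine hord.out (mem_image_of_mem f hx') (mem_image_of_mem f hx) ⟨by linarith, ?_⟩
    rw [hn, hm]
    nlinarith
  obtain ⟨y, hy, hfy⟩ := hmem
  obtain ⟨k, hk⟩ := key y hy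
  rw [hk, hm] at hfy
  have h4 : ((k - m : ℤ) : ℝ) * 2 = 1 := by
    push_cast
    have : ((k : ℝ) - m) * (2 * Real.pi) = Real.pi := by linarith
    field_simp at this
    linarith
  have h5 : (k - m) * 2 = 1 := by exact_mod_cast h4
  omega

/-- Let `D = Dc ∪ S` with closed sets meeting in two walls at the levels `-η` and `η` of the
continuous function `y`. If `S` and `Dc` are connected then `D` does not lift.
PROOF. `u x = 1` on `Dc` and `u x = exp (π i (y x + η) / η)` on `S` (they agree on `Dc ∩ S`), continuous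
on `D`. If `u = exp (i v)`, then on `Dc` the function `v / (2 π)` is integer valued and continuous, so
constant, and on `S` so is `v / (2 π) - (y + η) / (2 η)`. For `xm ∈ Wm`, `xp ∈ Wp`: `v xm = v xp` and
`v xm = v xp - 2 π`. -/
theorem not_liftS_of_ring {Dc S Wm Wp : Set V} (hDc : IsClosed Dc) (hS : IsClosed S)
    (hW : Dc ∩ S = Wm ∪ Wp) {y : V → ℝ} (hy : Continuous y) {η : ℝ} (hη : 0 < η)
    (hm : ∀ x ∈ Wm, y x = -η) (hp : ∀ x ∈ Wp, y x = η) (hm0 : Wm.Nonempty) (hp0 : Wp.Nonempty)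
    (hSc : IsPreconnected S) (hDcc : IsPreconnected Dc) : ¬ LiftS (Dc ∪ S) := by
  classical
  intro hL
  have hpi := Real.pi_pos
  set g : V → ℝ := fun x => Real.pi * (y x + η) / η with hg
  have hgc : Continuous g := by
    rw [hg]
    exact (continuous_const.mul (hy.add continuous_const)).div_const η
  set u : V → ℂ := fun x => if x ∈ Dc then 1 else Complex.exp (g x * Complex.I) with hu
  have hgm : ∀ x ∈ Wm, g x = 0 := by
    intro x hx
    simp only [hg, hm x hx]
    simp
  have hgp : ∀ x ∈ Wp, g x = 2 * Real.pi := by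
    intro x hx
    simp only [hg, hp x hx]
    field_simp
    ring
  have huD : ∀ x ∈ Dc, u x = 1 := fun x hx => by simp [hu, hx]
  have huS : ∀ x ∈ S, u x = Complex.exp (g x * Complex.I) := by
    intro x hx
    by_cases hxD : x ∈ Dc
    · rw [huD x hxD]
      have : x ∈ Wm ∪ Wp := hW ▸ ⟨hxD, hx⟩
      rcases this with h | h
      · rw [hgm x h]; simp
      · rw [hgp x h]
        push_cast
        rw [Complex.exp_two_pi_mul_I]
    · simp [hu, hxD]
  have hec : Continuous fun x => Complex.exp (g x * Complex.I) :=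
    Complex.continuous_exp.comp ((Complex.continuous_ofReal.comp hgc).mul continuous_const)
  have hcont : ContinuousOn u (Dc ∪ S) := by
    refine ContinuousOn.union_of_isClosed ?_ ?_ hDc hS
    · exact continuousOn_const.congr huD
    · exact hec.continuousOn.congr huS
  have hnorm : ∀ x ∈ Dc ∪ S, ‖u x‖ = 1 := by
    rintro x (hx | hx)
    · rw [huD x hx]; simp
    · rw [huS x hx]; exact Complex.norm_exp_ofReal_mul_I _
  obtain ⟨v, hv, hv1⟩ := hL u hcont hnorm
  obtain ⟨xm, hxm⟩ := hm0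
  obtain ⟨xp, hxp⟩ := hp0
  have hmD : xm ∈ Dc ∩ S := hW ▸ Or.inl hxm
  have hpD : xp ∈ Dc ∩ S := hW ▸ Or.inr hxp
  have c1 := liftB_const hDcc (hv.mono subset_union_left)
    (fun x hx => by rw [← hv1 x (Or.inl hx), huD x hx])
  have c2 := liftB_const hSc (f := fun x => v x - g x)
    ((hv.mono subset_union_right).sub hgc.continuousOn) (by
      intro x hx
      have h1 : ((v x - g x : ℝ) : ℂ) * Complex.I = v x * Complex.I - g x * Complex.I := by
        push_cast; ring
      rw [h1, Complex.exp_sub, ← hv1 x (Or.inr hx), huS x hx, div_self (Complex.exp_ne_zero _)])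
  have a1 := c1 xm hmD.1 xp hpD.1
  have a2 := c1 xp hpD.1 xm hmD.1
  have b1 := c2 xm hmD.2 xp hpD.2
  have b2 := c2 xp hpD.2 xm hmD.2
  rw [hgm xm hxm, hgp xp hxp] at b1 b2
  linarith

/-- A clopen piece of `Dc` cannot contain both walls unless it is everything.
PROOF. `(A ∪ S)`, `C` are closed, disjoint (`S ∩ C ⊆ S ∩ Dc ∩ C = (Wm ∪ Wp) ∩ C = ∅`), nonempty with
union `Dc ∪ S`. -/
theorem walls_not_both {Dc S Wm Wp : Set V} (hS : IsClosed S) (hW : Dc ∩ S = Wm ∪ Wp)
    (hm0 : Wm.Nonempty) (hconn : IsConnected (Dc ∪ S)) {A C : Set V} (hA : IsClosed A)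
    (hC : IsClosed C) (hAC : A ∪ C = Dc) (hd : Disjoint A C) (hC0 : C.Nonempty)
    (h1 : Wm ⊆ A) (h2 : Wp ⊆ A) : False := by
  have hpre := isPreconnected_closed_iff.1 hconn.isPreconnected (A ∪ S) C (hA.union hS) hC (by
    rintro x (hx | hx)
    · rw [← hAC] at hx
      rcases hx with hx | hx
      · exact Or.inl (Or.inl hx)
      · exact Or.inr hx
    · exact Or.inl (Or.inr hx)) (by
    obtain ⟨x, hx⟩ := hm0
    have hx' : x ∈ Dc ∩ S := hW ▸ Or.inl hx
    exact ⟨x, Or.inl hx'.1, Or.inl (h1 hx)⟩) (by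
    obtain ⟨x, hx⟩ := hC0
    exact ⟨x, Or.inl (hAC ▸ Or.inr hx), hx⟩)
  obtain ⟨x, -, hx1, hx2⟩ := hpre
  rcases hx1 with hx1 | hx1
  · exact hd.le_bot ⟨hx1, hx2⟩
  · have hxD : x ∈ Dc := hAC ▸ Or.inr hx2
    have hxW : x ∈ Wm ∪ Wp := hW ▸ ⟨hxD, hx1⟩
    rcases hxW with h | h
    · exact hd.le_bot ⟨h1 h, hx2⟩
    · exact hd.le_bot ⟨h2 h, hx2⟩

/-- a closed set which is not preconnected is a disjoint union of two closed nonempty sets -/
private theorem liftB_split {D : Set V} (hD : IsClosed D) (h : ¬ IsPreconnected D) :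
    ∃ A C : Set V, IsClosed A ∧ IsClosed C ∧ Disjoint A C ∧ A ∪ C = D ∧ A.Nonempty ∧
      C.Nonempty := by
  rw [isPreconnected_closed_iff] at h
  push Not at h
  obtain ⟨t, t', ht, ht', hsub, h1, h2, h3⟩ := h
  refine ⟨D ∩ t, D ∩ t', hD.inter ht, hD.inter ht', ?_, ?_, h1, h2⟩
  · rw [disjoint_iff_inter_eq_empty]
    rw [← h3]
    ext x
    simp only [mem_inter_iff]
    tauto
  · rw [← inter_union_distrib_left, inter_eq_left]
    exact hsub

/-- a preconnected set in the disjoint union of two closed sets is in one of them -/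
private theorem liftB_side {W A C : Set V} (hW : IsPreconnected W) (hA : IsClosed A)
    (hC : IsClosed C) (hd : Disjoint A C) (h : W ⊆ A ∪ C) : W ⊆ A ∨ W ⊆ C := by
  refine isPreconnected_iff_subset_of_disjoint_closed.1 hW A C hA hC h ?_
  rw [hd.inter_eq, inter_empty]

/-- PROOF. `Dc` is not preconnected by `not_liftS_of_ring`; so `Dc = A ∪ C` with disjoint closed
nonempty sets (`isPreconnected_closed_iff`; intersect with the closed set `Dc`). Each wall is connected and
so in `A` or in `C`; not both in the same (`walls_not_both`, also with the roles exchanged). After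
exchanging `A` and `C`: `Wm ⊆ A`, `Wp ⊆ C`. `A` is connected: if `A = A1 ∪ A2` with disjoint closed nonempty
sets, `Wm ⊆ A1` say, then the closed sets `A1 ∪ C` and `A2` contradict `walls_not_both`. Same for `C`. -/
theorem cut_parts {Dc S Wm Wp : Set V} (hDc : IsClosed Dc) (hS : IsClosed S)
    (hW : Dc ∩ S = Wm ∪ Wp) {y : V → ℝ} (hy : Continuous y) {η : ℝ} (hη : 0 < η)
    (hm : ∀ x ∈ Wm, y x = -η) (hp : ∀ x ∈ Wp, y x = η) (hmc : IsConnected Wm)
    (hpc : IsConnected Wp) (hSc : IsPreconnected S) (hconn : IsConnected (Dc ∪ S))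
    (hlift : LiftS (Dc ∪ S)) :
    ∃ A C : Set V, IsClosed A ∧ IsClosed C ∧ Disjoint A C ∧ A ∪ C = Dc ∧ Wm ⊆ A ∧ Wp ⊆ C ∧
      IsConnected A ∧ IsConnected C := by
  have hnc : ¬ IsPreconnected Dc := fun h =>
    not_liftS_of_ring hDc hS hW hy hη hm hp hmc.nonempty hpc.nonempty hSc h hlift
  obtain ⟨A, C, hA, hC, hd, hAC, hA0, hC0⟩ := liftB_split hDc hnc
  have hWm : Wm ⊆ Dc := fun x hx => (show x ∈ Dc ∩ S from hW ▸ Or.inl hx).1
  have hWp : Wp ⊆ Dc := fun x hx => (show x ∈ Dc ∩ S from hW ▸ Or.inr hx).1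
  have hW' : Dc ∩ S = Wp ∪ Wm := by rw [hW, union_comm]
  -- two closed disjoint pieces: the walls are in different ones
  have key : ∀ A C : Set V, IsClosed A → IsClosed C → Disjoint A C → A ∪ C = Dc → A.Nonempty →
      C.Nonempty → (Wm ⊆ A ∧ Wp ⊆ C) ∨ (Wm ⊆ C ∧ Wp ⊆ A) := by
    intro A C hA hC hd hAC hA0 hC0
    have hm' := liftB_side hmc.isPreconnected hA hC hd (hAC.symm ▸ hWm)
    have hp' := liftB_side hpc.isPreconnected hA hC hd (hAC.symm ▸ hWp)
    have hCA : C ∪ A = Dc := by rw [union_comm, hAC]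
    rcases hm' with h1 | h1
    · rcases hp' with h2 | h2
      · exact (walls_not_both hS hW hmc.nonempty hconn hA hC hAC hd hC0 h1 h2).elim
      · exact Or.inl ⟨h1, h2⟩
    · rcases hp' with h2 | h2
      · exact Or.inr ⟨h1, h2⟩
      · exact (walls_not_both hS hW hmc.nonempty hconn hC hA hCA hd.symm hA0 h1 h2).elim
  have main : ∀ A C : Set V, IsClosed A → IsClosed C → Disjoint A C → A ∪ C = Dc →
      Wm ⊆ A → Wp ⊆ C → IsPreconnected A := by
    intro A C hA hC hd hAC h1 h2
    by_contra hn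
    obtain ⟨A1, A2, c1, c2, d12, e12, n1, n2⟩ := liftB_split hA hn
    have hd1 : Disjoint (A1 ∪ C) A2 := by
      rw [disjoint_union_left]
      refine ⟨d12, ?_⟩
      exact (hd.mono_left (e12 ▸ subset_union_right)).symm
    have hd2 : Disjoint (A2 ∪ C) A1 := by
      rw [disjoint_union_left]
      refine ⟨d12.symm, ?_⟩
      exact (hd.mono_left (e12 ▸ subset_union_left)).symm
    rcases liftB_side hmc.isPreconnected c1 c2 d12 (e12.symm ▸ h1) with h | h
    · refine walls_not_both hS hW hmc.nonempty hconn (c1.union hC) c2 ?_ hd1 n2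
        (h.trans subset_union_left) (h2.trans subset_union_right)
      rw [← hAC, ← e12]
      ext x
      simp only [mem_union]
      tauto
    · refine walls_not_both hS hW hmc.nonempty hconn (c2.union hC) c1 ?_ hd2 n1
        (h.trans subset_union_left) (h2.trans subset_union_right)
      rw [← hAC, ← e12]
      ext x
      simp only [mem_union]
      tauto
  have main' : ∀ A C : Set V, IsClosed A → IsClosed C → Disjoint A C → A ∪ C = Dc →
      Wm ⊆ A → Wp ⊆ C → IsPreconnected C := by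
    intro A C hA hC hd hAC h1 h2
    by_contra hn
    obtain ⟨A1, A2, c1, c2, d12, e12, n1, n2⟩ := liftB_split hC hn
    have hd1 : Disjoint (A1 ∪ A) A2 := by
      rw [disjoint_union_left]
      exact ⟨d12, hd.mono_right (e12 ▸ subset_union_right)⟩
    have hd2 : Disjoint (A2 ∪ A) A1 := by
      rw [disjoint_union_left]
      exact ⟨d12.symm, hd.mono_right (e12 ▸ subset_union_left)⟩
    rcases liftB_side hpc.isPreconnected c1 c2 d12 (e12.symm ▸ h2) with h | h
    · refine walls_not_both hS hW hmc.nonempty hconn (c1.union hA) c2 ?_ hd1 n2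
        (h1.trans subset_union_right) (h.trans subset_union_left)
      rw [← hAC, ← e12]
      ext x
      simp only [mem_union]
      tauto
    · refine walls_not_both hS hW hmc.nonempty hconn (c2.union hA) c1 ?_ hd2 n1
        (h1.trans subset_union_right) (h.trans subset_union_left)
      rw [← hAC, ← e12]
      ext x
      simp only [mem_union]
      tauto
  rcases key A C hA hC hd hAC hA0 hC0 with ⟨h1, h2⟩ | ⟨h1, h2⟩
  · exact ⟨A, C, hA, hC, hd, hAC, h1, h2, ⟨hA0, main A C hA hC hd hAC h1 h2⟩,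
      ⟨hC0, main' A C hA hC hd hAC h1 h2⟩⟩
  · have hCA : C ∪ A = Dc := by rw [union_comm, hAC]
    exact ⟨C, A, hC, hA, hd.symm, hCA, h1, h2, ⟨hC0, main C A hC hA hd.symm hCA h1 h2⟩,
      ⟨hA0, main' C A hC hA hd.symm hCA h1 h2⟩⟩

/-- The pieces lift.
PROOF. Given `u` on `A`; it lifts over `Wm` (`hml`), and `A ∩ (S ∪ C) = A ∩ S = Wm` (`A ∩ Wp = ∅`).
`extend_unit` with `K = S ∪ C` gives `U` on `A ∪ (S ∪ C) = Dc ∪ S`; it lifts by `hlift`; restrict to `A`. -/
theorem cut_lift [FiniteDimensional ℝ V] {Dc S Wm Wp : Set V} (hS : IsClosed S)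
    (hW : Dc ∩ S = Wm ∪ Wp) (hml : LiftS Wm) (hlift : LiftS (Dc ∪ S)) {A C : Set V}
    (hA : IsClosed A) (hC : IsClosed C) (hd : Disjoint A C) (hAC : A ∪ C = Dc) (h1 : Wm ⊆ A)
    (h2 : Wp ⊆ C) : LiftS A := by
  intro u hu h1u
  have hAi : A ∩ (S ∪ C) = Wm := by
    ext x
    constructor
    · rintro ⟨hxA, hx | hx⟩
      · have hxD : x ∈ Dc := hAC ▸ Or.inl hxA
        have : x ∈ Wm ∪ Wp := hW ▸ ⟨hxD, hx⟩
        rcases this with h | h
        · exact h
        · exact (hd.le_bot ⟨hxA, h2 h⟩).elim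
      · exact (hd.le_bot ⟨hxA, hx⟩).elim
    · intro hx
      have hx' : x ∈ Dc ∩ S := hW ▸ Or.inl hx
      exact ⟨h1 hx, Or.inl hx'.2⟩
  have hl : Lifts (A ∩ (S ∪ C)) u := by
    rw [hAi]
    exact hml u (hu.mono h1) (fun x hx => h1u x (h1 hx))
  obtain ⟨U, hU, hU1, hUA⟩ := extend_unit hA (hS.union hC) hu h1u hl
  have hset : A ∪ (S ∪ C) = Dc ∪ S := by
    rw [← hAC]
    ext x
    simp only [mem_union]
    tauto
  rw [hset] at hU hU1
  obtain ⟨v, hv, hv1⟩ := hlift U hU hU1
  have hsub : A ⊆ Dc ∪ S := by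
    rw [← hAC]
    exact subset_union_left.trans subset_union_left
  exact ⟨v, hv.mono hsub, fun x hx => by rw [← hUA x hx]; exact hv1 x (hsub hx)⟩

end Pool.Schoen
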