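import Pool.Agent.H.MP_6c077c_gt.Ix.HomB

/-! Index theorem: conditional descent directions (for minima and maxima of families), and
homotopies through functions with a given property. -/

set_option autoImplicit false

namespace Pool.Schoen

open Filter Set
open scoped Topology RealInnerProductSpace

variable {V : Type*} [NormedAddCommGroup V] [InnerProductSpace ℝ V]
variable {H K : ℝ → V → ℝ} {t : ℝ} {x v : V} {f g k : V → ℝ}

/-- If `H t` vanishes at `x` then `v` is a descent direction (parameters in `[0, 1]`). -/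
def DZ (H : ℝ → V → ℝ) (t : ℝ) (x v : V) : Prop := H t x = 0 → Desc H (𝓝[Icc 0 1] t) x v

/-- The static version. -/
def DZ1 (f : V → ℝ) (x v : V) : Prop := f x = 0 → Desc1 f x v

theorem dz_of_ne (h : H t x ≠ 0) : DZ H t x v := fun h' => absurd h' h

theorem dz1_of_ne (h : f x ≠ 0) : DZ1 f x v := fun h' => absurd h' h

omit [InnerProductSpace ℝ V] in
theorem Dz_lt (hH : Continuous fun p : ℝ × V => H p.1 p.2)
    (hK : Continuous fun p : ℝ × V => K p.1 p.2) (h : H t x < K t x) :
    ∀ᶠ p : ℝ × V in 𝓝[Icc 0 1] t ×ˢ 𝓝 x, H p.1 p.2 ≤ K p.1 p.2 := by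
  have hl : 𝓝[Icc (0 : ℝ) 1] t ×ˢ 𝓝 x ≤ 𝓝 ((t, x) : ℝ × V) := by
    rw [nhds_prod_eq]
    exact Filter.prod_mono nhdsWithin_le_nhds le_rfl
  apply hl
  have h1 : (fun p : ℝ × V => H p.1 p.2) (t, x) < (fun p : ℝ × V => K p.1 p.2) (t, x) := h
  filter_upwards [hH.continuousAt.eventually_lt hK.continuousAt h1] with p hp
  exact hp.le

/-- If the minimum vanishes, both values are `≥ 0` and one is zero; if the other one is positive it is
larger near `(t, x)` by continuity (`desc_min_left`, `desc_min_right`), else `desc_min`. -/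
theorem dz_min (hH : Continuous fun p : ℝ × V => H p.1 p.2)
    (hK : Continuous fun p : ℝ × V => K p.1 p.2) (h : DZ H t x v) (h' : DZ K t x v) :
    DZ (fun t y => min (H t y) (K t y)) t x v := by
  intro h0
  change min (H t x) (K t x) = 0 at h0
  rcases lt_trichotomy (H t x) (K t x) with h1 | h1 | h1
  · rw [min_eq_left h1.le] at h0
    exact desc_min_left (h h0) (Dz_lt hH hK h1)
  · have h2 : H t x = 0 := by rwa [h1, min_self, ← h1] at h0
    exact desc_min (h h2) (h' (h1 ▸ h2))
  · rw [min_eq_right h1.le] at h0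
    exact desc_min_right (h' h0) (Dz_lt hK hH h1)

theorem dz_max (hH : Continuous fun p : ℝ × V => H p.1 p.2)
    (hK : Continuous fun p : ℝ × V => K p.1 p.2) (h : DZ H t x v) (h' : DZ K t x v) :
    DZ (fun t y => max (H t y) (K t y)) t x v := by
  intro h0
  change max (H t x) (K t x) = 0 at h0
  rcases lt_trichotomy (H t x) (K t x) with h1 | h1 | h1
  · rw [max_eq_right h1.le] at h0
    exact desc_max_right (h' h0) (Dz_lt hH hK h1)
  · have h2 : H t x = 0 := by rwa [h1, max_self, ← h1] at h0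
    exact desc_max (h h2) (h' (h1 ▸ h2))
  · rw [max_eq_left h1.le] at h0
    exact desc_max_left (h h0) (Dz_lt hK hH h1)

theorem dz1_min (hf : Continuous f) (hg : Continuous g) (h : DZ1 f x v) (h' : DZ1 g x v) :
    DZ1 (fun y => min (f y) (g y)) x v := by
  intro h0
  change min (f x) (g x) = 0 at h0
  rcases lt_trichotomy (f x) (g x) with h1 | h1 | h1
  · rw [min_eq_left h1.le] at h0
    exact desc1_min_left hf.continuousAt hg.continuousAt (h h0) h1
  · have h2 : f x = 0 := by rwa [h1, min_self, ← h1] at h0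
    exact desc1_min (h h2) (h' (h1 ▸ h2))
  · rw [min_eq_right h1.le] at h0
    exact desc1_min_right hf.continuousAt hg.continuousAt (h' h0) h1

theorem dz1_max (hf : Continuous f) (hg : Continuous g) (h : DZ1 f x v) (h' : DZ1 g x v) :
    DZ1 (fun y => max (f y) (g y)) x v := by
  intro h0
  change max (f x) (g x) = 0 at h0
  rcases lt_trichotomy (f x) (g x) with h1 | h1 | h1
  · rw [max_eq_right h1.le] at h0
    exact desc1_max_right hf.continuousAt hg.continuousAt (h' h0) h1
  · have h2 : f x = 0 := by rwa [h1, max_self, ← h1] at h0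
    exact desc1_max (h h2) (h' (h1 ▸ h2))
  · rw [max_eq_left h1.le] at h0
    exact desc1_max_left hf.continuousAt hg.continuousAt (h h0) h1

theorem dz_static (h : DZ1 f x v) : DZ (fun _ => f) t x v := by
  intro h0
  exact (h h0).const _

/-- `desc_add_const` (the descent property of `f` at `x` does not need `f x = 0`). -/
theorem dz_add_const (φ : ℝ → ℝ) (h : f x + φ t = 0 → Desc1 f x v) :
    DZ (fun s y => f y + φ s) t x v := by
  intro h0
  exact desc_add_const ((h h0).const (𝓝[Icc 0 1] t)) φ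

theorem dz_smooth {G : ℝ × V → ℝ} (hG : ContDiffAt ℝ 1 G (t, x))
    (h : G (t, x) = 0 → fderiv ℝ G (t, x) (0, v) < 0) : DZ (fun s y => G (s, y)) t x v := by
  intro h0
  exact (desc_smooth hG (h h0)).mono nhdsWithin_le_nhds

/-- Homotopy through functions with the property `Φ` (no bound for the zero set is required). -/
def HomP (Φ : (V → ℝ) → Prop) (f g : V → ℝ) : Prop :=
  ∃ H : ℝ → V → ℝ, Continuous (fun p : ℝ × V => H p.1 p.2) ∧ H 0 = f ∧ H 1 = g ∧
    (∀ t ∈ Icc (0 : ℝ) 1, Φ (H t)) ∧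
    ∀ t ∈ Icc (0 : ℝ) 1, ∀ x, H t x = 0 → ∃ v, Desc H (𝓝[Icc 0 1] t) x v

variable {Φ Ψ : (V → ℝ) → Prop}

theorem HomP.mono (h : HomP Φ f g) (hΦ : ∀ m, Φ m → Ψ m) : HomP Ψ f g := by
  obtain ⟨H, hc, h0, h1, hP, hd⟩ := h
  exact ⟨H, hc, h0, h1, fun t ht => hΦ _ (hP t ht), hd⟩

theorem Dz_tendsto {φ : ℝ → ℝ} (hφ : Continuous φ) {S T : Set ℝ} (h : MapsTo φ S T)
    (t : ℝ) : Tendsto φ (𝓝[S] t) (𝓝[T] (φ t)) :=
  hφ.continuousWithinAt.tendsto_nhdsWithin h

/-- As `Hom.symm`. -/
theorem HomP.symm (h : HomP Φ f g) : HomP Φ g f := by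
  obtain ⟨H, hc, h0, h1, hP, hd⟩ := h
  have hmaps : MapsTo (fun t : ℝ => 1 - t) (Icc 0 1) (Icc 0 1) := by
    intro t ht
    exact ⟨by linarith [ht.2], by linarith [ht.1]⟩
  refine ⟨fun t => H (1 - t), ?_, ?_, ?_, fun t ht => hP _ (hmaps ht), fun t ht x hx => ?_⟩
  · exact hc.comp (Continuous.prodMk (continuous_const.sub continuous_fst) continuous_snd)
  · show H (1 - 0) = g
    rw [sub_zero, h1]
  · show H (1 - 1) = f
    rw [sub_self, h0]
  · obtain ⟨v, hv⟩ := hd _ (hmaps ht) x hx
    exact ⟨v, hv.comp (Dz_tendsto (continuous_const.sub continuous_id) hmaps t)⟩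

/-- As `Hom.trans`. -/
theorem HomP.trans (h : HomP Φ f g) (h' : HomP Φ g k) : HomP Φ f k := by
  obtain ⟨H, hc, h0, h1, hP, hd⟩ := h
  obtain ⟨K, hc', h0', h1', hP', hd'⟩ := h'
  have hφ : Continuous (fun t : ℝ => min (3 * t) 1) :=
    (continuous_const.mul continuous_id).min continuous_const
  have hψ : Continuous (fun t : ℝ => max (3 * t - 2) 0) :=
    ((continuous_const.mul continuous_id).sub continuous_const).max continuous_const
  have hφm : MapsTo (fun t : ℝ => min (3 * t) 1) (Icc 0 1) (Icc 0 1) := by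
    intro t ht
    exact ⟨le_min (by linarith [ht.1]) zero_le_one, min_le_right _ _⟩
  have hψm : MapsTo (fun t : ℝ => max (3 * t - 2) 0) (Icc 0 1) (Icc 0 1) := by
    intro t ht
    exact ⟨le_max_right _ _, max_le (by linarith [ht.2]) zero_le_one⟩
  have hg : Continuous g := by
    rw [← h1]
    exact hc.comp (Continuous.prodMk continuous_const continuous_id)
  have hL : ∀ t : ℝ, t ≤ 2 / 3 → ∀ x, H (min (3 * t) 1) x + K (max (3 * t - 2) 0) x - g x =
      H (min (3 * t) 1) x := by
    intro t ht x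
    rw [max_eq_right (by linarith : 3 * t - 2 ≤ 0), h0']
    ring
  have hU : ∀ t : ℝ, 1 / 3 ≤ t → ∀ x, H (min (3 * t) 1) x + K (max (3 * t - 2) 0) x - g x =
      K (max (3 * t - 2) 0) x := by
    intro t ht x
    rw [min_eq_right (by linarith : 1 ≤ 3 * t), h1]
    ring
  refine ⟨fun t x => H (min (3 * t) 1) x + K (max (3 * t - 2) 0) x - g x, ?_, ?_, ?_,
    fun t ht => ?_, fun t ht x hx => ?_⟩
  · exact ((hc.comp (Continuous.prodMk (hφ.comp continuous_fst) continuous_snd)).add
      (hc'.comp (Continuous.prodMk (hψ.comp continuous_fst) continuous_snd))).sub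
      (hg.comp continuous_snd)
  · funext x
    beta_reduce
    rw [hL 0 (by norm_num), mul_zero, min_eq_left zero_le_one, h0]
  · funext x
    beta_reduce
    rw [hU 1 (by norm_num), mul_one, max_eq_left (by norm_num), ← h1']
    norm_num
  · beta_reduce
    rcases le_or_gt t (1 / 2) with h | h
    · have e : (fun x => H (min (3 * t) 1) x + K (max (3 * t - 2) 0) x - g x) =
          H (min (3 * t) 1) := funext (hL t (by linarith))
      rw [e]
      exact hP _ (hφm ht)
    · have e : (fun x => H (min (3 * t) 1) x + K (max (3 * t - 2) 0) x - g x) =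
          K (max (3 * t - 2) 0) := funext (hU t (by linarith))
      rw [e]
      exact hP' _ (hψm ht)
  · beta_reduce at hx
    rcases le_or_gt t (1 / 2) with h | h
    · have hx' := hx
      rw [hL t (by linarith)] at hx'
      obtain ⟨v, hv⟩ := hd _ (hφm ht) x hx'
      refine ⟨v, (hv.comp (Dz_tendsto hφ hφm t)).congr ?_⟩
      have he : ∀ᶠ s in 𝓝[Icc 0 1] t, s < 2 / 3 :=
        nhdsWithin_le_nhds (gt_mem_nhds (by linarith))
      exact he.prod_inl _ |>.mono fun p hp => (hL p.1 hp.le p.2).symm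
    · have hx' := hx
      rw [hU t (by linarith)] at hx'
      obtain ⟨v, hv⟩ := hd' _ (hψm ht) x hx'
      refine ⟨v, (hv.comp (Dz_tendsto hψ hψm t)).congr ?_⟩
      have he : ∀ᶠ s in 𝓝[Icc 0 1] t, 1 / 3 < s :=
        nhdsWithin_le_nhds (lt_mem_nhds (by linarith))
      exact he.prod_inl _ |>.mono fun p hp => (hU p.1 hp.le p.2).symm

theorem HomP.hom (h : HomP Φ f g) (hb : ∃ R : ℝ, ∀ m, Φ m → ∀ x, m x = 0 → ‖x‖ ≤ R) : Hom f g := by
  obtain ⟨H, hc, h0, h1, hP, hd⟩ := h
  obtain ⟨R, hR⟩ := hb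
  exact ⟨H, hc, h0, h1, ⟨R, fun t ht x hx => hR _ (hP t ht) x hx⟩, hd⟩

/-- Linear interpolation with common descent directions at the zeros of the interpolations. -/
theorem HomP.lerp (hf : Continuous f) (hg : Continuous g)
    (hΦ : ∀ t ∈ Icc (0 : ℝ) 1, Φ fun x => (1 - t) * f x + t * g x)
    (hd : ∀ t ∈ Icc (0 : ℝ) 1, ∀ x, (1 - t) * f x + t * g x = 0 → ∃ v, Desc1 f x v ∧ Desc1 g x v) :
    HomP Φ f g := by
  refine ⟨fun t x => (1 - t) * f x + t * g x, ?_, ?_, ?_, hΦ, ?_⟩
  · fun_prop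
  · funext x
    simp
  · funext x
    simp
  · intro t ht x hx
    obtain ⟨v, h1, h2⟩ := hd t ht x hx
    refine ⟨v, desc_add (h1.const (𝓝[Icc 0 1] t)) (h2.const (𝓝[Icc 0 1] t))
      (a := fun t => 1 - t) (b := fun t => t) (a0 := 1 - t) (b0 := t) ?_ ?_ ?_ ?_ ?_⟩
    · exact (Continuous.tendsto (by fun_prop) t).mono_left nhdsWithin_le_nhds
    · exact (Continuous.tendsto (by fun_prop) t).mono_left nhdsWithin_le_nhds
    · filter_upwards [self_mem_nhdsWithin] with s hs
      linarith [hs.2]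
    · filter_upwards [self_mem_nhdsWithin] with s hs
      exact hs.1
    · linarith

/-- Linear interpolation between functions with the same signs which agree near the points where
one of them vanishes: the zeros of `(1 - t) f + t g` are common zeros, near which the family is
constantly `f`. -/
theorem HomP.of_eq_near (hf : Continuous f) (hg : Continuous g)
    (hd : ∀ x, f x = 0 ∨ g x = 0 → (∀ᶠ y in 𝓝 x, f y = g y) ∧ ∃ v, Desc1 f x v)
    (h1 : ∀ x, f x ≠ 0 → g x ≠ 0 → 0 < f x * g x)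
    (hΦ : ∀ t ∈ Icc (0 : ℝ) 1, Φ fun x => (1 - t) * f x + t * g x) : HomP Φ f g := by
  apply HomP.lerp hf hg hΦ
  intro t ht x hx
  have key : f x = 0 ∨ g x = 0 := by
    by_contra hne
    rw [not_or] at hne
    have h2 := h1 x hne.1 hne.2
    rcases mul_pos_iff.1 h2 with ⟨h3, h4⟩ | ⟨h3, h4⟩
    · have h5 : 0 ≤ t * g x := mul_nonneg ht.1 h4.le
      have h6 : 0 ≤ (1 - t) * f x := mul_nonneg (by linarith [ht.2]) h3.le
      rcases eq_or_lt_of_le ht.1 with h7 | h7
      · rw [← h7] at hx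
        linarith
      · have h8 : 0 < t * g x := mul_pos h7 h4
        linarith
    · have h5 : t * g x ≤ 0 := mul_nonpos_of_nonneg_of_nonpos ht.1 h4.le
      have h6 : (1 - t) * f x ≤ 0 := mul_nonpos_of_nonneg_of_nonpos (by linarith [ht.2]) h3.le
      rcases eq_or_lt_of_le ht.1 with h7 | h7
      · rw [← h7] at hx
        linarith
      · have h8 : t * g x < 0 := mul_neg_of_pos_of_neg h7 h4
        linarith
  obtain ⟨h3, v, hv⟩ := hd x key
  exact ⟨v, hv, hv.congr h3⟩

end Pool.Schoen
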