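import Pool.Agent.H.MP_6c077c_gt.Ix.Class
import Pool.Agent.H.MP_6c077c_gt.Ix.Dz

/-! Index theorem: cutting off at a level above all inward points; parts. -/

set_option autoImplicit false

namespace Pool.Schoen

open Filter Set
open scoped Topology RealInnerProductSpace ContDiff

variable {V : Type*} [NormedAddCommGroup V] [InnerProductSpace ℝ V]

theorem Inw.congr {f g : V → ℝ} {e p : V} (h : Inw f e p) (hfg : f =ᶠ[𝓝 p] g) : Inw g e p := by
  have h1 : fderiv ℝ g p = fderiv ℝ f p := hfg.symm.fderiv_eq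
  have h2 : fderiv ℝ (fderiv ℝ g) p = fderiv ℝ (fderiv ℝ f) p := hfg.symm.fderiv.fderiv_eq
  have h3 : ∀ w w', hess g p w w' = hess f p w w' := by
    intro w w'
    unfold hess
    rw [h2]
  refine ⟨h.smooth.congr_of_eventuallyEq hfg.symm, ?_, ?_, ?_⟩
  · rw [← hfg.self_of_nhds]
    exact h.zero
  · rw [h1]
    exact h.grad
  · simp only [h3]
    exact h.index

/-- The direction `e` descends at an inward point. -/
theorem Inw.desc {f : V → ℝ} {e p : V} (he : ‖e‖ = 1) (h : Inw f e p) : Desc1 f p e := by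
  obtain ⟨μ, hμ, hg⟩ := h.grad
  refine desc1_smooth (h.smooth.of_le one_le_two) ?_
  rw [hg e, real_inner_self_eq_norm_sq, he]
  linarith

theorem FreeAt.congr {f g : V → ℝ} {e x : V} (h : FreeAt f e x) (hfg : f =ᶠ[𝓝 x] g) :
    FreeAt g e x := by
  obtain ⟨v, hv, hv'⟩ := h
  exact ⟨v, hv.congr hfg, hv'⟩

private theorem Trunc_aff {e x v : V} (he : ‖e‖ = 1) (s : ℝ) (hv : ⟪e, v⟫ < 0) :
    Desc1 (fun y => ⟪e, y⟫ - s) x v := by
  have h := desc1_affine (x := x) e (s • e) hv
  have h2 : (fun y : V => ⟪e, y - s • e⟫) = fun y => ⟪e, y⟫ - s := by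
    funext y
    rw [inner_sub_right, real_inner_smul_right, real_inner_self_eq_norm_sq, he]
    ring
  rwa [h2] at h

private theorem Trunc_cont (e : V) (s : ℝ) : Continuous fun y : V => ⟪e, y⟫ - s :=
  (continuous_const.inner continuous_id).sub continuous_const

/-- The truncation at the level `s`. -/
noncomputable def trunc (f : V → ℝ) (e : V) (s : ℝ) (x : V) : ℝ := max (f x) (⟪e, x⟫ - s)

private theorem Trunc_near {f : V → ℝ} (hf : Continuous f) {e x : V} {s : ℝ} (hx : f x = 0)
    (h : ⟪e, x⟫ < s) : f =ᶠ[𝓝 x] trunc f e s := by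
  have h1 : ⟪e, x⟫ - s < f x := by linarith
  filter_upwards [(Trunc_cont e s).continuousAt.eventually_lt hf.continuousAt h1] with y hy
  unfold trunc
  exact (max_eq_left hy.le).symm

private theorem Trunc_free {f : V → ℝ} (hf : Continuous f) {e x : V} {s : ℝ} (he : ‖e‖ = 1)
    (hx : trunc f e s x = 0) (h : f x = 0 → FreeAt f e x) : FreeAt (trunc f e s) e x := by
  by_cases h0 : f x = 0
  · obtain ⟨v, hv, hv'⟩ := h h0
    exact ⟨v, desc1_max hv (Trunc_aff he s hv'), hv'⟩
  · have h1 : f x ≤ 0 := by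
      rw [← hx]
      exact le_max_left _ _
    have h2 : f x < 0 := lt_of_le_of_ne h1 h0
    have h3 : ⟪e, x⟫ - s = 0 := by
      unfold trunc at hx
      rcases max_choice (f x) (⟪e, x⟫ - s) with h4 | h4
      · rw [h4] at hx
        exact absurd hx h0
      · rw [h4] at hx
        exact hx
    have h5 : ⟪e, -e⟫ < 0 := by
      rw [inner_neg_right, real_inner_self_eq_norm_sq, he]
      norm_num
    refine ⟨-e, ?_, h5⟩
    exact desc1_max_right hf.continuousAt (Trunc_cont e s).continuousAt (Trunc_aff he s h5)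
      (by rw [h3]; exact h2)

/-- PROOF. `{trunc ≤ 0} ⊆ {f ≤ 0}`. Near a point of `P` the truncation is `f`. A zero `x ∉ P`: if
`⟪e, x⟫ < s` it equals `f` near `x`; if `⟪e, x⟫ = s` and `f x = 0` the free direction of `f` (`x ∉ P`) is a
direction for both; if `⟪e, x⟫ = s`, `f x < 0` take `-e`. The zero set is bounded. -/
theorem trunc_class {f : V → ℝ} {e : V} (he : ‖e‖ = 1) {P : Finset V} (hf : Class f e P) {s : ℝ}
    (hs : ∀ p ∈ P, ⟪e, p⟫ < s) : Class (trunc f e s) e P := by
  have hinw : ∀ p ∈ P, Inw (trunc f e s) e p := fun p hp =>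
    (hf.inw p hp).congr (Trunc_near hf.good.cont (hf.inw p hp).zero (hs p hp))
  have hfree : ∀ x, trunc f e s x = 0 → x ∉ P → FreeAt (trunc f e s) e x := fun x hx hP =>
    Trunc_free hf.good.cont he hx fun h0 => hf.free x h0 hP
  refine ⟨?_, ⟨?_, ?_, ?_⟩, hinw, hfree⟩
  · refine hf.bdd.subset fun x hx => ?_
    have h1 : max (f x) (⟪e, x⟫ - s) ≤ 0 := hx
    exact (le_max_left _ _).trans h1
  · exact hf.good.cont.max (Trunc_cont e s)
  · exact hf.bdd.subset fun x hx => (le_max_left (f x) (⟪e, x⟫ - s)).trans (le_of_eq hx)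
  · intro x hx
    by_cases hP : x ∈ P
    · exact ⟨e, (hinw x hP).desc he⟩
    · obtain ⟨v, hv, -⟩ := hfree x hx hP
      exact ⟨v, hv⟩

private theorem Trunc_fam {f : V → ℝ} {e : V} (he : ‖e‖ = 1) {P : Finset V} (hf : Class f e P)
    {s S : ℝ} (hs : ∀ p ∈ P, ⟪e, p⟫ < s) {t : ℝ} {x : V}
    (hx : trunc f e t x = 0) :
    ∃ v, Desc (fun σ => trunc f e σ) (𝓝[Icc s S] t) x v := by
  have hK : ∀ v, ⟪e, v⟫ < 0 →
      Desc (fun (σ : ℝ) (y : V) => ⟪e, y⟫ - σ) (𝓝[Icc s S] t) x v := by
    intro v hv
    have h := desc_add_const ((Trunc_aff (x := x) he 0 hv).const (𝓝[Icc s S] t)) (fun σ => -σ)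
    refine h.congr (Eventually.of_forall fun p => ?_)
    ring
  by_cases h0 : f x = 0
  · by_cases hP : x ∈ P
    · have h1 := ((hf.inw x hP).desc he).const (𝓝[Icc s S] t)
      refine ⟨e, ?_⟩
      refine desc_max_left (H := fun _ => f) (K := fun σ y => ⟪e, y⟫ - σ) h1 ?_
      have h2 : ∀ᶠ y in 𝓝 x, ⟪e, y⟫ - s < f y :=
        (Trunc_cont e s).continuousAt.eventually_lt hf.good.cont.continuousAt
          (by rw [h0]; linarith [hs x hP])
      have h3 : ∀ᶠ σ in 𝓝[Icc s S] t, σ ∈ Icc s S := self_mem_nhdsWithin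
      filter_upwards [h3.prod_mk h2] with p hp
      linarith [hp.1.1, hp.2]
    · obtain ⟨v, hv, hv'⟩ := hf.free x h0 hP
      exact ⟨v, desc_max (hv.const _) (hK v hv')⟩
  · have h1 : f x ≤ 0 := by
      rw [← hx]
      exact le_max_left _ _
    have h2 : f x < 0 := lt_of_le_of_ne h1 h0
    have h3 : ⟪e, x⟫ - t = 0 := by
      unfold trunc at hx
      rcases max_choice (f x) (⟪e, x⟫ - t) with h4 | h4
      · rw [h4] at hx
        exact absurd hx h0
      · rw [h4] at hx
        exact hx
    have h5 : ⟪e, -e⟫ < 0 := by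
      rw [inner_neg_right, real_inner_self_eq_norm_sq, he]
      norm_num
    refine ⟨-e, desc_max_right (H := fun _ => f) (K := fun σ y => ⟪e, y⟫ - σ) (hK _ h5) ?_⟩
    have hc : Continuous fun p : ℝ × V => ⟪e, p.2⟫ - p.1 :=
      (continuous_const.inner continuous_snd).sub continuous_fst
    have hc2 : Continuous fun p : ℝ × V => f p.2 := hf.good.cont.comp continuous_snd
    have h6 : ∀ᶠ p in 𝓝 (t, x), f p.2 < ⟪e, p.2⟫ - p.1 :=
      hc2.continuousAt.eventually_lt hc.continuousAt (by
        show f x < ⟪e, x⟫ - t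
        rw [h3]
        exact h2)
    rw [nhds_prod_eq] at h6
    exact (h6.filter_mono (Filter.prod_mono nhdsWithin_le_nhds le_rfl)).mono fun p hp => hp.le

/-- PROOF. Let `S ≥ s` with `⟪e, x⟫ < S` on `{f ≤ 0}`. `Hom f (trunc f e S)` by `Hom.of_eq_near'`. Then
`Hom.of_family` (with `a = s`, `b = S`, and `Hom.symm`) for `trunc f e σ`, `σ ∈ [s, S]`. Directions at a
zero `x`: if `f x = 0` and `x ∈ P`, the family is constantly `f` near `(σ, x)` (`⟪e, x⟫ < s ≤ σ`): direction of
`f`; if `f x = 0` and `x ∉ P`, the free direction of `f` is one of both functions, `desc_max`; if `f x < 0`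
then `⟪e, x⟫ = σ`, take `-e`. -/
theorem trunc_hom {f : V → ℝ} {e : V} (he : ‖e‖ = 1) {P : Finset V} (hf : Class f e P) {s : ℝ}
    (hs : ∀ p ∈ P, ⟪e, p⟫ < s) : Hom f (trunc f e s) := by
  obtain ⟨R, hR⟩ := hf.bdd.exists_norm_le
  have hin : ∀ x, f x ≤ 0 → ⟪e, x⟫ ≤ R := by
    intro x hx
    have h1 := real_inner_le_norm e x
    rw [he, one_mul] at h1
    exact h1.trans (hR x hx)
  obtain ⟨S, hsS, hRS⟩ : ∃ S, s ≤ S ∧ R < S :=
    ⟨max s (R + 1), le_max_left _ _, lt_of_lt_of_le (by linarith) (le_max_right _ _)⟩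
  have h1 : Hom f (trunc f e S) := by
    apply Hom.of_eq_near' hf.good (hf.good.cont.max (Trunc_cont e S))
    · intro x hx
      have h2 : f x ≤ 0 := by
        rcases hx with h | h
        · exact h.le
        · exact (le_max_left (f x) (⟪e, x⟫ - S)).trans (le_of_eq h)
      have h3 := hin x h2
      have h4 : f x = 0 := by
        rcases hx with h | h
        · exact h
        · rcases max_choice (f x) (⟪e, x⟫ - S) with h5 | h5
          · rw [h5] at h
            exact h
          · rw [h5] at h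
            linarith
      exact Trunc_near hf.good.cont h4 (by linarith)
    · intro x hx hx'
      rcases lt_or_gt_of_ne hx with h | h
      · have h3 := hin x h.le
        have h4 : max (f x) (⟪e, x⟫ - S) < 0 := max_lt h (by linarith)
        exact mul_pos_of_neg_of_neg h h4
      · exact mul_pos h (lt_of_lt_of_le h (le_max_left _ _))
  have h2 : Hom (trunc f e s) (trunc f e S) := by
    apply Hom.of_family hsS (fun σ => trunc f e σ)
    · refine Continuous.continuousOn ?_
      exact (hf.good.cont.comp continuous_snd).max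
        ((continuous_const.inner continuous_snd).sub continuous_fst)
    · exact ⟨R, fun t _ x hx => hR x ((le_max_left (f x) (⟪e, x⟫ - t)).trans (le_of_eq hx))⟩
    · intro t _ x hx
      exact Trunc_fam he hf hs hx
  exact h1.trans h2.symm

/-- There are inward points: at a lowest point of the body there is no free direction. -/
theorem Class.nonempty [FiniteDimensional ℝ V] {f : V → ℝ} {e : V} {P : Finset V} (he : ‖e‖ = 1)
    (hf : Class f e P) (h : {x | f x ≤ 0}.Nonempty) : P.Nonempty := by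
  have hcl : IsClosed {x | f x ≤ 0} := isClosed_le hf.good.cont continuous_const
  have hcomp : IsCompact {x | f x ≤ 0} := Metric.isCompact_of_isClosed_isBounded hcl hf.bdd
  obtain ⟨x, hx, hmin⟩ := hcomp.exists_isMinOn h (f := fun y => ⟪e, y⟫)
    (continuous_const.inner continuous_id).continuousOn
  by_contra hne
  rw [Finset.not_nonempty_iff_eq_empty] at hne
  have key : ∃ v, ⟪e, v⟫ < 0 ∧ ∀ᶠ s in 𝓝[>] (0 : ℝ), f (x + s • v) ≤ 0 := by
    rcases eq_or_lt_of_le (show f x ≤ 0 from hx) with h0 | h0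
    · obtain ⟨v, hv, hv'⟩ := hf.free x h0 (by rw [hne]; exact Finset.notMem_empty x)
      obtain ⟨c, hc, d, hd, hu⟩ := hv.unif
      refine ⟨v, hv', ?_⟩
      filter_upwards [Ioo_mem_nhdsGT hd] with s hs
      have h1 := hu x (by simpa using hd) v (by simpa using hd) s hs.1 hs.2
      have h2 := mul_pos hc hs.1
      linarith
    · refine ⟨-e, ?_, ?_⟩
      · rw [inner_neg_right, real_inner_self_eq_norm_sq, he]
        norm_num
      · have h1 : Continuous fun s : ℝ => f (x + s • -e) := hf.good.cont.comp (by fun_prop)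
        have h2 : Tendsto (fun s : ℝ => f (x + s • -e)) (𝓝 0) (𝓝 (f x)) := by
          simpa using h1.tendsto 0
        have h3 := h2.eventually (gt_mem_nhds h0)
        exact (h3.filter_mono nhdsWithin_le_nhds).mono fun s hs => hs.le
  obtain ⟨v, hv, hs⟩ := key
  have h0 : ∀ᶠ s in 𝓝[>] (0 : ℝ), s ∈ Ioi (0 : ℝ) := self_mem_nhdsWithin
  obtain ⟨s, hs1, hs2⟩ := (hs.and h0).exists
  have h1 : ⟪e, x⟫ ≤ ⟪e, x + s • v⟫ := hmin hs1
  rw [inner_add_right, real_inner_smul_right] at h1
  have h2 := mul_pos_of_neg_of_neg hv (neg_lt_zero.2 (mem_Ioi.1 hs2))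
  nlinarith

/-- The function of the part `A` of `{f ≤ 0} = A ∪ C`. -/
noncomputable def partF (f : V → ℝ) (A C : Set V) (x : V) : ℝ :=
  max (f x) (Metric.infDist x A - Metric.infDist x C)

private theorem Trunc_dcont (A C : Set V) :
    Continuous fun x : V => Metric.infDist x A - Metric.infDist x C :=
  (Metric.continuous_infDist_pt A).sub (Metric.continuous_infDist_pt C)

private theorem Trunc_pcont {f : V → ℝ} (hf : Continuous f) (A C : Set V) :
    Continuous (partF f A C) := hf.max (Trunc_dcont A C)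

theorem partF_le {f : V → ℝ} {A C : Set V} (hA : IsClosed A) (hC : IsClosed C)
    (hd : Disjoint A C) (hA0 : A.Nonempty) (hC0 : C.Nonempty) (h : A ∪ C = {x | f x ≤ 0}) (x : V) :
    partF f A C x ≤ 0 ↔ x ∈ A := by
  unfold partF
  rw [max_le_iff]
  constructor
  · rintro ⟨h1, h2⟩
    have h3 : x ∈ A ∪ C := by
      rw [h]
      exact h1
    rcases h3 with h3 | h3
    · exact h3
    · rw [(hC.mem_iff_infDist_zero hC0).1 h3, sub_zero] at h2
      exact (hA.mem_iff_infDist_zero hA0).2 (le_antisymm h2 Metric.infDist_nonneg)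
  · intro hx
    have h3 : x ∈ {x | f x ≤ 0} := by
      rw [← h]
      exact Or.inl hx
    refine ⟨h3, ?_⟩
    rw [(hA.mem_iff_infDist_zero hA0).1 hx, zero_sub, neg_nonpos]
    exact Metric.infDist_nonneg

private theorem Trunc_dneg {A C : Set V} (hC : IsClosed C)
    (hd : Disjoint A C) (hC0 : C.Nonempty) {x : V} (hx : x ∈ A) :
    Metric.infDist x A = 0 ∧ 0 < Metric.infDist x C := by
  refine ⟨Metric.infDist_zero_of_mem hx, ?_⟩
  exact (hC.notMem_iff_infDist_pos hC0).1 (Set.disjoint_left.1 hd hx)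

/-- Near a zero `x ∈ A` of `f` the function `partF` is `f` (as `infDist x A = 0 < infDist x C`). -/
theorem partF_near {f : V → ℝ} (hf : Continuous f) {A C : Set V} (hC : IsClosed C)
    (hd : Disjoint A C) (hC0 : C.Nonempty) {x : V} (hx : x ∈ A) (hx0 : f x = 0) :
    ∀ᶠ y in 𝓝 x, partF f A C y = f y := by
  obtain ⟨h1, h2⟩ := Trunc_dneg hC hd hC0 hx
  have h3 : Metric.infDist x A - Metric.infDist x C < f x := by
    rw [h1, hx0]
    linarith
  filter_upwards [(Trunc_dcont A C).continuousAt.eventually_lt hf.continuousAt h3] with y hy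
  exact max_eq_left hy.le

/-- The other one is positive there. -/
theorem partF_pos {f : V → ℝ} {A C : Set V} (hC : IsClosed C) (hd : Disjoint A C)
    (hC0 : C.Nonempty) {x : V} (hx : x ∈ A) : 0 < partF f C A x := by
  obtain ⟨h1, h2⟩ := Trunc_dneg hC hd hC0 hx
  refine lt_of_lt_of_le ?_ (le_max_right _ _)
  rw [h1, sub_zero]
  exact h2

private theorem Trunc_zero {f : V → ℝ} {A C : Set V} (hA : IsClosed A) (hC : IsClosed C)
    (hd : Disjoint A C) (hA0 : A.Nonempty) (hC0 : C.Nonempty) (h : A ∪ C = {x | f x ≤ 0}) {x : V}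
    (hx : partF f A C x = 0) : x ∈ A ∧ f x = 0 := by
  have h1 : x ∈ A := (partF_le hA hC hd hA0 hC0 h x).1 hx.le
  refine ⟨h1, ?_⟩
  obtain ⟨h2, h3⟩ := Trunc_dneg hC hd hC0 h1
  unfold partF at hx
  rcases max_choice (f x) (Metric.infDist x A - Metric.infDist x C) with h4 | h4
  · rw [h4] at hx
    exact hx
  · rw [h4] at hx
    linarith

/-- PROOF. The zeros of `partF f A C` are the zeros of `f` in `A`: if `x ∈ A` and `partF = 0` then the
second term is negative (`infDist x C > 0`), so `f x = 0`. Near them `partF_near`. -/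
theorem part_class {f : V → ℝ} {e : V} {P : Finset V}
    (hf : Class f e P) {A C : Set V} (hA : IsClosed A) (hC : IsClosed C)
    (hd : Disjoint A C) (hA0 : A.Nonempty) (hC0 : C.Nonempty) (h : A ∪ C = {x | f x ≤ 0}) :
    ∃ PA ⊆ P, Class (partF f A C) e PA := by
  classical
  have hnear : ∀ x ∈ A, f x = 0 → f =ᶠ[𝓝 x] partF f A C := fun x hx hx0 =>
    (partF_near hf.good.cont hC hd hC0 hx hx0).mono fun y hy => hy.symm
  refine ⟨P.filter fun p => p ∈ A, Finset.filter_subset _ _, ⟨?_, ⟨?_, ?_, ?_⟩, ?_, ?_⟩⟩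
  · refine hf.bdd.subset fun x hx => ?_
    have h1 : max (f x) (Metric.infDist x A - Metric.infDist x C) ≤ 0 := hx
    exact (le_max_left _ _).trans h1
  · exact Trunc_pcont hf.good.cont A C
  · exact hf.bdd.subset fun x hx => (Trunc_zero hA hC hd hA0 hC0 h hx).2.le
  · intro x hx
    obtain ⟨h1, h2⟩ := Trunc_zero hA hC hd hA0 hC0 h hx
    obtain ⟨v, hv⟩ := hf.good.desc x h2
    exact ⟨v, hv.congr (hnear x h1 h2)⟩
  · intro p hp
    obtain ⟨hp1, hp2⟩ := Finset.mem_filter.1 hp
    exact (hf.inw p hp1).congr (hnear p hp2 (hf.inw p hp1).zero)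
  · intro x hx hxP
    obtain ⟨h1, h2⟩ := Trunc_zero hA hC hd hA0 hC0 h hx
    exact (hf.free x h2 fun h3 => hxP (Finset.mem_filter.2 ⟨h3, h1⟩)).congr (hnear x h1 h2)

private theorem Trunc_min {f : V → ℝ} (hf : Continuous f) {A C : Set V}
    (hA : IsClosed A) (hC : IsClosed C) (hd : Disjoint A C) (hA0 : A.Nonempty) (hC0 : C.Nonempty)
    (h : A ∪ C = {x | f x ≤ 0}) {x : V} (hx : f x = 0) :
    ∀ᶠ y in 𝓝 x, min (partF f A C y) (partF f C A y) = f y := by
  have h1 : x ∈ A ∪ C := by
    rw [h]
    exact hx.le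
  rcases h1 with h1 | h1
  · have h2 : f x < partF f C A x := by
      rw [hx]
      exact partF_pos hC hd hC0 h1
    filter_upwards [partF_near hf hC hd hC0 h1 hx,
      hf.continuousAt.eventually_lt (Trunc_pcont hf C A).continuousAt h2] with y hy hy2
    rw [hy]
    exact min_eq_left hy2.le
  · have h2 : f x < partF f A C x := by
      rw [hx]
      exact partF_pos hA hd.symm hA0 h1
    filter_upwards [partF_near hf hA hd.symm hA0 h1 hx,
      hf.continuousAt.eventually_lt (Trunc_pcont hf A C).continuousAt h2] with y hy hy2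
    rw [hy]
    exact min_eq_right hy2.le

/-- Attached to a set `T`: `min f τ` and `min (min (partF A) (partF C)) τ`.
PROOF. `Hom.of_eq_near'`, with `hg : Good (min f τ)`: at a zero of `f` in `A` one has `partF f A C = f` near
it and `partF f C A > 0`; where `f x > 0`, both `partF`s are `≥ f x > 0`. -/
theorem part_hom {f τ : V → ℝ} (hf : Continuous f) (hτ : Continuous τ)
    (hg : Good fun x => min (f x) (τ x)) {A C : Set V}
    (hA : IsClosed A) (hC : IsClosed C) (hd : Disjoint A C) (hA0 : A.Nonempty) (hC0 : C.Nonempty)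
    (h : A ∪ C = {x | f x ≤ 0}) :
    Hom (fun x => min (f x) (τ x))
      (fun x => min (min (partF f A C x) (partF f C A x)) (τ x)) := by
  have hneg : ∀ x, f x < 0 → min (partF f A C x) (partF f C A x) < 0 := by
    intro x hx
    have h1 : x ∈ A ∪ C := by
      rw [h]
      exact hx.le
    rcases h1 with h1 | h1
    · obtain ⟨h2, h3⟩ := Trunc_dneg hC hd hC0 h1
      refine lt_of_le_of_lt (min_le_left _ _) (max_lt hx ?_)
      rw [h2]
      linarith
    · obtain ⟨h2, h3⟩ := Trunc_dneg hA hd.symm hA0 h1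
      refine lt_of_le_of_lt (min_le_right _ _) (max_lt hx ?_)
      rw [h2]
      linarith
  have hge : ∀ x, f x ≤ min (partF f A C x) (partF f C A x) := fun x =>
    le_min (le_max_left _ _) (le_max_left _ _)
  have hcont : Continuous fun x => min (partF f A C x) (partF f C A x) :=
    (Trunc_pcont hf A C).min (Trunc_pcont hf C A)
  refine Hom.of_eq_near' hg (hcont.min hτ) ?_ ?_
  · intro x hx
    beta_reduce at hx
    rcases lt_trichotomy (f x) 0 with h0 | h0 | h0
    · exfalso
      rcases hx with hx | hx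
      · have := lt_of_le_of_lt (min_le_left (f x) (τ x)) h0
        exact absurd hx this.ne
      · have := lt_of_le_of_lt (min_le_left _ (τ x)) (hneg x h0)
        exact absurd hx this.ne
    · filter_upwards [Trunc_min hf hA hC hd hA0 hC0 h h0] with y hy
      rw [hy]
    · have h1 : τ x < f x := by
        rcases hx with hx | hx
        · rcases min_choice (f x) (τ x) with h2 | h2
          · rw [h2] at hx
            exact absurd hx h0.ne'
          · rw [h2] at hx
            rw [hx]
            exact h0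
        · rcases min_choice (min (partF f A C x) (partF f C A x)) (τ x) with h2 | h2
          · rw [h2] at hx
            have := hge x
            linarith
          · rw [h2] at hx
            rw [hx]
            exact h0
      filter_upwards [hτ.continuousAt.eventually_lt hf.continuousAt h1] with y hy
      rw [min_eq_right hy.le, min_eq_right (hy.le.trans (hge y))]
  · intro x hx hx'
    beta_reduce at hx hx'
    rcases lt_trichotomy (f x) 0 with h0 | h0 | h0
    · exact mul_pos_of_neg_of_neg (lt_of_le_of_lt (min_le_left (f x) (τ x)) h0)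
        (lt_of_le_of_lt (min_le_left _ (τ x)) (hneg x h0))
    · have h1 := (Trunc_min hf hA hC hd hA0 hC0 h h0).self_of_nhds
      rw [h1]
      exact mul_self_pos.2 hx
    · have h3 : 0 < min (partF f A C x) (partF f C A x) := lt_of_lt_of_le h0 (hge x)
      rcases lt_or_ge 0 (τ x) with h2 | h2
      · exact mul_pos (lt_min h0 h2) (lt_min h3 h2)
      · rw [min_eq_right (h2.trans h0.le), min_eq_right (h2.trans h3.le)]
        rw [min_eq_right (h2.trans h0.le)] at hx
        exact mul_self_pos.2 hx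

end Pool.Schoen
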