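import Pool.Agent.H.MP_6c077c_gt.Ix.DescB

/-! Index theorem: descent directions of smooth and of convex functions. -/

set_option autoImplicit false

namespace Pool.Schoen

open Filter Set
open scoped Topology RealInnerProductSpace

variable {V : Type*} [NormedAddCommGroup V] [InnerProductSpace ℝ V]
variable {X : Type*} {H K : X → V → ℝ} {l : Filter X} {x v w : V}

theorem DescC_dir (l : Filter X) (x v : V) :
    Tendsto (fun q : X × (V × (V × ℝ)) => q.2.2.1)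
      (l ×ˢ (𝓝 x ×ˢ (𝓝 v ×ˢ 𝓝[>] (0 : ℝ)))) (𝓝 v) :=
  tendsto_fst.comp (tendsto_snd.comp tendsto_snd)

theorem DescC_time (l : Filter X) (x v : V) :
    Tendsto (fun q : X × (V × (V × ℝ)) => q.2.2.2)
      (l ×ˢ (𝓝 x ×ˢ (𝓝 v ×ˢ 𝓝[>] (0 : ℝ)))) (𝓝[>] 0) :=
  tendsto_snd.comp (tendsto_snd.comp tendsto_snd)

theorem DescC_pos (l : Filter X) (x v : V) :
    ∀ᶠ q : X × (V × (V × ℝ)) in l ×ˢ (𝓝 x ×ˢ (𝓝 v ×ˢ 𝓝[>] (0 : ℝ))), 0 < q.2.2.2 :=
  (DescC_time l x v).eventually self_mem_nhdsWithin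

/-- A `C¹` function with negative directional derivative: strict differentiability at `(t, x)`
(`ContDiffAt.hasStrictFDerivAt`):
`G (t', y + s w) - G (t', y) = s * G' (0, w) + o (‖(0, s w)‖)`. -/
theorem desc_smooth {G : ℝ × V → ℝ} {t : ℝ} (hG : ContDiffAt ℝ 1 G (t, x))
    (hv : fderiv ℝ G (t, x) (0, v) < 0) : Desc (fun s y => G (s, y)) (𝓝 t) x v := by
  have hs : HasStrictFDerivAt G (fderiv ℝ G (t, x)) (t, x) :=
    hG.hasStrictFDerivAt one_ne_zero
  set L := fderiv ℝ G (t, x) with hL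
  set a : ℝ := -L (0, v) with ha
  have ha0 : 0 < a := by rw [ha]; linarith
  have hn : 0 < ‖v‖ + 1 := by positivity
  have hε : 0 < a / (4 * (‖v‖ + 1)) := by positivity
  have h1 := hs.isLittleO.def hε
  have t1 : Tendsto (fun q : ℝ × (V × (V × ℝ)) => (q.1, q.2.1 + q.2.2.2 • q.2.2.1))
      (𝓝 t ×ˢ (𝓝 x ×ˢ (𝓝 v ×ˢ 𝓝[>] (0 : ℝ)))) (𝓝 (t, x)) := by
    rw [nhds_prod_eq]
    exact tendsto_arg (𝓝 t) x v
  have t2 : Tendsto (fun q : ℝ × (V × (V × ℝ)) => (q.1, q.2.1))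
      (𝓝 t ×ˢ (𝓝 x ×ˢ (𝓝 v ×ˢ 𝓝[>] (0 : ℝ)))) (𝓝 (t, x)) := by
    rw [nhds_prod_eq]
    exact tendsto_arg' (𝓝 t) x v
  have h2 := (t1.prodMk_nhds t2).eventually h1
  have h3 : ∀ᶠ w in 𝓝 v, L ((0 : ℝ), w) < -(a / 2) := by
    have hc : ContinuousAt (fun w : V => L ((0 : ℝ), w)) v := by
      have : Continuous (fun w : V => L ((0 : ℝ), w)) :=
        L.continuous.comp (continuous_const.prodMk continuous_id)
      exact this.continuousAt
    apply hc.eventually_lt continuousAt_const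
    rw [ha]
    linarith
  have h4 : ∀ᶠ w in 𝓝 v, ‖w‖ < ‖v‖ + 1 :=
    (continuous_norm.continuousAt).eventually_lt continuousAt_const (by linarith)
  refine ⟨a / 4, by positivity, ?_⟩
  filter_upwards [h2, (DescC_dir (𝓝 t) x v).eventually h3, (DescC_dir (𝓝 t) x v).eventually h4,
    DescC_pos (𝓝 t) x v] with q q2 q3 q4 q5
  obtain ⟨t', y, w, s⟩ := q
  simp only at q2 q3 q4 q5 ⊢
  have e1 : ((t', y + s • w) : ℝ × V) - (t', y) = s • ((0 : ℝ), w) := by
    ext <;> simp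
  rw [e1, map_smul, norm_smul, Real.norm_eq_abs, Real.norm_eq_abs, abs_of_pos q5, smul_eq_mul] at q2
  have e2 : ‖((0 : ℝ), w)‖ = ‖w‖ := by
    rw [Prod.norm_def]
    simp
  rw [e2] at q2
  have q6 := (abs_le.1 q2).2
  have q7 : a / (4 * (‖v‖ + 1)) * (s * ‖w‖) ≤ s * (a / 4) := by
    have : a / (4 * (‖v‖ + 1)) * (s * ‖w‖) ≤ a / (4 * (‖v‖ + 1)) * (s * (‖v‖ + 1)) := by
      apply mul_le_mul_of_nonneg_left _ hε.le
      exact mul_le_mul_of_nonneg_left q4.le q5.le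
    refine this.trans (le_of_eq ?_)
    field_simp
  have q8 : s * L (0, w) ≤ s * (-(a / 2)) := mul_le_mul_of_nonneg_left q3.le q5.le
  linarith

theorem desc1_smooth {f : V → ℝ} (hf : ContDiffAt ℝ 1 f x) (hv : fderiv ℝ f x v < 0) :
    Desc1 f x v := by
  have hG : ContDiffAt ℝ 1 (fun p : ℝ × V => f p.2) ((0 : ℝ), x) :=
    ContDiffAt.comp ((0 : ℝ), x) hf contDiffAt_snd
  have hd : HasFDerivAt (fun p : ℝ × V => f p.2)
      ((fderiv ℝ f x).comp (ContinuousLinearMap.snd ℝ ℝ V)) ((0 : ℝ), x) :=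
    HasFDerivAt.comp ((0 : ℝ), x) (f := fun p : ℝ × V => p.2)
      (hf.differentiableAt one_ne_zero).hasFDerivAt hasFDerivAt_snd
  have h := desc_smooth (v := v) hG (by rw [hd.fderiv]; simpa using hv)
  exact Desc.static h (pure_le_nhds (0 : ℝ))

/-- Conversely. -/
theorem fderiv_neg_of_desc1 {f : V → ℝ} (hf : DifferentiableAt ℝ f x) (h : Desc1 f x v) :
    fderiv ℝ f x v < 0 := by
  obtain ⟨c, hc, h⟩ := h
  have ht : Tendsto (fun s : ℝ => (((), (x, (v, s))) : Unit × (V × (V × ℝ)))) (𝓝[>] 0)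
      ((⊤ : Filter Unit) ×ˢ (𝓝 x ×ˢ (𝓝 v ×ˢ 𝓝[>] (0 : ℝ)))) :=
    tendsto_top.prodMk (tendsto_const_nhds.prodMk (tendsto_const_nhds.prodMk tendsto_id))
  have h1 := ht.eventually h
  have h2 : HasDerivAt (fun s : ℝ => f (x + s • v)) (fderiv ℝ f x v) 0 := by
    have := hf.hasFDerivAt.hasLineDerivAt v
    exact this
  have hle : 𝓝[>] (0 : ℝ) ≤ 𝓝[≠] (0 : ℝ) := by
    apply nhdsWithin_mono
    intro s hs
    exact ne_of_gt (mem_Ioi.1 hs)
  have h3 := (hasDerivAt_iff_tendsto_slope.1 h2).mono_left hle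
  have h4 : fderiv ℝ f x v ≤ -c := by
    refine le_of_tendsto h3 ?_
    filter_upwards [h1, self_mem_nhdsWithin] with s hs hs0
    have hs0' : (0 : ℝ) < s := hs0
    rw [slope_def_field]
    simp only [zero_smul, add_zero, sub_zero]
    rw [div_le_iff₀ hs0']
    linarith
  linarith

/-- A convex function descends towards every point where it is negative: for `w` near `o - x`,
`y + s w = (1 - s) y + s (y + w)` with `y + w` near `o`. -/
theorem desc_convex (hH : ∀ᶠ t in l, ConvexOn ℝ univ (H t)) {o : V} {c : ℝ} (hc : 0 < c)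
    (ho : ∀ᶠ p : X × V in l ×ˢ 𝓝 o, H p.1 p.2 ≤ -c)
    (hx : ∀ᶠ p : X × V in l ×ˢ 𝓝 x, -(c / 2) ≤ H p.1 p.2) : Desc H l x (o - x) := by
  have t1 : Tendsto (fun q : X × (V × (V × ℝ)) => (q.1, q.2.1 + q.2.2.1))
      (l ×ˢ (𝓝 x ×ˢ (𝓝 (o - x) ×ˢ 𝓝[>] (0 : ℝ)))) (l ×ˢ 𝓝 o) := by
    refine tendsto_fst.prodMk ?_
    have h1 : Tendsto (fun q : X × (V × (V × ℝ)) => q.2.1)
        (l ×ˢ (𝓝 x ×ˢ (𝓝 (o - x) ×ˢ 𝓝[>] (0 : ℝ)))) (𝓝 x) := tendsto_fst.comp tendsto_snd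
    have h2 := h1.add (DescC_dir l x (o - x))
    rw [add_sub_cancel] at h2
    exact h2
  have hs1 : ∀ᶠ q : X × (V × (V × ℝ)) in l ×ˢ (𝓝 x ×ˢ (𝓝 (o - x) ×ˢ 𝓝[>] (0 : ℝ))),
      q.2.2.2 < 1 :=
    (DescC_time l x (o - x)).eventually
      (mem_nhdsWithin_of_mem_nhds (Iio_mem_nhds (by norm_num : (0 : ℝ) < 1)))
  refine ⟨c / 2, by positivity, ?_⟩
  filter_upwards [t1.eventually ho, (tendsto_arg' l x (o - x)).eventually hx,
    tendsto_fst.eventually hH, DescC_pos l x (o - x), hs1] with q q1 q2 q3 q4 q5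
  obtain ⟨t', y, w, s⟩ := q
  simp only at q1 q2 q3 q4 q5 ⊢
  have e1 : y + s • w = (1 - s) • y + s • (y + w) := by
    rw [smul_add, sub_smul, one_smul]
    abel
  have h1 := q3.2 (mem_univ y) (mem_univ (y + w)) (by linarith : (0 : ℝ) ≤ 1 - s) q4.le (by ring)
  rw [e1]
  rw [smul_eq_mul, smul_eq_mul] at h1
  have h2 : s * H t' (y + w) ≤ s * (-c) := mul_le_mul_of_nonneg_left q1 q4.le
  have h3 : s * (-(c / 2)) ≤ s * H t' y := mul_le_mul_of_nonneg_left q2 q4.le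
  linarith

theorem desc1_convex {f : V → ℝ} (hf : ConvexOn ℝ univ f) (hc : Continuous f) {o : V}
    (h : f o < f x) : Desc1 f x (o - x) := by
  have hd : 0 < (f x - f o) / 2 := by linarith
  have h1 : Desc (fun (_ : Unit) (y : V) => f y + -f x) (⊤ : Filter Unit) x (o - x) := by
    refine desc_convex (c := (f x - f o) / 2) ?_ hd ?_ ?_
    · exact Eventually.of_forall fun _ => hf.add_const (-f x)
    · have h2 : ∀ᶠ z in 𝓝 o, f z < (f x + f o) / 2 :=
        hc.continuousAt.eventually_lt continuousAt_const (by linarith)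
      filter_upwards [tendsto_snd.eventually h2] with p hp
      linarith
    · have h2 : ∀ᶠ z in 𝓝 x, (3 * f x + f o) / 4 < f z :=
        continuousAt_const.eventually_lt hc.continuousAt (by linarith)
      filter_upwards [tendsto_snd.eventually h2] with p hp
      linarith
  have h2 := desc_add_const h1 (fun _ => f x)
  simpa [Desc1] using h2

/-- The affine function. -/
theorem desc1_affine (u q : V) (h : ⟪u, v⟫ < 0) : Desc1 (fun y => ⟪u, y - q⟫) x v := by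
  have h1 : ∀ᶠ w in 𝓝 v, ⟪u, w⟫ < ⟪u, v⟫ / 2 := by
    have hc : Continuous fun w : V => ⟪u, w⟫ := continuous_const.inner continuous_id
    exact hc.continuousAt.eventually_lt continuousAt_const (by linarith)
  refine ⟨-(⟪u, v⟫ / 2), by linarith, ?_⟩
  filter_upwards [(DescC_dir (⊤ : Filter Unit) x v).eventually h1,
    DescC_pos (⊤ : Filter Unit) x v] with p p1 p2
  have e1 : ⟪u, p.2.1 + p.2.2.2 • p.2.2.1 - q⟫ = ⟪u, p.2.1 - q⟫ + p.2.2.2 * ⟪u, p.2.2.1⟫ := by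
    rw [← real_inner_smul_right, ← inner_add_right]
    congr 1
    abel
  rw [e1]
  have := mul_le_mul_of_nonneg_left p1.le p2.le
  linarith

end Pool.Schoen
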