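import Pool.Agent.H.MP_6c077c_gt.Ix.HomA
import Pool.Agent.H.MP_6c077c_gt.Ix.DescC

/-! Index theorem: criteria for homotopies. -/

set_option autoImplicit false

namespace Pool.Schoen

open Filter Set
open scoped Topology RealInnerProductSpace ContDiff

variable {V : Type*} [NormedAddCommGroup V] [InnerProductSpace ℝ V]
variable {f g k : V → ℝ}

/-- Linear interpolation: it is enough to have common descent directions at the zeros of the
interpolations (`desc_add` with `a = 1 - t`, `b = t`). -/
theorem Hom.lerp (hf : Continuous f) (hg : Continuous g)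
    (hb : ∃ R : ℝ, ∀ t ∈ Icc (0 : ℝ) 1, ∀ x, (1 - t) * f x + t * g x = 0 → ‖x‖ ≤ R)
    (hd : ∀ t ∈ Icc (0 : ℝ) 1, ∀ x, (1 - t) * f x + t * g x = 0 → ∃ v, Desc1 f x v ∧ Desc1 g x v) :
    Hom f g := by
  refine ⟨fun t x => (1 - t) * f x + t * g x, ?_, ?_, ?_, hb, ?_⟩
  · fun_prop
  · funext x
    simp
  · funext x
    simp
  · intro t ht x hx
    obtain ⟨v, h1, h2⟩ := hd t ht x hx
    refine ⟨v, desc_add (h1.const (𝓝[Icc 0 1] t)) (h2.const (𝓝[Icc 0 1] t))
      (a := fun t => 1 - t) (b := fun t => t) (a0 := 1 - t) (b0 := t) ?_ ?_ ?_ ?_ ?_⟩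
    · exact (Continuous.tendsto (by fun_prop) t).mono_left nhdsWithin_le_nhds
    · exact (Continuous.tendsto (by fun_prop) t).mono_left nhdsWithin_le_nhds
    · filter_upwards [self_mem_nhdsWithin] with s hs
      linarith [hs.2]
    · filter_upwards [self_mem_nhdsWithin] with s hs
      exact hs.1
    · linarith

/-- Two good functions with the same signs and a common descent direction at each zero. -/
theorem Hom.of_sign (hf : Good f) (hg : Continuous g) (h1 : ∀ x, f x < 0 ↔ g x < 0)
    (h2 : ∀ x, f x ≤ 0 ↔ g x ≤ 0) (hd : ∀ x, f x = 0 → ∃ v, Desc1 f x v ∧ Desc1 g x v) :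
    Hom f g := by
  have key : ∀ t ∈ Icc (0 : ℝ) 1, ∀ x, (1 - t) * f x + t * g x = 0 → f x = 0 := by
    intro t ht x hx
    rcases lt_trichotomy (f x) 0 with h | h | h
    · exfalso
      have h3 := (h1 x).1 h
      rcases eq_or_lt_of_le ht.1 with h4 | h4
      · rw [← h4] at hx
        linarith
      · have h5 : t * g x < 0 := mul_neg_of_pos_of_neg h4 h3
        have h6 : (1 - t) * f x ≤ 0 := mul_nonpos_of_nonneg_of_nonpos (by linarith [ht.2]) h.le
        linarith
    · exact h
    · exfalso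
      have h3 : 0 < g x := by
        by_contra h7
        exact absurd ((h2 x).2 (not_lt.1 h7)) (not_le.2 h)
      rcases eq_or_lt_of_le ht.1 with h4 | h4
      · rw [← h4] at hx
        linarith
      · have h5 : 0 < t * g x := mul_pos h4 h3
        have h6 : 0 ≤ (1 - t) * f x := mul_nonneg (by linarith [ht.2]) h.le
        linarith
  apply Hom.lerp hf.cont hg
  · obtain ⟨R, hR⟩ := hf.bdd.exists_norm_le
    exact ⟨R, fun t ht x hx => hR x (key t ht x hx)⟩
  · intro t ht x hx
    exact hd x (key t ht x hx)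

/-- A function with the same signs as a good function which agrees with it near the zeros. -/
theorem Hom.of_eq_near (hf : Good f) (hg : Continuous g) (h1 : ∀ x, f x < 0 ↔ g x < 0)
    (h2 : ∀ x, f x ≤ 0 ↔ g x ≤ 0) (hd : ∀ x, f x = 0 → ∀ᶠ y in 𝓝 x, f y = g y) :
    Hom f g := by
  apply Hom.of_sign hf hg h1 h2
  intro x hx
  obtain ⟨v, hv⟩ := hf.desc x hx
  exact ⟨v, hv, hv.congr (hd x hx)⟩

/-- Same, with the agreement near the points where one of the two vanishes (then the sign
conditions are only needed elsewhere). -/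
theorem Hom.of_eq_near' (hf : Good f) (hg : Continuous g)
    (hd : ∀ x, f x = 0 ∨ g x = 0 → ∀ᶠ y in 𝓝 x, f y = g y)
    (h1 : ∀ x, f x ≠ 0 → g x ≠ 0 → 0 < f x * g x) : Hom f g := by
  have key : ∀ x, (f x = 0 ∧ g x = 0) ∨ (f x < 0 ∧ g x < 0) ∨ (0 < f x ∧ 0 < g x) := by
    intro x
    by_cases h : f x = 0 ∨ g x = 0
    · have h3 : f x = g x := (hd x h).self_of_nhds
      rcases h with h | h
      · exact Or.inl ⟨h, h3 ▸ h⟩
      · exact Or.inl ⟨h3.trans h, h⟩
    · rw [not_or] at h
      rcases mul_pos_iff.1 (h1 x h.1 h.2) with h4 | h4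
      · exact Or.inr (Or.inr h4)
      · exact Or.inr (Or.inl h4)
  apply Hom.of_eq_near hf hg
  · intro x
    rcases key x with h | h | h
    · rw [h.1, h.2]
    · exact ⟨fun _ => h.2, fun _ => h.1⟩
    · exact ⟨fun h' => absurd h' (not_lt.2 h.1.le), fun h' => absurd h' (not_lt.2 h.2.le)⟩
  · intro x
    rcases key x with h | h | h
    · rw [h.1, h.2]
    · exact ⟨fun _ => h.2.le, fun _ => h.1.le⟩
    · exact ⟨fun h' => absurd h' (not_le.2 h.1), fun h' => absurd h' (not_le.2 h.2)⟩
  · intro x hx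
    exact hd x (Or.inl hx)

/-- A smooth function with bounded regular zero set is good: `v = -∇F`. -/
theorem good_of_regular [FiniteDimensional ℝ V] {F : V → ℝ} (hF : ContDiff ℝ ∞ F)
    (hb : Bornology.IsBounded {x | F x = 0}) (hr : ∀ x, F x = 0 → fderiv ℝ F x ≠ 0) : Good F := by
  refine ⟨hF.continuous, hb, ?_⟩
  intro x hx
  have h1 : ∃ v, fderiv ℝ F x v ≠ 0 := by
    by_contra h
    push Not at h
    exact hr x hx (ContinuousLinearMap.ext h)
  obtain ⟨v, hv⟩ := h1
  have hF1 : ContDiffAt ℝ 1 F x := hF.contDiffAt.of_le (by exact_mod_cast le_top)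
  rcases lt_or_gt_of_ne hv with h | h
  · exact ⟨v, desc1_smooth hF1 h⟩
  · refine ⟨-v, desc1_smooth hF1 ?_⟩
    rw [map_neg]
    linarith

/-- Convex functions which are negative at a common point and have bounded sublevel sets:
`H t = (1 - t) f + t g` is convex and negative at `o`, `desc_convex`. -/
theorem hom_convex {o : V} (hf : ConvexOn ℝ univ f) (hfc : Continuous f) (hfo : f o < 0)
    (hfb : Bornology.IsBounded {x | f x ≤ 0}) (hg : ConvexOn ℝ univ g) (hgc : Continuous g)
    (hgo : g o < 0) (hgb : Bornology.IsBounded {x | g x ≤ 0}) : Hom f g := by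
  have hcont : Continuous (fun p : ℝ × V => (1 - p.1) * f p.2 + p.1 * g p.2) := by fun_prop
  refine ⟨fun t x => (1 - t) * f x + t * g x, hcont, ?_, ?_, ?_, ?_⟩
  · funext x
    simp
  · funext x
    simp
  · obtain ⟨R, hR⟩ := hfb.exists_norm_le
    obtain ⟨R', hR'⟩ := hgb.exists_norm_le
    refine ⟨max R R', ?_⟩
    intro t ht x hx
    by_cases h : f x ≤ 0
    · exact (hR x h).trans (le_max_left _ _)
    · have h' : g x ≤ 0 := by
        by_contra h7
        push Not at h h7
        have h5 : 0 ≤ t * g x := mul_nonneg ht.1 h7.le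
        have h6 : 0 ≤ (1 - t) * f x := mul_nonneg (by linarith [ht.2]) h.le
        change (1 - t) * f x + t * g x = 0 at hx
        rcases eq_or_lt_of_le ht.1 with h4 | h4
        · rw [← h4] at hx
          linarith
        · have h8 : 0 < t * g x := mul_pos h4 h7
          linarith
      exact (hR' x h').trans (le_max_right _ _)
  · intro t ht x hx
    change (1 - t) * f x + t * g x = 0 at hx
    have hmax : max (f o) (g o) < 0 := max_lt hfo hgo
    have ho : (1 - t) * f o + t * g o ≤ max (f o) (g o) := by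
      have h1 := mul_le_mul_of_nonneg_left (le_max_left (f o) (g o)) (sub_nonneg.2 ht.2)
      have h2 := mul_le_mul_of_nonneg_left (le_max_right (f o) (g o)) ht.1
      linarith
    have hl : ∀ y : V, 𝓝[Icc (0 : ℝ) 1] t ×ˢ 𝓝 y ≤ 𝓝 ((t, y) : ℝ × V) := by
      intro y
      rw [nhds_prod_eq]
      exact Filter.prod_mono nhdsWithin_le_nhds le_rfl
    refine ⟨o - x, desc_convex (c := -(max (f o) (g o)) / 2) ?_ (by linarith) ?_ ?_⟩
    · filter_upwards [self_mem_nhdsWithin] with s hs
      have h1 := (hf.smul (sub_nonneg.2 hs.2)).add (hg.smul hs.1)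
      exact h1
    · apply hl o
      have h1 : (fun p : ℝ × V => (1 - p.1) * f p.2 + p.1 * g p.2) (t, o) <
          -(-(max (f o) (g o)) / 2) := by
        change (1 - t) * f o + t * g o < _
        linarith
      filter_upwards [hcont.continuousAt.eventually_lt continuousAt_const h1] with p hp
      exact hp.le
    · apply hl x
      have h1 : -((-(max (f o) (g o)) / 2) / 2) <
          (fun p : ℝ × V => (1 - p.1) * f p.2 + p.1 * g p.2) (t, x) := by
        change _ < (1 - t) * f x + t * g x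
        linarith
      filter_upwards [continuousAt_const.eventually_lt hcont.continuousAt h1] with p hp
      exact hp.le

private theorem homB_ball (a : V) (r : ℝ) :
    ConvexOn ℝ univ (fun x : V => ‖x - a‖ ^ 2 - r ^ 2) ∧
      Continuous (fun x : V => ‖x - a‖ ^ 2 - r ^ 2) := by
  constructor
  · have h1 : ConvexOn ℝ univ (fun x : V => dist x a) := convexOn_univ_dist a
    have h2 := (h1.pow (fun x _ => dist_nonneg) 2).add_const (-r ^ 2)
    have h3 : (fun x : V => ‖x - a‖ ^ 2 - r ^ 2) =
        ((fun x : V => dist x a) ^ 2 + fun _ => -r ^ 2) := by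
      funext x
      simp only [Pi.add_apply, Pi.pow_apply, dist_eq_norm]
      ring
    rw [h3]
    exact h2
  · fun_prop

omit [InnerProductSpace ℝ V] in
private theorem homB_bdd (a : V) {r : ℝ} (hr : 0 < r) :
    Bornology.IsBounded {x : V | ‖x - a‖ ^ 2 - r ^ 2 ≤ 0} := by
  refine (Metric.isBounded_closedBall (x := a) (r := r)).subset ?_
  intro x hx
  rw [Metric.mem_closedBall, dist_eq_norm]
  have h1 : ‖x - a‖ ^ 2 ≤ r ^ 2 := by
    have h2 : ‖x - a‖ ^ 2 - r ^ 2 ≤ 0 := hx
    linarith
  exact (pow_le_pow_iff_left₀ (norm_nonneg _) hr.le two_ne_zero).1 h1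

/-- The balls are homotopic (move the centre linearly and the square of the radius linearly). -/
theorem hom_balls (a b : V) {r s : ℝ} (hr : 0 < r) (hs : 0 < s) :
    Hom (fun x => ‖x - a‖ ^ 2 - r ^ 2) (fun x => ‖x - b‖ ^ 2 - s ^ 2) := by
  have hR : 0 < ‖b - a‖ + 1 := by positivity
  have h1 : Hom (fun x => ‖x - a‖ ^ 2 - r ^ 2) (fun x => ‖x - a‖ ^ 2 - (‖b - a‖ + 1) ^ 2) := by
    refine hom_convex (o := a) (homB_ball a r).1 (homB_ball a r).2 ?_ (homB_bdd a hr)
      (homB_ball a _).1 (homB_ball a _).2 ?_ (homB_bdd a hR)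
    · rw [sub_self, norm_zero]
      nlinarith
    · rw [sub_self, norm_zero]
      nlinarith
  have h2 : Hom (fun x => ‖x - a‖ ^ 2 - (‖b - a‖ + 1) ^ 2) (fun x => ‖x - b‖ ^ 2 - s ^ 2) := by
    refine hom_convex (o := b) (homB_ball a _).1 (homB_ball a _).2 ?_ (homB_bdd a hR)
      (homB_ball b s).1 (homB_ball b s).2 ?_ (homB_bdd b hs)
    · nlinarith [norm_nonneg (b - a)]
    · rw [sub_self, norm_zero]
      nlinarith
  exact h1.trans h2

/-- A convex function which is negative somewhere and has bounded sublevel set is a ball. -/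
theorem isBall_convex {o : V} (hf : ConvexOn ℝ univ f) (hfc : Continuous f) (hfo : f o < 0)
    (hfb : Bornology.IsBounded {x | f x ≤ 0}) : IsBall f := by
  have h1 : Hom f (fun x => ‖x - o‖ ^ 2 - 1 ^ 2) := by
    refine hom_convex (o := o) hf hfc hfo hfb (homB_ball o 1).1 (homB_ball o 1).2 ?_
      (homB_bdd o one_pos)
    rw [sub_self, norm_zero]
    norm_num
  have h2 := hom_balls o (0 : V) one_pos one_pos
  have h3 := h1.trans h2
  have h4 : (fun x : V => ‖x - 0‖ ^ 2 - 1 ^ 2) = fun x : V => ‖x‖ ^ 2 - 1 := by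
    funext x
    rw [sub_zero, one_pow]
  rw [h4] at h3
  exact h3

end Pool.Schoen
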