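import Mathlib

/-! Index theorem: descent directions of families of continuous functions, definition. -/

set_option autoImplicit false

namespace Pool.Schoen

open Filter Set
open scoped Topology RealInnerProductSpace

variable {V : Type*} [NormedAddCommGroup V] [InnerProductSpace ℝ V]

/-- `v` is a descent direction of the family `H` at the parameter filter `l` and the point `x`:
for parameters `t` in `l`, points `y` near `x`, directions `w` near `v` and small `s > 0` the value
of `H t` drops at least by `c * s` on the way from `y` to `y + s • w`. -/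
def Desc {X : Type*} (H : X → V → ℝ) (l : Filter X) (x v : V) : Prop :=
  ∃ c : ℝ, 0 < c ∧ ∀ᶠ q : X × (V × (V × ℝ)) in l ×ˢ (𝓝 x ×ˢ (𝓝 v ×ˢ 𝓝[>] (0 : ℝ))),
    H q.1 (q.2.1 + q.2.2.2 • q.2.2.1) ≤ H q.1 q.2.1 - c * q.2.2.2

/-- The static version. -/
def Desc1 (f : V → ℝ) (x v : V) : Prop := Desc (fun _ : Unit => f) ⊤ x v

/-- A good function: continuous, with bounded zero set and a descent direction at every zero. -/
structure Good (f : V → ℝ) : Prop where
  cont : Continuous f
  bdd : Bornology.IsBounded {x | f x = 0}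
  desc : ∀ x, f x = 0 → ∃ v, Desc1 f x v

/-- `f` and `g` are joined by a continuous family of good functions with locally uniform descent
directions. -/
def Hom (f g : V → ℝ) : Prop :=
  ∃ H : ℝ → V → ℝ, Continuous (fun p : ℝ × V => H p.1 p.2) ∧ H 0 = f ∧ H 1 = g ∧
    (∃ R : ℝ, ∀ t ∈ Icc (0 : ℝ) 1, ∀ x, H t x = 0 → ‖x‖ ≤ R) ∧
    ∀ t ∈ Icc (0 : ℝ) 1, ∀ x, H t x = 0 → ∃ v, Desc H (𝓝[Icc 0 1] t) x v

/-- `f` is homotopic to the unit ball. -/
def IsBall (f : V → ℝ) : Prop := Hom f fun x => ‖x‖ ^ 2 - 1

end Pool.Schoen
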