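import Pool.Agent.H.MP_6c077c_gt.Ix.Class
import Pool.Agent.H.MP_6c077c_gt.Small

/-! Index theorem: lifting maps to the circle. -/

set_option autoImplicit false

namespace Pool.Schoen

open Filter Set
open scoped Topology RealInnerProductSpace ContDiff

/-- `u` lifts over `A`. -/
def Lifts {Y : Type*} [TopologicalSpace Y] (A : Set Y) (u : Y → ℂ) : Prop :=
  ∃ v : Y → ℝ, ContinuousOn v A ∧ ∀ x ∈ A, u x = Complex.exp (v x * Complex.I)

theorem Lifts.mono {Y : Type*} [TopologicalSpace Y] {A B : Set Y} {u : Y → ℂ} (h : Lifts B u)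
    (hAB : A ⊆ B) : Lifts A u := by
  obtain ⟨v, hv, h1⟩ := h
  exact ⟨v, hv.mono hAB, fun x hx => h1 x (hAB hx)⟩

theorem Lifts.congr {Y : Type*} [TopologicalSpace Y] {A : Set Y} {u u' : Y → ℂ} (h : Lifts A u)
    (hu : ∀ x ∈ A, u x = u' x) : Lifts A u' := by
  obtain ⟨v, hv, h1⟩ := h
  exact ⟨v, hv, fun x hx => (hu x hx).symm.trans (h1 x hx)⟩

private theorem LiftA_slit {w : ℂ} (h1 : ‖w‖ = 1) (h2 : ‖w - 1‖ < 2) : w ∈ Complex.slitPlane := by
  by_contra hw
  rw [Complex.mem_slitPlane_iff] at hw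
  push Not at hw
  obtain ⟨hre, him⟩ := hw
  have e : w = ((w.re : ℝ) : ℂ) := Complex.ext (by simp) (by simp [him])
  have h3 : |w.re| = 1 := by
    rw [e, Complex.norm_real, Real.norm_eq_abs] at h1
    exact h1
  have h4 : w.re = -1 := by
    rw [abs_of_nonpos hre] at h3
    linarith
  have h5 : w - 1 = ((-2 : ℝ) : ℂ) := by
    rw [e, h4]
    push_cast
    ring
  rw [h5, Complex.norm_real] at h2
  norm_num at h2

/-- PROOF. `u x / u' x` has norm one and is not `-1` (as `‖u x - u' x‖ < 2`), so it is in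
`Complex.slitPlane`, and `v x = v' x + Complex.arg (u x / u' x)` is continuous. -/
theorem Lifts.of_close {Y : Type*} [TopologicalSpace Y] {A : Set Y} {u u' : Y → ℂ}
    (h : Lifts A u') (hu : ContinuousOn u A) (hu' : ContinuousOn u' A) (h1 : ∀ x ∈ A, ‖u x‖ = 1)
    (h2 : ∀ x ∈ A, ‖u x - u' x‖ < 2) : Lifts A u := by
  obtain ⟨v, hv, h3⟩ := h
  have hn' : ∀ x ∈ A, ‖u' x‖ = 1 := by
    intro x hx
    rw [h3 x hx, Complex.norm_exp_ofReal_mul_I]
  have hne : ∀ x ∈ A, u' x ≠ 0 := by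
    intro x hx h0
    have := hn' x hx
    rw [h0, norm_zero] at this
    exact zero_ne_one this
  have hw1 : ∀ x ∈ A, ‖u x / u' x‖ = 1 := by
    intro x hx
    rw [norm_div, h1 x hx, hn' x hx, div_one]
  have hs : ∀ x ∈ A, u x / u' x ∈ Complex.slitPlane := by
    intro x hx
    refine LiftA_slit (hw1 x hx) ?_
    have e : u x / u' x - 1 = (u x - u' x) / u' x := by
      rw [sub_div, div_self (hne x hx)]
    rw [e, norm_div, hn' x hx, div_one]
    exact h2 x hx
  refine ⟨fun x => v x + Complex.arg (u x / u' x), ?_, ?_⟩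
  · refine hv.add fun x hx => ?_
    have h5 : ContinuousWithinAt (fun y => u y / u' y) A x := (hu x hx).div (hu' x hx) (hne x hx)
    exact ContinuousAt.comp_continuousWithinAt (g := Complex.arg) (f := fun y => u y / u' y)
      (Complex.continuousAt_arg (hs x hx)) h5
  · intro x hx
    have h4 := Complex.norm_mul_exp_arg_mul_I (u x / u' x)
    rw [hw1 x hx, Complex.ofReal_one, one_mul] at h4
    push_cast
    rw [add_mul, Complex.exp_add, h4, ← h3 x hx, mul_div_cancel₀ _ (hne x hx)]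

/-- PROOF. `chain` (Small.lean) for the relation `Lifts A (U s) ↔ Lifts A (U t)`; locally true by
`Lifts.of_close`: for `s ∈ Icc 0 1` there is `ε > 0` with `‖U t x - U s x‖ < 2` for `|t - s| < ε`,
`t ∈ Icc 0 1`, `x ∈ A` (uniform continuity on the compact set `Icc 0 1 ×ˢ A`, e.g.
`IsCompact.uniformContinuousOn_of_continuous`). -/
theorem lifts_homotopy {Y : Type*} [PseudoMetricSpace Y] {A : Set Y} (hA : IsCompact A)
    (U : ℝ → Y → ℂ) (hU : ContinuousOn (fun p : ℝ × Y => U p.1 p.2) (Icc (0 : ℝ) 1 ×ˢ A))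
    (h1 : ∀ t ∈ Icc (0 : ℝ) 1, ∀ x ∈ A, ‖U t x‖ = 1) (h : Lifts A (U 0)) : Lifts A (U 1) := by
  have hc : ∀ t ∈ Icc (0 : ℝ) 1, ContinuousOn (U t) A := by
    intro t ht
    have h2 : ContinuousOn (fun x : Y => ((t, x) : ℝ × Y)) A :=
      (continuous_const.prodMk continuous_id).continuousOn
    exact hU.comp h2 fun x hx => ⟨ht, hx⟩
  have hun := (isCompact_Icc.prod hA).uniformContinuousOn_of_continuous hU
  obtain ⟨δ, hδ, hd⟩ := Metric.uniformContinuousOn_iff.1 hun 2 two_pos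
  have hclose : ∀ s ∈ Icc (0 : ℝ) 1, ∀ t ∈ Icc (0 : ℝ) 1, |t - s| < δ → ∀ x ∈ A,
      ‖U t x - U s x‖ < 2 := by
    intro s hs t ht hst x hx
    have h2 := hd (t, x) ⟨ht, hx⟩ (s, x) ⟨hs, hx⟩ (by
      rw [Prod.dist_eq, dist_self, Real.dist_eq]
      exact max_lt hst hδ)
    rwa [dist_eq_norm] at h2
  refine (chain (fun s t => (Lifts A (U s) ↔ Lifts A (U t))) (fun _ => Iff.rfl)
    (fun _ _ h => h.symm) (fun _ _ _ h h' => h.trans h') ?_).1 h
  intro s hs
  refine ⟨δ, hδ, fun t ht hst => ⟨fun hl => ?_, fun hl => ?_⟩⟩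
  · exact hl.of_close (hc t ht) (hc s hs) (h1 t ht) (hclose s hs t ht hst)
  · exact hl.of_close (hc s hs) (hc t ht) (h1 s hs) (hclose t ht s hs (by rwa [abs_sub_comm]))

variable {V : Type*} [NormedAddCommGroup V] [InnerProductSpace ℝ V] [FiniteDimensional ℝ V]

/-- PROOF. If `A` is empty, trivial; else take `a ∈ A` and the homotopy `U t x = u (a + t • (x - a))`
from a constant. -/
theorem liftS_convex_compact {A : Set V} (hA : IsCompact A) (hc : Convex ℝ A) : LiftS A := by
  intro u hu h1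
  rcases A.eq_empty_or_nonempty with h0 | ⟨a, ha⟩
  · subst h0
    exact ⟨fun _ => 0, continuousOn_empty _, fun x hx => absurd hx (notMem_empty x)⟩
  have hm : ∀ t ∈ Icc (0 : ℝ) 1, ∀ x ∈ A, a + t • (x - a) ∈ A := fun t ht x hx =>
    hc.add_smul_sub_mem ha hx ht
  have h2 : Lifts A ((fun (t : ℝ) (x : V) => u (a + t • (x - a))) 1) := by
    refine lifts_homotopy hA (fun t x => u (a + t • (x - a))) ?_ ?_ ?_
    · have h3 : Continuous fun p : ℝ × V => a + p.1 • (p.2 - a) := by fun_prop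
      exact hu.comp h3.continuousOn fun p hp => hm p.1 hp.1 p.2 hp.2
    · exact fun t ht x hx => h1 _ (hm t ht x hx)
    · refine ⟨fun _ => Complex.arg (u a), continuousOn_const, fun x _ => ?_⟩
      have h4 := Complex.norm_mul_exp_arg_mul_I (u a)
      rw [h1 a ha, Complex.ofReal_one, one_mul] at h4
      simp only [zero_smul, add_zero]
      exact h4.symm
  refine h2.congr fun x _ => ?_
  simp

/-- Extension of a map which lifts over a part.  Let `A`, `K` be closed, `u` continuous on `A` with `‖u‖ = 1`, which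
lifts over `A ∩ K`. Then there is `U` continuous on `A ∪ K` with norm one, equal to `u` on `A`.
PROOF. Tietze extension (`V` is normal, `A ∩ K` closed; for real functions e.g.
`ContinuousMap.exists_restrict_eq` or `exists_extension`): `v` on `V` with `u = exp (i v)` on `A ∩ K`.
`U = u` on `A`, `exp (i v)` elsewhere; continuous on `A` and on `K`, closed sets. -/
theorem extend_unit {A K : Set V} (hA : IsClosed A) (hK : IsClosed K) {u : V → ℂ}
    (hu : ContinuousOn u A) (h1 : ∀ x ∈ A, ‖u x‖ = 1) (h : Lifts (A ∩ K) u) :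
    ∃ U : V → ℂ, ContinuousOn U (A ∪ K) ∧ (∀ x ∈ A ∪ K, ‖U x‖ = 1) ∧ ∀ x ∈ A, U x = u x := by
  classical
  obtain ⟨v, hv, h2⟩ := h
  obtain ⟨g, hg⟩ := ContinuousMap.exists_restrict_eq (hA.inter hK)
    (⟨(A ∩ K).restrict v, hv.restrict⟩ : C((A ∩ K : Set V), ℝ))
  have hgv : ∀ x ∈ A ∩ K, g x = v x := by
    intro x hx
    have := DFunLike.congr_fun hg ⟨x, hx⟩
    exact this
  let U : V → ℂ := fun x => if x ∈ A then u x else Complex.exp (g x * Complex.I)
  have hUA : ∀ x ∈ A, U x = u x := fun x hx => if_pos hx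
  have hUK : ∀ x ∈ K, U x = Complex.exp (g x * Complex.I) := by
    intro x hx
    by_cases hxA : x ∈ A
    · rw [hUA x hxA, h2 x ⟨hxA, hx⟩, hgv x ⟨hxA, hx⟩]
    · exact if_neg hxA
  have hgc : Continuous fun x => Complex.exp (g x * Complex.I) := by
    have := g.continuous
    fun_prop
  refine ⟨U, ?_, ?_, hUA⟩
  · exact ContinuousOn.union_of_isClosed (hu.congr hUA) (hgc.continuousOn.congr hUK) hA hK
  · rintro x (hx | hx)
    · rw [hUA x hx]
      exact h1 x hx
    · rw [hUK x hx, Complex.norm_exp_ofReal_mul_I]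

end Pool.Schoen
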