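import Pool.Agent.H.MP_6c077c_gt.Ix.CutA
import Pool.Agent.H.MP_6c077c_gt.Ix.LiftA

/-! Index theorem: the slab and the walls. -/

set_option autoImplicit false

namespace Pool.Schoen

open Filter Set
open scoped Topology RealInnerProductSpace ContDiff

variable {V : Type*} [NormedAddCommGroup V] [InnerProductSpace ℝ V]
variable {f : V → ℝ} {P : Finset V} {e u p : V} {B : V →L[ℝ] V →L[ℝ] ℝ} {μ a r η ε : ℝ}

/-- The slab. -/
def slabS (f : V → ℝ) (e u p : V) (η ε r : ℝ) : Set V := {x | fs f e p ε x ≤ 0 ∧ 0 ≤ lam u p η r x}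

/-- The wall at the level `c = ±η` of `y₁`. -/
def wallS (f : V → ℝ) (e u p : V) (η ε r c : ℝ) : Set V :=
  {x | fs f e p ε x ≤ 0 ∧ lam u p η r x = 0 ∧ ⟪u, x - p⟫ = c}

private theorem CutC_wc_comb (e u x y : V) (s t : ℝ) :
    wc e u (s • x + t • y) = s • wc e u x + t • wc e u y := by
  simp only [wc, inner_add_right, real_inner_smul_right, add_smul, smul_sub, mul_smul]
  abel

private theorem CutC_quad (B : V →L[ℝ] V →L[ℝ] ℝ) {x y : V} {s t : ℝ} (hs : 0 ≤ s) (ht : 0 ≤ t)
    (hst : s + t = 1) (h : 0 ≤ B (x - y) (x - y)) :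
    B (s • x + t • y) (s • x + t • y) ≤ s * B x x + t * B y y := by
  have e1 : B (s • x + t • y) (s • x + t • y) =
      s * s * B x x + s * t * B x y + t * s * B y x + t * t * B y y := by
    simp only [map_add, map_smul, _root_.add_apply, _root_.smul_apply, smul_eq_mul]
    ring
  have e2 : B (x - y) (x - y) = B x x - B x y - B y x + B y y := by
    simp only [map_sub, _root_.sub_apply]
    ring
  rw [e1]
  rw [e2] at h
  have e3 : t = 1 - s := by linarith
  subst e3
  nlinarith [mul_nonneg (mul_nonneg hs ht) h]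

private theorem CutC_Bnn (h : Slab f P e u p B μ a r η ε) {w : V} (h1 : ⟪e, w⟫ = 0)
    (h2 : ⟪u, w⟫ = 0) : 0 ≤ B w w := by
  by_cases hw : w = 0
  · rw [hw, map_zero]
  · exact (h.mod.hB w h1 h2 hw).le

private theorem CutC_fs_mdl (h : Slab f P e u p B μ a r η ε) {x : V} (hx : ‖x - p‖ < r) :
    fs f e p ε x ≤ 0 ↔ mdl1 B μ a e u p x ≤ 0 ∧ ⟪e, x - p⟫ ≤ ε := by
  rw [fs_eq, max_le_iff, h.mod.hf x hx]
  constructor
  · rintro ⟨h1, h2⟩
    exact ⟨h1, by linarith⟩
  · rintro ⟨h1, h2⟩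
    exact ⟨h1, by linarith⟩

private theorem CutC_lam (h : Slab f P e u p B μ a r η ε) {x : V} (hx : ‖x - p‖ < r / 2) :
    lam u p η r x = η - |⟪u, x - p⟫| := (h.lam_near hx).self_of_nhds

/-- The slab in terms of the model. PROOF. `Slab.near`, `Slab.small`, and `f = mdl1` in the ball of
radius `r`; `|y₁| ≤ η` and `‖x - p‖ < r / 2` give `0 ≤ lam`. -/
theorem Slab.mem_slab (h : Slab f P e u p B μ a r η ε) (x : V) : x ∈ slabS f e u p η ε r ↔
    (mdl1 B μ a e u p x ≤ 0 ∧ ⟪e, x - p⟫ ≤ ε ∧ |⟪u, x - p⟫| ≤ η) := by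
  have hr := h.mod.hr
  have hη := h.hη
  constructor
  · rintro ⟨h1, h2⟩
    obtain ⟨h3, h4⟩ := h.near h1 h2
    obtain ⟨h5, h6⟩ := (CutC_fs_mdl h (by linarith)).1 h1
    exact ⟨h5, h6, h4⟩
  · rintro ⟨h1, h2, h3⟩
    have h4 := h.small x h1 h2 (by linarith)
    refine ⟨(CutC_fs_mdl h (by linarith)).2 ⟨h1, h2⟩, ?_⟩
    rw [CutC_lam h h4]
    linarith

theorem Slab.mem_wall (h : Slab f P e u p B μ a r η ε) {c : ℝ} (hc : |c| = η) (x : V) :
    x ∈ wallS f e u p η ε r c ↔
    (mdl1 B μ a e u p x ≤ 0 ∧ ⟪e, x - p⟫ ≤ ε ∧ ⟪u, x - p⟫ = c) := by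
  have hr := h.mod.hr
  have hη := h.hη
  constructor
  · rintro ⟨h1, h2, h3⟩
    obtain ⟨h4, h5⟩ := h.near h1 h2.ge
    obtain ⟨h6, h7⟩ := (CutC_fs_mdl h (by linarith)).1 h1
    exact ⟨h6, h7, h3⟩
  · rintro ⟨h1, h2, h3⟩
    have h4 := h.small x h1 h2 (by rw [h3, hc]; linarith)
    refine ⟨(CutC_fs_mdl h (by linarith)).2 ⟨h1, h2⟩, ?_, h3⟩
    rw [CutC_lam h h4, h3, hc, sub_self]

theorem Slab.union_slab (h : Slab f P e u p B μ a r η ε) :
    {x | fcut f e u p η ε r x ≤ 0} ∪ slabS f e u p η ε r = {x | fs f e p ε x ≤ 0} := by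
  ext x
  constructor
  · rintro (h1 | h1)
    · have h1' : max (fs f e p ε x) (lam u p η r x) ≤ 0 := h1
      exact (max_le_iff.1 h1').1
    · exact h1.1
  · intro h1
    have h1' : fs f e p ε x ≤ 0 := h1
    rcases le_total (lam u p η r x) 0 with h2 | h2
    · exact Or.inl (max_le h1' h2)
    · exact Or.inr ⟨h1', h2⟩

/-- PROOF. In both sets: `fs ≤ 0`, `lam = 0`, so `|y₁| = η` by `Slab.near`, `Slab.lam_near`. -/
theorem Slab.inter_slab (h : Slab f P e u p B μ a r η ε) :
    {x | fcut f e u p η ε r x ≤ 0} ∩ slabS f e u p η ε r =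
      wallS f e u p η ε r (-η) ∪ wallS f e u p η ε r η := by
  have hη := h.hη
  ext x
  constructor
  · rintro ⟨h1, h2, h3⟩
    have h1' : max (fs f e p ε x) (lam u p η r x) ≤ 0 := h1
    have h4 : lam u p η r x ≤ 0 := (max_le_iff.1 h1').2
    have h5 : lam u p η r x = 0 := le_antisymm h4 h3
    obtain ⟨h6, h7⟩ := h.near h2 h3
    rw [CutC_lam h h6] at h5
    have h8 : |⟪u, x - p⟫| = η := by linarith
    have h9 : lam u p η r x = 0 := le_antisymm h4 h3
    rcases (abs_eq hη.le).1 h8 with h10 | h10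
    · exact Or.inr ⟨h2, h9, h10⟩
    · exact Or.inl ⟨h2, h9, h10⟩
  · rintro (h1 | h1)
    · exact ⟨max_le h1.1 h1.2.1.le, h1.1, h1.2.1.ge⟩
    · exact ⟨max_le h1.1 h1.2.1.le, h1.1, h1.2.1.ge⟩

/-- PROOF. Convex: `{mdl1 ≤ 0, z ≤ ε, y₁ = c}` is given by `B (w, w) / 2 ≤ μ z + a c ^ 2 / 2`, and
`x ↦ B (w, w)` is convex (`w = wc e u (x - p)`, `B` nonnegative there). Contains `p + c • u + ε • e`. Compact:
closed, in the ball of radius `r / 2`. -/
theorem Slab.wall_convex (h : Slab f P e u p B μ a r η ε) {c : ℝ} (hc : |c| = η) :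
    Convex ℝ (wallS f e u p η ε r c) := by
  intro x hx y hy s t hs ht hst
  rw [h.mem_wall hc] at hx hy ⊢
  obtain ⟨hx1, hx2, hx3⟩ := hx
  obtain ⟨hy1, hy2, hy3⟩ := hy
  have e0 : s • x + t • y - p = s • (x - p) + t • (y - p) := by
    rw [smul_sub, smul_sub]
    have : p = s • p + t • p := by rw [← add_smul, hst, one_smul]
    nth_rewrite 1 [this]
    abel
  have e1 : ⟪e, s • x + t • y - p⟫ = s * ⟪e, x - p⟫ + t * ⟪e, y - p⟫ := by
    rw [e0, inner_add_right, real_inner_smul_right, real_inner_smul_right]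
  have e2 : ⟪u, s • x + t • y - p⟫ = c := by
    rw [e0, inner_add_right, real_inner_smul_right, real_inner_smul_right, hx3, hy3, ← add_mul, hst,
      one_mul]
  have e3 : wc e u (s • x + t • y - p) = s • wc e u (x - p) + t • wc e u (y - p) := by
    rw [e0, CutC_wc_comb]
  obtain ⟨w1, w2⟩ := inner_wc h.mod.he h.mod.hu h.mod.heu (x - p)
  obtain ⟨w3, w4⟩ := inner_wc h.mod.he h.mod.hu h.mod.heu (y - p)
  have hq := CutC_quad B hs ht hst (CutC_Bnn h (w := wc e u (x - p) - wc e u (y - p))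
    (by rw [inner_sub_right, w1, w3, sub_zero]) (by rw [inner_sub_right, w2, w4, sub_zero]))
  refine ⟨?_, ?_, e2⟩
  · unfold mdl1 at hx1 hy1 ⊢
    rw [hx3] at hx1
    rw [hy3] at hy1
    rw [e1, e2, e3]
    have h1 := mul_nonneg hs (neg_nonneg.2 hx1)
    have h2 := mul_nonneg ht (neg_nonneg.2 hy1)
    have h3 : a * c ^ 2 / 2 = s * (a * c ^ 2 / 2) + t * (a * c ^ 2 / 2) := by
      rw [← add_mul, hst, one_mul]
    linarith
  · rw [e1]
    have h1 := mul_le_mul_of_nonneg_left hx2 hs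
    have h2 := mul_le_mul_of_nonneg_left hy2 ht
    have h3 : ε = s * ε + t * ε := by rw [← add_mul, hst, one_mul]
    linarith

private theorem CutC_base (h : Slab f P e u p B μ a r η ε) (c : ℝ) :
    ⟪e, p + c • u + ε • e - p⟫ = ε ∧ ⟪u, p + c • u + ε • e - p⟫ = c ∧
      wc e u (p + c • u + ε • e - p) = 0 := by
  have h1 : p + c • u + ε • e - p = ε • e + c • u + 0 := by
    rw [add_zero]
    abel
  rw [h1]
  exact comp_of h.mod.he h.mod.hu h.mod.heu (inner_zero_right _) (inner_zero_right _) ε c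

private theorem CutC_base_mdl (h : Slab f P e u p B μ a r η ε) (c : ℝ) :
    mdl1 B μ a e u p (p + c • u + ε • e) ≤ 0 := by
  obtain ⟨h1, h2, h3⟩ := CutC_base h c
  unfold mdl1
  rw [h1, h2, h3, map_zero]
  have h5 := mul_pos h.mod.hμ h.hε
  have h6 := mul_nonneg h.mod.ha.le (sq_nonneg c)
  linarith

theorem Slab.wall_nonempty (h : Slab f P e u p B μ a r η ε) {c : ℝ} (hc : |c| = η) :
    (wallS f e u p η ε r c).Nonempty := by
  obtain ⟨h1, h2, h3⟩ := CutC_base h c
  refine ⟨p + c • u + ε • e, ?_⟩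
  rw [h.mem_wall hc]
  exact ⟨CutC_base_mdl h c, h1.le, h2⟩

theorem Slab.wall_compact [FiniteDimensional ℝ V] (h : Slab f P e u p B μ a r η ε) {c : ℝ}
    (hc : |c| = η) : IsCompact (wallS f e u p η ε r c) := by
  have hcl : IsClosed (wallS f e u p η ε r c) := by
    have h1 : IsClosed {x | fs f e p ε x ≤ 0} :=
      isClosed_le h.fs_class.good.cont continuous_const
    have h2 : IsClosed {x | lam u p η r x = 0} := isClosed_eq (lam_continuous u p η r) continuous_const
    have h3 : IsClosed {x | ⟪u, x - p⟫ = c} := by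
      refine isClosed_eq ?_ continuous_const
      fun_prop
    exact h1.inter (h2.inter h3)
  have hb : wallS f e u p η ε r c ⊆ Metric.closedBall p (r / 2) := by
    rintro x ⟨h1, h2, _⟩
    rw [mem_closedBall_iff_norm]
    exact (h.near h1 h2.ge).1.le
  exact (isCompact_closedBall p (r / 2)).of_isClosed_subset hcl hb

/-- PROOF. `isPreconnected_of_forall` with base point `x0 = p + ε • e`: for `x` in the slab, the union
of the segments from `x` to `x' = p + y₁ • u + ε • e` and from `x'` to `x0` is in the slab: on the first one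
`w` is multiplied by `1 - t` and `z` becomes `(1 - t) z + t ε`, so
`mdl1 ≤ (1 - t) (- μ z + B (w, w) / 2) - t μ ε - a y₁ ^ 2 / 2 ≤ (1 - t) a y₁ ^ 2 / 2 - a y₁ ^ 2 / 2 ≤ 0`;
on the second `w = 0`, `z = ε`. -/
theorem Slab.slab_preconnected (h : Slab f P e u p B μ a r η ε) :
    IsPreconnected (slabS f e u p η ε r) := by
  have hμ := h.mod.hμ
  have ha := h.mod.ha
  have hη := h.hη
  have hε := h.hε
  have hx0 : p + (0 : ℝ) • u + ε • e ∈ slabS f e u p η ε r := by
    obtain ⟨h1, h2, h3⟩ := CutC_base h 0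
    rw [h.mem_slab]
    refine ⟨CutC_base_mdl h 0, h1.le, ?_⟩
    rw [h2, abs_zero]
    exact hη.le
  refine isPreconnected_of_forall (p + (0 : ℝ) • u + ε • e) fun x hx => ?_
  rw [h.mem_slab] at hx
  obtain ⟨hx1, hx2, hx3⟩ := hx
  set y := ⟪u, x - p⟫ with hy
  obtain ⟨b1, b2, b3⟩ := CutC_base h y
  set x' := p + y • u + ε • e with hx'
  refine ⟨segment ℝ x x' ∪ segment ℝ x' (p + (0 : ℝ) • u + ε • e), ?_, ?_, ?_, ?_⟩
  · refine union_subset ?_ ?_
    · rintro q ⟨s, t, hs, ht, hst, rfl⟩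
      rw [h.mem_slab]
      have e0 : s • x + t • x' - p = s • (x - p) + t • (x' - p) := by
        rw [smul_sub, smul_sub]
        have : p = s • p + t • p := by rw [← add_smul, hst, one_smul]
        nth_rewrite 1 [this]
        abel
      have e1 : ⟪e, s • x + t • x' - p⟫ = s * ⟪e, x - p⟫ + t * ε := by
        rw [e0, inner_add_right, real_inner_smul_right, real_inner_smul_right, b1]
      have e2 : ⟪u, s • x + t • x' - p⟫ = y := by
        rw [e0, inner_add_right, real_inner_smul_right, real_inner_smul_right, b2, ← hy, ← add_mul,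
          hst, one_mul]
      have e3 : wc e u (s • x + t • x' - p) = s • wc e u (x - p) := by
        rw [e0, CutC_wc_comb, b3, smul_zero, add_zero]
      obtain ⟨w1, w2⟩ := inner_wc h.mod.he h.mod.hu h.mod.heu (x - p)
      have hB := CutC_Bnn h w1 w2
      refine ⟨?_, ?_, by rw [e2]; exact hx3⟩
      · unfold mdl1 at hx1 ⊢
        rw [← hy] at hx1
        rw [e1, e2, e3]
        have e4 : B (s • wc e u (x - p)) (s • wc e u (x - p)) =
            s * (s * B (wc e u (x - p)) (wc e u (x - p))) := by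
          simp only [map_smul, _root_.smul_apply, smul_eq_mul]
        rw [e4]
        have hs1 : s ≤ 1 := by linarith
        have k1 : s * B (wc e u (x - p)) (wc e u (x - p)) ≤ B (wc e u (x - p)) (wc e u (x - p)) := by
          nlinarith
        have k2 := mul_le_mul_of_nonneg_left k1 hs
        have k3 := mul_nonneg hs (neg_nonneg.2 hx1)
        have k4 := mul_nonneg ht (mul_pos hμ hε).le
        have k5 := mul_nonneg ht (mul_nonneg ha.le (sq_nonneg y))
        have k6 : t = 1 - s := by linarith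
        rw [k6] at k4 k5 ⊢
        nlinarith
      · rw [e1]
        have k1 := mul_le_mul_of_nonneg_left hx2 hs
        have k2 : ε = s * ε + t * ε := by rw [← add_mul, hst, one_mul]
        linarith
    · rintro q ⟨s, t, hs, ht, hst, rfl⟩
      have e0 : s • x' + t • (p + (0 : ℝ) • u + ε • e) = p + (s * y) • u + ε • e := by
        rw [hx', zero_smul, add_zero, smul_add, smul_add, smul_add, smul_smul]
        have k1 : p = s • p + t • p := by rw [← add_smul, hst, one_smul]
        have k2 : ε • e = s • (ε • e) + t • (ε • e) := by rw [← add_smul, hst, one_smul]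
        nth_rewrite 3 [k1]
        nth_rewrite 3 [k2]
        abel
      rw [e0, h.mem_slab]
      obtain ⟨h1, h2, h3⟩ := CutC_base h (s * y)
      refine ⟨CutC_base_mdl h _, h1.le, ?_⟩
      rw [h2, abs_mul, abs_of_nonneg hs]
      have hs1 : s ≤ 1 := by linarith
      calc s * |y| ≤ 1 * |y| := mul_le_mul_of_nonneg_right hs1 (abs_nonneg _)
        _ ≤ η := by rw [one_mul]; exact hx3
  · exact Or.inr (right_mem_segment ℝ _ _)
  · exact Or.inl (left_mem_segment ℝ _ _)
  · exact IsPreconnected.union x' (right_mem_segment ℝ _ _) (left_mem_segment ℝ _ _)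
      (convex_segment _ _).isPreconnected (convex_segment _ _).isPreconnected

end Pool.Schoen
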