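import Pool.Agent.H.MP_6c077c_gt.Ix.TubeF

/-! Gluing lemma: elementary facts about thin tubes, and descent directions of functions with the
same signs. -/

set_option autoImplicit false

namespace Pool.Schoen

open Filter Set
open scoped Topology RealInnerProductSpace ContDiff

variable {V : Type*} [NormedAddCommGroup V] [InnerProductSpace ℝ V]

/-- The tube of radius `ρ` along the segment from `q` to `q + ℓ • u`, longer by `ρ` at both ends. -/
noncomputable def tau (q u : V) (ℓ ρ : ℝ) : V → ℝ := tubeF q u (-ρ) (ℓ + ρ) ρ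

theorem tau_continuous (q u : V) (ℓ ρ : ℝ) : Continuous (tau q u ℓ ρ) :=
  tubeF_continuous q u _ _ _

/-- Every zero of the tube has the descent direction `q - x` (`desc1_convex`: the tube is convex and
negative at `q`). -/
theorem tau_desc {q u : V} (hu : ‖u‖ = 1) {ℓ ρ : ℝ} (hℓ : 0 < ℓ) (hρ : 0 < ρ) {x : V}
    (hx : tau q u ℓ ρ x = 0) : Desc1 (tau q u ℓ ρ) x (q - x) := by
  apply desc1_convex (tubeF_convex q u _ _ _) (tubeF_continuous q u _ _ _)
  have h1 : tubeF q u (-ρ) (ℓ + ρ) ρ q < 0 := by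
    rw [tubeF_lt hρ.le, sub_self, inner_zero_right]
    refine ⟨by linarith, by linarith, ?_⟩
    simpa [orth] using hρ
  have h2 : tubeF q u (-ρ) (ℓ + ρ) ρ x = 0 := hx
  rw [h2]
  exact h1

/-- Points of thin tubes are near `q`, or have `0 < G x` if `G` is positive on the segment except
perhaps at `q`.  PROOF. The set `K = {q + s • u | s ∈ Icc (r/2) ℓ}` is compact and `0 < G` on it, so
`0 < G x` for `x` in the `δ`-neighbourhood of `K` (`IsCompact.exists_thickening_subset_open` or a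
sequence argument); if `2 ρ < min δ (r / 2)` use `tubeF_near`: `‖x - (q + s • u)‖ ≤ 2 ρ`, and `s < r/2`
gives `‖x - q‖ < r`. -/
theorem tau_small {q u : V} (hu : ‖u‖ = 1) {ℓ : ℝ} (hℓ : 0 < ℓ) {G : V → ℝ} (hG : Continuous G)
    (hpos : ∀ s ∈ Ioc (0 : ℝ) ℓ, 0 < G (q + s • u)) {r : ℝ} (hr : 0 < r) :
    ∀ᶠ ρ in 𝓝[>] (0 : ℝ), ∀ x, tau q u ℓ ρ x ≤ 0 → ‖x - q‖ < r ∨ 0 < G x := by
  have hK : IsCompact ((fun s : ℝ => q + s • u) '' Icc (r / 2) ℓ) :=
    isCompact_Icc.image (by fun_prop)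
  have hO : IsOpen {x | 0 < G x} := isOpen_lt continuous_const hG
  have hKO : ((fun s : ℝ => q + s • u) '' Icc (r / 2) ℓ) ⊆ {x | 0 < G x} := by
    rintro _ ⟨s, hs, rfl⟩
    exact hpos s ⟨by linarith [hs.1], hs.2⟩
  obtain ⟨δ, hδ, hth⟩ := hK.exists_thickening_subset_open hO hKO
  have hm : 0 < min (δ / 2) (r / 4) := by positivity
  filter_upwards [Ioo_mem_nhdsGT hm] with ρ hρ x hx
  have h1 : ρ < δ / 2 := hρ.2.trans_le (min_le_left _ _)
  have h2 : ρ < r / 4 := hρ.2.trans_le (min_le_right _ _)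
  obtain ⟨s, hs, hxs⟩ := tubeF_near hu hℓ.le hρ.1.le hx
  by_cases hsr : s < r / 2
  · left
    have h3 : x - q = (x - (q + s • u)) + s • u := by abel
    have h4 : ‖s • u‖ = s := by
      rw [norm_smul, hu, mul_one, Real.norm_eq_abs, abs_of_nonneg hs.1]
    calc ‖x - q‖ = ‖(x - (q + s • u)) + s • u‖ := by rw [← h3]
      _ ≤ ‖x - (q + s • u)‖ + ‖s • u‖ := norm_add_le _ _
      _ < r := by rw [h4]; linarith
  · right
    apply hth
    rw [Metric.mem_thickening_iff]
    refine ⟨q + s • u, ⟨s, ⟨not_lt.mp hsr, hs.2⟩, rfl⟩, ?_⟩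
    rw [dist_eq_norm]
    linarith

/-- The same at the other end. -/
theorem tau_small' {q u : V} (hu : ‖u‖ = 1) {ℓ : ℝ} (hℓ : 0 < ℓ) {G : V → ℝ} (hG : Continuous G)
    (hpos : ∀ s ∈ Ico (0 : ℝ) ℓ, 0 < G (q + s • u)) {r : ℝ} (hr : 0 < r) :
    ∀ᶠ ρ in 𝓝[>] (0 : ℝ), ∀ x, tau q u ℓ ρ x ≤ 0 → ‖x - (q + ℓ • u)‖ < r ∨ 0 < G x := by
  have hK : IsCompact ((fun s : ℝ => q + s • u) '' Icc 0 (ℓ - r / 2)) :=
    isCompact_Icc.image (by fun_prop)
  have hO : IsOpen {x | 0 < G x} := isOpen_lt continuous_const hG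
  have hKO : ((fun s : ℝ => q + s • u) '' Icc 0 (ℓ - r / 2)) ⊆ {x | 0 < G x} := by
    rintro _ ⟨s, hs, rfl⟩
    exact hpos s ⟨hs.1, by linarith [hs.2]⟩
  obtain ⟨δ, hδ, hth⟩ := hK.exists_thickening_subset_open hO hKO
  have hm : 0 < min (δ / 2) (r / 4) := by positivity
  filter_upwards [Ioo_mem_nhdsGT hm] with ρ hρ x hx
  have h1 : ρ < δ / 2 := hρ.2.trans_le (min_le_left _ _)
  have h2 : ρ < r / 4 := hρ.2.trans_le (min_le_right _ _)
  obtain ⟨s, hs, hxs⟩ := tubeF_near hu hℓ.le hρ.1.le hx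
  by_cases hsr : ℓ - r / 2 < s
  · left
    have h3 : x - (q + ℓ • u) = (x - (q + s • u)) - (ℓ - s) • u := by
      rw [sub_smul]
      abel
    have h4 : ‖(ℓ - s) • u‖ = ℓ - s := by
      rw [norm_smul, hu, mul_one, Real.norm_eq_abs, abs_of_nonneg (by linarith [hs.2])]
    calc ‖x - (q + ℓ • u)‖ = ‖(x - (q + s • u)) - (ℓ - s) • u‖ := by rw [← h3]
      _ ≤ ‖x - (q + s • u)‖ + ‖(ℓ - s) • u‖ := norm_sub_le _ _
      _ < r := by rw [h4]; linarith
  · right
    apply hth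
    rw [Metric.mem_thickening_iff]
    refine ⟨q + s • u, ⟨s, ⟨hs.1, not_lt.mp hsr⟩, rfl⟩, ?_⟩
    rw [dist_eq_norm]
    linarith

/-- Near the end `q + ℓ • u` the function of the tube is small: each of the three functions is at
most `r` resp. `r ^ 2` at distance less than `r` of the end. -/
theorem tau_end {q u : V} (hu : ‖u‖ = 1) {ℓ : ℝ} (hℓ : 0 < ℓ) {m : ℝ} (hm : 0 < m) :
    ∃ r : ℝ, 0 < r ∧ ∀ ρ : ℝ, 0 < ρ → ∀ x, ‖x - (q + ℓ • u)‖ < r → tau q u ℓ ρ x < m := by
  refine ⟨min 1 m, by positivity, fun ρ hρ x hx => ?_⟩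
  have hr1 : min 1 m ≤ 1 := min_le_left _ _
  have hr2 : min 1 m ≤ m := min_le_right _ _
  set e : V := x - (q + ℓ • u) with he
  have hxe : x - q = ℓ • u + e := by rw [he]; abel
  have huu : ⟪u, u⟫ = 1 := by rw [real_inner_self_eq_norm_sq, hu, one_pow]
  have h1 : ⟪u, x - q⟫ = ℓ + ⟪u, e⟫ := by
    rw [hxe, inner_add_right, inner_smul_right, huu, mul_one]
  have h2 : |⟪u, e⟫| ≤ ‖e‖ := by
    have := abs_real_inner_le_norm u e
    rwa [hu, one_mul] at this
  have h3 : orth u (x - q) = orth u e := by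
    unfold orth
    rw [h1, hxe, add_smul]
    abel
  have h4 : ‖orth u e‖ ^ 2 ≤ ‖e‖ ^ 2 := by
    rw [norm_sq_orth hu e]
    have := sq_nonneg ⟪u, e⟫
    linarith
  have h5 : ‖e‖ ^ 2 < m := by
    have h6 : 0 ≤ ‖e‖ := norm_nonneg e
    nlinarith
  obtain ⟨h6, h7⟩ := abs_le.mp h2
  have h8 : 0 < ρ ^ 2 := by positivity
  show max (max (-ρ - ⟪u, x - q⟫) (⟪u, x - q⟫ - (ℓ + ρ))) (‖orth u (x - q)‖ ^ 2 - ρ ^ 2) < m
  rw [h1, h3]
  refine max_lt (max_lt ?_ ?_) ?_ <;> linarith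

/-- A `C¹` function `B` with nonzero derivative at its zero `x`, which is nonpositive where `f` is
negative near `x`, descends in the descent directions of `f`.  PROOF. For `w` near `v` and small
`s > 0` one has `f (x + s w) < f x = 0`, so `B (x + s w) ≤ 0` and `B' w ≤ 0`. A nonzero linear function
which is `≤ 0` near `v` is negative at `v`. -/
theorem fderiv_neg_of_sign {f B : V → ℝ} {x v : V} (h : Desc1 f x v) (hf : f x = 0)
    (hB : DifferentiableAt ℝ B x) (hB0 : B x = 0) (hB' : fderiv ℝ B x ≠ 0)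
    (hs : ∀ᶠ y in 𝓝 x, f y < 0 → B y ≤ 0) : fderiv ℝ B x v < 0 := by
  obtain ⟨c, hc, d, hd, hu⟩ := h.unif
  have key : ∀ w : V, ‖w - v‖ < d → fderiv ℝ B x w ≤ 0 := by
    intro w hw
    have h1 : HasDerivAt (fun s : ℝ => x + s • w) w 0 := by
      simpa using ((hasDerivAt_id (0 : ℝ)).smul_const w).const_add x
    have h2 : HasDerivAt (fun s : ℝ => B (x + s • w)) (fderiv ℝ B x w) 0 := by
      have h3 : HasFDerivAt B (fderiv ℝ B x) (x + (0 : ℝ) • w) := by
        simpa using hB.hasFDerivAt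
      exact h3.comp_hasDerivAt 0 h1
    have h4 := h2.tendsto_slope_zero_right
    refine le_of_tendsto h4 ?_
    have h5 : Tendsto (fun s : ℝ => x + s • w) (𝓝[>] 0) (𝓝 x) := by
      have h6 := h1.continuousAt.tendsto
      simp only [zero_smul, add_zero] at h6
      exact h6.mono_left nhdsWithin_le_nhds
    filter_upwards [h5.eventually hs, Ioo_mem_nhdsGT hd] with s hs1 hs2
    have h7 : f (x + s • w) < 0 := by
      have h8 := hu x (by simpa using hd) w hw s hs2.1 hs2.2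
      have h9 : 0 < c * s := mul_pos hc hs2.1
      linarith
    have h8 : B (x + s • w) ≤ 0 := hs1 h7
    simp only [zero_add, zero_smul, add_zero, hB0, sub_zero, smul_eq_mul]
    exact mul_nonpos_of_nonneg_of_nonpos (inv_nonneg.mpr hs2.1.le) h8
  obtain ⟨z, hz⟩ : ∃ z, fderiv ℝ B x z ≠ 0 := by
    by_contra hcon
    push Not at hcon
    exact hB' (ContinuousLinearMap.ext hcon)
  obtain ⟨z, hz⟩ : ∃ z, 0 < fderiv ℝ B x z := by
    rcases lt_or_gt_of_ne hz with h | h
    · exact ⟨-z, by rw [map_neg]; linarith⟩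
    · exact ⟨z, h⟩
  have hz0 : 0 < ‖z‖ := by
    rw [norm_pos_iff]
    rintro rfl
    simp at hz
  have h1 := key (v + (d / (2 * ‖z‖)) • z) (by
    rw [add_sub_cancel_left, norm_smul, Real.norm_eq_abs, abs_of_pos (by positivity)]
    have : d / (2 * ‖z‖) * ‖z‖ = d / 2 := by field_simp
    rw [this]
    linarith)
  rw [map_add, map_smul, smul_eq_mul] at h1
  have h2 : 0 < d / (2 * ‖z‖) * fderiv ℝ B x z := by positivity
  linarith

/-- The property kept in the gluing homotopies: the sublevel set stays in `N` and the tube, and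
nothing changes near the end `b` of the tube. -/
def PhiG (N : Set V) (b : V) (r : ℝ) (T : V → ℝ) (m : V → ℝ) : Prop :=
  (∀ x, m x ≤ 0 → x ∈ N ∨ T x ≤ 0) ∧ ∀ x, ‖x - b‖ < r → m x = T x

/-- `min G T` has the property if `G ≤ 0` only in `N` and `T ≤ G` near `b`. -/
theorem phiG_min {N : Set V} {b : V} {r : ℝ} {T G : V → ℝ} (h1 : ∀ x, G x ≤ 0 → x ∈ N)
    (h2 : ∀ x, ‖x - b‖ < r → T x ≤ G x) : PhiG N b r T fun x => min (G x) (T x) := by
  refine ⟨fun x hx => ?_, fun x hx => min_eq_right (h2 x hx)⟩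
  rcases min_le_iff.mp hx with h | h
  · exact Or.inl (h1 x h)
  · exact Or.inr h

/-- Convex combinations of two functions with the property which have the same sublevel set. -/
theorem phiG_lerp {N : Set V} {b : V} {r : ℝ} {T f g : V → ℝ} (hf : PhiG N b r T f)
    (hg : PhiG N b r T g) {t : ℝ} (ht : t ∈ Icc (0 : ℝ) 1) :
    PhiG N b r T fun x => (1 - t) * f x + t * g x := by
  refine ⟨fun x hx => ?_, fun x hx => ?_⟩
  · by_cases h1 : f x ≤ 0
    · exact hf.1 x h1
    · by_cases h2 : g x ≤ 0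
      · exact hg.1 x h2
      · exfalso
        push Not at h1 h2
        have hx' : (1 - t) * f x + t * g x ≤ 0 := hx
        rcases eq_or_lt_of_le ht.1 with h3 | h3
        · rw [← h3] at hx'
          linarith
        · have h4 : 0 < t * g x := mul_pos h3 h2
          have h5 : 0 ≤ (1 - t) * f x := mul_nonneg (by linarith [ht.2]) h1.le
          linarith
  · show (1 - t) * f x + t * g x = T x
    rw [hf.2 x hx, hg.2 x hx]
    ring

theorem PhiG.mono {N : Set V} {b : V} {r r' : ℝ} {T m : V → ℝ} (h : PhiG N b r T m)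
    (hr : r' ≤ r) : PhiG N b r' T m :=
  ⟨h.1, fun x hx => h.2 x (hx.trans_le hr)⟩

end Pool.Schoen
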