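import Pool.Agent.H.MP_6c077c_gt.Ix.CutB
import Pool.Agent.H.MP_6c077c_gt.Ix.CutC
import Pool.Agent.H.MP_6c077c_gt.Ix.Neck
import Pool.Agent.H.MP_6c077c_gt.Ix.LiftB
import Pool.Agent.H.MP_6c077c_gt.Ix.TopC

/-! Index theorem: the cutting step, summary. -/

set_option autoImplicit false

namespace Pool.Schoen

open Filter Set
open scoped Topology RealInnerProductSpace ContDiff

variable {V : Type*} [NormedAddCommGroup V] [InnerProductSpace ℝ V] [FiniteDimensional ℝ V]

omit [FiniteDimensional ℝ V] in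
/-- The points `q + s u` of the segment. -/
theorem CutFin_pt {f : V → ℝ} {P : Finset V} {e u p : V} {B : V →L[ℝ] V →L[ℝ] ℝ} {μ a r η ε : ℝ}
    (h : Slab f P e u p B μ a r η ε) {s : ℝ} (hs : s ∈ Icc (0 : ℝ) (2 * η)) :
    ‖qn e u p η ε + s • u - p‖ < r / 2 ∧ ⟪u, qn e u p η ε + s • u - p⟫ = s - η ∧
      fs f e p ε (qn e u p η ε + s • u) < 0 := by
  have he := h.mod.he
  have hu := h.mod.hu
  have heu := h.mod.heu
  have hη := h.hη
  have hε := h.hε
  have hηr := h.hηr
  have hεr := h.hεr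
  have e1 : qn e u p η ε + s • u - p = (ε / 2) • e + (s - η) • u + 0 := by
    unfold qn
    module
  obtain ⟨c1, c2, c3⟩ := comp_of he hu heu (inner_zero_right e) (inner_zero_right u) (ε / 2)
    (s - η)
  have hn : ‖qn e u p η ε + s • u - p‖ < r / 2 := by
    rw [e1, add_zero]
    refine (norm_add_le _ _).trans_lt ?_
    rw [norm_smul, norm_smul, he, hu, mul_one, mul_one, Real.norm_of_nonneg (by linarith),
      Real.norm_eq_abs]
    have h1 : |s - η| ≤ η := by
      rw [abs_le]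
      exact ⟨by linarith [hs.1], by linarith [hs.2]⟩
    linarith
  refine ⟨hn, by rw [e1, c2], ?_⟩
  rw [fs_eq, h.mod.hf _ (by linarith [h.mod.hr]), mdl1, e1, c1, c2, c3]
  have h1 := mul_pos h.mod.hμ hε
  have h2 : 0 ≤ a * (s - η) ^ 2 := mul_nonneg h.mod.ha.le (sq_nonneg _)
  apply max_lt
  · simp only [map_zero, zero_div, add_zero]
    linarith
  · linarith

omit [FiniteDimensional ℝ V] in
/-- The function `lam` on the segment. -/
theorem CutFin_lam {f : V → ℝ} {P : Finset V} {e u p : V} {B : V →L[ℝ] V →L[ℝ] ℝ} {μ a r η ε : ℝ}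
    (h : Slab f P e u p B μ a r η ε) {s : ℝ} (hs : s ∈ Icc (0 : ℝ) (2 * η)) :
    lam u p η r (qn e u p η ε + s • u) = η - |s - η| := by
  obtain ⟨h1, h2, _⟩ := CutFin_pt h hs
  rw [(h.lam_near h1).self_of_nhds, h2]

omit [FiniteDimensional ℝ V] in
/-- Flatness at the two ends. -/
theorem CutFin_flat {f : V → ℝ} {P : Finset V} {e u p : V} {B : V →L[ℝ] V →L[ℝ] ℝ} {μ a r η ε : ℝ}
    (h : Slab f P e u p B μ a r η ε) (hcont : Continuous (fcut f e u p η ε r)) {A C : Set V}
    (hC : IsClosed C) (hd : Disjoint A C) (hC0 : C.Nonempty) {s : ℝ} (hs : s = 0 ∨ s = 2 * η)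
    (hA : qn e u p η ε + s • u ∈ A) :
    ∀ᶠ x in 𝓝 (qn e u p η ε + s • u),
      partF (fcut f e u p η ε r) A C x = η - |⟪u, x - p⟫| := by
  have hη := h.hη
  have hs' : s ∈ Icc (0 : ℝ) (2 * η) := by
    rcases hs with rfl | rfl
    · exact ⟨le_rfl, by linarith⟩
    · exact ⟨by linarith, le_rfl⟩
  obtain ⟨h1, h2, h3⟩ := CutFin_pt h hs'
  have hl : lam u p η r (qn e u p η ε + s • u) = 0 := by
    rw [CutFin_lam h hs']
    rcases hs with rfl | rfl
    · rw [zero_sub, abs_neg, abs_of_pos hη, sub_self]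
    · rw [show 2 * η - η = η by ring, abs_of_pos hη, sub_self]
  have hlt : ∀ᶠ x in 𝓝 (qn e u p η ε + s • u), fs f e p ε x < lam u p η r x :=
    h.fs_class.good.cont.continuousAt.eventually_lt (lam_continuous u p η r).continuousAt
      (by rw [hl]; exact h3)
  have h0 : fcut f e u p η ε r (qn e u p η ε + s • u) = 0 := by
    change max (fs f e p ε _) (lam u p η r _) = 0
    rw [hl]
    exact max_eq_right h3.le
  filter_upwards [partF_near hcont hC hd hC0 hA h0, hlt, h.lam_near h1] with x h4 h5 h6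
  rw [h4, ← h6]
  exact max_eq_right h5.le

/-- PROOF. `Slab` data from `slab_exists`. `Hom f fs` (`trunc_hom`), so `{fs ≤ 0}` is connected and
`LiftS` (`Hom.isConnected`, `Hom.liftS`). With `Dc = {fcut ≤ 0}`, `S = slabS`, the walls at `-η` and `η`, and
`y x = ⟪u, x - p⟫` apply `cut_parts` and `cut_lift` (also with the roles of the walls exchanged) to get
`A`, `C`. Functions `partF fcut A C` and `partF fcut C A`, `part_class`, subsets of `P.erase p`. Flatness:
`q = qn` is in the wall at `-η`, in `A`; near `q`: `fs < 0 = lam q`, so `fcut = lam = η - |y₁| = η + y₁ = ⟪u, x - q⟫`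
(`y₁` near `-η`), and `partF = fcut` (`partF_near`). Similarly at `q + 2 η u`. On the open segment `lam > 0`, so
`fcut > 0`, so both `partF > 0`. `hom`: `neck_start`, `neck_shrink`, `neck_end`, and `part_hom` (good:
`Hom.good_right`). -/
theorem cut {f : V → ℝ} {P : Finset V} {e u p : V} {B : V →L[ℝ] V →L[ℝ] ℝ} {μ a r : ℝ}
    (hf : Class f e P) (hp : p ∈ P) (htop : ∀ p' ∈ P, ⟪e, p'⟫ ≤ ⟪e, p⟫)
    (hm : Mod1 f e u p B μ a r) (hconn : IsConnected {x | f x ≤ 0}) (hlift : LiftS {x | f x ≤ 0}) :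
    ∃ (A C : V → ℝ) (PA PC : Finset V) (q : V) (ℓ : ℝ), Class A e PA ∧ Class C e PC ∧
      PA.card < P.card ∧ PC.card < P.card ∧
      IsConnected {x | A x ≤ 0} ∧ LiftS {x | A x ≤ 0} ∧
      IsConnected {x | C x ≤ 0} ∧ LiftS {x | C x ≤ 0} ∧ (∀ x, A x ≤ 0 → 0 < C x) ∧ 0 < ℓ ∧
      (∀ᶠ x in 𝓝 q, A x = ⟪u, x - q⟫) ∧
      (∀ᶠ x in 𝓝 (q + ℓ • u), C x = -⟪u, x - (q + ℓ • u)⟫) ∧
      (∀ s ∈ Ioo (0 : ℝ) ℓ, 0 < A (q + s • u) ∧ 0 < C (q + s • u)) ∧
      ∀ᶠ ρ in 𝓝[>] (0 : ℝ), Hom f (fun x => min (min (A x) (C x)) (tau q u ℓ ρ x)) := by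
  classical
  obtain ⟨r, η, ε, h⟩ := slab_exists hf hp htop hm
  have he := h.mod.he
  have hu := h.mod.hu
  have heu := h.mod.heu
  have hη := h.hη
  have hε := h.hε
  have hs : ∀ p' ∈ P, ⟪e, p'⟫ < ⟪e, p⟫ + ε := fun p' hp' => by linarith [htop p' hp']
  have hT : Hom f (fs f e p ε) := trunc_hom he hf hs
  have hconn' : IsConnected {x | fs f e p ε x ≤ 0} := hT.isConnected hf.bdd hconn
  have hlift' : LiftS {x | fs f e p ε x ≤ 0} := hT.liftS hf.bdd hlift
  have hcut : Class (fcut f e u p η ε r) e (P.erase p) := h.cut_class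
  have hcont : Continuous (fcut f e u p η ε r) := hcut.good.cont
  have hfsc : Continuous (fs f e p ε) := h.fs_class.good.cont
  have hlc : Continuous (lam u p η r) := lam_continuous u p η r
  have hDc : IsClosed {x | fcut f e u p η ε r x ≤ 0} := isClosed_le hcont continuous_const
  have hS : IsClosed (slabS f e u p η ε r) :=
    (isClosed_le hfsc continuous_const).inter (isClosed_le continuous_const hlc)
  have hW := h.inter_slab
  have hU := h.union_slab
  have hm1 : |(-η)| = η := by rw [abs_neg, abs_of_pos hη]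
  have hp1 : |η| = η := abs_of_pos hη
  have hwmc : IsConnected (wallS f e u p η ε r (-η)) :=
    ⟨h.wall_nonempty hm1, (h.wall_convex hm1).isPreconnected⟩
  have hwpc : IsConnected (wallS f e u p η ε r η) :=
    ⟨h.wall_nonempty hp1, (h.wall_convex hp1).isPreconnected⟩
  obtain ⟨A, C, hA, hC, hd, hAC, hmA, hpC, hAc, hCc⟩ :=
    cut_parts hDc hS hW (y := fun x => ⟪u, x - p⟫) (by fun_prop) hη (fun x hx => hx.2.2)
      (fun x hx => hx.2.2) hwmc hwpc h.slab_preconnected (by rw [hU]; exact hconn')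
      (by rw [hU]; exact hlift')
  have hlA : LiftS A := cut_lift hS hW
    (liftS_convex_compact (h.wall_compact hm1) (h.wall_convex hm1)) (by rw [hU]; exact hlift')
    hA hC hd hAC hmA hpC
  have hlC : LiftS C := cut_lift hS (hW.trans (Set.union_comm _ _))
    (liftS_convex_compact (h.wall_compact hp1) (h.wall_convex hp1)) (by rw [hU]; exact hlift')
    hC hA hd.symm ((Set.union_comm _ _).trans hAC) hpC hmA
  have hA0 := hAc.nonempty
  have hC0 := hCc.nonempty
  have hCA : C ∪ A = {x | fcut f e u p η ε r x ≤ 0} := (Set.union_comm _ _).trans hAC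
  obtain ⟨PA, hPA, hcA⟩ := part_class hcut hA hC hd hA0 hC0 hAC
  obtain ⟨PC, hPC, hcC⟩ := part_class hcut hC hA hd.symm hC0 hA0 hCA
  have hcard : (P.erase p).card < P.card := Finset.card_erase_lt_of_mem hp
  have hsA : {x | partF (fcut f e u p η ε r) A C x ≤ 0} = A := by
    ext x
    exact partF_le hA hC hd hA0 hC0 hAC x
  have hsC : {x | partF (fcut f e u p η ε r) C A x ≤ 0} = C := by
    ext x
    exact partF_le hC hA hd.symm hC0 hA0 hCA x
  have hends : ∀ s : ℝ, s = 0 ∨ s = 2 * η → lam u p η r (qn e u p η ε + s • u) = 0 := by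
    intro s hs
    rcases hs with rfl | rfl
    · rw [CutFin_lam h ⟨le_rfl, by linarith⟩, zero_sub, abs_neg, abs_of_pos hη, sub_self]
    · rw [CutFin_lam h ⟨by linarith, le_rfl⟩, show 2 * η - η = η by ring, abs_of_pos hη, sub_self]
  have hq1 : qn e u p η ε + (0 : ℝ) • u ∈ A := by
    apply hmA
    obtain ⟨k1, k2, k3⟩ := CutFin_pt h (s := 0) ⟨le_rfl, by linarith⟩
    exact ⟨k3.le, hends 0 (Or.inl rfl), by rw [k2]; ring⟩
  have hq2 : qn e u p η ε + (2 * η) • u ∈ C := by
    apply hpC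
    obtain ⟨k1, k2, k3⟩ := CutFin_pt h (s := 2 * η) ⟨by linarith, le_rfl⟩
    exact ⟨k3.le, hends _ (Or.inr rfl), by rw [k2]; ring⟩
  refine ⟨partF (fcut f e u p η ε r) A C, partF (fcut f e u p η ε r) C A, PA, PC,
    qn e u p η ε, 2 * η, hcA, hcC, (Finset.card_le_card hPA).trans_lt hcard,
    (Finset.card_le_card hPC).trans_lt hcard, by rw [hsA]; exact hAc, by rw [hsA]; exact hlA,
    by rw [hsC]; exact hCc, by rw [hsC]; exact hlC, ?_, by linarith, ?_, ?_, ?_, ?_⟩
  · intro x hx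
    have hxA : x ∈ A := (partF_le hA hC hd hA0 hC0 hAC x).1 hx
    exact partF_pos hC hd hC0 hxA
  · have h1 := CutFin_flat h hcont hC hd hC0 (Or.inl rfl) hq1
    rw [zero_smul, add_zero] at h1
    have h2 : ∀ᶠ x in 𝓝 (qn e u p η ε), ⟪u, x - p⟫ < 0 := by
      have h3 : Continuous fun x : V => ⟪u, x - p⟫ := by fun_prop
      refine h3.continuousAt.eventually_lt_const ?_
      have h4 := (CutFin_pt h (s := 0) ⟨le_rfl, by linarith⟩).2.1
      rw [zero_smul, add_zero] at h4
      change ⟪u, qn e u p η ε - p⟫ < 0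
      rw [h4]
      linarith
    filter_upwards [h1, h2] with x h3 h4
    rw [h3, abs_of_neg h4, Neck_inner hu heu]
    ring
  · have h1 := CutFin_flat h hcont hA hd.symm hA0 (Or.inr rfl) hq2
    have h2 : ∀ᶠ x in 𝓝 (qn e u p η ε + (2 * η) • u), 0 < ⟪u, x - p⟫ := by
      have h3 : Continuous fun x : V => ⟪u, x - p⟫ := by fun_prop
      refine h3.continuousAt.eventually_const_lt ?_
      change 0 < ⟪u, qn e u p η ε + (2 * η) • u - p⟫
      rw [(CutFin_pt h (s := 2 * η) ⟨by linarith, le_rfl⟩).2.1]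
      linarith
    filter_upwards [h1, h2] with x h3 h4
    have h5 : ⟪u, x - (qn e u p η ε + (2 * η) • u)⟫ = ⟪u, x - p⟫ - η := by
      rw [← sub_sub, inner_sub_right, Neck_inner hu heu, inner_smul_right,
        real_inner_self_eq_norm_sq, hu]
      ring
    rw [h3, abs_of_pos h4, h5]
    ring
  · intro s hs
    have h1 := CutFin_lam h (s := s) ⟨hs.1.le, hs.2.le⟩
    have h2 : 0 < lam u p η r (qn e u p η ε + s • u) := by
      rw [h1]
      have h3 : |s - η| < η := by
        rw [abs_lt]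
        exact ⟨by linarith [hs.1], by linarith [hs.2]⟩
      linarith
    have h3 : 0 < fcut f e u p η ε r (qn e u p η ε + s • u) := lt_max_of_lt_right h2
    exact ⟨lt_max_of_lt_left h3, lt_max_of_lt_left h3⟩
  · filter_upwards [h.neck_tube, self_mem_nhdsWithin] with ρ h1 hρ
    have hρ' : 0 < ρ := hρ
    have h2 := ((hT.trans (h.neck_start hρ')).trans (h.neck_shrink hρ')).trans
      (h.neck_end hρ' h1)
    exact h2.trans (part_hom hcont (tau_continuous (qn e u p η ε) u (2 * η) ρ) h2.good_right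
      hA hC hd hA0 hC0 hAC)

end Pool.Schoen
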