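import Pool.Agent.H.MP_6c077c_gt.Ix.Cap
import Pool.Agent.H.MP_6c077c_gt.Ix.ModC
import Pool.Agent.H.MP_6c077c_gt.Ix.CutFin
import Pool.Agent.H.MP_6c077c_gt.Ix.Glue

/-! Index theorem for good functions. -/

set_option autoImplicit false

namespace Pool.Schoen

open Filter Set
open scoped Topology RealInnerProductSpace ContDiff

variable {V : Type*} [NormedAddCommGroup V] [InnerProductSpace ℝ V] [FiniteDimensional ℝ V]

/-- PROOF. Strong induction on `P.card`. `P` is nonempty (`Class.nonempty`); let `p` be a highest point.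
Replace `f` by `g` of `model` (`Hom.isConnected`, `Hom.liftS`, `Hom.trans`). If `g` is `Mod0` at `p`: `cap`.
If it is `Mod1`: `cut`; `A` and `C` are balls by induction; `glue` (with `hA`, `hC.good`); for one small `ρ`
both `Hom g (min (min A C) τ)` and `Hom (min (min A C) τ) C`. -/
theorem t1star (e : V) (he : ‖e‖ = 1) (P : Finset V) (f : V → ℝ) (hf : Class f e P)
    (hconn : IsConnected {x | f x ≤ 0}) (hlift : LiftS {x | f x ≤ 0}) : IsBall f := by
  have key : ∀ (n : ℕ) (P : Finset V) (f : V → ℝ), P.card = n → Class f e P →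
      IsConnected {x | f x ≤ 0} → LiftS {x | f x ≤ 0} → IsBall f := by
    intro n
    induction n using Nat.strong_induction_on with
    | _ n ih =>
      intro P f hn hf hconn hlift
      obtain ⟨p, hp, htop⟩ := Finset.exists_max_image P (fun x => ⟪e, x⟫) (Class.nonempty he hf hconn.nonempty)
      obtain ⟨g, μ, r, hfg, hg, hmod⟩ := model he hf hp
      have hgc := hfg.isConnected hf.bdd hconn
      have hgl := hfg.liftS hf.bdd hlift
      refine Hom.trans hfg ?_
      rcases hmod with ⟨B, hm⟩ | ⟨u, B, a, hm⟩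
      · exact cap hg hp htop hm hgc
      · obtain ⟨A, C, PA, PC, q, ℓ, hA, hC, hPA, hPC, hAc, hAl, hCc, hCl, hdisj, hℓ, hflatA,
          hflatC, hs, hρ⟩ := cut hg hp htop hm hgc hgl
        have hAb : IsBall A := ih _ (hn ▸ hPA) PA A rfl hA hAc hAl
        have hCb : IsBall C := ih _ (hn ▸ hPC) PC C rfl hC hCc hCl
        have hρ' := glue hAb hC.good hdisj hm.hu hℓ hflatA hflatC hs
        obtain ⟨ρ, h1, h2⟩ := (hρ.and hρ').exists
        exact (h1.trans h2).trans hCb
  exact key _ P f rfl hf hconn hlift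

end Pool.Schoen
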