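import Mathlib

/-! Index theorem: straight tubes, elementary facts. -/

set_option autoImplicit false

namespace Pool.Schoen

open Filter Set
open scoped Topology RealInnerProductSpace

variable {V : Type*} [NormedAddCommGroup V] [InnerProductSpace ℝ V]

/-- The component of `x` orthogonal to the unit vector `u`. -/
noncomputable def orth (u x : V) : V := x - ⟪u, x⟫ • u

/-- The function of the straight tube around the line through `q` with direction `u`, between the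
levels `α` and `β`, of radius `ρ`. -/
noncomputable def tubeF (q u : V) (α β ρ : ℝ) (x : V) : ℝ :=
  max (max (α - ⟪u, x - q⟫) (⟪u, x - q⟫ - β)) (‖orth u (x - q)‖ ^ 2 - ρ ^ 2)

theorem inner_orth {u : V} (hu : ‖u‖ = 1) (x : V) : ⟪u, orth u x⟫ = 0 := by
  unfold orth
  rw [inner_sub_right, real_inner_smul_right, real_inner_self_eq_norm_sq, hu]
  ring

theorem norm_sq_orth {u : V} (hu : ‖u‖ = 1) (x : V) : ‖x‖ ^ 2 = ⟪u, x⟫ ^ 2 + ‖orth u x‖ ^ 2 := by
  unfold orth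
  rw [norm_sub_sq_real, real_inner_smul_right, norm_smul, hu, real_inner_comm, mul_one,
    Real.norm_eq_abs, sq_abs, real_inner_comm]
  ring

theorem contDiff_orth (u : V) : ContDiff ℝ ⊤ (orth u) := by
  unfold orth
  exact contDiff_id.sub ((contDiff_const.inner ℝ contDiff_id).smul contDiff_const)

theorem tubeF_continuous (q u : V) (α β ρ : ℝ) : Continuous (tubeF q u α β ρ) := by
  unfold tubeF orth
  fun_prop

/-- Joint continuity (parameters depending continuously on the first variable). -/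
theorem tubeF_continuous' (q u : V) {α β ρ : ℝ → ℝ} (hα : Continuous α) (hβ : Continuous β)
    (hρ : Continuous ρ) :
    Continuous fun p : ℝ × V => tubeF q u (α p.1) (β p.1) (ρ p.1) p.2 := by
  unfold tubeF orth
  fun_prop

theorem tubeF_le {q u : V} {α β ρ : ℝ} (hρ : 0 ≤ ρ) (x : V) : tubeF q u α β ρ x ≤ 0 ↔
    (α ≤ ⟪u, x - q⟫ ∧ ⟪u, x - q⟫ ≤ β ∧ ‖orth u (x - q)‖ ≤ ρ) := by
  unfold tubeF
  rw [max_le_iff, max_le_iff, sub_nonpos, sub_nonpos, sub_nonpos,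
    sq_le_sq₀ (norm_nonneg _) hρ, and_assoc]

theorem tubeF_lt {q u : V} {α β ρ : ℝ} (hρ : 0 ≤ ρ) (x : V) : tubeF q u α β ρ x < 0 ↔
    (α < ⟪u, x - q⟫ ∧ ⟪u, x - q⟫ < β ∧ ‖orth u (x - q)‖ < ρ) := by
  unfold tubeF
  rw [max_lt_iff, max_lt_iff, sub_neg, sub_neg, sub_neg,
    sq_lt_sq₀ (norm_nonneg _) hρ, and_assoc]

/-- The points of the thin tube are close to the segment. -/
theorem tubeF_near {q u : V} (hu : ‖u‖ = 1) {ℓ ρ : ℝ} (hℓ : 0 ≤ ℓ) (hρ : 0 ≤ ρ) {x : V}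
    (hx : tubeF q u (-ρ) (ℓ + ρ) ρ x ≤ 0) : ∃ s ∈ Icc (0 : ℝ) ℓ, ‖x - (q + s • u)‖ ≤ 2 * ρ := by
  obtain ⟨h1, h2, h3⟩ := (tubeF_le hρ x).1 hx
  refine ⟨max 0 (min ⟪u, x - q⟫ ℓ), ⟨le_max_left _ _, max_le hℓ (min_le_right _ _)⟩, ?_⟩
  have h4 : |⟪u, x - q⟫ - max 0 (min ⟪u, x - q⟫ ℓ)| ≤ ρ := by
    rw [abs_le]
    rcases le_total ⟪u, x - q⟫ ℓ with h | h
    · rw [min_eq_left h]
      rcases le_total 0 ⟪u, x - q⟫ with h' | h'
      · rw [max_eq_right h']
        constructor <;> linarith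
      · rw [max_eq_left h']
        constructor <;> linarith
    · rw [min_eq_right h, max_eq_right hℓ]
      constructor <;> linarith
  have h5 : x - (q + max 0 (min ⟪u, x - q⟫ ℓ) • u) =
      orth u (x - q) + (⟪u, x - q⟫ - max 0 (min ⟪u, x - q⟫ ℓ)) • u := by
    unfold orth
    rw [sub_smul]
    abel
  rw [h5]
  calc ‖orth u (x - q) + (⟪u, x - q⟫ - max 0 (min ⟪u, x - q⟫ ℓ)) • u‖
      ≤ ‖orth u (x - q)‖ + ‖(⟪u, x - q⟫ - max 0 (min ⟪u, x - q⟫ ℓ)) • u‖ := norm_add_le _ _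
    _ = ‖orth u (x - q)‖ + |⟪u, x - q⟫ - max 0 (min ⟪u, x - q⟫ ℓ)| := by
        rw [norm_smul, hu, mul_one, Real.norm_eq_abs]
    _ ≤ 2 * ρ := by linarith

/-- If `⟪u, x - q⟫ ∈ [0, ℓ]` the distance of `x` to the axis is the norm of `orth u (x - q)`. -/
theorem orth_near {q u : V} (hu : ‖u‖ = 1) (x : V) :
    ‖x - (q + ⟪u, x - q⟫ • u)‖ = ‖orth u (x - q)‖ := by
  unfold orth
  rw [sub_add_eq_sub_sub]

end Pool.Schoen
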