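import Pool.Agent.H.MP_6c077c_gt.Ix.Trunc
import Pool.Agent.H.MP_6c077c_gt.Ix.TubeA

/-! Index theorem: normal forms near an inward point. -/

set_option autoImplicit false

namespace Pool.Schoen

open Filter Set
open scoped Topology RealInnerProductSpace ContDiff

variable {V : Type*} [NormedAddCommGroup V] [InnerProductSpace ℝ V]

/-- The model of index zero: `-μ z + B (y, y) / 2`, where `z = ⟪e, x - p⟫`, `y = orth e (x - p)`. -/
noncomputable def mdl0 (B : V →L[ℝ] V →L[ℝ] ℝ) (μ : ℝ) (e p x : V) : ℝ :=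
  -(μ * ⟪e, x - p⟫) + B (orth e (x - p)) (orth e (x - p)) / 2

/-- The component orthogonal to `e` and `u`. -/
noncomputable def wc (e u x : V) : V := x - ⟪e, x⟫ • e - ⟪u, x⟫ • u

/-- The model of index one: `-μ z - a y₁ ^ 2 / 2 + B (w, w) / 2`, where `z = ⟪e, x - p⟫`,
`y₁ = ⟪u, x - p⟫`, `w = wc e u (x - p)`. -/
noncomputable def mdl1 (B : V →L[ℝ] V →L[ℝ] ℝ) (μ a : ℝ) (e u p x : V) : ℝ :=
  -(μ * ⟪e, x - p⟫) - a * ⟪u, x - p⟫ ^ 2 / 2 + B (wc e u (x - p)) (wc e u (x - p)) / 2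

/-- `f` is the model of index zero in the ball of radius `r` around `p`. -/
structure Mod0 (f : V → ℝ) (e p : V) (B : V →L[ℝ] V →L[ℝ] ℝ) (μ r : ℝ) : Prop where
  he : ‖e‖ = 1
  hμ : 0 < μ
  hr : 0 < r
  hB : ∀ w, ⟪e, w⟫ = 0 → w ≠ 0 → 0 < B w w
  hf : ∀ x, ‖x - p‖ < r → f x = mdl0 B μ e p x

/-- `f` is the model of index one in the ball of radius `r` around `p`. -/
structure Mod1 (f : V → ℝ) (e u p : V) (B : V →L[ℝ] V →L[ℝ] ℝ) (μ a r : ℝ) : Prop where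
  he : ‖e‖ = 1
  hu : ‖u‖ = 1
  heu : ⟪e, u⟫ = 0
  hμ : 0 < μ
  ha : 0 < a
  hr : 0 < r
  hB : ∀ w, ⟪e, w⟫ = 0 → ⟪u, w⟫ = 0 → w ≠ 0 → 0 < B w w
  hf : ∀ x, ‖x - p‖ < r → f x = mdl1 B μ a e u p x

theorem Mod0.mono {f : V → ℝ} {e p : V} {B : V →L[ℝ] V →L[ℝ] ℝ} {μ r r' : ℝ}
    (h : Mod0 f e p B μ r) (h0 : 0 < r') (hr : r' ≤ r) : Mod0 f e p B μ r' :=
  ⟨h.he, h.hμ, h0, h.hB, fun x hx => h.hf x (hx.trans_le hr)⟩

theorem Mod1.mono {f : V → ℝ} {e u p : V} {B : V →L[ℝ] V →L[ℝ] ℝ} {μ a r r' : ℝ}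
    (h : Mod1 f e u p B μ a r) (h0 : 0 < r') (hr : r' ≤ r) : Mod1 f e u p B μ a r' :=
  ⟨h.he, h.hu, h.heu, h.hμ, h.ha, h0, h.hB, fun x hx => h.hf x (hx.trans_le hr)⟩

/-- `orth e` as a continuous linear map. -/
private noncomputable def ModDef_oL (e : V) : V →L[ℝ] V :=
  ContinuousLinearMap.id ℝ V - (innerSL ℝ e).smulRight e

private theorem ModDef_oL_apply (e x : V) : ModDef_oL e x = orth e x := by
  simp [ModDef_oL, orth]

/-- `wc e u` as a continuous linear map. -/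
private noncomputable def ModDef_wL (e u : V) : V →L[ℝ] V :=
  ContinuousLinearMap.id ℝ V - (innerSL ℝ e).smulRight e - (innerSL ℝ u).smulRight u

private theorem ModDef_wL_apply (e u x : V) : ModDef_wL e u x = wc e u x := by
  simp [ModDef_wL, wc]

private theorem ModDef_quad (B : V →L[ℝ] V →L[ℝ] ℝ) (L : V →L[ℝ] V) (p x : V) :
    HasFDerivAt (fun x => B (L (x - p)) (L (x - p)))
      ((B (L (x - p))).comp L + (B.comp L).flip (L (x - p))) x := by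
  have h0 : HasFDerivAt (fun x : V => x - p) (ContinuousLinearMap.id ℝ V) x :=
    (hasFDerivAt_id x).sub_const p
  have h1 : HasFDerivAt (fun x => L (x - p)) L x := by
    have h := L.hasFDerivAt.comp x h0
    rw [ContinuousLinearMap.comp_id] at h
    exact h
  have h2 : HasFDerivAt (fun x => B (L (x - p))) (B.comp L) x := B.hasFDerivAt.comp x h1
  exact h2.clm_apply h1

private theorem ModDef_inner (e p x : V) :
    HasFDerivAt (fun x => ⟪e, x - p⟫) (innerSL ℝ e) x := by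
  have h0 : HasFDerivAt (fun x : V => x - p) (ContinuousLinearMap.id ℝ V) x :=
    (hasFDerivAt_id x).sub_const p
  have h := (innerSL ℝ e).hasFDerivAt.comp x h0
  rw [ContinuousLinearMap.comp_id] at h
  exact h

private theorem ModDef_quadC (B : V →L[ℝ] V →L[ℝ] ℝ) (L : V →L[ℝ] V) (p : V) :
    ContDiff ℝ ∞ (fun x => B (L (x - p)) (L (x - p))) := by
  have h1 : ContDiff ℝ ∞ fun x : V => L (x - p) := L.contDiff.comp (contDiff_id.sub contDiff_const)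
  exact (B.contDiff.comp h1).clm_apply h1

private theorem ModDef_innerC (e p : V) : ContDiff ℝ ∞ (fun x => ⟪e, x - p⟫) :=
  contDiff_const.inner ℝ (contDiff_id.sub contDiff_const)

private theorem ModDef_mdl0 (B : V →L[ℝ] V →L[ℝ] ℝ) (μ : ℝ) (e p : V) : mdl0 B μ e p =
    fun x => -(μ * ⟪e, x - p⟫) +
      2⁻¹ * B (ModDef_oL e (x - p)) (ModDef_oL e (x - p)) := by
  funext x
  rw [ModDef_oL_apply, mdl0]
  ring

private theorem ModDef_mdl1 (B : V →L[ℝ] V →L[ℝ] ℝ) (μ a : ℝ) (e u p : V) : mdl1 B μ a e u p =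
    fun x => -(μ * ⟪e, x - p⟫) - 2⁻¹ * a * ⟪u, x - p⟫ ^ 2 +
      2⁻¹ * B (ModDef_wL e u (x - p)) (ModDef_wL e u (x - p)) := by
  funext x
  rw [ModDef_wL_apply, mdl1]
  ring

theorem mdl0_contDiff (B : V →L[ℝ] V →L[ℝ] ℝ) (μ : ℝ) (e p : V) :
    ContDiff ℝ ∞ (mdl0 B μ e p) := by
  rw [ModDef_mdl0]
  exact (contDiff_const.mul (ModDef_innerC e p)).neg.add
    (contDiff_const.mul (ModDef_quadC B _ p))

theorem mdl1_contDiff (B : V →L[ℝ] V →L[ℝ] ℝ) (μ a : ℝ) (e u p : V) :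
    ContDiff ℝ ∞ (mdl1 B μ a e u p) := by
  rw [ModDef_mdl1]
  exact ((contDiff_const.mul (ModDef_innerC e p)).neg.sub
    (contDiff_const.mul ((ModDef_innerC u p).pow 2))).add
    (contDiff_const.mul (ModDef_quadC B _ p))

theorem mdl0_fderiv (B : V →L[ℝ] V →L[ℝ] ℝ) (μ : ℝ) (e p x v : V) :
    fderiv ℝ (mdl0 B μ e p) x v = -(μ * ⟪e, v⟫) +
      (B (orth e (x - p)) (orth e v) + B (orth e v) (orth e (x - p))) / 2 := by
  rw [ModDef_mdl0]
  have h := (((ModDef_inner e p x).const_mul μ).neg).add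
    ((ModDef_quad B (ModDef_oL e) p x).const_mul 2⁻¹)
  have h2 : fderiv ℝ (fun x => -(μ * ⟪e, x - p⟫) +
      2⁻¹ * B (ModDef_oL e (x - p)) (ModDef_oL e (x - p))) x = _ := HasFDerivAt.fderiv h
  rw [h2]
  simp only [_root_.add_apply, _root_.neg_apply,
    _root_.smul_apply, ContinuousLinearMap.comp_apply,
    ContinuousLinearMap.flip_apply, innerSL_apply_apply, smul_eq_mul, ModDef_oL_apply]
  ring

theorem mdl1_fderiv (B : V →L[ℝ] V →L[ℝ] ℝ) (μ a : ℝ) (e u p x v : V) :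
    fderiv ℝ (mdl1 B μ a e u p) x v = -(μ * ⟪e, v⟫) - a * ⟪u, x - p⟫ * ⟪u, v⟫ +
      (B (wc e u (x - p)) (wc e u v) + B (wc e u v) (wc e u (x - p))) / 2 := by
  rw [ModDef_mdl1]
  have h := ((((ModDef_inner e p x).const_mul μ).neg).sub
    (((ModDef_inner u p x).pow 2).const_mul (2⁻¹ * a))).add
    ((ModDef_quad B (ModDef_wL e u) p x).const_mul 2⁻¹)
  have h2 : fderiv ℝ (fun x => -(μ * ⟪e, x - p⟫) - 2⁻¹ * a * ⟪u, x - p⟫ ^ 2 +
      2⁻¹ * B (ModDef_wL e u (x - p)) (ModDef_wL e u (x - p))) x = _ := HasFDerivAt.fderiv h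
  rw [h2]
  simp only [_root_.add_apply, _root_.neg_apply,
    _root_.sub_apply,
    _root_.smul_apply, ContinuousLinearMap.comp_apply,
    ContinuousLinearMap.flip_apply, innerSL_apply_apply, smul_eq_mul, ModDef_wL_apply]
  ring

theorem inner_wc {e u : V} (he : ‖e‖ = 1) (hu : ‖u‖ = 1) (heu : ⟪e, u⟫ = 0) (x : V) :
    ⟪e, wc e u x⟫ = 0 ∧ ⟪u, wc e u x⟫ = 0 := by
  have hue : ⟪u, e⟫ = 0 := by rw [real_inner_comm, heu]
  constructor
  · rw [wc, inner_sub_right, inner_sub_right, real_inner_smul_right, real_inner_smul_right,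
      real_inner_self_eq_norm_sq, he, heu]
    ring
  · rw [wc, inner_sub_right, inner_sub_right, real_inner_smul_right, real_inner_smul_right,
      real_inner_self_eq_norm_sq, hu, hue]
    ring

theorem norm_sq_wc {e u : V} (he : ‖e‖ = 1) (hu : ‖u‖ = 1) (heu : ⟪e, u⟫ = 0) (x : V) :
    ‖x‖ ^ 2 = ⟪e, x⟫ ^ 2 + ⟪u, x⟫ ^ 2 + ‖wc e u x‖ ^ 2 := by
  obtain ⟨h1, h2⟩ := inner_wc he hu heu x
  have hx : x = wc e u x + ⟪e, x⟫ • e + ⟪u, x⟫ • u := by
    rw [wc]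
    abel
  have hue : ⟪u, e⟫ = 0 := by rw [real_inner_comm, heu]
  have h1' : ⟪wc e u x, e⟫ = 0 := by rw [real_inner_comm, h1]
  have h2' : ⟪wc e u x, u⟫ = 0 := by rw [real_inner_comm, h2]
  have key : ∀ (w : V) (a b : ℝ), ⟪e, w⟫ = 0 → ⟪u, w⟫ = 0 → ⟪w, e⟫ = 0 → ⟪w, u⟫ = 0 →
      ‖w + a • e + b • u‖ ^ 2 = a ^ 2 + b ^ 2 + ‖w‖ ^ 2 := by
    intro w a b k1 k2 k3 k4
    rw [← real_inner_self_eq_norm_sq (w + a • e + b • u)]
    simp only [inner_add_left, inner_add_right, real_inner_smul_left, real_inner_smul_right, k1,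
      k2, k3, k4, heu, hue, real_inner_self_eq_norm_sq, norm_smul, mul_pow, he, hu,
      Real.norm_eq_abs, sq_abs]
    ring
  calc ‖x‖ ^ 2 = ‖wc e u x + ⟪e, x⟫ • e + ⟪u, x⟫ • u‖ ^ 2 := by rw [← hx]
    _ = _ := key _ _ _ h1 h2 h1' h2'

/-- The vector with given components: for `v = α • e + β • u + w`, `w` orthogonal to both. -/
theorem comp_of {e u w : V} (he : ‖e‖ = 1) (hu : ‖u‖ = 1) (heu : ⟪e, u⟫ = 0) (hw : ⟪e, w⟫ = 0)
    (hw' : ⟪u, w⟫ = 0) (α β : ℝ) : ⟪e, α • e + β • u + w⟫ = α ∧ ⟪u, α • e + β • u + w⟫ = β ∧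
      wc e u (α • e + β • u + w) = w := by
  have hue : ⟪u, e⟫ = 0 := by rw [real_inner_comm, heu]
  have h1 : ⟪e, α • e + β • u + w⟫ = α := by
    rw [inner_add_right, inner_add_right, real_inner_smul_right, real_inner_smul_right,
      real_inner_self_eq_norm_sq, he, heu, hw]
    ring
  have h2 : ⟪u, α • e + β • u + w⟫ = β := by
    rw [inner_add_right, inner_add_right, real_inner_smul_right, real_inner_smul_right,
      real_inner_self_eq_norm_sq, hu, hue, hw']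
    ring
  refine ⟨h1, h2, ?_⟩
  rw [wc, h1, h2]
  abel

private theorem ModDef_pos [FiniteDimensional ℝ V] (B : V →L[ℝ] V →L[ℝ] ℝ) {S : Set V}
    (hS : IsClosed S) (hc : ∀ w ∈ S, ∀ c : ℝ, c • w ∈ S) (hB : ∀ w ∈ S, w ≠ 0 → 0 < B w w) :
    ∃ β : ℝ, 0 < β ∧ ∀ w ∈ S, β * ‖w‖ ^ 2 ≤ B w w := by
  have hcont : Continuous fun w : V => B w w := B.continuous.clm_apply continuous_id
  have hK : IsCompact (S ∩ Metric.sphere (0 : V) 1) := (isCompact_sphere (0 : V) 1).inter_left hS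
  have hscale : ∀ w ∈ S, w ≠ 0 → ‖w‖⁻¹ • w ∈ S ∩ Metric.sphere (0 : V) 1 := by
    intro w hw h0
    refine ⟨hc w hw _, ?_⟩
    rw [mem_sphere_zero_iff_norm, norm_smul, norm_inv, norm_norm,
      inv_mul_cancel₀ (norm_ne_zero_iff.2 h0)]
  rcases (S ∩ Metric.sphere (0 : V) 1).eq_empty_or_nonempty with hE | hN
  · refine ⟨1, one_pos, fun w hw => ?_⟩
    have h0 : w = 0 := by
      by_contra h0
      have h := hscale w hw h0
      rw [hE] at h
      exact h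
    subst h0
    simp
  · obtain ⟨w0, ⟨h1, h2⟩, h3⟩ := hK.exists_isMinOn hN hcont.continuousOn
    have h0 : w0 ≠ 0 := by
      rintro rfl
      simp at h2
    refine ⟨B w0 w0, hB w0 h1 h0, fun w hw => ?_⟩
    by_cases hw0 : w = 0
    · subst hw0
      simp
    · have h4 : B w0 w0 ≤ B (‖w‖⁻¹ • w) (‖w‖⁻¹ • w) := h3 (hscale w hw hw0)
      have h5 : B (‖w‖⁻¹ • w) (‖w‖⁻¹ • w) = (‖w‖ ^ 2)⁻¹ * B w w := by
        rw [map_smul, map_smul, _root_.smul_apply, smul_eq_mul, smul_eq_mul]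
        ring
      have h6 : 0 < ‖w‖ ^ 2 := by positivity
      rw [h5] at h4
      calc B w0 w0 * ‖w‖ ^ 2 ≤ ((‖w‖ ^ 2)⁻¹ * B w w) * ‖w‖ ^ 2 :=
            mul_le_mul_of_nonneg_right h4 h6.le
        _ = B w w := by field_simp

/-- PROOF. Minimum of `B w w` on the compact unit sphere of the subspace (if it is empty take `1`). -/
theorem pos_form_orth [FiniteDimensional ℝ V] {e : V} (B : V →L[ℝ] V →L[ℝ] ℝ)
    (hB : ∀ w, ⟪e, w⟫ = 0 → w ≠ 0 → 0 < B w w) :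
    ∃ β : ℝ, 0 < β ∧ ∀ w, ⟪e, w⟫ = 0 → β * ‖w‖ ^ 2 ≤ B w w := by
  have hcl : IsClosed {w : V | ⟪e, w⟫ = 0} :=
    isClosed_eq (continuous_const.inner continuous_id) continuous_const
  refine ModDef_pos B hcl (fun w hw c => ?_) hB
  have hw' : ⟪e, w⟫ = 0 := hw
  show ⟪e, c • w⟫ = 0
  rw [real_inner_smul_right, hw', mul_zero]

theorem pos_form_wc [FiniteDimensional ℝ V] {e u : V} (B : V →L[ℝ] V →L[ℝ] ℝ)
    (hB : ∀ w, ⟪e, w⟫ = 0 → ⟪u, w⟫ = 0 → w ≠ 0 → 0 < B w w) :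
    ∃ β : ℝ, 0 < β ∧ ∀ w, ⟪e, w⟫ = 0 → ⟪u, w⟫ = 0 → β * ‖w‖ ^ 2 ≤ B w w := by
  have hcl : IsClosed {w : V | ⟪e, w⟫ = 0 ∧ ⟪u, w⟫ = 0} :=
    (isClosed_eq (continuous_const.inner continuous_id) continuous_const).inter
      (isClosed_eq (continuous_const.inner continuous_id) continuous_const)
  obtain ⟨β, hβ, h⟩ := ModDef_pos B hcl (fun w hw c => by
    obtain ⟨h1, h2⟩ : ⟪e, w⟫ = 0 ∧ ⟪u, w⟫ = 0 := hw
    exact ⟨by rw [real_inner_smul_right, h1, mul_zero], by rw [real_inner_smul_right, h2, mul_zero]⟩)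
    (fun w hw => hB w hw.1 hw.2)
  exact ⟨β, hβ, fun w h1 h2 => h w ⟨h1, h2⟩⟩

end Pool.Schoen
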