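import Pool.Agent.H.MP_6c077c_gt.Ix.ModA

/-! Index theorem: no new inward points when passing to the model. -/

set_option autoImplicit false

namespace Pool.Schoen

open Filter Set
open scoped Topology RealInnerProductSpace ContDiff

variable {V : Type*} [NormedAddCommGroup V] [InnerProductSpace ℝ V] [FiniteDimensional ℝ V]

/-- Cutoff functions: there is a constant `C` such that for every `r > 0` there is a smooth `χ` with
values in `[0, 1]`, equal to one for `‖x - p‖ ≤ r / 4`, to zero for `r / 2 ≤ ‖x - p‖`, and `‖χ'‖ ≤ C / r`.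
PROOF. `χ x = χ₀ ((x - p) / r)` for one `ContDiffBump` `χ₀` (compact support, so `χ₀'` is bounded). -/
theorem cutoff_exists (V : Type*) [NormedAddCommGroup V] [InnerProductSpace ℝ V]
    [FiniteDimensional ℝ V] (p : V) :
    ∃ C : ℝ, 0 < C ∧ ∀ r : ℝ, 0 < r → ∃ χ : V → ℝ, ContDiff ℝ ∞ χ ∧
      (∀ x, χ x ∈ Icc (0 : ℝ) 1) ∧ (∀ x, ‖x - p‖ ≤ r / 4 → χ x = 1) ∧
      (∀ x, r / 2 ≤ ‖x - p‖ → χ x = 0) ∧ ∀ x, ‖fderiv ℝ χ x‖ ≤ C / r := by
  obtain ⟨C, hC⟩ : ∃ C : ℝ, ∀ x : V, ‖fderiv ℝ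
      (fun x : V => (⟨1 / 4, 1 / 2, by norm_num, by norm_num⟩ : ContDiffBump (0 : V)) x) x‖ ≤ C := by
    have hcs : HasCompactSupport
        (fun x : V => (⟨1 / 4, 1 / 2, by norm_num, by norm_num⟩ : ContDiffBump (0 : V)) x) :=
      (⟨1 / 4, 1 / 2, by norm_num, by norm_num⟩ : ContDiffBump (0 : V)).hasCompactSupport
    have hsm : ContDiff ℝ ∞
        (fun x : V => (⟨1 / 4, 1 / 2, by norm_num, by norm_num⟩ : ContDiffBump (0 : V)) x) :=
      (⟨1 / 4, 1 / 2, by norm_num, by norm_num⟩ : ContDiffBump (0 : V)).contDiff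
    exact (hcs.fderiv ℝ).exists_bound_of_continuous (hsm.continuous_fderiv (by simp))
  refine ⟨max C 1, by positivity, ?_⟩
  intro r hr
  have hri : 0 < r⁻¹ := inv_pos.2 hr
  let b : ContDiffBump (0 : V) := ⟨1 / 4, 1 / 2, by norm_num, by norm_num⟩
  have hbs : ContDiff ℝ ∞ (fun x : V => b x) := b.contDiff
  have hn : ∀ x : V, ‖r⁻¹ • (x - p)‖ = ‖x - p‖ / r := by
    intro x
    rw [norm_smul, Real.norm_eq_abs, abs_of_pos hri, div_eq_inv_mul]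
  refine ⟨fun x => b (r⁻¹ • (x - p)), ?_, ?_, ?_, ?_, ?_⟩
  · exact hbs.comp ((contDiff_id.sub contDiff_const).const_smul r⁻¹)
  · intro x
    exact ⟨b.nonneg, b.le_one⟩
  · intro x hx
    apply b.one_of_mem_closedBall
    rw [mem_closedBall_zero_iff, hn, div_le_iff₀ hr]
    show ‖x - p‖ ≤ 1 / 4 * r
    linarith
  · intro x hx
    apply b.zero_of_le_dist
    rw [dist_zero_right, hn, le_div_iff₀ hr]
    show 1 / 2 * r ≤ ‖x - p‖
    linarith
  · intro x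
    have h1 : HasFDerivAt (fun x : V => r⁻¹ • (x - p)) (r⁻¹ • ContinuousLinearMap.id ℝ V) x :=
      ((hasFDerivAt_id x).sub_const p).const_smul r⁻¹
    have h2 : HasFDerivAt (fun x : V => b x) (fderiv ℝ (fun x : V => b x) (r⁻¹ • (x - p)))
        (r⁻¹ • (x - p)) :=
      (hbs.differentiable (by simp)).differentiableAt.hasFDerivAt
    have h3 := h2.comp x h1
    have h4 : fderiv ℝ (fun x : V => b (r⁻¹ • (x - p))) x =
        (fderiv ℝ (fun x : V => b x) (r⁻¹ • (x - p))).comp (r⁻¹ • ContinuousLinearMap.id ℝ V) :=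
      h3.fderiv
    rw [h4]
    refine (ContinuousLinearMap.opNorm_comp_le _ _).trans ?_
    have h5 : ‖r⁻¹ • ContinuousLinearMap.id ℝ V‖ ≤ r⁻¹ := by
      rw [norm_smul, Real.norm_eq_abs, abs_of_pos hri]
      exact mul_le_of_le_one_right hri.le ContinuousLinearMap.norm_id_le
    have h6 := hC (r⁻¹ • (x - p))
    rw [div_eq_mul_inv]
    exact mul_le_mul (h6.trans (le_max_left _ _)) h5 (norm_nonneg _) (by positivity)

/-- Real estimate used below (`n = ‖y‖`, `h = ‖x - p‖`).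
PROOF. `K |z| h ≤ (μ / 4) |z|` and `κ h ^ 2 ≤ n ^ 2 + z ^ 2 ≤ n ^ 2 + |z| h ≤ n ^ 2 + (μ / 4) |z|`, so
`μ |z| ≤ (b + 1) n ^ 2 + (μ / 2) |z|`. -/
theorem zero_estimate {μ b K κ n h z : ℝ} (hμ : 0 < μ) (hn : 0 ≤ n) (hh : 0 ≤ h) (hz : |z| ≤ h)
    (hb : 0 ≤ b) (hK : 0 ≤ K) (hκ : 0 ≤ κ) (hκ1 : κ ≤ 1) (h1 : μ * |z| ≤ b * n ^ 2 + K * |z| * h +
      κ * h ^ 2) (h2 : h ^ 2 = n ^ 2 + z ^ 2) (h3 : K * h ≤ μ / 4) (h4 : h ≤ μ / 4) :
    |z| ≤ 2 * (b + 1) / μ * n ^ 2 := by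
  have hz0 : 0 ≤ |z| := abs_nonneg z
  have e1 : K * |z| * h ≤ μ / 4 * |z| := by
    calc K * |z| * h = (K * h) * |z| := by ring
      _ ≤ μ / 4 * |z| := mul_le_mul_of_nonneg_right h3 hz0
  have e2 : z ^ 2 ≤ μ / 4 * |z| := by
    rw [← sq_abs, sq]
    exact mul_le_mul_of_nonneg_right (hz.trans h4) hz0
  have e3 : κ * h ^ 2 ≤ h ^ 2 := mul_le_of_le_one_left (sq_nonneg h) hκ1
  have e4 : μ / 2 * |z| ≤ (b + 1) * n ^ 2 := by
    rw [h2] at e3
    rw [h2] at h1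
    linarith
  rw [div_mul_eq_mul_div, le_div_iff₀ hμ]
  linarith

/-- Let `m` be the model and `g_t = f + t χ (m - f)`, where `χ` is a cutoff function for the radius `r`.
For small `r` every zero `x ≠ p` of `g_t` in the ball of radius `r` has a direction `v` with `⟪e, v⟫ < 0` and
`g_t' v < 0`.
PROOF. `h = x - p = z e + y`. Let `S, c` be as in `inw_operator`, `v = - S y - κ' ‖y‖ ^ 2 e` with
`μ κ' ≤ c ^ 2 / 4`, `κ' ≤ 1`. As `g_t = m - (1 - t χ) (m - f)`,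
`g_t' v = m' v - (1 - t χ) (m' v - f' v) + t χ' v (m - f)`, and `m' v = μ κ' ‖y‖ ^ 2 - B y (S y)`,
`B y (S y) = ‖S y‖ ^ 2 ≥ c ^ 2 ‖y‖ ^ 2` (`mdl0_fderiv`, symmetry).
The zero: `μ |z| ≤ ‖B‖ ‖y‖ ^ 2 / 2 + |m - f|`, so by `mdl_close` and `zero_estimate`
`|z| ≤ K₂ ‖y‖ ^ 2`; hence `y ≠ 0` and (for `K₂ r ≤ 1`) `‖h‖ ≤ 2 ‖y‖`. Errors:
`|m' v - f' v| ≤ K ‖h‖ κ' ‖y‖ ^ 2 + (K |z| + κ ‖h‖) ‖v‖`, `‖v‖ ≤ (‖S‖ + 1) ‖y‖` (`r ≤ 1`),
`|χ' v (m - f)| ≤ (C / r) ‖v‖ (K |z| ‖h‖ + κ ‖h‖ ^ 2) ≤ C ‖v‖ (K |z| + κ ‖h‖)`.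
Together at most `‖y‖ ^ 2 (2 K r + (K K₂ r + 2 κ) (‖S‖ + 1) (1 + C)) ≤ (c ^ 2 / 4) ‖y‖ ^ 2` if first `κ` and
then `r` is small. So `g_t' v ≤ - (c ^ 2 / 2) ‖y‖ ^ 2 < 0` and `⟪e, v⟫ = - κ' ‖y‖ ^ 2 < 0`. -/
theorem model_zero {f : V → ℝ} {e p : V} (he : ‖e‖ = 1) (h : Inw f e p) {μ : ℝ} (hμ0 : 0 < μ)
    (hμ : ∀ v, fderiv ℝ f p v = -(μ * ⟪e, v⟫)) (C : ℝ) (hC : 0 < C) :
    ∃ r0 : ℝ, 0 < r0 ∧ ∀ r : ℝ, 0 < r → r < r0 → (∀ x, ‖x - p‖ < r → ContDiffAt ℝ 2 f x) ∧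
      ∀ χ : V → ℝ, ContDiff ℝ ∞ χ → (∀ x, χ x ∈ Icc (0 : ℝ) 1) → (∀ x, ‖fderiv ℝ χ x‖ ≤ C / r) →
      ∀ t ∈ Icc (0 : ℝ) 1, ∀ x, x ≠ p → ‖x - p‖ < r →
        f x + t * (χ x * (mdl0 (fderiv ℝ (fderiv ℝ f) p) μ e p x - f x)) = 0 →
        ∃ v, ⟪e, v⟫ < 0 ∧ fderiv ℝ (fun x => f x + t * (χ x *
          (mdl0 (fderiv ℝ (fderiv ℝ f) p) μ e p x - f x))) x v < 0 := by
  obtain ⟨S, c, hc, heS, hSB, hcS⟩ := inw_operator he h
  obtain ⟨K, hK, hclose⟩ := mdl_close he h.smooth h.zero hμ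
  set B := fderiv ℝ (fderiv ℝ f) p with hB
  have hsymm : ∀ w w', B w w' = B w' w := hess_symm h.smooth
  obtain ⟨κ', hκ'⟩ : ∃ κ', κ' = min 1 (c ^ 2 / (4 * μ)) := ⟨_, rfl⟩
  have hκ'0 : 0 < κ' := by rw [hκ']; positivity
  have hκ'1 : κ' ≤ 1 := by rw [hκ']; exact min_le_left _ _
  have hκ'2 : μ * κ' ≤ c ^ 2 / 4 := by
    calc μ * κ' ≤ μ * (c ^ 2 / (4 * μ)) := by
          apply mul_le_mul_of_nonneg_left _ hμ0.le
          rw [hκ']
          exact min_le_right _ _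
      _ = c ^ 2 / 4 := by field_simp
  obtain ⟨s, hs⟩ : ∃ s, s = ‖S‖ + 1 := ⟨_, rfl⟩
  have hs0 : 0 < s := by rw [hs]; positivity
  obtain ⟨κ, hκ⟩ : ∃ κ, κ = min 1 (c ^ 2 / (16 * s * (1 + C))) := ⟨_, rfl⟩
  have hκ0 : 0 < κ := by rw [hκ]; positivity
  have hκ1 : κ ≤ 1 := by rw [hκ]; exact min_le_left _ _
  have hκ2 : 2 * κ * (s * (1 + C)) ≤ c ^ 2 / 8 := by
    have h1 : κ ≤ c ^ 2 / (16 * s * (1 + C)) := by rw [hκ]; exact min_le_right _ _
    rw [le_div_iff₀ (by positivity)] at h1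
    linarith
  obtain ⟨r1, hr1, hcl⟩ := hclose κ hκ0
  obtain ⟨K₂, hK₂⟩ : ∃ K₂, K₂ = 2 * (‖B‖ / 2 + 1) / μ := ⟨_, rfl⟩
  have hK₂0 : 0 < K₂ := by rw [hK₂]; positivity
  refine ⟨min r1 (min 1 (min (μ / (4 * K)) (min (μ / 4) (min (1 / K₂) (min (c ^ 2 / (16 * K))
    (c ^ 2 / (16 * K * K₂ * s * (1 + C)))))))), by positivity, ?_⟩
  intro r hr0 hr
  simp only [lt_min_iff] at hr
  obtain ⟨hrr1, hr1', hr2, hr3, hr4, hr5, hr6⟩ := hr
  rw [lt_div_iff₀ (by positivity)] at hr2 hr4 hr5 hr6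
  refine ⟨fun x hx => (hcl x (hx.trans hrr1)).1, ?_⟩
  intro χ hχ hχ01 hχd t ht x hxp hx hg
  obtain ⟨hfx, hm1, hm2⟩ := hcl x (hx.trans hrr1)
  obtain ⟨n, hn⟩ : ∃ n, n = ‖orth e (x - p)‖ := ⟨_, rfl⟩
  obtain ⟨hh, hhd⟩ : ∃ hh, hh = ‖x - p‖ := ⟨_, rfl⟩
  obtain ⟨z, hz⟩ : ∃ z, z = ⟪e, x - p⟫ := ⟨_, rfl⟩
  obtain ⟨y, hy⟩ : ∃ y, y = orth e (x - p) := ⟨_, rfl⟩
  have hn0 : 0 ≤ n := by rw [hn]; exact norm_nonneg _
  have hh0 : 0 ≤ hh := by rw [hhd]; exact norm_nonneg _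
  have hey : ⟪e, y⟫ = 0 := by rw [hy]; exact inner_orth he _
  have hny : ‖y‖ = n := by rw [hn, hy]
  have hpyth : hh ^ 2 = n ^ 2 + z ^ 2 := by
    rw [hhd, hn, hz, norm_sq_orth he (x - p)]
    ring
  have hzh : |z| ≤ hh := by
    rw [← abs_of_nonneg hh0, ← sq_le_sq, hpyth]
    exact le_add_of_nonneg_left (sq_nonneg n)
  have hnh : n ≤ hh := by
    rw [← abs_of_nonneg hh0, ← abs_of_nonneg hn0, ← sq_le_sq, hpyth]
    exact le_add_of_nonneg_right (sq_nonneg z)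
  rw [← hhd] at hx
  rw [← hz, ← hhd] at hm1
  have hmval : mdl0 B μ e p x = -(μ * z) + B y y / 2 := by
    unfold mdl0
    rw [hz, hy]
  obtain ⟨m, hm⟩ : ∃ m, m = mdl0 B μ e p x := ⟨_, rfl⟩
  rw [← hm] at hm1 hg hmval
  have hχx := hχ01 x
  have htχ0 : 0 ≤ t * χ x := mul_nonneg ht.1 hχx.1
  have htχ1 : t * χ x ≤ 1 := mul_le_one₀ ht.2 hχx.1 hχx.2
  have hmabs : |m| ≤ |m - f x| := by
    have h1 : m = (1 - t * χ x) * (m - f x) := by linarith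
    have h2 : |m| = |1 - t * χ x| * |m - f x| := by
      rw [← abs_mul, ← h1]
    rw [h2]
    apply mul_le_of_le_one_left (abs_nonneg _)
    rw [abs_of_nonneg (by linarith)]
    linarith
  have hByy : |B y y| ≤ ‖B‖ * n ^ 2 := by
    have h1 := B.le_opNorm₂ y y
    rw [hny, Real.norm_eq_abs] at h1
    rw [sq, ← mul_assoc]
    exact h1
  have hKh : K * hh ≤ μ / 4 := by
    have := mul_lt_mul_of_pos_right hx hK
    linarith
  have hh4 : hh ≤ μ / 4 := by linarith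
  have hzest : |z| ≤ K₂ * n ^ 2 := by
    rw [hK₂]
    apply zero_estimate hμ0 hn0 hh0 hzh (by positivity) hK.le hκ0.le hκ1 _ hpyth hKh hh4
    have h1 : μ * |z| = |m - B y y / 2| := by
      rw [hmval, show -(μ * z) + B y y / 2 - B y y / 2 = -(μ * z) by ring, abs_neg, abs_mul,
        abs_of_pos hμ0]
    have h2 : |m - B y y / 2| ≤ |m| + |B y y| / 2 := by
      have h3 := abs_sub m (B y y / 2)
      rw [abs_div, abs_two] at h3
      exact h3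
    have h3 : ‖B‖ / 2 * n ^ 2 = ‖B‖ * n ^ 2 / 2 := by ring
    rw [h1, h3]
    linarith
  have hnpos : 0 < n := by
    rcases hn0.eq_or_lt with h1 | h1
    · exfalso
      rw [← h1] at hzest hpyth
      have h2 : |z| = 0 := le_antisymm (by simpa using hzest) (abs_nonneg _)
      rw [abs_eq_zero] at h2
      rw [h2] at hpyth
      have h3 : hh = 0 := by
        have : hh ^ 2 = 0 := by rw [hpyth]; ring
        exact pow_eq_zero_iff (two_ne_zero) |>.1 this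
      rw [hhd, norm_eq_zero, sub_eq_zero] at h3
      exact hxp h3
    · exact h1
  have hnr : n < r := lt_of_le_of_lt hnh hx
  have hn1 : n ≤ 1 := by linarith
  have hK₂n : K₂ * n ≤ 1 := by
    have := mul_lt_mul_of_pos_right hnr hK₂0
    linarith
  have hzn : |z| ≤ n := by
    calc |z| ≤ K₂ * n ^ 2 := hzest
      _ = (K₂ * n) * n := by ring
      _ ≤ 1 * n := mul_le_mul_of_nonneg_right hK₂n hn0
      _ = n := one_mul n
  have hh2n : hh ≤ 2 * n := by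
    have h1 : z ^ 2 ≤ n ^ 2 := by
      rw [← sq_abs z]
      exact pow_le_pow_left₀ (abs_nonneg z) hzn 2
    have h2 : hh ^ 2 ≤ (2 * n) ^ 2 := by
      have h3 : (2 * n) ^ 2 = 4 * n ^ 2 := by ring
      rw [h3, hpyth]
      linarith [sq_nonneg n]
    exact (sq_le_sq₀ hh0 (by positivity)).1 h2
  -- the direction
  obtain ⟨v, hv⟩ : ∃ v, v = -(S y) - (κ' * n ^ 2) • e := ⟨_, rfl⟩
  have hev : ⟪e, v⟫ = -(κ' * n ^ 2) := by
    rw [hv, inner_sub_right, inner_neg_right, heS, real_inner_smul_right,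
      real_inner_self_eq_norm_sq, he]
    ring
  have hov : orth e v = -(S y) := by
    unfold orth
    rw [hev, hv]
    module
  have hvn : ‖v‖ ≤ s * n := by
    rw [hv]
    refine (norm_sub_le _ _).trans ?_
    rw [norm_neg, norm_smul, he, mul_one, Real.norm_eq_abs, abs_of_nonneg (by positivity), hs]
    have h1 := S.le_opNorm y
    rw [hny] at h1
    have h2 : κ' * n ^ 2 ≤ n := by
      calc κ' * n ^ 2 ≤ 1 * n ^ 2 := mul_le_mul_of_nonneg_right hκ'1 (sq_nonneg n)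
        _ = n * n := by ring
        _ ≤ 1 * n := mul_le_mul_of_nonneg_right hn1 hn0
        _ = n := one_mul n
    linarith
  have hmv : fderiv ℝ (mdl0 B μ e p) x v ≤ -(3 / 4 * c ^ 2) * n ^ 2 := by
    rw [mdl0_fderiv, hev, hov, ← hy]
    have h1 : B y (-(S y)) = -‖S y‖ ^ 2 := by
      rw [map_neg, ← hSB y (S y) (heS y), real_inner_self_eq_norm_sq]
    have h2 : B (-(S y)) y = -‖S y‖ ^ 2 := by rw [hsymm, h1]
    rw [h1, h2]
    have h3 := hcS y hey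
    rw [hny] at h3
    have h4 : (c * n) ^ 2 ≤ ‖S y‖ ^ 2 := pow_le_pow_left₀ (by positivity) h3 2
    have h5 : μ * κ' * n ^ 2 ≤ c ^ 2 / 4 * n ^ 2 := mul_le_mul_of_nonneg_right hκ'2 (sq_nonneg n)
    rw [mul_pow] at h4
    linarith
  have hdiff : |fderiv ℝ (mdl0 B μ e p) x v - fderiv ℝ f x v| ≤
      K * r * n ^ 2 + (K * K₂ * r + 2 * κ) * s * n ^ 2 := by
    refine (hm2 v).trans ?_
    rw [← hz, ← hhd, hev, abs_neg, abs_of_nonneg (by positivity)]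
    have h1 : K * hh * (κ' * n ^ 2) ≤ K * r * n ^ 2 := by
      have h2 : κ' * n ^ 2 ≤ n ^ 2 := mul_le_of_le_one_left (sq_nonneg n) hκ'1
      exact mul_le_mul (mul_le_mul_of_nonneg_left hx.le hK.le) h2 (by positivity) (by positivity)
    have h2 : K * |z| + κ * hh ≤ (K * K₂ * r + 2 * κ) * n := by
      have h3 : K * |z| ≤ K * (K₂ * n ^ 2) := mul_le_mul_of_nonneg_left hzest hK.le
      have h4 : κ * hh ≤ κ * (2 * n) := mul_le_mul_of_nonneg_left hh2n hκ0.le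
      have h5 : K * (K₂ * n ^ 2) ≤ K * K₂ * r * n := by
        calc K * (K₂ * n ^ 2) = (K * K₂ * n) * n := by ring
          _ ≤ (K * K₂ * r) * n := by gcongr
      linarith
    have h6 : (K * |z| + κ * hh) * ‖v‖ ≤ (K * K₂ * r + 2 * κ) * n * (s * n) :=
      mul_le_mul h2 hvn (norm_nonneg _) (by positivity)
    calc K * hh * (κ' * n ^ 2) + (K * |z| + κ * hh) * ‖v‖
        ≤ K * r * n ^ 2 + (K * K₂ * r + 2 * κ) * n * (s * n) := add_le_add h1 h6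
      _ = _ := by ring
  have hχterm : |fderiv ℝ χ x v * (m - f x)| ≤ C * ((K * K₂ * r + 2 * κ) * s * n ^ 2) := by
    rw [abs_mul]
    have h1 : |fderiv ℝ χ x v| ≤ C / r * (s * n) := by
      have h2 := (fderiv ℝ χ x).le_opNorm v
      rw [Real.norm_eq_abs] at h2
      exact h2.trans (mul_le_mul (hχd x) hvn (norm_nonneg _) (by positivity))
    have h2 : K * |z| + κ * hh ≤ (K * K₂ * r + 2 * κ) * n := by
      have h3 : K * |z| ≤ K * (K₂ * n ^ 2) := mul_le_mul_of_nonneg_left hzest hK.le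
      have h4 : κ * hh ≤ κ * (2 * n) := mul_le_mul_of_nonneg_left hh2n hκ0.le
      have h5 : K * (K₂ * n ^ 2) ≤ K * K₂ * r * n := by
        calc K * (K₂ * n ^ 2) = (K * K₂ * n) * n := by ring
          _ ≤ (K * K₂ * r) * n := by gcongr
      linarith
    have h3 : |m - f x| ≤ r * ((K * K₂ * r + 2 * κ) * n) := by
      refine hm1.trans ?_
      calc K * |z| * hh + κ * hh ^ 2 = hh * (K * |z| + κ * hh) := by ring
        _ ≤ r * ((K * K₂ * r + 2 * κ) * n) :=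
          mul_le_mul hx.le h2 (by positivity) hr0.le
    calc |fderiv ℝ χ x v| * |m - f x| ≤ (C / r * (s * n)) * (r * ((K * K₂ * r + 2 * κ) * n)) :=
          mul_le_mul h1 h3 (abs_nonneg _) (by positivity)
      _ = C * ((K * K₂ * r + 2 * κ) * s * n ^ 2) := by field_simp
  have hfd : fderiv ℝ (fun x => f x + t * (χ x * (mdl0 B μ e p x - f x))) x v =
      fderiv ℝ f x v + t * (χ x * (fderiv ℝ (mdl0 B μ e p) x v - fderiv ℝ f x v) +
        (mdl0 B μ e p x - f x) * fderiv ℝ χ x v) := by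
    have d1 : HasFDerivAt f (fderiv ℝ f x) x :=
      (hfx.differentiableAt (by norm_num)).hasFDerivAt
    have d2 : HasFDerivAt χ (fderiv ℝ χ x) x :=
      (hχ.differentiable (by simp)).differentiableAt.hasFDerivAt
    have d3 : HasFDerivAt (mdl0 B μ e p) (fderiv ℝ (mdl0 B μ e p) x) x :=
      ((mdl0_contDiff B μ e p).differentiable (by simp)).differentiableAt.hasFDerivAt
    have d4 := d1.add ((d2.mul (d3.sub d1)).const_mul t)
    have d5 : fderiv ℝ (fun x => f x + t * (χ x * (mdl0 B μ e p x - f x))) x = _ := d4.fderiv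
    rw [d5]
    simp only [add_apply, smul_apply, sub_apply, Pi.sub_apply, smul_eq_mul]
  refine ⟨v, ?_, ?_⟩
  · rw [hev]
    have : 0 < κ' * n ^ 2 := by positivity
    linarith
  · rw [hfd, ← hm]
    have hid : fderiv ℝ f x v + t * (χ x * (fderiv ℝ (mdl0 B μ e p) x v - fderiv ℝ f x v) +
        (m - f x) * fderiv ℝ χ x v) = fderiv ℝ (mdl0 B μ e p) x v -
        (1 - t * χ x) * (fderiv ℝ (mdl0 B μ e p) x v - fderiv ℝ f x v) +
        t * (fderiv ℝ χ x v * (m - f x)) := by ring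
    rw [hid]
    have h1 : -((1 - t * χ x) * (fderiv ℝ (mdl0 B μ e p) x v - fderiv ℝ f x v)) ≤
        K * r * n ^ 2 + (K * K₂ * r + 2 * κ) * s * n ^ 2 := by
      refine (neg_le_abs _).trans ?_
      rw [abs_mul, abs_of_nonneg (show 0 ≤ 1 - t * χ x by linarith)]
      exact (mul_le_of_le_one_left (abs_nonneg _) (by linarith)).trans hdiff
    have h2 : t * (fderiv ℝ χ x v * (m - f x)) ≤ C * ((K * K₂ * r + 2 * κ) * s * n ^ 2) := by
      refine (le_abs_self _).trans ?_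
      rw [abs_mul, abs_of_nonneg ht.1]
      exact (mul_le_of_le_one_left (abs_nonneg _) ht.2).trans hχterm
    have h3 : K * r + (K * K₂ * r + 2 * κ) * s * (1 + C) ≤ c ^ 2 / 4 := by
      have h4 : K * r ≤ c ^ 2 / 16 := by linarith
      have h5 : K * K₂ * r * s * (1 + C) ≤ c ^ 2 / 16 := by linarith
      have h6 : (K * K₂ * r + 2 * κ) * s * (1 + C) =
        K * K₂ * r * s * (1 + C) + 2 * κ * (s * (1 + C)) := by ring
      rw [h6]
      linarith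
    have h4 := mul_le_mul_of_nonneg_right h3 (sq_nonneg n)
    have h5 : 0 < c ^ 2 * n ^ 2 := by positivity
    have h6 : (K * r + (K * K₂ * r + 2 * κ) * s * (1 + C)) * n ^ 2 =
      K * r * n ^ 2 + (K * K₂ * r + 2 * κ) * s * n ^ 2 + C * ((K * K₂ * r + 2 * κ) * s * n ^ 2) := by
      ring
    rw [h6] at h4
    linarith

end Pool.Schoen
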