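import Pool.Agent.H.MP_6c077c_gt.Ix.MollB

/-! Index theorem: mollification of one good function. -/

set_option autoImplicit false

namespace Pool.Schoen

open Filter Set
open scoped Topology RealInnerProductSpace ContDiff

variable {V : Type*} [NormedAddCommGroup V] [InnerProductSpace ℝ V] [FiniteDimensional ℝ V]

omit [FiniteDimensional ℝ V] in
/-- Uniform descent near `x` in a direction which is a descent direction at `x`. -/
private def MollDP (f : V → ℝ) (x : V) (e : ℝ) : Prop :=
  ∃ v : V, Desc1 f x v ∧ ∃ c : ℝ, 0 < c ∧ ∀ y, ‖y - x‖ < e →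
    ∀ s, 0 < s → s < e → f (y + s • v) ≤ f y - c * s

omit [FiniteDimensional ℝ V] in
private theorem MollDP_mono {f : V → ℝ} {x : V} {e e' : ℝ} (h : MollDP f x e)
    (he : e' ≤ e) : MollDP f x e' := by
  obtain ⟨v, hv, c, hc, h⟩ := h
  exact ⟨v, hv, c, hc, fun y h2 s hs h3 => h y (h2.trans_le he) s hs (h3.trans_le he)⟩

omit [FiniteDimensional ℝ V] in
private theorem MollD_unif {f : V → ℝ} {x v : V} (h : Desc1 f x v) :
    ∃ d : ℝ, 0 < d ∧ ∀ z, ‖z - x‖ < d → MollDP f z d := by
  obtain ⟨c, hc, d, hd, h1⟩ := h.unif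
  have hnear : ∀ᶠ y in 𝓝 x, Desc1 f y v := Desc.near h
  obtain ⟨d', hd', h2⟩ := Metric.eventually_nhds_iff.1 hnear
  refine ⟨min (d / 2) d', lt_min (by linarith) hd', ?_⟩
  intro z hz
  refine ⟨v, h2 (by rw [dist_eq_norm]; exact hz.trans_le (min_le_right _ _)), c, hc, ?_⟩
  intro y hy s hs hsd
  have a2 : ‖y - z‖ < d / 2 := hy.trans_le (min_le_left _ _)
  have a3 : ‖z - x‖ < d / 2 := hz.trans_le (min_le_left _ _)
  have a4 : s < d := by
    have := hsd.trans_le (min_le_left _ _)
    linarith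
  refine h1 y ?_ v (by simpa using hd) s hs a4
  calc ‖y - x‖ = ‖(y - z) + (z - x)‖ := by congr 1; abel
    _ ≤ ‖y - z‖ + ‖z - x‖ := norm_add_le _ _
    _ < d := by linarith

private theorem MollD_cover {f : V → ℝ} (hf : Good f) (R : ℝ) :
    ∃ e : ℝ, 0 < e ∧ ∀ x, ‖x‖ ≤ R → |f x| ≤ e → MollDP f x e := by
  have : ProperSpace V := FiniteDimensional.proper ℝ V
  have hct : Continuous f := hf.cont
  have hK : IsCompact (Metric.closedBall (0 : V) R) := isCompact_closedBall _ _
  have key : ∃ e : ℝ, 0 < e ∧ ∀ x ∈ Metric.closedBall (0 : V) R, |f x| ≤ e → MollDP f x e := by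
    refine hK.induction_on (p := fun S => ∃ e : ℝ, 0 < e ∧ ∀ x ∈ S, |f x| ≤ e →
      MollDP f x e) ?_ ?_ ?_ ?_
    · exact ⟨1, one_pos, fun x hx => absurd hx (by simp)⟩
    · rintro S S' hSS ⟨e, he, h⟩
      exact ⟨e, he, fun x hx => h x (hSS hx)⟩
    · rintro S S' ⟨e, he, h⟩ ⟨e', he', h'⟩
      refine ⟨min e e', lt_min he he', ?_⟩
      rintro x (hx | hx) hxe
      · exact MollDP_mono (h x hx (hxe.trans (min_le_left _ _))) (min_le_left _ _)
      · exact MollDP_mono (h' x hx (hxe.trans (min_le_right _ _))) (min_le_right _ _)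
    · intro x _
      by_cases hx : f x = 0
      · obtain ⟨v, hv⟩ := hf.desc x hx
        obtain ⟨d, hd0, h⟩ := MollD_unif hv
        refine ⟨Metric.ball x d, mem_nhdsWithin_of_mem_nhds (Metric.ball_mem_nhds x hd0), d, hd0,
          ?_⟩
        intro y hy _
        exact h y (by rwa [← dist_eq_norm])
      · have hpos : 0 < |f x| := abs_pos.2 hx
        refine ⟨{y | |f x| / 2 < |f y|}, mem_nhdsWithin_of_mem_nhds ?_, |f x| / 2,
          by linarith, ?_⟩
        · exact (isOpen_lt continuous_const hct.abs).mem_nhds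
            (show |f x| / 2 < |f x| by linarith)
        · intro y hy hy'
          exact absurd hy (not_lt.2 hy')
  obtain ⟨e, he, h⟩ := key
  exact ⟨e, he, fun x hx => h x (by simpa using hx)⟩

omit [FiniteDimensional ℝ V] in
private theorem MollD_dir {F : V → ℝ} (hF : ContDiff ℝ ∞ F) {x v : V} {c e : ℝ} (hc : 0 < c)
    (he : 0 < e) (h : ∀ s, 0 < s → s < e → F (x + s • v) ≤ F x - c * s) :
    fderiv ℝ F x v < 0 := by
  have hd1 : HasFDerivAt F (fderiv ℝ F x) (x + (0 : ℝ) • v) := by
    rw [zero_smul, add_zero]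
    exact (hF.differentiable (by simp)).differentiableAt.hasFDerivAt
  have hd2 : HasDerivAt (fun s : ℝ => x + s • v) v 0 := by
    have := ((hasDerivAt_id (0 : ℝ)).smul_const v).const_add x
    simpa using this
  have hd3 : HasDerivAt (fun s : ℝ => F (x + s • v)) (fderiv ℝ F x v) 0 :=
    hd1.comp_hasDerivAt 0 hd2
  have hd4 := hd3.tendsto_slope_zero_right
  have hle : fderiv ℝ F x v ≤ -c := by
    refine le_of_tendsto hd4 ?_
    filter_upwards [Ioo_mem_nhdsGT he] with s hs
    have h1 := h s hs.1 hs.2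
    simp only [zero_add, zero_smul, add_zero, smul_eq_mul]
    have h2 : F (x + s • v) - F x ≤ -c * s := by linarith
    calc s⁻¹ * (F (x + s • v) - F x) ≤ s⁻¹ * (-c * s) :=
          mul_le_mul_of_nonneg_left h2 (inv_nonneg.2 hs.1.le)
      _ = -c := by
          have : s ≠ 0 := hs.1.ne'
          field_simp
  linarith

private theorem MollD_sign {f : V → ℝ} (hc : Continuous f) (x : V)
    (hne : ∀ y, ‖y - x‖ < 1 → f y ≠ 0) (hpos : 0 < f x) :
    ∃ a, 0 < a ∧ ∀ y, ‖y - x‖ < 1 / 2 → a ≤ f y := by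
  have : ProperSpace V := FiniteDimensional.proper ℝ V
  have hall : ∀ y, ‖y - x‖ < 1 → 0 < f y := by
    intro y hy
    by_contra hcon
    push Not at hcon
    have hpre : IsPreconnected (Metric.ball x 1) := (convex_ball x 1).isPreconnected
    have hiv := hpre.intermediate_value (f := f)
      (show y ∈ Metric.ball x 1 by simpa [dist_eq_norm] using hy)
      (show x ∈ Metric.ball x 1 by simp) hc.continuousOn
    obtain ⟨p, hp, hp0⟩ := hiv (show (0 : ℝ) ∈ Icc (f y) (f x) from ⟨hcon, hpos.le⟩)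
    exact hne p (by rw [← dist_eq_norm]; exact hp) hp0
  have hK : IsCompact (Metric.closedBall x (1 / 2)) := isCompact_closedBall _ _
  obtain ⟨a, ha, h⟩ := hK.exists_forall_le' hc.continuousOn (a := 0) (fun y hy =>
    hall y (by
      have : dist y x ≤ 1 / 2 := hy
      rw [← dist_eq_norm]
      linarith))
  refine ⟨a, ha, fun y hy => h y ?_⟩
  show dist y x ≤ 1 / 2
  rw [dist_eq_norm]
  exact hy.le

/-- As `adapted_near` (MollB.lean) for a constant family, with the additional statement that `v x`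
is a descent direction of `f` where `|f x| ≤ δ`, and with a prescribed bound `η` for the distance
between `f` and the mollification.  PROOF. Repeat the proof of `adapted_near` with
`P x e := ∃ v c, 0 < c ∧ Desc1 f x v ∧ ∀ y, ‖y - x‖ < e → ∀ s, 0 < s → s < e → f (y + s • v) ≤ f y - c * s`
(`Desc1.unif`, `Desc.near` for points near a zero). The bound by `η`: uniform continuity of `f` on
`closedBall 0 (R + 1)` and `IsMoll.ge`, `IsMoll.le`; `IsMoll.mono`. -/
theorem Good.adapted {f : V → ℝ} (hf : Good f) (η : ℝ) (hη : 0 < η) :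
    ∃ (v : V → V) (δ R ε : ℝ), 0 < δ ∧ 0 < ε ∧
      (∀ x, ‖x‖ ≤ R → |f x| ≤ δ → Desc1 f x (v x)) ∧ (∀ x, R ≤ ‖x‖ → f x ≠ 0) ∧
      ∀ F, ∀ ε' ≤ ε, IsMoll f ε' F → Adapted f v δ R F ∧ ∀ x, ‖x‖ ≤ R → |F x - f x| < η := by
  classical
  have : ProperSpace V := FiniteDimensional.proper ℝ V
  obtain ⟨R0, hR0⟩ := hf.bdd.exists_norm_le
  set R : ℝ := |R0| + 2 with hR
  obtain ⟨e, he, hP⟩ := MollD_cover hf R
  set v : V → V := fun x => if h : MollDP f x e then h.choose else 0 with hv
  have hvP : ∀ x, MollDP f x e → Desc1 f x (v x) ∧ ∃ c : ℝ, 0 < c ∧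
      ∀ y, ‖y - x‖ < e → ∀ s, 0 < s → s < e → f (y + s • v x) ≤ f y - c * s := by
    intro x h
    have : v x = h.choose := by simp [hv, h]
    rw [this]
    exact h.choose_spec
  have hfar : ∀ y, R - 1 < ‖y‖ → f y ≠ 0 := by
    intro y hy h0
    have h1 := hR0 y h0
    have h2 := le_abs_self R0
    linarith
  have huc : UniformContinuousOn f (Metric.closedBall (0 : V) (R + 1)) :=
    (isCompact_closedBall _ _).uniformContinuousOn_of_continuous hf.cont.continuousOn
  have hm : 0 < min (e / 2) (η / 2) := lt_min (by linarith) (by linarith)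
  obtain ⟨ε1, hε1, huc⟩ := Metric.uniformContinuousOn_iff.1 huc (min (e / 2) (η / 2)) hm
  set ε : ℝ := min (min e ε1) (1 / 2) with hε
  have hεpos : 0 < ε := lt_min (lt_min he hε1) (by norm_num)
  have hεe : ε ≤ e := (min_le_left _ _).trans (min_le_left _ _)
  have hεε1 : ε ≤ ε1 := (min_le_left _ _).trans (min_le_right _ _)
  have hεh : ε ≤ 1 / 2 := min_le_right _ _
  refine ⟨v, e, R, ε, he, hεpos, fun x hx hxe => (hvP x (hP x hx hxe)).1,
    fun x hx => hfar x (by linarith), ?_⟩
  intro F ε' hε' hF'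
  have hF : IsMoll f ε F := hF'.mono hε'
  have hclose : ∀ x, ‖x‖ ≤ R → |F x - f x| ≤ min (e / 2) (η / 2) := by
    intro x hx
    have hnear : ∀ y, ‖y - x‖ < ε → |f y - f x| < min (e / 2) (η / 2) := by
      intro y hy
      have hy1 : ‖y‖ ≤ R + 1 := by
        calc ‖y‖ = ‖(y - x) + x‖ := by congr 1; abel
          _ ≤ ‖y - x‖ + ‖x‖ := norm_add_le _ _
          _ ≤ R + 1 := by linarith
      have := huc y (by simpa using hy1) x (by simpa using (by linarith : ‖x‖ ≤ R + 1)) (by
            rw [dist_eq_norm]; exact hy.trans_le hεε1)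
      rwa [Real.dist_eq] at this
    have h1 : f x - min (e / 2) (η / 2) ≤ F x := hF.ge x _ (fun y hy => by
      have := abs_lt.1 (hnear y hy)
      linarith)
    have h2 : F x ≤ f x + min (e / 2) (η / 2) := hF.le x _ (fun y hy => by
      have := abs_lt.1 (hnear y hy)
      linarith)
    rw [abs_le]
    constructor <;> linarith
  refine ⟨⟨hF.smooth, ?_, ?_, ?_⟩, ?_⟩
  · intro x hx
    have h1 := (hclose x hx).trans (min_le_left _ _)
    linarith
  · intro x hx
    have hne : ∀ y, ‖y - x‖ < 1 → f y ≠ 0 := by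
      intro y hy
      apply hfar
      have : ‖x‖ ≤ ‖x - y‖ + ‖y‖ := by
        calc ‖x‖ = ‖(x - y) + y‖ := by congr 1; abel
          _ ≤ ‖x - y‖ + ‖y‖ := norm_add_le _ _
      rw [norm_sub_rev] at this
      linarith
    have hx0 : f x ≠ 0 := hne x (by simp)
    rcases lt_or_gt_of_ne hx0 with hneg | hpos
    · obtain ⟨a, ha, h⟩ := MollD_sign (f := fun y => -f y) hf.cont.neg x
        (fun y hy => neg_ne_zero.2 (hne y hy)) (by simpa using hneg)
      have h1 : F x ≤ -a := hF.le x _ (fun y hy => by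
        have := h y (hy.trans_le hεh)
        linarith)
      exact mul_pos_of_neg_of_neg (by linarith) hneg
    · obtain ⟨a, ha, h⟩ := MollD_sign hf.cont x hne hpos
      have h1 : a ≤ F x := hF.ge x _ (fun y hy => h y (hy.trans_le hεh))
      exact mul_pos (by linarith) hpos
  · intro x hx hxe
    obtain ⟨-, c, hc0, h⟩ := hvP x (hP x hx hxe)
    refine MollD_dir hF.smooth hc0 he (fun s hs hse => ?_)
    exact hF.drop x _ _ (fun y hy => h y (hy.trans_le hεe) s hs hse)
  · intro x hx
    have h1 := (hclose x hx).trans (min_le_right _ _)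
    linarith

end Pool.Schoen
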