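import Mathlib

/-! Index theorem: mollification. -/

set_option autoImplicit false

namespace Pool.Schoen

open Filter Set MeasureTheory
open scoped Topology RealInnerProductSpace ContDiff

variable {V : Type*} [NormedAddCommGroup V] [InnerProductSpace ℝ V]

/-- `F` is a smooth mean of the values of `f` at distance less than `ε`. -/
structure IsMoll (f : V → ℝ) (ε : ℝ) (F : V → ℝ) : Prop where
  smooth : ContDiff ℝ ∞ F
  ge : ∀ x a, (∀ y, ‖y - x‖ < ε → a ≤ f y) → a ≤ F x
  le : ∀ x a, (∀ y, ‖y - x‖ < ε → f y ≤ a) → F x ≤ a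
  drop : ∀ x w c, (∀ y, ‖y - x‖ < ε → f (y + w) ≤ f y - c) → F (x + w) ≤ F x - c
  affine : ∀ x u q, (∀ y, ‖y - x‖ < ε → f y = ⟪u, y - q⟫) → F x = ⟪u, x - q⟫

theorem IsMoll.mono {f F : V → ℝ} {ε ε' : ℝ} (h : IsMoll f ε F) (hε : ε ≤ ε') :
    IsMoll f ε' F where
  smooth := h.smooth
  ge := fun x a H => h.ge x a fun y hy => H y (hy.trans_le hε)
  le := fun x a H => h.le x a fun y hy => H y (hy.trans_le hε)
  drop := fun x w c H => h.drop x w c fun y hy => H y (hy.trans_le hε)
  affine := fun x u q H => h.affine x u q fun y hy => H y (hy.trans_le hε)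

/-- PROOF. `F x = ∫ y, φ y * f (x - y)` with `φ` the normed version of a `ContDiffBump` at `0` with
outer radius `ε` (or `ε / 2`): smooth by `HasCompactSupport.contDiff_convolution_left` (see
H/MP_6c077c_gt/BLConv.lean for the pattern), `φ ≥ 0`, `∫ φ = 1`, `φ (-y) = φ y` (for `affine`). -/
theorem moll_exists [FiniteDimensional ℝ V] (f : V → ℝ) (hf : Continuous f) (ε : ℝ) (hε : 0 < ε) :
    ∃ F, IsMoll f ε F := by
  let _ : MeasurableSpace V := borel V
  have : BorelSpace V := ⟨rfl⟩
  let b : ContDiffBump (0 : V) := ⟨ε / 2, ε, by positivity, by linarith⟩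
  set φ : V → ℝ := b.normed volume with hφdef
  have hφ0 : ∀ y, 0 ≤ φ y := fun y => b.nonneg_normed y
  have hφi : ∫ y, φ y = 1 := b.integral_normed
  have hφneg : ∀ y, φ (-y) = φ y := fun y => ContDiffBump.normed_neg b y
  have hφsm : ContDiff ℝ ∞ φ := b.contDiff_normed
  have hφc : Continuous φ := hφsm.continuous
  have hφK : HasCompactSupport φ := b.hasCompactSupport_normed
  have hφs : ∀ y, ε ≤ ‖y‖ → φ y = 0 := by
    intro y hy
    by_contra hne
    have h1 : y ∈ Function.support φ := hne
    rw [hφdef, b.support_normed_eq, mem_ball_zero_iff] at h1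
    exact absurd h1 (not_lt.2 hy)
  have hint : ∀ G : V → ℝ, Continuous G → Integrable (fun y => φ y * G y) := by
    intro G hG
    exact (hφc.mul hG).integrable_of_hasCompactSupport hφK.mul_right
  have hcmp : ∀ G₁ G₂ : V → ℝ, Continuous G₁ → Continuous G₂ →
      (∀ y, ‖y‖ < ε → G₁ y ≤ G₂ y) → ∫ y, φ y * G₁ y ≤ ∫ y, φ y * G₂ y := by
    intro G₁ G₂ h1 h2 h
    refine integral_mono (hint G₁ h1) (hint G₂ h2) fun y => ?_
    rcases lt_or_ge ‖y‖ ε with hy | hy
    · exact mul_le_mul_of_nonneg_left (h y hy) (hφ0 y)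
    · simp only [hφs y hy, zero_mul, le_refl]
  have hconst : ∀ a : ℝ, ∫ y, φ y * a = a := by
    intro a
    rw [integral_mul_const, hφi, one_mul]
  have hnorm : ∀ x y : V, ‖x - y - x‖ = ‖y‖ := by
    intro x y
    rw [sub_sub_cancel_left, norm_neg]
  refine ⟨fun x => ∫ y, φ y * f (x - y), ?_, ?_, ?_, ?_, ?_⟩
  · have h1 : (fun x => ∫ y, φ y * f (x - y)) =
        MeasureTheory.convolution φ f (ContinuousLinearMap.lsmul ℝ ℝ) volume := by
      funext x
      unfold MeasureTheory.convolution
      rfl
    rw [h1]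
    exact hφK.contDiff_convolution_left (ContinuousLinearMap.lsmul ℝ ℝ) hφsm
      hf.locallyIntegrable
  · intro x a h
    calc a = ∫ y, φ y * a := (hconst a).symm
      _ ≤ ∫ y, φ y * f (x - y) := by
        refine hcmp (fun _ => a) (fun y => f (x - y)) continuous_const (by fun_prop) ?_
        intro y hy
        exact h (x - y) (by rw [hnorm]; exact hy)
  · intro x a h
    calc ∫ y, φ y * f (x - y) ≤ ∫ y, φ y * a := by
          refine hcmp (fun y => f (x - y)) (fun _ => a) (by fun_prop) continuous_const ?_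
          intro y hy
          exact h (x - y) (by rw [hnorm]; exact hy)
      _ = a := hconst a
  · intro x w c h
    calc ∫ y, φ y * f (x + w - y) ≤ ∫ y, φ y * (f (x - y) - c) := by
          refine hcmp (fun y => f (x + w - y)) (fun y => f (x - y) - c) (by fun_prop)
            (by fun_prop) ?_
          intro y hy
          have h1 := h (x - y) (by rw [hnorm]; exact hy)
          have h2 : x + w - y = x - y + w := by abel
          rw [h2]
          exact h1
      _ = (∫ y, φ y * f (x - y)) - ∫ y, φ y * c := by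
          rw [← integral_sub (hint _ (by fun_prop)) (hint _ continuous_const)]
          refine integral_congr_ae (Filter.Eventually.of_forall fun y => ?_)
          simp only
          ring
      _ = (∫ y, φ y * f (x - y)) - c := by rw [hconst]
  · intro x u q h
    have hodd : ∫ y, φ y * ⟪u, y⟫ = 0 := by
      have h1 : ∫ y, φ y * ⟪u, y⟫ = ∫ y, φ (-y) * ⟪u, -y⟫ :=
        (integral_neg_eq_self (fun y => φ y * ⟪u, y⟫) volume).symm
      have h2 : ∫ y, φ (-y) * ⟪u, -y⟫ = - ∫ y, φ y * ⟪u, y⟫ := by
        rw [← integral_neg]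
        refine integral_congr_ae (Filter.Eventually.of_forall fun y => ?_)
        simp only [hφneg, inner_neg_right, mul_neg]
      linarith
    calc ∫ y, φ y * f (x - y) = ∫ y, φ y * (⟪u, x - q⟫ - ⟪u, y⟫) := by
          refine integral_congr_ae (Filter.Eventually.of_forall fun y => ?_)
          simp only
          rcases lt_or_ge ‖y‖ ε with hy | hy
          · rw [h (x - y) (by rw [hnorm]; exact hy)]
            have h2 : x - y - q = (x - q) - y := by abel
            rw [h2, inner_sub_right]
          · rw [hφs y hy, zero_mul, zero_mul]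
      _ = (∫ y, φ y * ⟪u, x - q⟫) - ∫ y, φ y * ⟪u, y⟫ := by
          rw [← integral_sub (hint _ continuous_const) (hint _ (by fun_prop))]
          refine integral_congr_ae (Filter.Eventually.of_forall fun y => ?_)
          simp only
          ring
      _ = ⟪u, x - q⟫ := by rw [hconst, hodd, sub_zero]

end Pool.Schoen
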