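import Pool.Agent.H.MP_6c077c_gt.Ix.DescA

/-! Index theorem: descent directions, combinations. -/

set_option autoImplicit false

namespace Pool.Schoen

open Filter Set
open scoped Topology RealInnerProductSpace

variable {V : Type*} [NormedAddCommGroup V] [InnerProductSpace ℝ V]
variable {X : Type*} {H K : X → V → ℝ} {l : Filter X} {x v w : V}

private lemma DescB_p1 (l : Filter X) (x v : V) :
    Tendsto (fun q : X × (V × (V × ℝ)) => q.1) (l ×ˢ (𝓝 x ×ˢ (𝓝 v ×ˢ 𝓝[>] (0 : ℝ)))) l :=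
  tendsto_fst

private lemma DescB_p2 (l : Filter X) (x v : V) :
    Tendsto (fun q : X × (V × (V × ℝ)) => q.2.1) (l ×ˢ (𝓝 x ×ˢ (𝓝 v ×ˢ 𝓝[>] (0 : ℝ)))) (𝓝 x) :=
  tendsto_fst.comp tendsto_snd

private lemma DescB_p3 (l : Filter X) (x v : V) :
    Tendsto (fun q : X × (V × (V × ℝ)) => q.2.2.1) (l ×ˢ (𝓝 x ×ˢ (𝓝 v ×ˢ 𝓝[>] (0 : ℝ))))
      (𝓝 v) :=
  tendsto_fst.comp (tendsto_snd.comp tendsto_snd)

private lemma DescB_p4 (l : Filter X) (x v : V) :
    Tendsto (fun q : X × (V × (V × ℝ)) => q.2.2.2) (l ×ˢ (𝓝 x ×ˢ (𝓝 v ×ˢ 𝓝[>] (0 : ℝ))))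
      (𝓝[>] (0 : ℝ)) :=
  tendsto_snd.comp (tendsto_snd.comp tendsto_snd)

private lemma DescB_p5 (l : Filter X) (x v : V) :
    Tendsto (fun q : X × (V × (V × ℝ)) => q.2.2.2) (l ×ˢ (𝓝 x ×ˢ (𝓝 v ×ˢ 𝓝[>] (0 : ℝ))))
      (𝓝 (0 : ℝ)) :=
  (DescB_p4 l x v).mono_right nhdsWithin_le_nhds

private lemma DescB_pos (l : Filter X) (x v : V) :
    ∀ᶠ q : X × (V × (V × ℝ)) in l ×ˢ (𝓝 x ×ˢ (𝓝 v ×ˢ 𝓝[>] (0 : ℝ))), 0 < q.2.2.2 :=
  (DescB_p4 l x v).eventually self_mem_nhdsWithin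

/-- Nonnegative combinations, not both coefficients zero: the drop is at least
`min c c' * (a + b) * s ≥ min c c' * (a0 + b0) / 2 * s`. -/
theorem desc_add (h : Desc H l x v) (h' : Desc K l x v) {a b : X → ℝ} {a0 b0 : ℝ}
    (ha : Tendsto a l (𝓝 a0)) (hb : Tendsto b l (𝓝 b0)) (ha' : ∀ᶠ t in l, 0 ≤ a t)
    (hb' : ∀ᶠ t in l, 0 ≤ b t) (hab : 0 < a0 + b0) :
    Desc (fun t y => a t * H t y + b t * K t y) l x v := by
  obtain ⟨c, hc, h⟩ := h
  obtain ⟨c', hc', h'⟩ := h'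
  have hm : 0 < min c c' := lt_min hc hc'
  have hsum : ∀ᶠ t in l, (a0 + b0) / 2 < a t + b t :=
    (ha.add hb).eventually (lt_mem_nhds (by linarith))
  refine ⟨min c c' * ((a0 + b0) / 2), by positivity, ?_⟩
  filter_upwards [h, h', DescB_pos l x v, (DescB_p1 l x v).eventually ha',
    (DescB_p1 l x v).eventually hb', (DescB_p1 l x v).eventually hsum] with q q1 q2 q3 q4 q5 q6
  have e1 : a q.1 * H q.1 (q.2.1 + q.2.2.2 • q.2.2.1) ≤ a q.1 * (H q.1 q.2.1 - c * q.2.2.2) :=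
    mul_le_mul_of_nonneg_left q1 q4
  have e2 : b q.1 * K q.1 (q.2.1 + q.2.2.2 • q.2.2.1) ≤ b q.1 * (K q.1 q.2.1 - c' * q.2.2.2) :=
    mul_le_mul_of_nonneg_left q2 q5
  have e3 : min c c' * a q.1 ≤ c * a q.1 := mul_le_mul_of_nonneg_right (min_le_left _ _) q4
  have e4 : min c c' * b q.1 ≤ c' * b q.1 := mul_le_mul_of_nonneg_right (min_le_right _ _) q5
  have e5 : min c c' * ((a0 + b0) / 2) ≤ min c c' * (a q.1 + b q.1) :=
    mul_le_mul_of_nonneg_left q6.le hm.le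
  have e6 : min c c' * ((a0 + b0) / 2) * q.2.2.2 ≤ (c * a q.1 + c' * b q.1) * q.2.2.2 :=
    mul_le_mul_of_nonneg_right (by linarith) q3.le
  linarith

/-- Descent directions form a convex cone: for `u` near `v + w` go first in the direction
`v + (u - v - w) / 2` (from `y`), then in the direction `w + (u - v - w) / 2`. -/
theorem Desc.add_dir (h : Desc H l x v) (h' : Desc H l x w) : Desc H l x (v + w) := by
  obtain ⟨c, hc, h⟩ := h
  obtain ⟨c', hc', h'⟩ := h'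
  have he : Tendsto (fun q : X × (V × (V × ℝ)) => (1 / 2 : ℝ) • (q.2.2.1 - v - w))
      (l ×ˢ (𝓝 x ×ˢ (𝓝 (v + w) ×ˢ 𝓝[>] (0 : ℝ)))) (𝓝 0) := by
    have := (((DescB_p3 l x (v + w)).sub_const v).sub_const w).const_smul (1 / 2 : ℝ)
    simpa using this
  have hv : Tendsto (fun q : X × (V × (V × ℝ)) => v + (1 / 2 : ℝ) • (q.2.2.1 - v - w))
      (l ×ˢ (𝓝 x ×ˢ (𝓝 (v + w) ×ˢ 𝓝[>] (0 : ℝ)))) (𝓝 v) := by
    simpa using he.const_add v
  have hw : Tendsto (fun q : X × (V × (V × ℝ)) => w + (1 / 2 : ℝ) • (q.2.2.1 - v - w))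
      (l ×ˢ (𝓝 x ×ˢ (𝓝 (v + w) ×ˢ 𝓝[>] (0 : ℝ)))) (𝓝 w) := by
    simpa using he.const_add w
  have hy : Tendsto (fun q : X × (V × (V × ℝ)) =>
      q.2.1 + q.2.2.2 • (v + (1 / 2 : ℝ) • (q.2.2.1 - v - w)))
      (l ×ˢ (𝓝 x ×ˢ (𝓝 (v + w) ×ˢ 𝓝[>] (0 : ℝ)))) (𝓝 x) := by
    simpa using (DescB_p2 l x (v + w)).add ((DescB_p5 l x (v + w)).smul hv)
  have t1 := (DescB_p1 l x (v + w)).prodMk ((DescB_p2 l x (v + w)).prodMk
    (hv.prodMk (DescB_p4 l x (v + w))))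
  have t2 := (DescB_p1 l x (v + w)).prodMk (hy.prodMk (hw.prodMk (DescB_p4 l x (v + w))))
  refine ⟨c + c', by positivity, ?_⟩
  filter_upwards [t1.eventually h, t2.eventually h'] with q q1 q2
  have e1 : q.2.1 + q.2.2.2 • q.2.2.1 = q.2.1 + q.2.2.2 • (v + (1 / 2 : ℝ) • (q.2.2.1 - v - w)) +
      q.2.2.2 • (w + (1 / 2 : ℝ) • (q.2.2.1 - v - w)) := by
    rw [add_assoc, ← smul_add]
    congr 2
    have e2 : (v + (1 / 2 : ℝ) • (q.2.2.1 - v - w)) + (w + (1 / 2 : ℝ) • (q.2.2.1 - v - w)) =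
        v + w + ((1 / 2 : ℝ) + 1 / 2) • (q.2.2.1 - v - w) := by
      rw [add_smul]; abel
    rw [e2]
    norm_num
  rw [e1]
  linarith

theorem Desc.smul_dir (h : Desc H l x v) {a : ℝ} (ha : 0 < a) : Desc H l x (a • v) := by
  obtain ⟨c, hc, h⟩ := h
  have hv : Tendsto (fun q : X × (V × (V × ℝ)) => a⁻¹ • q.2.2.1)
      (l ×ˢ (𝓝 x ×ˢ (𝓝 (a • v) ×ˢ 𝓝[>] (0 : ℝ)))) (𝓝 v) := by
    have := (DescB_p3 l x (a • v)).const_smul a⁻¹
    rwa [smul_smul, inv_mul_cancel₀ ha.ne', one_smul] at this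
  have hs : Tendsto (fun q : X × (V × (V × ℝ)) => a * q.2.2.2)
      (l ×ˢ (𝓝 x ×ˢ (𝓝 (a • v) ×ˢ 𝓝[>] (0 : ℝ)))) (𝓝[>] (0 : ℝ)) := by
    rw [tendsto_nhdsWithin_iff]
    refine ⟨by simpa using (DescB_p5 l x (a • v)).const_mul a, ?_⟩
    filter_upwards [DescB_pos l x (a • v)] with q hq
    exact mul_pos ha hq
  have t1 := (DescB_p1 l x (a • v)).prodMk ((DescB_p2 l x (a • v)).prodMk (hv.prodMk hs))
  refine ⟨c * a, by positivity, ?_⟩
  filter_upwards [t1.eventually h] with q q1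
  have e1 : (a * q.2.2.2) • a⁻¹ • q.2.2.1 = q.2.2.2 • q.2.2.1 := by
    rw [smul_smul]
    congr 1
    field_simp
  rw [e1] at q1
  linarith

theorem Desc1.add_dir {f : V → ℝ} (h : Desc1 f x v) (h' : Desc1 f x w) : Desc1 f x (v + w) :=
  Desc.add_dir h h'

theorem Desc1.smul_dir {f : V → ℝ} (h : Desc1 f x v) {a : ℝ} (ha : 0 < a) : Desc1 f x (a • v) :=
  Desc.smul_dir h ha

/-- Descent directions form an open set (with the same constant). -/
theorem Desc.open_dir (h : Desc H l x v) : ∀ᶠ w in 𝓝 v, Desc H l x w := by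
  obtain ⟨c, hc, h⟩ := h
  obtain ⟨pa, ha, pb, hb, h⟩ := eventually_prod_iff.1 h
  obtain ⟨px, hx, pc, hcc, hb'⟩ := eventually_prod_iff.1 hb
  obtain ⟨pv, hv, ps, hs, hc'⟩ := eventually_prod_iff.1 hcc
  filter_upwards [eventually_eventually_nhds.2 hv] with w hw
  refine ⟨c, hc, ?_⟩
  refine eventually_prod_iff.2 ⟨pa, ha, pb, ?_, fun hq _ hy => h hq hy⟩
  refine eventually_prod_iff.2 ⟨px, hx, pc, ?_, fun hq _ hy => hb' hq hy⟩
  exact eventually_prod_iff.2 ⟨pv, hw, ps, hs, fun hq _ hy => hc' hq hy⟩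

/-- A descent direction at `x` is one at all nearby points (with the same constant). -/
theorem Desc.near (h : Desc H l x v) : ∀ᶠ y in 𝓝 x, Desc H l y v := by
  obtain ⟨c, hc, h⟩ := h
  obtain ⟨pa, ha, pb, hb, h⟩ := eventually_prod_iff.1 h
  obtain ⟨px, hx, pc, hcc, hb'⟩ := eventually_prod_iff.1 hb
  filter_upwards [eventually_eventually_nhds.2 hx] with y hy
  refine ⟨c, hc, ?_⟩
  refine eventually_prod_iff.2 ⟨pa, ha, pb, ?_, fun hq _ hy => h hq hy⟩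
  exact eventually_prod_iff.2 ⟨px, hy, pc, hcc, fun hq _ hy => hb' hq hy⟩

/-- Adding a constant depending on the parameter only. -/
theorem desc_add_const (h : Desc H l x v) (a : X → ℝ) : Desc (fun t y => H t y + a t) l x v := by
  obtain ⟨c, hc, h⟩ := h
  refine ⟨c, hc, ?_⟩
  filter_upwards [h] with q hq
  linarith

/-- Changing the sign of the function and of the direction: replace `y` by `y + s • (-w)`. -/
theorem Desc.neg (h : Desc H l x v) : Desc (fun t y => -H t y) l x (-v) := by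
  obtain ⟨c, hc, h⟩ := h
  have hv : Tendsto (fun q : X × (V × (V × ℝ)) => -q.2.2.1)
      (l ×ˢ (𝓝 x ×ˢ (𝓝 (-v) ×ˢ 𝓝[>] (0 : ℝ)))) (𝓝 v) := by
    simpa using (DescB_p3 l x (-v)).neg
  have hy : Tendsto (fun q : X × (V × (V × ℝ)) => q.2.1 + q.2.2.2 • q.2.2.1)
      (l ×ˢ (𝓝 x ×ˢ (𝓝 (-v) ×ˢ 𝓝[>] (0 : ℝ)))) (𝓝 x) := by
    simpa using (DescB_p2 l x (-v)).add ((DescB_p5 l x (-v)).smul (DescB_p3 l x (-v)))
  have t1 := (DescB_p1 l x (-v)).prodMk (hy.prodMk (hv.prodMk (DescB_p4 l x (-v))))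
  refine ⟨c, hc, ?_⟩
  filter_upwards [t1.eventually h] with q q1
  have e1 : q.2.1 + q.2.2.2 • q.2.2.1 + q.2.2.2 • -q.2.2.1 = q.2.1 := by
    rw [smul_neg, add_neg_cancel_right]
  rw [e1] at q1
  linarith

/-- A descent direction gives points with smaller and with larger values. -/
theorem Desc1.frequently {f : V → ℝ} (h : Desc1 f x v) :
    (∃ᶠ y in 𝓝 x, f x < f y) ∧ ∃ᶠ y in 𝓝 x, f y < f x := by
  obtain ⟨c, hc, h⟩ := h
  have hs : Tendsto (fun s : ℝ => s) (𝓝[>] (0 : ℝ)) (𝓝 0) := nhdsWithin_le_nhds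
  have hp : Tendsto (fun s : ℝ => x + s • v) (𝓝[>] (0 : ℝ)) (𝓝 x) := by
    simpa using (hs.smul_const v).const_add x
  have hm : Tendsto (fun s : ℝ => x - s • v) (𝓝[>] (0 : ℝ)) (𝓝 x) := by
    simpa using (hs.smul_const v).const_sub x
  have h0 : Tendsto (fun _ : ℝ => ()) (𝓝[>] (0 : ℝ)) (⊤ : Filter Unit) := tendsto_top
  have t1 := h0.prodMk ((tendsto_const_nhds (x := x)).prodMk
    ((tendsto_const_nhds (x := v)).prodMk (tendsto_id (x := 𝓝[>] (0 : ℝ)))))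
  have t2 := h0.prodMk (hm.prodMk
    ((tendsto_const_nhds (x := v)).prodMk (tendsto_id (x := 𝓝[>] (0 : ℝ)))))
  constructor
  · refine hm.frequently (Eventually.frequently ?_)
    filter_upwards [t2.eventually h, self_mem_nhdsWithin] with s h1 h2
    simp only [id, sub_add_cancel] at h1
    have h3 : 0 < c * s := mul_pos hc h2
    linarith
  · refine hp.frequently (Eventually.frequently ?_)
    filter_upwards [t1.eventually h, self_mem_nhdsWithin] with s h1 h2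
    simp only [id] at h1
    have h3 : 0 < c * s := mul_pos hc h2
    linarith

/-- Uniform form of a static descent direction. -/
theorem Desc1.unif {f : V → ℝ} (h : Desc1 f x v) : ∃ c : ℝ, 0 < c ∧ ∃ d : ℝ, 0 < d ∧
    ∀ y, ‖y - x‖ < d → ∀ w, ‖w - v‖ < d → ∀ s, 0 < s → s < d →
      f (y + s • w) ≤ f y - c * s := by
  obtain ⟨c, hc, h⟩ := h
  obtain ⟨pa, ha, pb, hb, h⟩ := eventually_prod_iff.1 h
  obtain ⟨px, hx, pc, hcc, hb'⟩ := eventually_prod_iff.1 hb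
  obtain ⟨pv, hv, ps, hs, hc'⟩ := eventually_prod_iff.1 hcc
  obtain ⟨d1, hd1, h1⟩ := Metric.eventually_nhds_iff.1 hx
  obtain ⟨d2, hd2, h2⟩ := Metric.eventually_nhds_iff.1 hv
  obtain ⟨d3, hd3, h3⟩ := Metric.eventually_nhds_iff.1 (eventually_nhdsWithin_iff.1 hs)
  refine ⟨c, hc, min d1 (min d2 d3), by positivity, ?_⟩
  intro y hy w hw s hs0 hs1
  have e1 : px y := h1 (by rw [dist_eq_norm]; exact hy.trans_le (min_le_left _ _))
  have e2 : pv w := h2 (by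
    rw [dist_eq_norm]
    exact hw.trans_le ((min_le_right _ _).trans (min_le_left _ _)))
  have e3 : ps s := h3 (by
    rw [dist_zero_right, Real.norm_eq_abs, abs_of_pos hs0]
    exact hs1.trans_le ((min_le_right _ _).trans (min_le_right _ _))) hs0
  have e0 : pa () := by
    rw [eventually_top] at ha
    exact ha ()
  exact h e0 (hb' e1 (hc' e2 e3))

end Pool.Schoen
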