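import Pool.Agent.H.MP_6c077c_gt.Ix.DescDef

/-! Index theorem: descent directions, elementary facts. -/

set_option autoImplicit false

namespace Pool.Schoen

open Filter Set
open scoped Topology RealInnerProductSpace

variable {V : Type*} [NormedAddCommGroup V] [InnerProductSpace ℝ V]
variable {X : Type*} {H K : X → V → ℝ} {l : Filter X} {x v w : V}

/-- The points `q.2.1 + q.2.2.2 • q.2.2.1` tend to `x`. -/
theorem tendsto_arg (l : Filter X) (x v : V) :
    Tendsto (fun q : X × (V × (V × ℝ)) => (q.1, q.2.1 + q.2.2.2 • q.2.2.1))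
      (l ×ˢ (𝓝 x ×ˢ (𝓝 v ×ˢ 𝓝[>] (0 : ℝ)))) (l ×ˢ 𝓝 x) := by
  have hc : Tendsto (fun p : V × (V × ℝ) => p.1 + p.2.2 • p.2.1)
      (𝓝 x ×ˢ (𝓝 v ×ˢ 𝓝[>] (0 : ℝ))) (𝓝 x) := by
    have h1 : Continuous (fun p : V × (V × ℝ) => p.1 + p.2.2 • p.2.1) := by fun_prop
    have h2 := h1.tendsto (x, (v, (0 : ℝ)))
    simp only [zero_smul, add_zero] at h2
    refine h2.mono_left ?_
    rw [nhds_prod_eq, nhds_prod_eq]
    exact Filter.prod_mono le_rfl (Filter.prod_mono le_rfl nhdsWithin_le_nhds)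
  exact tendsto_fst.prodMk (hc.comp tendsto_snd)

theorem tendsto_arg' (l : Filter X) (x v : V) :
    Tendsto (fun q : X × (V × (V × ℝ)) => (q.1, q.2.1))
      (l ×ˢ (𝓝 x ×ˢ (𝓝 v ×ˢ 𝓝[>] (0 : ℝ)))) (l ×ˢ 𝓝 x) := by
  exact tendsto_fst.prodMk (tendsto_fst.comp tendsto_snd)

theorem Desc.mono {l' : Filter X} (h : Desc H l x v) (hl : l' ≤ l) : Desc H l' x v := by
  obtain ⟨c, hc, he⟩ := h
  exact ⟨c, hc, he.filter_mono (Filter.prod_mono hl le_rfl)⟩

theorem Desc.comp {Y : Type*} {m : Filter Y} {φ : Y → X} (h : Desc H l x v)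
    (hφ : Tendsto φ m l) : Desc (fun y => H (φ y)) m x v := by
  obtain ⟨c, hc, he⟩ := h
  refine ⟨c, hc, ?_⟩
  have h1 : Tendsto (fun q : Y × (V × (V × ℝ)) => (φ q.1, q.2))
      (m ×ˢ (𝓝 x ×ˢ (𝓝 v ×ˢ 𝓝[>] (0 : ℝ)))) (l ×ˢ (𝓝 x ×ˢ (𝓝 v ×ˢ 𝓝[>] (0 : ℝ)))) :=
    (hφ.comp tendsto_fst).prodMk tendsto_snd
  exact h1.eventually he

/-- From the static to the parametrised version: `Desc.comp` with the map to `Unit`. -/
theorem Desc1.const {f : V → ℝ} (h : Desc1 f x v) (l : Filter X) : Desc (fun _ : X => f) l x v := by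
  exact Desc.comp (H := fun _ : Unit => f) (φ := fun _ : X => ()) h tendsto_top

/-- `Desc.comp` with the constant map from `Unit`. -/
theorem Desc.static (h : Desc H l x v) {t : X} (ht : pure t ≤ l) : Desc1 (H t) x v := by
  exact Desc.comp (φ := fun _ : Unit => t) h (tendsto_const_pure.mono_right ht)

/-- Only the values near `x` matter (`tendsto_arg`, `tendsto_arg'`). -/
theorem Desc.congr (h : Desc H l x v)
    (hHK : ∀ᶠ p : X × V in l ×ˢ 𝓝 x, H p.1 p.2 = K p.1 p.2) : Desc K l x v := by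
  obtain ⟨c, hc, he⟩ := h
  refine ⟨c, hc, ?_⟩
  filter_upwards [he, (tendsto_arg l x v).eventually hHK, (tendsto_arg' l x v).eventually hHK]
    with q h1 h2 h3
  rw [← h2, ← h3]
  exact h1

theorem Desc1.congr {f g : V → ℝ} (h : Desc1 f x v) (hfg : ∀ᶠ y in 𝓝 x, f y = g y) :
    Desc1 g x v := by
  exact Desc.congr (H := fun _ : Unit => f) (K := fun _ : Unit => g) h
    ((tendsto_snd (f := (⊤ : Filter Unit)) (g := 𝓝 x)).eventually hfg)

theorem DescA_pos (l : Filter X) (x v : V) :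
    ∀ᶠ q : X × (V × (V × ℝ)) in l ×ˢ (𝓝 x ×ˢ (𝓝 v ×ˢ 𝓝[>] (0 : ℝ))), 0 < q.2.2.2 := by
  have h1 : Tendsto (fun q : X × (V × (V × ℝ)) => q.2.2.2)
      (l ×ˢ (𝓝 x ×ˢ (𝓝 v ×ˢ 𝓝[>] (0 : ℝ)))) (𝓝[>] (0 : ℝ)) :=
    tendsto_snd.comp (tendsto_snd.comp tendsto_snd)
  exact h1.eventually self_mem_nhdsWithin

theorem desc_max (h : Desc H l x v) (h' : Desc K l x v) :
    Desc (fun t y => max (H t y) (K t y)) l x v := by
  obtain ⟨c, hc, he⟩ := h
  obtain ⟨c', hc', he'⟩ := h'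
  refine ⟨min c c', lt_min hc hc', ?_⟩
  filter_upwards [he, he', DescA_pos l x v] with q h1 h2 h3
  have h4 : min c c' * q.2.2.2 ≤ c * q.2.2.2 :=
    mul_le_mul_of_nonneg_right (min_le_left _ _) h3.le
  have h5 : min c c' * q.2.2.2 ≤ c' * q.2.2.2 :=
    mul_le_mul_of_nonneg_right (min_le_right _ _) h3.le
  have h6 := le_max_left (H q.1 q.2.1) (K q.1 q.2.1)
  have h7 := le_max_right (H q.1 q.2.1) (K q.1 q.2.1)
  exact max_le (by linarith) (by linarith)

theorem desc_min (h : Desc H l x v) (h' : Desc K l x v) :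
    Desc (fun t y => min (H t y) (K t y)) l x v := by
  obtain ⟨c, hc, he⟩ := h
  obtain ⟨c', hc', he'⟩ := h'
  refine ⟨min c c', lt_min hc hc', ?_⟩
  filter_upwards [he, he', DescA_pos l x v] with q h1 h2 h3
  have h4 : min c c' * q.2.2.2 ≤ c * q.2.2.2 :=
    mul_le_mul_of_nonneg_right (min_le_left _ _) h3.le
  have h5 : min c c' * q.2.2.2 ≤ c' * q.2.2.2 :=
    mul_le_mul_of_nonneg_right (min_le_right _ _) h3.le
  have h6 := min_le_left (H q.1 (q.2.1 + q.2.2.2 • q.2.2.1)) (K q.1 (q.2.1 + q.2.2.2 • q.2.2.1))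
  have h7 := min_le_right (H q.1 (q.2.1 + q.2.2.2 • q.2.2.1)) (K q.1 (q.2.1 + q.2.2.2 • q.2.2.1))
  rcases min_choice (H q.1 q.2.1) (K q.1 q.2.1) with h8 | h8
  · rw [h8]
    linarith
  · rw [h8]
    linarith

/-- `Desc.congr` -/
theorem desc_max_left (h : Desc H l x v)
    (hlt : ∀ᶠ p : X × V in l ×ˢ 𝓝 x, K p.1 p.2 ≤ H p.1 p.2) :
    Desc (fun t y => max (H t y) (K t y)) l x v := by
  exact h.congr (hlt.mono fun p hp => (max_eq_left hp).symm)

theorem desc_max_right (h : Desc K l x v)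
    (hlt : ∀ᶠ p : X × V in l ×ˢ 𝓝 x, H p.1 p.2 ≤ K p.1 p.2) :
    Desc (fun t y => max (H t y) (K t y)) l x v := by
  exact h.congr (hlt.mono fun p hp => (max_eq_right hp).symm)

theorem desc_min_left (h : Desc H l x v)
    (hlt : ∀ᶠ p : X × V in l ×ˢ 𝓝 x, H p.1 p.2 ≤ K p.1 p.2) :
    Desc (fun t y => min (H t y) (K t y)) l x v := by
  exact h.congr (hlt.mono fun p hp => (min_eq_left hp).symm)

theorem desc_min_right (h : Desc K l x v)
    (hlt : ∀ᶠ p : X × V in l ×ˢ 𝓝 x, K p.1 p.2 ≤ H p.1 p.2) :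
    Desc (fun t y => min (H t y) (K t y)) l x v := by
  exact h.congr (hlt.mono fun p hp => (min_eq_right hp).symm)

/-- Static versions for functions continuous at `x`. -/
theorem desc1_max {f g : V → ℝ} (h : Desc1 f x v) (h' : Desc1 g x v) :
    Desc1 (fun y => max (f y) (g y)) x v := by
  exact desc_max (H := fun _ : Unit => f) (K := fun _ : Unit => g) h h'

theorem desc1_min {f g : V → ℝ} (h : Desc1 f x v) (h' : Desc1 g x v) :
    Desc1 (fun y => min (f y) (g y)) x v := by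
  exact desc_min (H := fun _ : Unit => f) (K := fun _ : Unit => g) h h'

theorem desc1_max_left {f g : V → ℝ} (hf : ContinuousAt f x) (hg : ContinuousAt g x)
    (h : Desc1 f x v) (hlt : g x < f x) : Desc1 (fun y => max (f y) (g y)) x v := by
  refine h.congr ?_
  filter_upwards [hg.eventually_lt hf hlt] with y hy
  exact (max_eq_left hy.le).symm

theorem desc1_max_right {f g : V → ℝ} (hf : ContinuousAt f x) (hg : ContinuousAt g x)
    (h : Desc1 g x v) (hlt : f x < g x) : Desc1 (fun y => max (f y) (g y)) x v := by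
  refine h.congr ?_
  filter_upwards [hf.eventually_lt hg hlt] with y hy
  exact (max_eq_right hy.le).symm

theorem desc1_min_left {f g : V → ℝ} (hf : ContinuousAt f x) (hg : ContinuousAt g x)
    (h : Desc1 f x v) (hlt : f x < g x) : Desc1 (fun y => min (f y) (g y)) x v := by
  refine h.congr ?_
  filter_upwards [hf.eventually_lt hg hlt] with y hy
  exact (min_eq_left hy.le).symm

theorem desc1_min_right {f g : V → ℝ} (hf : ContinuousAt f x) (hg : ContinuousAt g x)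
    (h : Desc1 g x v) (hlt : g x < f x) : Desc1 (fun y => min (f y) (g y)) x v := by
  refine h.congr ?_
  filter_upwards [hg.eventually_lt hf hlt] with y hy
  exact (min_eq_right hy.le).symm

end Pool.Schoen
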