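import Pool.Agent.H.MP_6c077c_gt.Ix.GlB0
import Pool.Agent.H.MP_6c077c_gt.Ix.MollC
import Pool.Agent.H.MP_6c077c_gt.Ix.MollD

/-! Gluing lemma, first step: replace `A` by a smooth function, keeping the flat wall near `q`. -/

set_option autoImplicit false

namespace Pool.Schoen

open Filter Set
open scoped Topology RealInnerProductSpace ContDiff

variable {V : Type*} [NormedAddCommGroup V] [InnerProductSpace ℝ V] [FiniteDimensional ℝ V]

omit [FiniteDimensional ℝ V] in
private theorem GlB_pos {A : V → ℝ} (hA : Continuous A) {K : Set V} (hK : IsCompact K)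
    (hp : ∀ x ∈ K, 0 < A x) :
    ∃ a e : ℝ, 0 < a ∧ 0 < e ∧ ∀ x ∈ K, ∀ y, ‖y - x‖ < e → a ≤ A y := by
  obtain ⟨a, ha, h⟩ := hK.exists_forall_le' hA.continuousOn (a := 0) hp
  have hU : IsOpen {y | a / 2 < A y} := isOpen_lt continuous_const hA
  have hKU : K ⊆ {y | a / 2 < A y} := by
    intro x hx
    have := h x hx
    show a / 2 < A x
    linarith
  obtain ⟨e, he, h2⟩ := hK.exists_thickening_subset_open hU hKU
  refine ⟨a / 2, e, by linarith, he, fun x hx y hy => ?_⟩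
  have h3 : y ∈ Metric.thickening e K := by
    rw [Metric.mem_thickening_iff]
    exact ⟨x, hx, by rw [dist_eq_norm]; exact hy⟩
  exact le_of_lt (h2 h3)

private theorem GlB_key {A F : V → ℝ} {v : V → V} {δ R : ℝ} (h : Adapted A v δ R F)
    (hfar : ∀ x, R ≤ ‖x‖ → A x ≠ 0) {t : ℝ} (ht : t ∈ Icc (0 : ℝ) 1) {x : V}
    (hx : (1 - t) * A x + t * F x = 0) : ‖x‖ < R ∧ |A x| ≤ δ := by
  have hs0 : 0 ≤ t := ht.1
  have hs1 : 0 ≤ 1 - t := by linarith [ht.2]
  have hxR : ‖x‖ < R := by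
    by_contra hcon
    push Not at hcon
    have h1 := h.sign x hcon
    have h2 : 0 < A x * A x := mul_self_pos.2 (hfar x hcon)
    have h3 : ((1 - t) * A x + t * F x) * A x = (1 - t) * (A x * A x) + t * (F x * A x) := by
      ring
    rw [hx, zero_mul] at h3
    rcases eq_or_lt_of_le hs0 with h4 | h4
    · rw [← h4] at h3
      simp only [sub_zero, one_mul, zero_mul, add_zero] at h3
      linarith
    · have := mul_pos h4 h1
      have := mul_nonneg hs1 h2.le
      linarith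
  refine ⟨hxR, ?_⟩
  have h1 := abs_lt.1 (h.close x hxR.le)
  have h2 : A x = -(t * (F x - A x)) := by linarith
  have h3 : |A x| ≤ |F x - A x| := by
    rw [h2, abs_neg, abs_mul, abs_of_nonneg hs0, ← h2]
    exact mul_le_of_le_one_left (abs_nonneg _) ht.2
  exact h3.trans (h.close x hxR.le).le

/-- PROOF. Apply `Good.adapted` with `η = 1` to get `v, δ, R, ε`. Let `A x = ⟪u, x - q⟫` for
`‖x - q‖ < r1`. On the compact set `closedBall 0 R \ N` the function `A` is positive, so `≥ 2 η1`; on the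
compact segment part `{q + s u | s ∈ Icc (r1/4) ℓ}` also `A ≥ 2 η1`. By uniform continuity of `A` on compact
sets there is `ε' ≤ min ε (r1 / 4)` such that `|A y - A x| < min η1 (δ / 2)` for `‖x‖ ≤ R` or `x` in the
segment, and `‖y - x‖ < ε'`. Let `F` be a mollification (`moll_exists`) with `ε'`.
Then `|F x - A x| ≤ min η1 (δ / 2)` there (`IsMoll.ge`, `IsMoll.le`); `F` is adapted; `{F ≤ 0} ⊆ N`: for
`‖x‖ ≥ R` the signs agree, so `A x ≤ 0`; for `‖x‖ ≤ R` and `x ∉ N` one has `F x ≥ η1`. `F x = ⟪u, x - q⟫` for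
`‖x - q‖ < r1 / 2` (`IsMoll.affine`). `Hom A F` by `Hom.lerp` with the directions `v x`: a zero of the
interpolation has `‖x‖ < R` and `|A x| ≤ δ`; `Desc1 F x (v x)` by `desc1_smooth`. The last clause by
`glue_lerp` with `r1 / 2`: the zeros of the interpolation near `q` satisfy `⟪u, x - q⟫ = 0`, and both
functions are affine near them (`desc1_affine`, `Desc1.congr`). -/
theorem glue_moll {A : V → ℝ} (hA : Good A) (hb : Bornology.IsBounded {x | A x ≤ 0}) {q u : V}
    (hu : ‖u‖ = 1) {ℓ : ℝ} (hℓ : 0 < ℓ) (hflat : ∀ᶠ x in 𝓝 q, A x = ⟪u, x - q⟫)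
    (hs : ∀ s ∈ Ioc (0 : ℝ) ℓ, 0 < A (q + s • u)) {N : Set V} (hN : IsOpen N)
    (hAN : ∀ x, A x ≤ 0 → x ∈ N) :
    ∃ F : V → ℝ, ContDiff ℝ ∞ F ∧ Hom A F ∧ (∀ᶠ x in 𝓝 q, F x = ⟪u, x - q⟫) ∧
      (∀ s ∈ Ioc (0 : ℝ) ℓ, 0 < F (q + s • u)) ∧ (∀ x, F x ≤ 0 → x ∈ N) ∧
      Bornology.IsBounded {x | F x ≤ 0} ∧
      ∃ r : ℝ, 0 < r ∧ ∀ᶠ ρ in 𝓝[>] (0 : ℝ), HomP (PhiG N (q + ℓ • u) r (tau q u ℓ ρ))
        (fun x => min (A x) (tau q u ℓ ρ x)) (fun x => min (F x) (tau q u ℓ ρ x)) := by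
  have : ProperSpace V := FiniteDimensional.proper ℝ V
  obtain ⟨v, δ, R, ε, hδ, hε, hdesc, hfar, hmoll⟩ := hA.adapted 1 one_pos
  obtain ⟨r1, hr1, hr⟩ := Metric.eventually_nhds_iff.1 hflat
  have hr' : ∀ x, ‖x - q‖ < r1 → A x = ⟪u, x - q⟫ := fun x hx => hr (by rwa [dist_eq_norm])
  -- the compact set where `A` is positive
  have hK1 : IsCompact (Metric.closedBall (0 : V) R \ N) := (isCompact_closedBall _ _).diff hN
  have hK2 : IsCompact ((fun s : ℝ => q + s • u) '' Icc (r1 / 4) ℓ) :=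
    isCompact_Icc.image (by fun_prop)
  have hKp : ∀ x ∈ (Metric.closedBall (0 : V) R \ N) ∪ (fun s : ℝ => q + s • u) '' Icc (r1 / 4) ℓ,
      0 < A x := by
    rintro x (hx | ⟨s, hs', rfl⟩)
    · by_contra hcon
      exact hx.2 (hAN x (not_lt.1 hcon))
    · exact hs s ⟨by linarith [hs'.1], hs'.2⟩
  obtain ⟨a, e, ha, he, hae⟩ := GlB_pos hA.cont (hK1.union hK2) hKp
  obtain ⟨F, hF⟩ := moll_exists A hA.cont (min (min ε e) (r1 / 4))
    (lt_min (lt_min hε he) (by linarith))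
  obtain ⟨had, -⟩ := hmoll F _ ((min_le_left _ _).trans (min_le_left _ _)) hF
  have hFK : ∀ x ∈ (Metric.closedBall (0 : V) R \ N) ∪ (fun s : ℝ => q + s • u) '' Icc (r1 / 4) ℓ,
      a ≤ F x := fun x hx => hF.ge x a fun y hy =>
    hae x hx y (hy.trans_le ((min_le_left _ _).trans (min_le_right _ _)))
  have hFq : ∀ x, ‖x - q‖ < r1 / 2 → F x = ⟪u, x - q⟫ := by
    intro x hx
    refine hF.affine x u q fun y hy => hr' y ?_
    have h1 : ‖y - x‖ < r1 / 4 := hy.trans_le (min_le_right _ _)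
    calc ‖y - q‖ = ‖(y - x) + (x - q)‖ := by congr 1; abel
      _ ≤ ‖y - x‖ + ‖x - q‖ := norm_add_le _ _
      _ < r1 := by linarith
  have hFs : ∀ s ∈ Ioc (0 : ℝ) ℓ, 0 < F (q + s • u) := by
    intro s hs'
    rcases lt_or_ge s (r1 / 4) with h | h
    · have h1 : q + s • u - q = s • u := by abel
      rw [hFq, h1, real_inner_smul_right, real_inner_self_eq_norm_sq, hu]
      · have := hs'.1
        nlinarith
      · rw [h1, norm_smul, hu, Real.norm_eq_abs, abs_of_pos hs'.1]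
        linarith
    · exact ha.trans_le (hFK _ (Or.inr ⟨s, ⟨h, hs'.2⟩, rfl⟩))
  have hAneg : ∀ x, R ≤ ‖x‖ → F x ≤ 0 → A x ≤ 0 := by
    intro x hx hx0
    by_contra hcon
    push Not at hcon
    have h1 := had.sign x hx
    have h2 := mul_nonpos_of_nonpos_of_nonneg hx0 hcon.le
    linarith
  have hFN : ∀ x, F x ≤ 0 → x ∈ N := by
    intro x hx
    rcases le_total R ‖x‖ with h | h
    · exact hAN x (hAneg x h hx)
    · by_contra hcon
      have h1 := hFK x (Or.inl ⟨by simpa using h, hcon⟩)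
      linarith
  have hFb : Bornology.IsBounded {x | F x ≤ 0} := by
    refine ((Metric.isBounded_closedBall (x := (0 : V)) (r := R)).union hb).subset ?_
    intro x hx
    rcases le_total R ‖x‖ with h | h
    · exact Or.inr (hAneg x h hx)
    · exact Or.inl (by simpa using h)
  have hdir : ∀ t ∈ Icc (0 : ℝ) 1, ∀ x, (1 - t) * A x + t * F x = 0 →
      ∃ v, Desc1 A x v ∧ Desc1 F x v := by
    intro t ht x hx
    obtain ⟨h1, h2⟩ := GlB_key had hfar ht hx
    refine ⟨v x, hdesc x h1.le h2, desc1_smooth ?_ (had.dir x h1.le h2)⟩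
    exact had.smooth.contDiffAt.of_le (by exact_mod_cast le_top)
  have hnear : ∀ x, ‖x - q‖ < r1 / 2 → ∀ᶠ y in 𝓝 x, ‖y - q‖ < r1 / 2 := by
    intro x hx
    have hc : Continuous fun y : V => ‖y - q‖ := by fun_prop
    exact hc.continuousAt.eventually_lt continuousAt_const hx
  refine ⟨F, had.smooth, ?_, ?_, hFs, hFN, hFb, ?_⟩
  · refine Hom.lerp hA.cont had.smooth.continuous ⟨R, fun t ht x hx => ?_⟩ hdir
    exact (GlB_key had hfar ht hx).1.le
  · filter_upwards [Metric.ball_mem_nhds q (by linarith : (0 : ℝ) < r1 / 2)] with x hx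
    exact hFq x (by rwa [← dist_eq_norm])
  · refine glue_lerp hA.cont had.smooth.continuous hu hℓ hAN hFN hs hFs
      (r1 := r1 / 2) (by linarith) ?_ hdir
    intro t ht x hxq hx
    rw [hr' x (by linarith), hFq x hxq] at hx
    refine ⟨by linarith, fun w hw => ⟨?_, ?_⟩⟩
    · refine (desc1_affine u q hw).congr ?_
      filter_upwards [hnear x hxq] with y hy
      exact (hr' y (by linarith)).symm
    · refine (desc1_affine u q hw).congr ?_
      filter_upwards [hnear x hxq] with y hy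
      exact (hFq y hy).symm

end Pool.Schoen
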