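import Pool.Agent.H.MP_6c077c_gt.Ix.GlA

/-! Gluing lemma: interpolation of `A` with the tube attached. -/

set_option autoImplicit false

namespace Pool.Schoen

open Filter Set
open scoped Topology RealInnerProductSpace ContDiff

variable {V : Type*} [NormedAddCommGroup V] [InnerProductSpace ℝ V] [FiniteDimensional ℝ V]

/-- Common part of the first two steps.  Let `A`, `F` be continuous, `0` a possible value of the
interpolations `a t = (1 - t) A + t F` only at points with a common descent direction; both positive on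
the segment except at `q`, `≤ 0` only in `N`, and both descending in all directions `v` with `⟪u, v⟫ < 0`
at the zeros of `a t` near `q`, which lie on the wall.
PROOF. The family `H t = min (a t) τ`, continuous, `Φ` by `phiG_min` (`tau_end` with `m` a lower bound
of `A` and `F` near the end `b = q + ℓ u`, found by continuity: `A b, F b > 0`; take the `r` of the
statement for this). `HomP` by the definition, with `dz_min`: at a zero `x` of `H t`:
if `τ x > 0` take the common direction (`desc_add` with coefficients `1 - t`, `t`);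
if `a t x > 0` take `q - x` (`tau_desc`);
if both vanish, then `‖x - q‖ < r1` by `tau_small` for `A` and for `F` (one of `A x`, `F x` is `≤ 0`);
so `⟪u, x - q⟫ = 0` and `v = q - x - κ • u` with small `κ > 0` (`Desc.open_dir` for `τ`) is a direction for
all: `⟪u, v⟫ = -κ`. -/
theorem glue_lerp {A F : V → ℝ} (hA : Continuous A) (hF : Continuous F) {q u : V} (hu : ‖u‖ = 1)
    {ℓ : ℝ} (hℓ : 0 < ℓ) {N : Set V} (hAN : ∀ x, A x ≤ 0 → x ∈ N) (hFN : ∀ x, F x ≤ 0 → x ∈ N)
    (hAs : ∀ s ∈ Ioc (0 : ℝ) ℓ, 0 < A (q + s • u)) (hFs : ∀ s ∈ Ioc (0 : ℝ) ℓ, 0 < F (q + s • u))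
    {r1 : ℝ} (hr1 : 0 < r1)
    (hq : ∀ t ∈ Icc (0 : ℝ) 1, ∀ x, ‖x - q‖ < r1 → (1 - t) * A x + t * F x = 0 →
      ⟪u, x - q⟫ = 0 ∧ ∀ v, ⟪u, v⟫ < 0 → Desc1 A x v ∧ Desc1 F x v)
    (hd : ∀ t ∈ Icc (0 : ℝ) 1, ∀ x, (1 - t) * A x + t * F x = 0 → ∃ v, Desc1 A x v ∧ Desc1 F x v) :
    ∃ r : ℝ, 0 < r ∧ ∀ᶠ ρ in 𝓝[>] (0 : ℝ), HomP (PhiG N (q + ℓ • u) r (tau q u ℓ ρ))
      (fun x => min (A x) (tau q u ℓ ρ x)) (fun x => min (F x) (tau q u ℓ ρ x)) := by
  have hAb : 0 < A (q + ℓ • u) := hAs ℓ ⟨hℓ, le_rfl⟩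
  have hFb : 0 < F (q + ℓ • u) := hFs ℓ ⟨hℓ, le_rfl⟩
  obtain ⟨m, hm, hmA, hmF⟩ : ∃ m : ℝ, 0 < m ∧ m < A (q + ℓ • u) ∧ m < F (q + ℓ • u) := by
    refine ⟨min (A (q + ℓ • u)) (F (q + ℓ • u)) / 2, by positivity, ?_, ?_⟩
    · have h1 := min_le_left (A (q + ℓ • u)) (F (q + ℓ • u))
      have h2 : 0 < min (A (q + ℓ • u)) (F (q + ℓ • u)) := lt_min hAb hFb
      linarith
    · have h1 := min_le_right (A (q + ℓ • u)) (F (q + ℓ • u))
      have h2 : 0 < min (A (q + ℓ • u)) (F (q + ℓ • u)) := lt_min hAb hFb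
      linarith
  have hev : ∀ᶠ x in 𝓝 (q + ℓ • u), m < A x ∧ m < F x :=
    (hA.continuousAt.eventually (lt_mem_nhds hmA)).and
      (hF.continuousAt.eventually (lt_mem_nhds hmF))
  obtain ⟨r0, hr0, hr0'⟩ := Metric.eventually_nhds_iff.1 hev
  obtain ⟨r2, hr2, hr2'⟩ := tau_end hu hℓ hm
  refine ⟨min r0 r2, lt_min hr0 hr2, ?_⟩
  filter_upwards [self_mem_nhdsWithin, tau_small hu hℓ hA hAs hr1, tau_small hu hℓ hF hFs hr1]
    with ρ hρ hTA hTF
  have hρ' : 0 < ρ := hρ
  have hpos : ∀ t ∈ Icc (0 : ℝ) 1, ∀ c x, c < A x → c < F x → c < (1 - t) * A x + t * F x := by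
    intro t ht c x h1 h2
    rcases eq_or_lt_of_le ht.1 with h3 | h3
    · rw [← h3]
      linarith
    · have h4 : t * c < t * F x := mul_lt_mul_of_pos_left h2 h3
      have h5 : (1 - t) * c ≤ (1 - t) * A x :=
        mul_le_mul_of_nonneg_left h1.le (by linarith [ht.2])
      linarith
  refine ⟨fun t x => min ((1 - t) * A x + t * F x) (tau q u ℓ ρ x), ?_, ?_, ?_, ?_, ?_⟩
  · have h1 : Continuous (tau q u ℓ ρ) := tau_continuous q u ℓ ρ
    fun_prop
  · funext x
    simp
  · funext x
    simp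
  · intro t ht
    refine phiG_min (G := fun x => (1 - t) * A x + t * F x) ?_ ?_
    · intro x hx
      by_cases h1 : A x ≤ 0
      · exact hAN x h1
      · by_cases h2 : F x ≤ 0
        · exact hFN x h2
        · exfalso
          push Not at h1 h2
          have h3 := hpos t ht 0 x h1 h2
          have h4 : (1 - t) * A x + t * F x ≤ 0 := hx
          linarith
    · intro x hx
      have h1 := hr2' ρ hρ' x (hx.trans_le (min_le_right _ _))
      have h2 := hr0' (y := x) (by
        rw [dist_eq_norm]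
        exact hx.trans_le (min_le_left _ _))
      have h3 := hpos t ht m x h2.1 h2.2
      show tau q u ℓ ρ x ≤ (1 - t) * A x + t * F x
      linarith
  · intro t ht x hx
    have key : ∀ v : V, ((1 - t) * A x + t * F x = 0 → Desc1 A x v ∧ Desc1 F x v) →
        DZ1 (tau q u ℓ ρ) x v →
        Desc (fun t x => min ((1 - t) * A x + t * F x) (tau q u ℓ ρ x)) (𝓝[Icc 0 1] t) x v := by
      intro v h1 h2
      have h3 : DZ (fun t x => (1 - t) * A x + t * F x) t x v := by
        intro h4
        obtain ⟨h5, h6⟩ := h1 h4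
        refine desc_add (a := fun s : ℝ => 1 - s) (b := fun s : ℝ => s) (a0 := 1 - t) (b0 := t)
          (h5.const _) (h6.const _) ?_ ?_ ?_ ?_ (by linarith)
        · have h7 : Continuous fun s : ℝ => 1 - s := by fun_prop
          exact h7.continuousAt.tendsto.mono_left nhdsWithin_le_nhds
        · exact tendsto_id.mono_left nhdsWithin_le_nhds
        · filter_upwards [self_mem_nhdsWithin] with s hs
          linarith [hs.2]
        · filter_upwards [self_mem_nhdsWithin] with s hs
          exact hs.1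
      have h4 : DZ (fun (_ : ℝ) x => tau q u ℓ ρ x) t x v := dz_static h2
      have h5 : Continuous (tau q u ℓ ρ) := tau_continuous q u ℓ ρ
      exact dz_min (by fun_prop) (by fun_prop) h3 h4 hx
    have hx' : min ((1 - t) * A x + t * F x) (tau q u ℓ ρ x) = 0 := hx
    have ha0 : 0 ≤ (1 - t) * A x + t * F x := by
      rw [← hx']
      exact min_le_left _ _
    have hT0 : 0 ≤ tau q u ℓ ρ x := by
      rw [← hx']
      exact min_le_right _ _
    rcases eq_or_lt_of_le hT0 with hT | hT
    · rcases eq_or_lt_of_le ha0 with ha | ha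
      · have hn : ‖x - q‖ < r1 := by
          by_contra hcon
          have h1 : 0 < A x := (hTA x hT.symm.le).resolve_left hcon
          have h2 : 0 < F x := (hTF x hT.symm.le).resolve_left hcon
          have h3 := hpos t ht 0 x h1 h2
          linarith
        obtain ⟨h1, h2⟩ := hq t ht x hn ha.symm
        have h3 : Desc1 (tau q u ℓ ρ) x (q - x) := tau_desc hu hℓ hρ' hT.symm
        have h4 : ∀ᶠ w in 𝓝 (q - x), Desc1 (tau q u ℓ ρ) x w := Desc.open_dir h3
        have h5 : Tendsto (fun κ : ℝ => q - x - κ • u) (𝓝[>] 0) (𝓝 (q - x)) := by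
          have h6 : Continuous fun κ : ℝ => q - x - κ • u := by fun_prop
          have h7 := h6.tendsto 0
          rw [zero_smul, sub_zero] at h7
          exact h7.mono_left nhdsWithin_le_nhds
        obtain ⟨κ, hκ, hκ'⟩ := ((h5.eventually h4).and self_mem_nhdsWithin).exists
        have hκ0 : 0 < κ := hκ'
        have h8 : ⟪u, q - x - κ • u⟫ < 0 := by
          have h9 : q - x = -(x - q) := by abel
          rw [inner_sub_right, inner_smul_right, real_inner_self_eq_norm_sq, hu, h9,
            inner_neg_right, h1]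
          linarith
        exact ⟨_, key _ (fun _ => h2 _ h8) fun _ => hκ⟩
      · exact ⟨q - x, key _ (fun h => absurd h ha.ne') fun _ => tau_desc hu hℓ hρ' hT.symm⟩
    · have ha : (1 - t) * A x + t * F x = 0 := by
        rcases min_choice ((1 - t) * A x + t * F x) (tau q u ℓ ρ x) with h1 | h1
        · rw [← h1, hx']
        · rw [hx'] at h1
          exact absurd h1 hT.ne
      obtain ⟨v, hv⟩ := hd t ht x ha
      exact ⟨v, key v (fun _ => hv) (dz1_of_ne hT.ne')⟩

end Pool.Schoen
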