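import Pool.Agent.H.MP_6c077c_gt.Ix.GlA

/-! Gluing lemma: coordinates `θ` in which `A` is the unit ball. -/

set_option autoImplicit false

namespace Pool.Schoen

open Filter Set
open scoped Topology RealInnerProductSpace ContDiff

variable {V : Type*} [NormedAddCommGroup V] [InnerProductSpace ℝ V]

/-- A diffeomorphism `θ` (with inverse `ψ`) for which `{‖θ x‖ ≤ 1}` is flat near its boundary point
`q` and does not contain other points of the segment from `q` to `q + ℓ • u`. -/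
structure BCtx (θ ψ : V → V) (q u : V) (ℓ r1 : ℝ) : Prop where
  hθ : ContDiff ℝ ∞ θ
  hψ : ContDiff ℝ ∞ ψ
  left : ∀ x, ψ (θ x) = x
  right : ∀ x, θ (ψ x) = x
  hu : ‖u‖ = 1
  hℓ : 0 < ℓ
  hr1 : 0 < r1
  hr1ℓ : r1 ≤ ℓ
  flat : ∀ x, ‖x - q‖ < r1 → (‖θ x‖ ≤ 1 ↔ ⟪u, x - q⟫ ≤ 0)
  flat' : ∀ x, ‖x - q‖ < r1 → (‖θ x‖ < 1 ↔ ⟪u, x - q⟫ < 0)
  dir : ∀ x, ‖x - q‖ < r1 → ‖θ x‖ = 1 → ∀ v, ⟪u, v⟫ < 0 → ⟪θ x, fderiv ℝ θ x v⟫ < 0
  seg : ∀ s ∈ Ioc (0 : ℝ) ℓ, 1 < ‖θ (q + s • u)‖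

/-- The derivatives of `θ` and `ψ` are inverse to each other (chain rule). -/
theorem BCtx.fderiv_right {θ ψ : V → V} {q u : V} {ℓ r1 : ℝ} (h : BCtx θ ψ q u ℓ r1) (x w : V) :
    fderiv ℝ θ x (fderiv ℝ ψ (θ x) w) = w := by
  have h1 : HasFDerivAt ψ (fderiv ℝ ψ (θ x)) (θ x) :=
    (h.hψ.differentiable (by simp) (θ x)).hasFDerivAt
  have h2 : HasFDerivAt θ (fderiv ℝ θ x) (ψ (θ x)) := by
    rw [h.left x]
    exact (h.hθ.differentiable (by simp) x).hasFDerivAt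
  have h3 := h2.comp (θ x) h1
  have h4 : θ ∘ ψ = id := by
    funext y
    exact h.right y
  rw [h4] at h3
  have h5 := h3.unique (hasFDerivAt_id (θ x))
  have h6 := congrArg (fun L : V →L[ℝ] V => L w) h5
  simpa using h6

theorem BCtx.GlC0_left {θ ψ : V → V} {q u : V} {ℓ r1 : ℝ} (h : BCtx θ ψ q u ℓ r1) (x w : V) :
    fderiv ℝ ψ (θ x) (fderiv ℝ θ x w) = w := by
  have h1 : HasFDerivAt ψ (fderiv ℝ ψ (θ x)) (θ x) :=
    (h.hψ.differentiable (by simp) (θ x)).hasFDerivAt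
  have h2 : HasFDerivAt θ (fderiv ℝ θ x) x :=
    (h.hθ.differentiable (by simp) x).hasFDerivAt
  have h3 := h1.comp x h2
  have h4 : ψ ∘ θ = id := by
    funext y
    exact h.left y
  rw [h4] at h3
  have h5 := h3.unique (hasFDerivAt_id x)
  have h6 := congrArg (fun L : V →L[ℝ] V => L w) h5
  simpa using h6

theorem BCtx.norm_q {θ ψ : V → V} {q u : V} {ℓ r1 : ℝ} (h : BCtx θ ψ q u ℓ r1) : ‖θ q‖ = 1 := by
  have h0 : ‖q - q‖ < r1 := by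
    rw [sub_self, norm_zero]
    exact h.hr1
  have h1 := (h.flat q h0).2 (by rw [sub_self, inner_zero_right])
  have h2 : ¬ ‖θ q‖ < 1 := by
    rw [h.flat' q h0, sub_self, inner_zero_right]
    exact lt_irrefl 0
  exact le_antisymm h1 (not_lt.1 h2)

/-- Descent directions of the small ball `b x = ‖θ x - θ q‖ ^ 2 - s`. -/
theorem GlC0_sq {θ : V → V} (hθ : ContDiff ℝ ∞ θ) (p : V) (s : ℝ) {x v : V}
    (hv : ⟪θ x - p, fderiv ℝ θ x v⟫ < 0) : Desc1 (fun x => ‖θ x - p‖ ^ 2 - s) x v := by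
  have h1 : HasFDerivAt (fun x => θ x - p) (fderiv ℝ θ x) x :=
    ((hθ.differentiable (by simp) x).hasFDerivAt).sub_const p
  have h2 : HasFDerivAt (fun x => ‖θ x - p‖ ^ 2 - s)
      (2 • (innerSL ℝ (θ x - p)).comp (fderiv ℝ θ x)) x := (h1.norm_sq).sub_const s
  have h3 : ContDiff ℝ 1 fun x => ‖θ x - p‖ ^ 2 - s :=
    (((hθ.of_le (by simp)).sub contDiff_const).norm_sq ℝ).sub contDiff_const
  refine desc1_smooth h3.contDiffAt ?_
  rw [h2.fderiv]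
  have h4 : (2 • (innerSL ℝ (θ x - p)).comp (fderiv ℝ θ x)) v =
      2 * ⟪θ x - p, fderiv ℝ θ x v⟫ := by
    simp [inner_sub_left]
  rw [h4]
  linarith

/-- Descent directions of `B x = ‖θ x‖ ^ 2 - 1`: derivative `2 ⟪θ x, fderiv ℝ θ x v⟫`. -/
theorem BCtx.desc {θ ψ : V → V} {q u : V} {ℓ r1 : ℝ} (h : BCtx θ ψ q u ℓ r1) {x v : V}
    (hv : ⟪θ x, fderiv ℝ θ x v⟫ < 0) : Desc1 (fun x => ‖θ x‖ ^ 2 - 1) x v := by
  have h1 := GlC0_sq h.hθ 0 1 (x := x) (v := v) (by rw [sub_zero]; exact hv)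
  simpa using h1

/-- `B x = ‖θ x‖ ^ 2 - 1` is good. The direction at a zero `x` is `- fderiv ψ (θ x) (θ x)`. -/
theorem BCtx.good [FiniteDimensional ℝ V] {θ ψ : V → V} {q u : V} {ℓ r1 : ℝ}
    (h : BCtx θ ψ q u ℓ r1) : Good fun x => ‖θ x‖ ^ 2 - 1 := by
  have hp : ProperSpace V := FiniteDimensional.proper ℝ V
  have hsq : ∀ x, ‖θ x‖ ^ 2 - 1 = 0 → ‖θ x‖ = 1 := by
    intro x hx
    have h1 : ‖θ x‖ ^ 2 = 1 ^ 2 := by linarith
    exact (sq_eq_sq₀ (norm_nonneg _) zero_le_one).1 h1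
  refine ⟨?_, ?_, ?_⟩
  · exact ((h.hθ.continuous.norm).pow 2).sub continuous_const
  · have h1 : Bornology.IsBounded (ψ '' Metric.closedBall (0 : V) 1) :=
      ((isCompact_closedBall (0 : V) 1).image h.hψ.continuous).isBounded
    refine h1.subset ?_
    intro x hx
    refine ⟨θ x, ?_, h.left x⟩
    rw [mem_closedBall_zero_iff]
    exact (hsq x hx).le
  · intro x hx
    refine ⟨-fderiv ℝ ψ (θ x) (θ x), h.desc ?_⟩
    rw [map_neg, h.fderiv_right, inner_neg_right, real_inner_self_eq_norm_sq, hsq x hx]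
    norm_num

/-- PROOF. Let `L = fderiv θ q`; `‖v‖ ≤ C ‖L v‖` (`fderiv_right`). By strict differentiability of `θ`
at `q` and continuity of `fderiv θ`, for `x` near `q`:
`‖θ x - θ q - L (x - q)‖ ≤ κ ‖x - q‖` and `‖fderiv θ x - L‖ ≤ κ`, so
`⟪θ x - θ q, fderiv θ x (q - x)⟫ ≤ - ‖L (x - q)‖ ^ 2 + κ (2 ‖L‖ + κ) ‖x - q‖ ^ 2 < 0` for `x ≠ q` if `κ` is
small. And `‖θ x - θ q‖` small implies `x = ψ (θ x)` near `q = ψ (θ q)`, in `N`. -/
theorem BCtx.small {θ ψ : V → V} {q u : V} {ℓ r1 : ℝ} (h : BCtx θ ψ q u ℓ r1) {N : Set V}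
    (hN : IsOpen N) (hq : q ∈ N) :
    ∃ r0 : ℝ, 0 < r0 ∧ ∀ x, ‖θ x - θ q‖ ≤ r0 → x ∈ N ∧ ‖x - q‖ < r1 ∧
      (x ≠ q → ⟪θ x - θ q, fderiv ℝ θ x (q - x)⟫ < 0) := by
  set L := fderiv ℝ θ q with hL
  set C : ℝ := ‖fderiv ℝ ψ (θ q)‖ + 1 with hC
  have hC0 : 0 < C := by positivity
  have hLC : ∀ y : V, ‖y‖ ≤ C * ‖L y‖ := by
    intro y
    calc ‖y‖ = ‖fderiv ℝ ψ (θ q) (L y)‖ := by rw [hL, h.GlC0_left q y]
      _ ≤ ‖fderiv ℝ ψ (θ q)‖ * ‖L y‖ := ContinuousLinearMap.le_opNorm _ _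
      _ ≤ C * ‖L y‖ := by
          apply mul_le_mul_of_nonneg_right _ (norm_nonneg _)
          rw [hC]
          linarith
  have hκ : 0 < 1 / (4 * C) := by positivity
  set κ : ℝ := 1 / (4 * C) with hκd
  have e1 : ∀ᶠ x in 𝓝 q, ‖θ x - θ q - L (x - q)‖ ≤ κ * ‖x - q‖ :=
    (h.hθ.differentiable (by simp) q).hasFDerivAt.isLittleO.def hκ
  have e2 : ∀ᶠ x in 𝓝 q, ‖fderiv ℝ θ x - L‖ < κ := by
    have hc : Continuous (fderiv ℝ θ) := h.hθ.continuous_fderiv (by simp)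
    have := hc.continuousAt.eventually (Metric.ball_mem_nhds (fderiv ℝ θ q) hκ)
    filter_upwards [this] with x hx
    rw [← dist_eq_norm]
    exact hx
  have e3 : ∀ᶠ x in 𝓝 q, x ∈ N := hN.mem_nhds hq
  have e4 : ∀ᶠ x in 𝓝 q, ‖x - q‖ < r1 := by
    filter_upwards [Metric.ball_mem_nhds q h.hr1] with x hx
    rw [← dist_eq_norm]
    exact hx
  have e5 := (e1.and e2).and (e3.and e4)
  have hψc : Tendsto ψ (𝓝 (θ q)) (𝓝 q) := by
    have := h.hψ.continuous.tendsto (θ q)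
    rwa [h.left q] at this
  obtain ⟨r, hr, hrs⟩ := Metric.eventually_nhds_iff.1 (hψc.eventually e5)
  refine ⟨r / 2, by positivity, ?_⟩
  intro x hx
  have h1 : dist (θ x) (θ q) < r := by
    rw [dist_eq_norm]
    linarith
  have h2 := hrs h1
  rw [h.left x] at h2
  obtain ⟨⟨h3, h4⟩, h5, h6⟩ := h2
  refine ⟨h5, h6, ?_⟩
  intro hxq
  set y := x - q with hy
  have hy0 : 0 < ‖y‖ := norm_pos_iff.2 (sub_ne_zero.2 hxq)
  set a := ‖L y‖ with ha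
  have hya : ‖y‖ ≤ C * a := hLC y
  have ha0 : 0 < a := by
    by_contra hn
    have : a = 0 := le_antisymm (not_lt.1 hn) (norm_nonneg _)
    rw [this, mul_zero] at hya
    linarith
  set e : V := θ x - θ q - L y with he
  set g : V := (fderiv ℝ θ x - L) y with hg
  have hκy : κ * ‖y‖ ≤ a / 4 := by
    calc κ * ‖y‖ ≤ κ * (C * a) := mul_le_mul_of_nonneg_left hya hκ.le
      _ = a / 4 := by
          rw [hκd]
          field_simp
  have he1 : ‖e‖ ≤ a / 4 := h3.trans hκy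
  have hg1 : ‖g‖ ≤ a / 4 := by
    refine le_trans ?_ hκy
    calc ‖g‖ ≤ ‖fderiv ℝ θ x - L‖ * ‖y‖ := ContinuousLinearMap.le_opNorm _ _
      _ ≤ κ * ‖y‖ := mul_le_mul_of_nonneg_right h4.le hy0.le
  have k1 : θ x - θ q = L y + e := by
    rw [he]
    abel
  have k2 : fderiv ℝ θ x (q - x) = -(L y + g) := by
    rw [hg, hy, _root_.sub_apply, ← neg_sub x q, map_neg]
    congr 1
    abel
  rw [k1, k2, inner_neg_right, inner_add_left, inner_add_right, inner_add_right,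
    real_inner_self_eq_norm_sq, ← ha]
  have i1 := abs_le.1 (abs_real_inner_le_norm (L y) g)
  have i2 := abs_le.1 (abs_real_inner_le_norm e (L y))
  have i3 := abs_le.1 (abs_real_inner_le_norm e g)
  have j1 : ‖L y‖ * ‖g‖ ≤ a * (a / 4) := mul_le_mul_of_nonneg_left hg1 ha0.le
  have j2 : ‖e‖ * ‖L y‖ ≤ a / 4 * a := mul_le_mul_of_nonneg_right he1 ha0.le
  have j3 : ‖e‖ * ‖g‖ ≤ a / 4 * (a / 4) := mul_le_mul he1 hg1 (norm_nonneg _) (by positivity)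
  nlinarith [i1.1, i2.1, i3.1, mul_pos ha0 ha0]

/-- Descent directions of the small ball `b x = ‖θ x - θ q‖ ^ 2 - s`. -/
theorem BCtx.desc_b {θ ψ : V → V} {q u : V} {ℓ r1 : ℝ} (h : BCtx θ ψ q u ℓ r1) (s : ℝ) {x v : V}
    (hv : ⟪θ x - θ q, fderiv ℝ θ x v⟫ < 0) : Desc1 (fun x => ‖θ x - θ q‖ ^ 2 - s) x v :=
  GlC0_sq h.hθ (θ q) s hv

end Pool.Schoen
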