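import Pool.Agent.H.MP_6c077c_gt.Ix.GlB0
import Pool.Agent.H.MP_6c077c_gt.Ix.GlC0
import Pool.Agent.H.MP_6c077c_gt.Ix.MollC

/-! Gluing lemma, second step: coordinates `θ` in which `A` is the unit ball. -/

set_option autoImplicit false

namespace Pool.Schoen

open Filter Set
open scoped Topology RealInnerProductSpace ContDiff

variable {V : Type*} [NormedAddCommGroup V] [InnerProductSpace ℝ V] [FiniteDimensional ℝ V]

omit [FiniteDimensional ℝ V] in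
private theorem GlC_fderiv {θ : V → V} (hθ : ContDiff ℝ ∞ θ) (x w : V) :
    fderiv ℝ (fun y => ‖θ y‖ ^ 2 - 1) x w = 2 * ⟪θ x, fderiv ℝ θ x w⟫ := by
  have h1 : HasFDerivAt θ (fderiv ℝ θ x) x :=
    ((hθ.differentiable (by simp)) x).hasFDerivAt
  have h2 := (h1.norm_sq.sub_const 1).fderiv
  rw [h2]
  simp

omit [FiniteDimensional ℝ V] in
private theorem GlC_right {θ ψ : V → V} (hθ : ContDiff ℝ ∞ θ) (hψ : ContDiff ℝ ∞ ψ)
    (hl : ∀ x, ψ (θ x) = x) (hr : ∀ x, θ (ψ x) = x) (x w : V) :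
    fderiv ℝ θ x (fderiv ℝ ψ (θ x) w) = w := by
  have h1 : HasFDerivAt θ (fderiv ℝ θ x) (ψ (θ x)) := by
    rw [hl]
    exact ((hθ.differentiable (by simp)) x).hasFDerivAt
  have h2 : HasFDerivAt ψ (fderiv ℝ ψ (θ x)) (θ x) :=
    ((hψ.differentiable (by simp)) (θ x)).hasFDerivAt
  have h3 := h1.comp (θ x) h2
  have h4 : θ ∘ ψ = id := funext hr
  rw [h4] at h3
  have h5 := h3.unique (hasFDerivAt_id (θ x))
  have h6 := DFunLike.congr_fun h5 w
  exact h6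

private theorem GlC_key {a b t : ℝ} (ht : t ∈ Icc (0 : ℝ) 1) (h1 : a < 0 ↔ b < 0)
    (h2 : a ≤ 0 ↔ b ≤ 0) (h : (1 - t) * a + t * b = 0) : a = 0 := by
  rcases lt_trichotomy a 0 with h3 | h3 | h3
  · exfalso
    have h4 := h1.1 h3
    rcases eq_or_lt_of_le ht.1 with h5 | h5
    · rw [← h5] at h
      linarith
    · have h6 : t * b < 0 := mul_neg_of_pos_of_neg h5 h4
      have h7 : (1 - t) * a ≤ 0 := mul_nonpos_of_nonneg_of_nonpos (by linarith [ht.2]) h3.le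
      linarith
  · exact h3
  · exfalso
    have h4 : 0 < b := by
      by_contra h7
      exact absurd (h2.2 (not_lt.1 h7)) (not_le.2 h3)
    rcases eq_or_lt_of_le ht.1 with h5 | h5
    · rw [← h5] at h
      linarith
    · have h6 : 0 < t * b := mul_pos h5 h4
      have h7 : 0 ≤ (1 - t) * a := mul_nonneg (by linarith [ht.2]) h3.le
      linarith

/-- PROOF. `hb.symm`/`trans` give `Hom F (‖x‖ ^ 2 - 1)`, and `Hom.carries` gives `Carries2`, that is `θ`,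
`ψ` with `θ '' {F = 0} = sphere` and `θ '' {F ≤ 0} = ball`, so `F x = 0 ↔ ‖θ x‖ = 1`, `F x ≤ 0 ↔ ‖θ x‖ ≤ 1`.
Let `B x = ‖θ x‖ ^ 2 - 1`; its derivative at a zero `x` is nonzero (in the direction `fderiv ψ (θ x) (θ x)`
it is `2`). By `fderiv_neg_of_sign` it is negative in all descent directions of `F` (`F < 0` iff
`‖θ x‖ < 1`). This gives `dir` (near `q` all `v` with `⟪u, v⟫ < 0` are descent directions of `F`). The
interpolations `(1 - t) F + t B` vanish only where both vanish, and `v` with `Desc1 F x v` (exists, `F` is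
good) is a common direction. The last clause by `glue_lerp`. -/
theorem glue_theta {F : V → ℝ} (hF : ContDiff ℝ ∞ F) (hb : IsBall F) {q u : V} (hu : ‖u‖ = 1) {ℓ : ℝ}
    (hℓ : 0 < ℓ) (hflat : ∀ᶠ x in 𝓝 q, F x = ⟪u, x - q⟫)
    (hs : ∀ s ∈ Ioc (0 : ℝ) ℓ, 0 < F (q + s • u)) {N : Set V} (hN : IsOpen N)
    (hFN : ∀ x, F x ≤ 0 → x ∈ N) :
    ∃ (θ ψ : V → V) (r1 : ℝ), BCtx θ ψ q u ℓ r1 ∧ (∀ x, ‖θ x‖ ≤ 1 → x ∈ N) ∧
      ∃ r : ℝ, 0 < r ∧ ∀ᶠ ρ in 𝓝[>] (0 : ℝ), HomP (PhiG N (q + ℓ • u) r (tau q u ℓ ρ))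
        (fun x => min (F x) (tau q u ℓ ρ x)) (fun x => min (‖θ x‖ ^ 2 - 1) (tau q u ℓ ρ x)) := by
  have hG : ContDiff ℝ ∞ (fun x : V => ‖x‖ ^ 2 - 1) := (contDiff_norm_sq ℝ).sub contDiff_const
  obtain ⟨θ, ψ, hθ, hψ, hl, hr, -, himg, himg'⟩ := Hom.carries hb hF hG
  have hinj : Function.Injective θ := fun x y h => by rw [← hl x, h, hl]
  have hz : ∀ x, F x = 0 ↔ ‖θ x‖ ^ 2 - 1 = 0 := by
    intro x
    have h1 : x ∈ {x | F x = 0} ↔ θ x ∈ θ '' {x | F x = 0} := (hinj.mem_set_image).symm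
    rw [himg] at h1
    exact h1
  have hle : ∀ x, F x ≤ 0 ↔ ‖θ x‖ ^ 2 - 1 ≤ 0 := by
    intro x
    have h1 : x ∈ {x | F x ≤ 0} ↔ θ x ∈ θ '' {x | F x ≤ 0} := (hinj.mem_set_image).symm
    rw [himg'] at h1
    exact h1
  have hlt : ∀ x, F x < 0 ↔ ‖θ x‖ ^ 2 - 1 < 0 := by
    intro x
    rw [lt_iff_le_and_ne, lt_iff_le_and_ne, hle, Ne, hz]
  have hle1 : ∀ x, ‖θ x‖ ≤ 1 ↔ F x ≤ 0 := by
    intro x
    rw [hle, sub_nonpos, sq_le_one_iff₀ (norm_nonneg _)]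
  have hlt1 : ∀ x, ‖θ x‖ < 1 ↔ F x < 0 := by
    intro x
    rw [hlt, sub_neg, sq_lt_one_iff₀ (norm_nonneg _)]
  have hz1 : ∀ x, ‖θ x‖ = 1 ↔ F x = 0 := by
    intro x
    rw [eq_iff_le_not_lt, eq_iff_le_not_lt, hle1, hlt1]
  -- the derivative of `B` is negative in the descent directions of `F`
  have hBd : ∀ x, F x = 0 → ∀ v, Desc1 F x v → ⟪θ x, fderiv ℝ θ x v⟫ < 0 := by
    intro x hx v hv
    have hB : ContDiff ℝ ∞ (fun y : V => ‖θ y‖ ^ 2 - 1) := hG.comp hθ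
    have h1 : fderiv ℝ (fun y => ‖θ y‖ ^ 2 - 1) x v < 0 := by
      refine fderiv_neg_of_sign hv hx ((hB.differentiable (by simp)) x) ((hz x).1 hx) ?_ ?_
      · intro h0
        have h2 := GlC_fderiv hθ x (fderiv ℝ ψ (θ x) (θ x))
        rw [h0, GlC_right hθ hψ hl hr, real_inner_self_eq_norm_sq, (hz1 x).2 hx] at h2
        norm_num at h2
      · exact Eventually.of_forall fun y hy => ((hlt y).1 hy).le
    rw [GlC_fderiv hθ] at h1
    linarith
  have hBdesc : ∀ x v, ⟪θ x, fderiv ℝ θ x v⟫ < 0 → Desc1 (fun y => ‖θ y‖ ^ 2 - 1) x v := by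
    intro x v hv
    have hB : ContDiff ℝ ∞ (fun y : V => ‖θ y‖ ^ 2 - 1) := hG.comp hθ
    refine desc1_smooth (hB.contDiffAt.of_le (by exact_mod_cast le_top)) ?_
    rw [GlC_fderiv hθ]
    linarith
  obtain ⟨r0, hr0, hball⟩ := Metric.eventually_nhds_iff.1 hflat
  have hr1 : 0 < min r0 ℓ := lt_min hr0 hℓ
  have hfl : ∀ x, ‖x - q‖ < min r0 ℓ → F x = ⟪u, x - q⟫ := fun x hx =>
    hball (by rw [dist_eq_norm]; exact hx.trans_le (min_le_left _ _))
  have hfd : ∀ x, ‖x - q‖ < min r0 ℓ → ∀ v, ⟪u, v⟫ < 0 → Desc1 F x v := by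
    intro x hx v hv
    have h1 : Desc1 (fun y : V => ⟪u, y - q⟫) x v := by
      have h2 : HasFDerivAt (fun y : V => ⟪u, y - q⟫) (innerSL ℝ u) x := by
        have h3 := (innerSL ℝ u).hasFDerivAt.comp x ((hasFDerivAt_id (𝕜 := ℝ) x).sub_const q)
        exact h3
      refine desc1_smooth ?_ ?_
      · exact (contDiff_const.inner ℝ (contDiff_id.sub contDiff_const)).contDiffAt
      · rw [h2.fderiv]
        exact hv
    refine h1.congr ?_
    have h4 : ∀ᶠ y in 𝓝 x, ‖y - q‖ < min r0 ℓ :=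
      (continuous_norm.comp (continuous_sub_right q)).continuousAt.eventually_lt
        continuousAt_const hx
    filter_upwards [h4] with y hy
    exact (hfl y hy).symm
  refine ⟨θ, ψ, min r0 ℓ, ⟨hθ, hψ, hl, hr, hu, hℓ, hr1, min_le_right _ _, ?_, ?_, ?_, ?_⟩,
    fun x hx => hFN x ((hle1 x).1 hx), ?_⟩
  · intro x hx
    rw [hle1, hfl x hx]
  · intro x hx
    rw [hlt1, hfl x hx]
  · intro x hx hx1 v hv
    exact hBd x ((hz1 x).1 hx1) v (hfd x hx v hv)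
  · intro s hs'
    have h1 := hs s hs'
    by_contra h2
    exact absurd ((hle1 _).1 (not_lt.1 h2)) (not_le.2 h1)
  · refine glue_lerp hF.continuous (hG.comp hθ).continuous hu hℓ hFN ?_ hs ?_ hr1 ?_ ?_
    · intro x hx
      exact hFN x ((hle x).2 hx)
    · intro s hs'
      have h1 := hs s hs'
      by_contra h2
      exact absurd ((hle _).2 (not_lt.1 h2)) (not_le.2 h1)
    · intro t ht x hx h
      have h1 : F x = 0 := GlC_key ht (hlt x) (hle x) h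
      refine ⟨by rw [← hfl x hx, h1], fun v hv => ⟨hfd x hx v hv, ?_⟩⟩
      exact hBdesc x v (hBd x h1 v (hfd x hx v hv))
    · intro t ht x h
      have h1 : F x = 0 := GlC_key ht (hlt x) (hle x) h
      obtain ⟨v, hv⟩ := hb.good_left.desc x h1
      exact ⟨v, hv, hBdesc x v (hBd x h1 v hv)⟩

end Pool.Schoen
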