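import Pool.Agent.H.MP_6c077c_gt.Ix.GlC0

/-! Gluing lemma: the small ball, definition. -/

set_option autoImplicit false

namespace Pool.Schoen

open Filter Set
open scoped Topology RealInnerProductSpace ContDiff

variable {V : Type*} [NormedAddCommGroup V] [InnerProductSpace ℝ V]

/-- The small ball with centre `θ q` and radius `r0` in the coordinates `θ`. -/
noncomputable def bq (θ : V → V) (q : V) (r0 : ℝ) (x : V) : ℝ := ‖θ x - θ q‖ ^ 2 - r0 ^ 2

end Pool.Schoen
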