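import Pool.Agent.H.MP_6c077c_gt.Ix.GlD0

/-! Gluing lemma, third step: add a small ball at `q`. -/

set_option autoImplicit false

namespace Pool.Schoen

open Filter Set
open scoped Topology RealInnerProductSpace ContDiff

variable {V : Type*} [NormedAddCommGroup V] [InnerProductSpace ℝ V] [FiniteDimensional ℝ V]

omit [FiniteDimensional ℝ V] in
theorem GlD1_tau_q {q u : V} {ℓ ρ : ℝ} (hℓ : 0 < ℓ) (hρ : 0 < ρ) : tau q u ℓ ρ q < 0 := by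
  unfold tau
  rw [tubeF_lt hρ.le]
  simp only [sub_self, inner_zero_right]
  refine ⟨by linarith, by linarith, ?_⟩
  simp [orth, hρ]

/-- The common descent direction. -/
theorem GlD1_dir {θ ψ : V → V} {q u : V} {ℓ r1 : ℝ} (h : BCtx θ ψ q u ℓ r1) {N : Set V}
    {r0 : ℝ} (hr : 0 < r0)
    (hr0 : ∀ x, ‖θ x - θ q‖ ≤ r0 → x ∈ N ∧ ‖x - q‖ < r1 ∧
      (x ≠ q → ⟪θ x - θ q, fderiv ℝ θ x (q - x)⟫ < 0)) {ρ : ℝ} (hρ : 0 < ρ)
    (hsm : ∀ x, tau q u ℓ ρ x ≤ 0 → ‖x - q‖ < r1 ∨ 0 < ‖θ x‖ ^ 2 - 1) {s : ℝ} (hs : s ≤ r0 ^ 2)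
    {x : V} (hB : 0 ≤ ‖θ x‖ ^ 2 - 1) (hτ : 0 ≤ tau q u ℓ ρ x) :
    ∃ v, (‖θ x‖ ^ 2 - 1 = 0 → Desc1 (fun x => ‖θ x‖ ^ 2 - 1) x v) ∧
      (‖θ x - θ q‖ ^ 2 - s = 0 → Desc1 (fun x => ‖θ x - θ q‖ ^ 2 - s) x v) ∧
      (tau q u ℓ ρ x = 0 → Desc1 (tau q u ℓ ρ) x v) := by
  have hxq : x ≠ q := by
    rintro rfl
    exact absurd hτ (not_le.2 (GlD1_tau_q h.hℓ hρ))
  have d1 : ‖θ x - θ q‖ ^ 2 - s = 0 → ‖x - q‖ < r1 ∧
      Desc1 (fun x => ‖θ x - θ q‖ ^ 2 - s) x (q - x) := by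
    intro h0
    have h1 : ‖θ x - θ q‖ ≤ r0 := by
      apply le_of_sq_le_sq _ hr.le
      linarith
    obtain ⟨-, h2, h3⟩ := hr0 x h1
    exact ⟨h2, h.desc_b s (h3 hxq)⟩
  have d2 : tau q u ℓ ρ x = 0 → Desc1 (tau q u ℓ ρ) x (q - x) := fun h0 =>
    tau_desc h.hu h.hℓ hρ h0
  by_cases hB0 : ‖θ x‖ ^ 2 - 1 = 0
  · by_cases hx : ‖x - q‖ < r1
    · have hn : ‖θ x‖ = 1 := by
        have h1 : ‖θ x‖ ^ 2 = 1 ^ 2 := by linarith
        exact (pow_left_inj₀ (norm_nonneg _) zero_le_one two_ne_zero).1 h1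
      have hin : ⟪u, x - q⟫ = 0 := by
        have h1 := (h.flat x hx).1 hn.le
        have h2 : ¬ ⟪u, x - q⟫ < 0 := fun h3 => by
          have h4 := (h.flat' x hx).2 h3
          linarith
        linarith [not_lt.1 h2]
      have e1 : ∀ᶠ w in 𝓝 (q - x),
          (‖θ x - θ q‖ ^ 2 - s = 0 → Desc1 (fun x => ‖θ x - θ q‖ ^ 2 - s) x w) := by
        by_cases h0 : ‖θ x - θ q‖ ^ 2 - s = 0
        · have h1 : Desc (fun _ : Unit => (fun x => ‖θ x - θ q‖ ^ 2 - s)) ⊤ x (q - x) := (d1 h0).2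
          filter_upwards [h1.open_dir] with w hw _
          exact hw
        · exact Eventually.of_forall fun w h1 => absurd h1 h0
      have e2 : ∀ᶠ w in 𝓝 (q - x), (tau q u ℓ ρ x = 0 → Desc1 (tau q u ℓ ρ) x w) := by
        by_cases h0 : tau q u ℓ ρ x = 0
        · have h1 : Desc (fun _ : Unit => tau q u ℓ ρ) ⊤ x (q - x) := d2 h0
          filter_upwards [h1.open_dir] with w hw _
          exact hw
        · exact Eventually.of_forall fun w h1 => absurd h1 h0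
      have ht : Tendsto (fun κ : ℝ => q - x - κ • u) (𝓝[>] 0) (𝓝 (q - x)) := by
        have h1 : Continuous (fun κ : ℝ => q - x - κ • u) := by fun_prop
        have h2 := h1.tendsto 0
        simp only [zero_smul, sub_zero] at h2
        exact h2.mono_left nhdsWithin_le_nhds
      obtain ⟨κ, ⟨hκ1, hκ2⟩, hκ⟩ := ((ht.eventually (e1.and e2)).and self_mem_nhdsWithin).exists
      have hκ0 : 0 < κ := hκ
      refine ⟨q - x - κ • u, fun _ => h.desc (h.dir x hx hn _ ?_), hκ1, hκ2⟩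
      have h3 : ⟪u, q - x - κ • u⟫ = -⟪u, x - q⟫ - κ * ‖u‖ ^ 2 := by
        rw [inner_sub_right, inner_smul_right, real_inner_self_eq_norm_sq, ← inner_neg_right,
          neg_sub]
      rw [h3, hin, h.hu]
      linarith
    · obtain ⟨v, hv⟩ := h.good.desc x hB0
      refine ⟨v, fun _ => hv, fun h0 => absurd (d1 h0).1 hx, fun h0 => ?_⟩
      rcases hsm x h0.le with h1 | h1
      · exact absurd h1 hx
      · linarith
  · exact ⟨q - x, fun h0 => absurd h0 hB0, fun h0 => (d1 h0).2, d2⟩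

/-- Near the end of the tube. -/
theorem GlD1_end {θ ψ : V → V} {q u : V} {ℓ r1 : ℝ} (h : BCtx θ ψ q u ℓ r1) {N : Set V}
    {r0 : ℝ} (hr : 0 < r0)
    (hr0 : ∀ x, ‖θ x - θ q‖ ≤ r0 → x ∈ N ∧ ‖x - q‖ < r1 ∧
      (x ≠ q → ⟪θ x - θ q, fderiv ℝ θ x (q - x)⟫ < 0)) :
    0 < ‖θ (q + ℓ • u)‖ ^ 2 - 1 ∧ 0 < bq θ q r0 (q + ℓ • u) := by
  constructor
  · have h1 := h.seg ℓ ⟨h.hℓ, le_rfl⟩
    nlinarith
  · by_contra hneg
    have h2 : ‖θ (q + ℓ • u) - θ q‖ ^ 2 ≤ r0 ^ 2 := by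
      unfold bq at hneg
      linarith
    have h3 := (hr0 (q + ℓ • u) (le_of_sq_le_sq h2 hr.le)).2.1
    rw [add_sub_cancel_left, norm_smul, h.hu, mul_one, Real.norm_of_nonneg h.hℓ.le] at h3
    exact absurd h3 (not_lt.2 h.hr1ℓ)

/-- PROOF. First `HomP.of_eq_near` from `min B τ` to `min B (min b τ)`, `b x = ‖θ x - θ q‖ ^ 2 + 1 ≥ 1`
(near a zero both are `min B τ`). Then the family
`H t = min B (min (‖θ x - θ q‖ ^ 2 - s t) τ)` with `s t = -1 + t (r0 ^ 2 + 1)`. `PhiG` by `phiG_min` for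
`G = min B (‖θ x - θ q‖ ^ 2 - s)`: it is `≤ 0` only in `N` (by `hθN` and `hr0`); at the end
`b = q + ℓ u`: `B b > 0` (`h.seg`), `‖θ b - θ q‖ > r0` because otherwise `‖b - q‖ = ℓ < r1`; by continuity both
functions (the second one with `s = r0 ^ 2`) are at least `m > 0` near `b`, and `tau_end`.
Directions at a zero `x` of `H t` (all three values are `≥ 0`, `dz_min`, `dz_add_const`):
(a) `‖θ x - θ q‖ ^ 2 - s = 0`: then `x ≠ q` (else `τ q < 0`), so `‖θ x - θ q‖ ≤ r0` and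
`⟪θ x - θ q, fderiv θ x (q - x)⟫ < 0`; `q - x` is also a direction for `τ` if `τ x = 0` (`tau_desc`); if `B x > 0`
take `v = q - x`; if `B x = 0`, then `⟪u, x - q⟫ = 0` (`flat`, `flat'`) and `v = q - x - κ • u` with small `κ > 0`
(`Desc.open_dir` for the ball and for `τ`) satisfies `⟪u, v⟫ = -κ`, so `dir` applies, `BCtx.desc`.
(b) `‖θ x - θ q‖ ^ 2 - s > 0`, `B x = 0`, `τ x > 0`: `BCtx.good`.
(c) `‖θ x - θ q‖ ^ 2 - s > 0`, `B x > 0`, `τ x = 0`: `tau_desc`.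
(d) `‖θ x - θ q‖ ^ 2 - s > 0`, `B x = 0`, `τ x = 0`: `tau_small` for `G = B` and radius `r1` gives
`‖x - q‖ < r1`, so `⟪u, x - q⟫ = 0`, and `v = q - x - κ • u` as in (a). -/
theorem glue_add_ball {θ ψ : V → V} {q u : V} {ℓ r1 : ℝ} (h : BCtx θ ψ q u ℓ r1) {N : Set V}
    (hθN : ∀ x, ‖θ x‖ ≤ 1 → x ∈ N) {r0 : ℝ} (hr : 0 < r0)
    (hr0 : ∀ x, ‖θ x - θ q‖ ≤ r0 → x ∈ N ∧ ‖x - q‖ < r1 ∧
      (x ≠ q → ⟪θ x - θ q, fderiv ℝ θ x (q - x)⟫ < 0)) :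
    ∃ r : ℝ, 0 < r ∧ ∀ᶠ ρ in 𝓝[>] (0 : ℝ), HomP (PhiG N (q + ℓ • u) r (tau q u ℓ ρ))
      (fun x => min (‖θ x‖ ^ 2 - 1) (tau q u ℓ ρ x))
      (fun x => min (‖θ x‖ ^ 2 - 1) (min (bq θ q r0 x) (tau q u ℓ ρ x))) := by
  have hθc : Continuous θ := h.hθ.continuous
  have hBc : Continuous fun x => ‖θ x‖ ^ 2 - 1 := by fun_prop
  have hbc : Continuous fun x => ‖θ x - θ q‖ ^ 2 := by fun_prop
  obtain ⟨hb1, hb2⟩ := GlD1_end h hr hr0
  obtain ⟨m, hm, hm1, hm2⟩ : ∃ m : ℝ, 0 < m ∧ m < ‖θ (q + ℓ • u)‖ ^ 2 - 1 ∧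
      m < bq θ q r0 (q + ℓ • u) := by
    refine ⟨min (‖θ (q + ℓ • u)‖ ^ 2 - 1) (bq θ q r0 (q + ℓ • u)) / 2, ?_, ?_, ?_⟩
    · have := lt_min hb1 hb2
      linarith
    · have := min_le_left (‖θ (q + ℓ • u)‖ ^ 2 - 1) (bq θ q r0 (q + ℓ • u))
      linarith
    · have := min_le_right (‖θ (q + ℓ • u)‖ ^ 2 - 1) (bq θ q r0 (q + ℓ • u))
      linarith
  have hbqc : Continuous (bq θ q r0) := by
    unfold bq
    fun_prop
  have hev : ∀ᶠ x in 𝓝 (q + ℓ • u), m < ‖θ x‖ ^ 2 - 1 ∧ m < bq θ q r0 x :=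
    (hBc.continuousAt.eventually_const_lt hm1).and (hbqc.continuousAt.eventually_const_lt hm2)
  obtain ⟨r2, hr2, hball⟩ := Metric.eventually_nhds_iff.1 hev
  obtain ⟨r3, hr3, hend⟩ := tau_end (q := q) h.hu h.hℓ hm
  refine ⟨min r2 r3, lt_min hr2 hr3, ?_⟩
  have hsm0 := tau_small h.hu h.hℓ hBc (fun s hs => by
    have h1 := h.seg s hs
    show 0 < ‖θ (q + s • u)‖ ^ 2 - 1
    nlinarith) h.hr1
  filter_upwards [hsm0, self_mem_nhdsWithin] with ρ hsm hρ'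
  have hρ : 0 < ρ := hρ'
  have hτc := tau_continuous q u ℓ ρ
  have hnear : ∀ x, ‖x - (q + ℓ • u)‖ < min r2 r3 →
      tau q u ℓ ρ x ≤ ‖θ x‖ ^ 2 - 1 ∧ tau q u ℓ ρ x ≤ bq θ q r0 x := by
    intro x hx
    have h1 := hball (by rw [dist_eq_norm]; exact hx.trans_le (min_le_left _ _))
    have h2 := hend ρ hρ x (hx.trans_le (min_le_right _ _))
    exact ⟨by linarith [h1.1], by linarith [h1.2]⟩
  have hBN : ∀ x, ‖θ x‖ ^ 2 - 1 ≤ 0 → x ∈ N := by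
    intro x hx
    apply hθN
    apply le_of_sq_le_sq _ zero_le_one
    linarith
  have hΦ : ∀ s ≤ r0 ^ 2, PhiG N (q + ℓ • u) (min r2 r3) (tau q u ℓ ρ)
      fun x => min (‖θ x‖ ^ 2 - 1) (min (‖θ x - θ q‖ ^ 2 - s) (tau q u ℓ ρ x)) := by
    intro s hs
    have h1 : (fun x => min (‖θ x‖ ^ 2 - 1) (min (‖θ x - θ q‖ ^ 2 - s) (tau q u ℓ ρ x))) =
        fun x => min (min (‖θ x‖ ^ 2 - 1) (‖θ x - θ q‖ ^ 2 - s)) (tau q u ℓ ρ x) := by
      funext x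
      rw [min_assoc]
    rw [h1]
    refine phiG_min ?_ ?_
    · intro x hx
      rcases min_le_iff.1 hx with h2 | h2
      · exact hBN x h2
      · exact (hr0 x (le_of_sq_le_sq (by linarith) hr.le)).1
    · intro x hx
      obtain ⟨h2, h3⟩ := hnear x hx
      refine le_min h2 ?_
      unfold bq at h3
      linarith
  have hΦ0 : PhiG N (q + ℓ • u) (min r2 r3) (tau q u ℓ ρ)
      fun x => min (‖θ x‖ ^ 2 - 1) (tau q u ℓ ρ x) :=
    phiG_min hBN fun x hx => (hnear x hx).1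
  have hneg1 : (-1 : ℝ) ≤ r0 ^ 2 := by nlinarith
  -- first step
  have hA : HomP (PhiG N (q + ℓ • u) (min r2 r3) (tau q u ℓ ρ))
      (fun x => min (‖θ x‖ ^ 2 - 1) (tau q u ℓ ρ x))
      (fun x => min (‖θ x‖ ^ 2 - 1) (min (‖θ x - θ q‖ ^ 2 - (-1)) (tau q u ℓ ρ x))) := by
    have hge : ∀ x, (1 : ℝ) ≤ ‖θ x - θ q‖ ^ 2 - (-1) := fun x => by nlinarith [norm_nonneg (θ x - θ q)]
    have heq : ∀ x, min (‖θ x‖ ^ 2 - 1) (min (‖θ x - θ q‖ ^ 2 - (-1)) (tau q u ℓ ρ x)) =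
        min (min (‖θ x‖ ^ 2 - 1) (tau q u ℓ ρ x)) (‖θ x - θ q‖ ^ 2 - (-1)) := by
      intro x
      rw [min_comm (‖θ x - θ q‖ ^ 2 - (-1)), min_assoc]
    refine HomP.of_eq_near (hBc.min hτc) (hBc.min ((hbc.sub continuous_const).min hτc)) ?_ ?_ ?_
    · intro x hx
      have hx0 : min (‖θ x‖ ^ 2 - 1) (tau q u ℓ ρ x) = 0 := by
        rcases hx with hx | hx
        · exact hx
        · rw [heq] at hx
          rcases min_choice (min (‖θ x‖ ^ 2 - 1) (tau q u ℓ ρ x)) (‖θ x - θ q‖ ^ 2 - (-1)) with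
            h1 | h1
          · rw [← h1]; exact hx
          · exfalso
            rw [h1] at hx
            linarith [hge x]
      constructor
      · have h1 : ∀ᶠ y in 𝓝 x, min (‖θ y‖ ^ 2 - 1) (tau q u ℓ ρ y) < 1 := by
          refine (hBc.min hτc).continuousAt.eventually_lt_const ?_
          change min (‖θ x‖ ^ 2 - 1) (tau q u ℓ ρ x) < 1
          rw [hx0]
          exact zero_lt_one
        filter_upwards [h1] with y hy
        have h2 : min (min (‖θ y‖ ^ 2 - 1) (tau q u ℓ ρ y)) (‖θ y - θ q‖ ^ 2 - (-1)) =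
            min (‖θ y‖ ^ 2 - 1) (tau q u ℓ ρ y) := min_eq_left (hy.le.trans (hge y))
        rw [heq, h2]
      · have hB0 : 0 ≤ ‖θ x‖ ^ 2 - 1 := by rw [← hx0]; exact min_le_left _ _
        have hτ0 : 0 ≤ tau q u ℓ ρ x := by rw [← hx0]; exact min_le_right _ _
        obtain ⟨v, hv1, -, hv3⟩ := GlD1_dir h hr hr0 hρ hsm hneg1 hB0 hτ0
        exact ⟨v, dz1_min hBc hτc hv1 hv3 hx0⟩
    · intro x hf hg
      rw [heq] at hg ⊢
      rcases lt_or_gt_of_ne hf with h1 | h1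
      · have h2 : min (min (‖θ x‖ ^ 2 - 1) (tau q u ℓ ρ x)) (‖θ x - θ q‖ ^ 2 - (-1)) =
            min (‖θ x‖ ^ 2 - 1) (tau q u ℓ ρ x) := min_eq_left (h1.le.trans (by linarith [hge x]))
        rw [h2]
        exact mul_pos_of_neg_of_neg h1 h1
      · exact mul_pos h1 (lt_min h1 (by linarith [hge x]))
    · intro t ht
      exact phiG_lerp hΦ0 (hΦ (-1) hneg1) ht
  refine hA.trans ?_
  refine ⟨fun t x => min (‖θ x‖ ^ 2 - 1)
      (min (‖θ x - θ q‖ ^ 2 + (1 - t * (r0 ^ 2 + 1))) (tau q u ℓ ρ x)), ?_, ?_, ?_, ?_, ?_⟩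
  · have h1 : Continuous fun p : ℝ × V => ‖θ p.2‖ ^ 2 - 1 := hBc.comp continuous_snd
    have h2 : Continuous fun p : ℝ × V => ‖θ p.2 - θ q‖ ^ 2 + (1 - p.1 * (r0 ^ 2 + 1)) :=
      (hbc.comp continuous_snd).add (by fun_prop)
    exact h1.min (h2.min (hτc.comp continuous_snd))
  · funext x
    simp only [zero_mul, sub_zero, sub_neg_eq_add]
  · funext x
    unfold bq
    ring_nf
  · intro t ht
    have h1 := hΦ (-1 + t * (r0 ^ 2 + 1)) (by nlinarith [ht.2, sq_nonneg r0])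
    have h2 : (fun x => min (‖θ x‖ ^ 2 - 1)
        (min (‖θ x - θ q‖ ^ 2 + (1 - t * (r0 ^ 2 + 1))) (tau q u ℓ ρ x))) =
        fun x => min (‖θ x‖ ^ 2 - 1)
        (min (‖θ x - θ q‖ ^ 2 - (-1 + t * (r0 ^ 2 + 1))) (tau q u ℓ ρ x)) := by
      funext x
      congr 2
      ring
    change PhiG N (q + ℓ • u) (min r2 r3) (tau q u ℓ ρ) (fun x => min (‖θ x‖ ^ 2 - 1)
        (min (‖θ x - θ q‖ ^ 2 + (1 - t * (r0 ^ 2 + 1))) (tau q u ℓ ρ x)))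
    rw [h2]
    exact h1
  · intro t ht x hx
    have hs : -1 + t * (r0 ^ 2 + 1) ≤ r0 ^ 2 := by nlinarith [ht.2, sq_nonneg r0]
    have hx' : min (‖θ x‖ ^ 2 - 1)
      (min (‖θ x - θ q‖ ^ 2 + (1 - t * (r0 ^ 2 + 1))) (tau q u ℓ ρ x)) = 0 := hx
    have hB0 : 0 ≤ ‖θ x‖ ^ 2 - 1 := by rw [← hx']; exact min_le_left _ _
    have hτ0 : 0 ≤ tau q u ℓ ρ x := by
      rw [← hx']
      exact (min_le_right _ _).trans (min_le_right _ _)
    obtain ⟨v, hv1, hv2, hv3⟩ := GlD1_dir h hr hr0 hρ hsm hs hB0 hτ0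
    refine ⟨v, ?_⟩
    have hA1 : DZ (fun _ y => ‖θ y‖ ^ 2 - 1) t x v := dz_static hv1
    have hA3 : DZ (fun _ => tau q u ℓ ρ) t x v := dz_static hv3
    have hA2 : DZ (fun s y => ‖θ y - θ q‖ ^ 2 + (1 - s * (r0 ^ 2 + 1))) t x v := by
      refine dz_add_const (f := fun y => ‖θ y - θ q‖ ^ 2) (fun s => 1 - s * (r0 ^ 2 + 1)) ?_
      intro h0
      have h1 := hv2 (by linarith)
      have h2 : Desc (fun _ : Unit => (fun x => ‖θ x - θ q‖ ^ 2 - (-1 + t * (r0 ^ 2 + 1)))) ⊤ x v :=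
        h1
      have h3 := desc_add_const h2 (fun _ => -1 + t * (r0 ^ 2 + 1))
      simp only [sub_add_cancel] at h3
      exact h3
    have h1 : Continuous fun p : ℝ × V => ‖θ p.2‖ ^ 2 - 1 := hBc.comp continuous_snd
    have h2 : Continuous fun p : ℝ × V => ‖θ p.2 - θ q‖ ^ 2 + (1 - p.1 * (r0 ^ 2 + 1)) :=
      (hbc.comp continuous_snd).add (by fun_prop)
    have h3 : Continuous fun p : ℝ × V => tau q u ℓ ρ p.2 := hτc.comp continuous_snd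
    exact dz_min h1 (h2.min h3) hA1 (dz_min h2 h3 hA2 hA3) hx

end Pool.Schoen
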