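import Pool.Agent.H.MP_6c077c_gt.Ix.GlD0

/-! Gluing lemma, last step: remove the small ball. -/

set_option autoImplicit false

namespace Pool.Schoen

open Filter Set
open scoped Topology RealInnerProductSpace ContDiff

variable {V : Type*} [NormedAddCommGroup V] [InnerProductSpace ℝ V] [FiniteDimensional ℝ V]

private theorem GlD2_tau_q {q u : V} {ℓ ρ : ℝ} (hℓ : 0 < ℓ) (hρ : 0 < ρ) : tau q u ℓ ρ q < 0 := by
  have h := (tubeF_lt (q := q) (u := u) (α := -ρ) (β := ℓ + ρ) hρ.le q).2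
  apply h
  simp only [orth, sub_self, inner_zero_right, zero_smul, norm_zero]
  refine ⟨by linarith, by linarith, hρ⟩

/-- PROOF. As `glue_add_ball`, without `B`, backwards: the family
`min (‖θ x - θ q‖ ^ 2 - s t) τ`, direction `q - x` at the zeros of the first function, `tau_desc` at the other
ones; and `HomP.of_eq_near` for the last step. -/
theorem glue_remove_ball {θ ψ : V → V} {q u : V} {ℓ r1 : ℝ} (h : BCtx θ ψ q u ℓ r1) {N : Set V}
    {r0 : ℝ} (hr : 0 < r0)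
    (hr0 : ∀ x, ‖θ x - θ q‖ ≤ r0 → x ∈ N ∧ ‖x - q‖ < r1 ∧
      (x ≠ q → ⟪θ x - θ q, fderiv ℝ θ x (q - x)⟫ < 0)) :
    ∃ r : ℝ, 0 < r ∧ ∀ᶠ ρ in 𝓝[>] (0 : ℝ), HomP (PhiG N (q + ℓ • u) r (tau q u ℓ ρ))
      (fun x => min (bq θ q r0 x) (tau q u ℓ ρ x)) (tau q u ℓ ρ) := by
  have hθc : Continuous θ := h.hθ.continuous
  have hGc : Continuous fun x => ‖θ x - θ q‖ ^ 2 := ((hθc.sub continuous_const).norm).pow 2
  -- the other end of the tube is far from the small ball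
  have hfar : r0 < ‖θ (q + ℓ • u) - θ q‖ := by
    by_contra hcon
    push Not at hcon
    have h1 := (hr0 _ hcon).2.1
    rw [add_sub_cancel_left, norm_smul, h.hu, mul_one, Real.norm_eq_abs, abs_of_pos h.hℓ] at h1
    linarith [h.hr1ℓ]
  have hfar2 : 0 < ‖θ (q + ℓ • u) - θ q‖ ^ 2 - r0 ^ 2 := by nlinarith
  obtain ⟨m, hm, hm2⟩ := exists_between hfar2
  have hnear : ∀ᶠ x in 𝓝 (q + ℓ • u), m < ‖θ x - θ q‖ ^ 2 - r0 ^ 2 :=
    continuousAt_const.eventually_lt (hGc.sub continuous_const).continuousAt hm2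
  obtain ⟨ra, hra, hra'⟩ := Metric.eventually_nhds_iff.1 hnear
  obtain ⟨rb, hrb, hrb'⟩ := tau_end (q := q) (u := u) h.hu h.hℓ hm
  refine ⟨min ra rb, lt_min hra hrb, ?_⟩
  filter_upwards [self_mem_nhdsWithin] with ρ hρ
  have hρ' : 0 < ρ := hρ
  -- comparison of the two functions near the end
  have hcmp : ∀ s : ℝ, s ≤ r0 ^ 2 → PhiG N (q + ℓ • u) (min ra rb) (tau q u ℓ ρ)
      fun x => min (‖θ x - θ q‖ ^ 2 - s) (tau q u ℓ ρ x) := by
    intro s hs
    refine phiG_min (G := fun x => ‖θ x - θ q‖ ^ 2 - s) ?_ ?_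
    · intro x hx
      have hx' : ‖θ x - θ q‖ ^ 2 ≤ r0 ^ 2 := by
        have : ‖θ x - θ q‖ ^ 2 - s ≤ 0 := hx
        linarith
      exact (hr0 x ((sq_le_sq₀ (norm_nonneg _) hr.le).1 hx')).1
    · intro x hx
      have h1 := hra' (y := x) (by rw [dist_eq_norm]; exact hx.trans_le (min_le_left _ _))
      have h2 := hrb' ρ hρ' x (hx.trans_le (min_le_right _ _))
      show tau q u ℓ ρ x ≤ ‖θ x - θ q‖ ^ 2 - s
      linarith
  -- the descent direction
  have hdir : ∀ s : ℝ, s ≤ r0 ^ 2 → ∀ x, x ≠ q → ‖θ x - θ q‖ ^ 2 - s = 0 →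
      Desc1 (fun y => ‖θ y - θ q‖ ^ 2) x (q - x) := by
    intro s hs x hxq hx
    have hx' : ‖θ x - θ q‖ ^ 2 ≤ r0 ^ 2 := by linarith
    have h1 := (hr0 x ((sq_le_sq₀ (norm_nonneg _) hr.le).1 hx')).2.2 hxq
    have h2 := h.desc_b 0 h1
    simpa using h2
  -- the family
  have step1 : HomP (PhiG N (q + ℓ • u) (min ra rb) (tau q u ℓ ρ))
      (fun x => min (bq θ q r0 x) (tau q u ℓ ρ x))
      (fun x => min (‖θ x - θ q‖ ^ 2 - -1) (tau q u ℓ ρ x)) := by
    have hP : Continuous fun p : ℝ × V => ‖θ p.2 - θ q‖ ^ 2 + -(r0 ^ 2 - p.1 * (r0 ^ 2 + 1)) := by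
      have h1 : Continuous fun p : ℝ × V => ‖θ p.2 - θ q‖ ^ 2 := hGc.comp continuous_snd
      fun_prop
    have hT : Continuous fun p : ℝ × V => tau q u ℓ ρ p.2 :=
      (tau_continuous q u ℓ ρ).comp continuous_snd
    refine ⟨fun t x => min (‖θ x - θ q‖ ^ 2 + -(r0 ^ 2 - t * (r0 ^ 2 + 1))) (tau q u ℓ ρ x),
      hP.min hT, ?_, ?_, ?_, ?_⟩
    · funext x
      simp only [bq]
      congr 1
      ring
    · funext x
      show min (‖θ x - θ q‖ ^ 2 + -(r0 ^ 2 - 1 * (r0 ^ 2 + 1))) (tau q u ℓ ρ x) =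
        min (‖θ x - θ q‖ ^ 2 - -1) (tau q u ℓ ρ x)
      congr 1
      ring
    · intro t ht
      have h1 := hcmp (r0 ^ 2 - t * (r0 ^ 2 + 1)) (by nlinarith [ht.1, sq_nonneg r0])
      simpa only [sub_eq_add_neg] using h1
    · intro t ht x hx
      refine ⟨q - x, ?_⟩
      have hxq : x ≠ q := by
        rintro rfl
        have h1 := GlD2_tau_q (q := x) (u := u) h.hℓ hρ'
        have h2 := (min_le_right (‖θ x - θ x‖ ^ 2 + -(r0 ^ 2 - t * (r0 ^ 2 + 1)))
          (tau x u ℓ ρ x))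
        have h3 : min (‖θ x - θ x‖ ^ 2 + -(r0 ^ 2 - t * (r0 ^ 2 + 1))) (tau x u ℓ ρ x) = 0 := hx
        linarith
      have hz := dz_min (H := fun s y => ‖θ y - θ q‖ ^ 2 + -(r0 ^ 2 - s * (r0 ^ 2 + 1)))
        (K := fun _ => tau q u ℓ ρ) (t := t) (x := x) (v := q - x) hP hT
        (dz_add_const (f := fun y => ‖θ y - θ q‖ ^ 2) (fun s => -(r0 ^ 2 - s * (r0 ^ 2 + 1)))
          fun h0 => hdir (r0 ^ 2 - t * (r0 ^ 2 + 1)) (by nlinarith [ht.1, sq_nonneg r0]) x hxq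
            (by linarith))
        (dz_static fun h0 => tau_desc h.hu h.hℓ hρ' h0)
      exact hz hx
  refine step1.trans ?_
  have hb1 : ∀ x, (1 : ℝ) ≤ ‖θ x - θ q‖ ^ 2 - -1 := by
    intro x
    nlinarith [sq_nonneg ‖θ x - θ q‖]
  have hPG1 := hcmp (-1) (by nlinarith [sq_nonneg r0])
  refine HomP.of_eq_near ((hGc.sub continuous_const).min (tau_continuous q u ℓ ρ))
    (tau_continuous q u ℓ ρ) ?_ ?_ ?_
  · intro x hx
    have hτ : tau q u ℓ ρ x = 0 := by
      rcases hx with hx | hx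
      · rcases min_choice (‖θ x - θ q‖ ^ 2 - -1) (tau q u ℓ ρ x) with h1 | h1
        · have h2 := hb1 x
          rw [h1] at hx
          linarith
        · rw [← h1]; exact hx
      · exact hx
    refine ⟨?_, q - x, ?_⟩
    · have h1 : ∀ᶠ y in 𝓝 x, tau q u ℓ ρ y < 1 :=
        (tau_continuous q u ℓ ρ).continuousAt.eventually_lt continuousAt_const (by
          rw [hτ]; exact one_pos)
      filter_upwards [h1] with y hy
      exact min_eq_right (hy.le.trans (hb1 y))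
    · have hz := dz1_min (f := fun y => ‖θ y - θ q‖ ^ 2 - -1) (g := tau q u ℓ ρ) (x := x)
        (v := q - x) (hGc.sub continuous_const) (tau_continuous q u ℓ ρ)
        (dz1_of_ne (by have := hb1 x; linarith)) (fun h0 => tau_desc h.hu h.hℓ hρ' h0)
      apply hz
      show min (‖θ x - θ q‖ ^ 2 - -1) (tau q u ℓ ρ x) = 0
      rw [hτ]
      exact min_eq_right (by have := hb1 x; linarith)
  · intro x hf hg
    have hf' : min (‖θ x - θ q‖ ^ 2 - -1) (tau q u ℓ ρ x) ≠ 0 := hf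
    show 0 < min (‖θ x - θ q‖ ^ 2 - -1) (tau q u ℓ ρ x) * tau q u ℓ ρ x
    rcases lt_or_gt_of_ne hg with h1 | h1
    · rw [min_eq_right (by have := hb1 x; linarith)]
      exact mul_pos_of_neg_of_neg h1 h1
    · exact mul_pos (lt_min (by have := hb1 x; linarith) h1) h1
  · intro t ht
    exact phiG_lerp hPG1 ⟨fun x hx => Or.inr hx, fun x _ => rfl⟩ ht

end Pool.Schoen
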