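import Pool.Agent.H.MP_6c077c_gt.Ix.GlD0

/-! Gluing lemma: compactness facts. -/

set_option autoImplicit false

namespace Pool.Schoen

open Filter Set
open scoped Topology RealInnerProductSpace ContDiff

variable {V : Type*} [NormedAddCommGroup V] [InnerProductSpace ℝ V] [FiniteDimensional ℝ V]

/-- The points of thin tubes are in the small ball or definitely outside of the unit ball.
PROOF. `K = {q + s u | s ∈ Icc 0 ℓ, ‖θ (q + s u) - θ q‖ ≥ r0 / 2}` is compact and `1 < ‖θ x‖` on it, so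
`1 + 2 k1 ≤ ‖θ x‖` for some `k1 > 0` (if `K` is empty take `k1 = 1`); `θ` is uniformly continuous on
the compact `1`-neighbourhood of the segment: for small `ρ`, `‖x - x'‖ ≤ 2 ρ` with `x'` in the segment
implies `‖θ x - θ x'‖ < min k1 (r0 / 2)`; `tubeF_near`. -/
theorem BCtx.tube_pos {θ ψ : V → V} {q u : V} {ℓ r1 : ℝ} (h : BCtx θ ψ q u ℓ r1) {r0 : ℝ}
    (hr : 0 < r0) : ∃ k1 : ℝ, 0 < k1 ∧ ∀ᶠ ρ in 𝓝[>] (0 : ℝ), ∀ x, tau q u ℓ ρ x ≤ 0 →
      ‖θ x - θ q‖ < r0 ∨ 1 + k1 ≤ ‖θ x‖ := by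
  have hθc : Continuous θ := h.hθ.continuous
  have hpc : Continuous fun s : ℝ => q + s • u := by fun_prop
  obtain ⟨k1, hk1, hK⟩ : ∃ k1 : ℝ, 0 < k1 ∧ ∀ s ∈ Icc (0 : ℝ) ℓ,
      r0 / 2 ≤ ‖θ (q + s • u) - θ q‖ → 1 + 2 * k1 ≤ ‖θ (q + s • u)‖ := by
    let K : Set ℝ := Icc (0 : ℝ) ℓ ∩ {s | r0 / 2 ≤ ‖θ (q + s • u) - θ q‖}
    have hKc : IsCompact K := isCompact_Icc.inter_right
      (isClosed_le continuous_const ((hθc.comp hpc).sub continuous_const).norm)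
    rcases K.eq_empty_or_nonempty with hKe | hKn
    · refine ⟨1, one_pos, fun s hs hs2 => ?_⟩
      have : s ∈ K := ⟨hs, hs2⟩
      rw [hKe] at this
      exact absurd this (Set.notMem_empty s)
    · obtain ⟨s0, hs0, hmin⟩ := hKc.exists_isMinOn hKn (hθc.comp hpc).norm.continuousOn
      have hs0pos : 0 < s0 := by
        rcases eq_or_lt_of_le hs0.1.1 with h0 | h0
        · exfalso
          have h2 : r0 / 2 ≤ ‖θ (q + s0 • u) - θ q‖ := hs0.2
          rw [← h0, zero_smul, add_zero, sub_self, norm_zero] at h2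
          linarith
        · exact h0
      have hgt : 1 < ‖θ (q + s0 • u)‖ := h.seg s0 ⟨hs0pos, hs0.1.2⟩
      refine ⟨(‖θ (q + s0 • u)‖ - 1) / 2, by linarith, fun s hs hs2 => ?_⟩
      have hle : ‖θ (q + s0 • u)‖ ≤ ‖θ (q + s • u)‖ := hmin (a := s) ⟨hs, hs2⟩
      linarith
  have hε : 0 < min k1 (r0 / 2) := lt_min hk1 (by linarith)
  have hSc : IsCompact ((fun s : ℝ => q + s • u) '' Icc (0 : ℝ) ℓ) := isCompact_Icc.image hpc
  have hunif := hSc.uniformContinuousAt_of_continuousAt θ (fun a _ => hθc.continuousAt)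
    (Metric.dist_mem_uniformity hε)
  obtain ⟨δ, hδ, hδ2⟩ := Metric.mem_uniformity_dist.1 hunif
  refine ⟨k1, hk1, ?_⟩
  have hev : ∀ᶠ ρ in 𝓝[>] (0 : ℝ), ρ ∈ Ioo (0 : ℝ) (δ / 2) :=
    Ioo_mem_nhdsGT (by linarith)
  filter_upwards [hev] with ρ hρ x hx
  obtain ⟨s, hs, hxs⟩ := tubeF_near h.hu h.hℓ.le hρ.1.le hx
  have hd : dist (q + s • u) x < δ := by
    rw [dist_comm, dist_eq_norm]
    have := hρ.2
    linarith
  have h1 : dist (θ (q + s • u)) (θ x) < min k1 (r0 / 2) := hδ2 hd (mem_image_of_mem _ hs)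
  rw [dist_eq_norm] at h1
  have h2 : ‖θ (q + s • u) - θ x‖ < k1 := lt_of_lt_of_le h1 (min_le_left _ _)
  have h3 : ‖θ (q + s • u) - θ x‖ < r0 / 2 := lt_of_lt_of_le h1 (min_le_right _ _)
  rcases lt_or_ge ‖θ (q + s • u) - θ q‖ (r0 / 2) with hlt | hge
  · left
    have h4 : ‖θ x - θ q‖ ≤ ‖θ (q + s • u) - θ x‖ + ‖θ (q + s • u) - θ q‖ := by
      have : θ x - θ q = (θ (q + s • u) - θ q) - (θ (q + s • u) - θ x) := by abel
      rw [this]
      refine (norm_sub_le _ _).trans ?_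
      linarith
    linarith
  · right
    have h4 := hK s hs hge
    have h5 : ‖θ (q + s • u)‖ ≤ ‖θ (q + s • u) - θ x‖ + ‖θ x‖ := by
      have : θ (q + s • u) = (θ (q + s • u) - θ x) + θ x := by abel
      calc ‖θ (q + s • u)‖ = ‖(θ (q + s • u) - θ x) + θ x‖ := by rw [← this]
        _ ≤ _ := norm_add_le _ _
    linarith

/-- A little more than the unit ball is in `N`. PROOF. `ψ` maps the compact ball of radius `2` minus
`ψ ⁻¹ N` ... : the set `{y | ‖y‖ ≤ 2, ψ y ∉ N}` is compact and `1 < ‖y‖` on it. -/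
theorem BCtx.nbhd {θ ψ : V → V} {q u : V} {ℓ r1 : ℝ} (h : BCtx θ ψ q u ℓ r1) {N : Set V}
    (hN : IsOpen N) (hθN : ∀ x, ‖θ x‖ ≤ 1 → x ∈ N) :
    ∃ k2 : ℝ, 0 < k2 ∧ ∀ x, ‖θ x‖ ≤ 1 + k2 → x ∈ N := by
  let K : Set V := Metric.closedBall (0 : V) 2 ∩ ψ ⁻¹' Nᶜ
  have hKc : IsCompact K := (isCompact_closedBall (0 : V) 2).inter_right
    (hN.isClosed_compl.preimage h.hψ.continuous)
  have hmem : ∀ x, ‖θ x‖ ≤ 2 → x ∉ N → θ x ∈ K := by
    intro x hx hxN
    refine ⟨mem_closedBall_zero_iff.2 hx, ?_⟩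
    change ψ (θ x) ∉ N
    rw [h.left]
    exact hxN
  rcases K.eq_empty_or_nonempty with hKe | hKn
  · refine ⟨1, one_pos, fun x hx => ?_⟩
    by_contra hxN
    have := hmem x (by linarith) hxN
    rw [hKe] at this
    exact Set.notMem_empty _ this
  · obtain ⟨y0, hy0, hmin⟩ := hKc.exists_isMinOn hKn continuous_norm.continuousOn
    have hgt : 1 < ‖y0‖ := by
      by_contra hle
      have hle' : ‖θ (ψ y0)‖ ≤ 1 := by
        rw [h.right]
        exact not_lt.1 hle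
      exact hy0.2 (hθN _ hle')
    refine ⟨min ((‖y0‖ - 1) / 2) 1, lt_min (by linarith) one_pos, fun x hx => ?_⟩
    by_contra hxN
    have h1 : min ((‖y0‖ - 1) / 2) 1 ≤ (‖y0‖ - 1) / 2 := min_le_left _ _
    have h2 : min ((‖y0‖ - 1) / 2) 1 ≤ 1 := min_le_right _ _
    have h3 : ‖y0‖ ≤ ‖θ x‖ := hmin (a := θ x) (hmem x (by linarith) hxN)
    linarith

end Pool.Schoen
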