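import Pool.Agent.H.MP_6c077c_gt.Ix.GlE0
import Pool.Agent.H.MP_6c077c_gt.Ix.GlE1

/-! Gluing lemma, fourth step: shrink the unit ball into the small ball. -/

set_option autoImplicit false

namespace Pool.Schoen

open Filter Set
open scoped Topology RealInnerProductSpace ContDiff

variable {V : Type*} [NormedAddCommGroup V] [InnerProductSpace ℝ V] [FiniteDimensional ℝ V]

omit [FiniteDimensional ℝ V] in
theorem GlE_deriv {θ : V → V} (hθ : ContDiff ℝ ∞ θ) {m : V} {μ : ℝ → ℝ} (hμ : ContDiff ℝ 1 μ)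
    {t : ℝ} {x v : V} (hv : ⟪θ x - (1 - μ t) • m, fderiv ℝ θ x v⟫ < 0) :
    ContDiffAt ℝ 1 (fun p : ℝ × V => hball m (μ p.1) (θ p.2)) (t, x) ∧
      fderiv ℝ (fun p : ℝ × V => hball m (μ p.1) (θ p.2)) (t, x) (0, v) < 0 := by
  have hG : ContDiffAt ℝ 1 (fun p : ℝ × V => hball m (μ p.1) (θ p.2)) (t, x) := by
    have h1 : ContDiff ℝ 1 (fun p : ℝ × V => θ p.2) :=
      (hθ.of_le (by exact_mod_cast le_top)).comp contDiff_snd
    have h2 : ContDiff ℝ 1 (fun p : ℝ × V => μ p.1) := hμ.comp contDiff_fst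
    have h3 : ContDiff ℝ 1 (fun p : ℝ × V => θ p.2 - (1 - μ p.1) • m) :=
      h1.sub ((contDiff_const.sub h2).smul contDiff_const)
    exact ((h3.norm_sq ℝ).sub (h2.pow 2)).contDiffAt
  refine ⟨hG, ?_⟩
  have hd : DifferentiableAt ℝ (fun p : ℝ × V => hball m (μ p.1) (θ p.2)) (t, x) :=
    hG.differentiableAt one_ne_zero
  have h1 : HasFDerivAt (fun y : V => (t, y)) (ContinuousLinearMap.inr ℝ ℝ V) x :=
    hasFDerivAt_prodMk_right t x
  have h2 := hd.hasFDerivAt.comp x h1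
  have h3 : HasFDerivAt θ (fderiv ℝ θ x) x :=
    ((hθ.differentiable (by simp)).differentiableAt).hasFDerivAt
  have h4 := ((h3.sub_const ((1 - μ t) • m)).norm_sq).sub_const (μ t ^ 2)
  have h5 := h2.unique h4
  have h6 := congrArg (fun L => L v) h5
  simp only [ContinuousLinearMap.comp_apply, ContinuousLinearMap.inr_apply] at h6
  rw [h6]
  simp only [ContinuousLinearMap.smul_apply, ContinuousLinearMap.comp_apply, innerSL_apply_apply,
    nsmul_eq_mul, smul_eq_mul]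
  push_cast
  linarith

/-- The common descent direction. -/
theorem GlE_dir {θ ψ : V → V} {q u : V} {ℓ r1 : ℝ} (h : BCtx θ ψ q u ℓ r1) {N : Set V}
    {r0 : ℝ} (hr : 0 < r0)
    (hr0 : ∀ x, ‖θ x - θ q‖ ≤ r0 → x ∈ N ∧ ‖x - q‖ < r1 ∧
      (x ≠ q → ⟪θ x - θ q, fderiv ℝ θ x (q - x)⟫ < 0)) {ρ : ℝ} (hρ : 0 < ρ)
    {k k1 : ℝ} (hk : 0 < k) (hk1 : 2 * k ≤ k1)
    (htp : ∀ x, tau q u ℓ ρ x ≤ 0 → ‖θ x - θ q‖ < r0 ∨ 1 + k1 ≤ ‖θ x‖)
    (hkr : k + √(2 * k) < r0) {μ : ℝ → ℝ} (hμc : ContDiff ℝ 1 μ) {t : ℝ} (hμ : 0 < μ t)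
    (hμ1 : μ t ≤ 1) {x : V} (hb : 0 ≤ bq θ q r0 x) :
    ∃ v, DZ (fun s y => hball ((1 + k) • θ q) (μ s) (θ y)) t x v ∧ DZ1 (bq θ q r0) x v ∧
      DZ1 (tau q u ℓ ρ) x v := by
  have hp : ‖θ q‖ = 1 := h.norm_q
  have hm : ‖(1 + k) • θ q‖ ≤ 1 + k := by
    rw [norm_smul, hp, mul_one, Real.norm_of_nonneg (by linarith)]
  have hr0x : r0 ≤ ‖θ x - θ q‖ := by
    apply le_of_sq_le_sq _ (norm_nonneg _)
    unfold bq at hb
    linarith
  have hbz : bq θ q r0 x = 0 → ‖θ x - θ q‖ = r0 := by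
    intro h0
    unfold bq at h0
    have h1 : ‖θ x - θ q‖ ^ 2 = r0 ^ 2 := by linarith
    exact (pow_left_inj₀ (norm_nonneg _) hr.le two_ne_zero).1 h1
  have hkr0 : k < r0 := by
    have := Real.sqrt_nonneg (2 * k)
    linarith
  by_cases hτ0 : tau q u ℓ ρ x = 0
  · rcases htp x hτ0.le with h1 | h1
    · exact absurd h1 (not_lt.2 hr0x)
    · refine ⟨q - x, dz_of_ne ?_, ?_, fun h0 => tau_desc h.hu h.hℓ hρ h0⟩
      · have h2 := hball_pos (y := θ x) (μ := μ t) ⟨hμ.le, hμ1⟩ hm hk (by linarith)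
        have h3 : 0 < k ^ 2 := by positivity
        exact ne_of_gt (h3.trans_le h2)
      · intro hb0
        have h3 := hbz hb0
        have hxq : x ≠ q := by
          rintro rfl
          rw [sub_self, norm_zero] at h3
          linarith
        exact h.desc_b (r0 ^ 2) ((hr0 x h3.le).2.2 hxq)
  · have hfd := h.fderiv_right x ((1 + k) • θ q - θ x)
    refine ⟨fderiv ℝ ψ (θ x) ((1 + k) • θ q - θ x), ?_, ?_, fun h0 => absurd h0 hτ0⟩
    · intro h0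
      have h1 := hball_dir hp hk hkr hμ hμ1 h0 hr0x
      rw [← hfd] at h1
      obtain ⟨h2, h3⟩ := GlE_deriv h.hθ hμc h1
      have h4 := dz_smooth h2 (fun _ => h3)
      exact h4 h0
    · intro hb0
      have h1 := sball_dir hp hk hkr0 (hbz hb0)
      rw [← hfd] at h1
      exact h.desc_b (r0 ^ 2) h1

/-- Near the end of the tube. -/
theorem GlE_end {θ ψ : V → V} {q u : V} {ℓ r1 : ℝ} (h : BCtx θ ψ q u ℓ r1) {N : Set V}
    {r0 : ℝ} (hr : 0 < r0)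
    (hr0 : ∀ x, ‖θ x - θ q‖ ≤ r0 → x ∈ N ∧ ‖x - q‖ < r1 ∧
      (x ≠ q → ⟪θ x - θ q, fderiv ℝ θ x (q - x)⟫ < 0)) :
    1 < ‖θ (q + ℓ • u)‖ ∧ 0 < bq θ q r0 (q + ℓ • u) := by
  constructor
  · exact h.seg ℓ ⟨h.hℓ, le_rfl⟩
  · by_contra hneg
    have h2 : ‖θ (q + ℓ • u) - θ q‖ ^ 2 ≤ r0 ^ 2 := by
      unfold bq at hneg
      linarith
    have h3 := (hr0 (q + ℓ • u) (le_of_sq_le_sq h2 hr.le)).2.1
    rw [add_sub_cancel_left, norm_smul, h.hu, mul_one, Real.norm_of_nonneg h.hℓ.le] at h3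
    exact absurd h3 (not_lt.2 h.hr1ℓ)

/-- PROOF. Let `p = θ q` (norm one), `k1` of `tube_pos`, `k2` of `nbhd`, `k3` with `1 + 2 k3 ≤ ‖θ b‖` for
the end `b = q + ℓ u`; choose `k > 0` with `2 k ≤ k1`, `k ≤ k2`, `2 k < k3`, `k + √(2 k) < r0`, and
`μ0 ∈ (0, 1)` with `k + μ0 (2 + k) < r0`. Let `m = (1 + k) • p`. The family
`H t = min (hball m (μ t) (θ x)) (min (bq θ q r0 x) (τ x))` with `μ t = 1 - t (1 - μ0)`, from
`hball m 1 (θ x) = ‖θ x‖ ^ 2 - 1`. `PhiG` by `phiG_min` (`hball_norm` and `nbhd`, `hr0`; near `b`: `hball_pos`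
by continuity, `‖θ b - θ q‖ > r0` since otherwise `ℓ < r1`; `tau_end`).
Directions at a zero `x` of `H t`:
(a) `τ x = 0`, `bq x > 0`: by `tube_pos` and `hball_pos` the first value is positive, so `tau_desc`.
(b) `τ x = 0`, `bq x = 0`: again the first value is positive; `q - x` is a direction for `τ`, and for
`bq` by `hr0` (`x ≠ q`, `r0 > 0`), `BCtx.desc_b`.
(c) `τ x > 0`: `v = fderiv ψ (θ x) (m - θ x)`, so `fderiv θ x v = m - θ x` (`fderiv_right`). If the first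
value is zero use `hball_dir` (`bq x ≥ 0` gives `r0 ≤ ‖θ x - p‖`), if `bq x = 0` use `sball_dir`. The
family `(t, x) ↦ hball m (μ t) (θ x)` is smooth, `dz_smooth`.
At the end `min (hball m μ0 (θ x)) (min bq τ)` is replaced by `min bq τ` with `HomP.of_eq_near`:
where `min bq τ` vanishes or the whole minimum does, `hball m μ0 (θ x) > 0`: otherwise `hball_inside` gives
`bq x < 0`. -/
theorem glue_shrink {θ ψ : V → V} {q u : V} {ℓ r1 : ℝ} (h : BCtx θ ψ q u ℓ r1) {N : Set V}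
    (hN : IsOpen N) (hθN : ∀ x, ‖θ x‖ ≤ 1 → x ∈ N) {r0 : ℝ} (hr : 0 < r0)
    (hr0 : ∀ x, ‖θ x - θ q‖ ≤ r0 → x ∈ N ∧ ‖x - q‖ < r1 ∧
      (x ≠ q → ⟪θ x - θ q, fderiv ℝ θ x (q - x)⟫ < 0)) :
    ∃ r : ℝ, 0 < r ∧ ∀ᶠ ρ in 𝓝[>] (0 : ℝ), HomP (PhiG N (q + ℓ • u) r (tau q u ℓ ρ))
      (fun x => min (‖θ x‖ ^ 2 - 1) (min (bq θ q r0 x) (tau q u ℓ ρ x)))
      (fun x => min (bq θ q r0 x) (tau q u ℓ ρ x)) := by
  have hθc : Continuous θ := h.hθ.continuous
  have hp : ‖θ q‖ = 1 := h.norm_q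
  obtain ⟨hb1, hb2⟩ := GlE_end h hr hr0
  obtain ⟨k1, hk1, htp0⟩ := h.tube_pos hr
  obtain ⟨k2, hk2, hnb⟩ := h.nbhd hN hθN
  -- the choice of `k`
  obtain ⟨k, hk, hkr, hkk1, hkk2, hkb⟩ : ∃ k : ℝ, 0 < k ∧ k + √(2 * k) < r0 ∧ 2 * k ≤ k1 ∧ k ≤ k2 ∧
      1 + 2 * k < ‖θ (q + ℓ • u)‖ := by
    have e1 : ∀ᶠ k in 𝓝[>] (0 : ℝ), k + √(2 * k) < r0 := by
      have hc : Continuous (fun k : ℝ => k + √(2 * k)) := by fun_prop
      have h1 := hc.tendsto 0
      simp only [mul_zero, Real.sqrt_zero, add_zero] at h1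
      exact (h1.mono_left nhdsWithin_le_nhds).eventually_lt_const hr
    have e2 : ∀ᶠ k in 𝓝[>] (0 : ℝ), k < min (k1 / 2) (min k2 ((‖θ (q + ℓ • u)‖ - 1) / 2)) := by
      have h1 : (0 : ℝ) < min (k1 / 2) (min k2 ((‖θ (q + ℓ • u)‖ - 1) / 2)) :=
        lt_min (by linarith) (lt_min hk2 (by linarith))
      exact (eventually_lt_nhds h1).filter_mono nhdsWithin_le_nhds
    obtain ⟨k, ⟨h1, h2⟩, h3⟩ := ((e1.and e2).and self_mem_nhdsWithin).exists
    have h4 := lt_min_iff.1 h2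
    have h5 := lt_min_iff.1 h4.2
    exact ⟨k, h3, h1, by linarith [h4.1], h5.1.le, by linarith [h5.2]⟩
  have hkr0 : k < r0 := by
    have := Real.sqrt_nonneg (2 * k)
    linarith
  obtain ⟨μ0, hμ0, hμ01, hμ0r⟩ : ∃ μ0 : ℝ, 0 < μ0 ∧ μ0 < 1 ∧ k + μ0 * (2 + k) < r0 := by
    have e1 : ∀ᶠ μ in 𝓝[>] (0 : ℝ), k + μ * (2 + k) < r0 := by
      have hc : Continuous (fun μ : ℝ => k + μ * (2 + k)) := by fun_prop
      have h1 := hc.tendsto 0
      simp only [zero_mul, add_zero] at h1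
      exact (h1.mono_left nhdsWithin_le_nhds).eventually_lt_const hkr0
    have e2 : ∀ᶠ μ in 𝓝[>] (0 : ℝ), μ < 1 :=
      (eventually_lt_nhds one_pos).filter_mono nhdsWithin_le_nhds
    obtain ⟨μ, ⟨h1, h2⟩, h3⟩ := ((e1.and e2).and self_mem_nhdsWithin).exists
    exact ⟨μ, h3, h2, h1⟩
  have hm : ‖(1 + k) • θ q‖ ≤ 1 + k := by
    rw [norm_smul, hp, mul_one, Real.norm_of_nonneg (by linarith)]
  obtain ⟨m, hm0, hmk, hmb⟩ : ∃ m : ℝ, 0 < m ∧ m ≤ k ^ 2 ∧ m < bq θ q r0 (q + ℓ • u) := by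
    refine ⟨min (k ^ 2) (bq θ q r0 (q + ℓ • u) / 2), lt_min (by positivity) (by linarith),
      min_le_left _ _, ?_⟩
    have := min_le_right (k ^ 2) (bq θ q r0 (q + ℓ • u) / 2)
    linarith
  have hbqc : Continuous (bq θ q r0) := by
    unfold bq
    fun_prop
  have hnc : Continuous fun x => ‖θ x‖ := by fun_prop
  have hev : ∀ᶠ x in 𝓝 (q + ℓ • u), 1 + 2 * k < ‖θ x‖ ∧ m < bq θ q r0 x :=
    (hnc.continuousAt.eventually_const_lt hkb).and (hbqc.continuousAt.eventually_const_lt hmb)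
  obtain ⟨r2, hr2, hball1⟩ := Metric.eventually_nhds_iff.1 hev
  obtain ⟨r3, hr3, hend⟩ := tau_end (q := q) h.hu h.hℓ hm0
  refine ⟨min r2 r3, lt_min hr2 hr3, ?_⟩
  filter_upwards [htp0, self_mem_nhdsWithin] with ρ htp hρ'
  have hρ : 0 < ρ := hρ'
  have hτc := tau_continuous q u ℓ ρ
  have hnear : ∀ x, ‖x - (q + ℓ • u)‖ < min r2 r3 → 1 + 2 * k < ‖θ x‖ ∧
      tau q u ℓ ρ x ≤ k ^ 2 ∧ tau q u ℓ ρ x ≤ bq θ q r0 x := by
    intro x hx
    have h1 := hball1 (by rw [dist_eq_norm]; exact hx.trans_le (min_le_left _ _))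
    have h2 := hend ρ hρ x (hx.trans_le (min_le_right _ _))
    exact ⟨h1.1, by linarith, by linarith [h1.2]⟩
  have hbN : ∀ x, bq θ q r0 x ≤ 0 → x ∈ N := by
    intro x hx
    unfold bq at hx
    exact (hr0 x (le_of_sq_le_sq (by linarith) hr.le)).1
  have hΦ : ∀ μ ∈ Icc (0 : ℝ) 1, PhiG N (q + ℓ • u) (min r2 r3) (tau q u ℓ ρ)
      fun x => min (hball ((1 + k) • θ q) μ (θ x)) (min (bq θ q r0 x) (tau q u ℓ ρ x)) := by
    intro μ hμ
    have h1 : (fun x => min (hball ((1 + k) • θ q) μ (θ x)) (min (bq θ q r0 x) (tau q u ℓ ρ x))) =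
        fun x => min (min (hball ((1 + k) • θ q) μ (θ x)) (bq θ q r0 x)) (tau q u ℓ ρ x) := by
      funext x
      rw [min_assoc]
    rw [h1]
    refine phiG_min ?_ ?_
    · intro x hx
      rcases min_le_iff.1 hx with h2 | h2
      · apply hnb
        have h3 := hball_norm hμ hm hk.le h2
        linarith
      · exact hbN x h2
    · intro x hx
      obtain ⟨h2, h3, h4⟩ := hnear x hx
      exact le_min (h3.trans (hball_pos hμ hm hk h2.le)) h4
  have hΦ0 : PhiG N (q + ℓ • u) (min r2 r3) (tau q u ℓ ρ)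
      fun x => min (bq θ q r0 x) (tau q u ℓ ρ x) :=
    phiG_min hbN fun x hx => (hnear x hx).2.2
  have hμc : ContDiff ℝ 1 (fun t : ℝ => 1 - t * (1 - μ0)) := by fun_prop
  have hμI : ∀ t ∈ Icc (0 : ℝ) 1, 0 < 1 - t * (1 - μ0) ∧ 1 - t * (1 - μ0) ≤ 1 := by
    intro t ht
    constructor
    · nlinarith [ht.1, ht.2]
    · nlinarith [ht.1, ht.2]
  have hcH : Continuous fun p : ℝ × V => hball ((1 + k) • θ q) (1 - p.1 * (1 - μ0)) (θ p.2) := by
    unfold hball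
    fun_prop
  have hcb : Continuous fun p : ℝ × V => bq θ q r0 p.2 := hbqc.comp continuous_snd
  have hcτ : Continuous fun p : ℝ × V => tau q u ℓ ρ p.2 := hτc.comp continuous_snd
  have hdir : ∀ t ∈ Icc (0 : ℝ) 1, ∀ x,
      min (hball ((1 + k) • θ q) (1 - t * (1 - μ0)) (θ x))
        (min (bq θ q r0 x) (tau q u ℓ ρ x)) = 0 →
      ∃ v, Desc (fun (t : ℝ) (x : V) => min (hball ((1 + k) • θ q) (1 - t * (1 - μ0)) (θ x))
        (min (bq θ q r0 x) (tau q u ℓ ρ x))) (𝓝[Icc 0 1] t) x v := by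
    intro t ht x hx
    have hb0 : 0 ≤ bq θ q r0 x := by
      rw [← hx]
      exact (min_le_right _ _).trans (min_le_left _ _)
    obtain ⟨v, hv1, hv2, hv3⟩ := GlE_dir h hr hr0 hρ hk hkk1 htp hkr hμc (hμI t ht).1 (hμI t ht).2 hb0
    exact ⟨v, dz_min hcH (hcb.min hcτ) hv1 (dz_min hcb hcτ (dz_static hv2) (dz_static hv3)) hx⟩
  have hA : HomP (PhiG N (q + ℓ • u) (min r2 r3) (tau q u ℓ ρ))
      (fun x => min (‖θ x‖ ^ 2 - 1) (min (bq θ q r0 x) (tau q u ℓ ρ x)))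
      (fun x => min (hball ((1 + k) • θ q) (1 - 1 * (1 - μ0)) (θ x))
        (min (bq θ q r0 x) (tau q u ℓ ρ x))) := by
    refine ⟨fun t x => min (hball ((1 + k) • θ q) (1 - t * (1 - μ0)) (θ x))
        (min (bq θ q r0 x) (tau q u ℓ ρ x)), hcH.min (hcb.min hcτ), ?_, rfl, ?_, hdir⟩
    · funext x
      simp only [hball, zero_mul, sub_zero, sub_self, zero_smul, one_pow]
    · intro t ht
      exact hΦ _ ⟨(hμI t ht).1.le, (hμI t ht).2⟩
  refine hA.trans ?_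
  have ha : ∀ x, 0 ≤ bq θ q r0 x → 0 < hball ((1 + k) • θ q) (1 - 1 * (1 - μ0)) (θ x) := by
    intro x hx
    by_contra hneg
    have e1 : 1 - 1 * (1 - μ0) = μ0 := by ring
    rw [e1] at hneg
    have h1 := hball_inside hp hk hμ0 hμ01.le hμ0r (not_lt.1 hneg)
    unfold bq at hx
    have h2 : ‖θ x - θ q‖ ^ 2 < r0 ^ 2 := pow_lt_pow_left₀ h1 (norm_nonneg _) two_ne_zero
    linarith
  have hac : Continuous fun x => hball ((1 + k) • θ q) (1 - 1 * (1 - μ0)) (θ x) := by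
    unfold hball
    fun_prop
  have hgc : Continuous fun x => min (bq θ q r0 x) (tau q u ℓ ρ x) := hbqc.min hτc
  refine HomP.of_eq_near (hac.min hgc) hgc ?_ ?_ ?_
  · intro x hx
    have hb0 : 0 ≤ bq θ q r0 x := by
      rcases hx with hx | hx
      · rw [← hx]
        exact (min_le_right _ _).trans (min_le_left _ _)
      · rw [← hx]
        exact min_le_left _ _
    have hax := ha x hb0
    have hg0 : min (bq θ q r0 x) (tau q u ℓ ρ x) = 0 := by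
      rcases hx with hx | hx
      · rcases min_choice (hball ((1 + k) • θ q) (1 - 1 * (1 - μ0)) (θ x))
          (min (bq θ q r0 x) (tau q u ℓ ρ x)) with h1 | h1
        · rw [h1] at hx
          exact absurd hx hax.ne'
        · rw [← h1]
          exact hx
      · exact hx
    have hf0 : min (hball ((1 + k) • θ q) (1 - 1 * (1 - μ0)) (θ x))
        (min (bq θ q r0 x) (tau q u ℓ ρ x)) = 0 := by
      rw [hg0]
      exact min_eq_right hax.le
    constructor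
    · have h1 : ∀ᶠ y in 𝓝 x, min (bq θ q r0 y) (tau q u ℓ ρ y) <
          hball ((1 + k) • θ q) (1 - 1 * (1 - μ0)) (θ y) := by
        refine hgc.continuousAt.eventually_lt hac.continuousAt ?_
        change min (bq θ q r0 x) (tau q u ℓ ρ x) < _
        rw [hg0]
        exact hax
      filter_upwards [h1] with y hy
      exact min_eq_right hy.le
    · obtain ⟨v, hv⟩ := hdir 1 ⟨zero_le_one, le_rfl⟩ x hf0
      exact ⟨v, Desc.static (t := (1 : ℝ)) hv (pure_le_nhdsWithin ⟨zero_le_one, le_rfl⟩)⟩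
  · intro x hf hg
    rcases lt_or_gt_of_ne hg with h1 | h1
    · refine mul_pos_of_neg_of_neg ?_ h1
      exact (min_le_right _ _).trans_lt h1
    · have hb0 : 0 ≤ bq θ q r0 x := h1.le.trans (min_le_left _ _)
      exact mul_pos (lt_min (ha x hb0) h1) h1
  · intro t ht
    refine phiG_lerp (hΦ _ ?_) hΦ0 ht
    have h1 := hμI 1 ⟨zero_le_one, le_rfl⟩
    exact ⟨h1.1.le, h1.2⟩

end Pool.Schoen
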