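import Pool.Agent.H.MP_6c077c_gt.Ix.GlD0

/-! Gluing lemma: homothetic balls. -/

set_option autoImplicit false

namespace Pool.Schoen

open Filter Set
open scoped Topology RealInnerProductSpace ContDiff

variable {V : Type*} [NormedAddCommGroup V] [InnerProductSpace ℝ V]

/-- The function of the ball with centre `(1 - μ) • m` and radius `μ`: the image of the unit ball
under the homothety with centre `m` and ratio `μ`. -/
noncomputable def hball (m : V) (μ : ℝ) (y : V) : ℝ := ‖y - (1 - μ) • m‖ ^ 2 - μ ^ 2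

/-- PROOF. `‖y‖ ≤ (1 - μ) ‖m‖ + μ`. -/
theorem hball_norm {m y : V} {μ k : ℝ} (hμ : μ ∈ Icc (0 : ℝ) 1) (hm : ‖m‖ ≤ 1 + k) (hk : 0 ≤ k)
    (h : hball m μ y ≤ 0) : ‖y‖ ≤ 1 + k := by
  have h1 : ‖y - (1 - μ) • m‖ ≤ μ := by
    unfold hball at h
    exact (le_abs_self _).trans (abs_le_of_sq_le_sq (by linarith) hμ.1)
  have h2 : ‖y‖ ≤ ‖y - (1 - μ) • m‖ + ‖(1 - μ) • m‖ := by
    calc ‖y‖ = ‖(y - (1 - μ) • m) + (1 - μ) • m‖ := by rw [sub_add_cancel]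
      _ ≤ _ := norm_add_le _ _
  have h3 : ‖(1 - μ) • m‖ ≤ (1 - μ) * (1 + k) := by
    rw [norm_smul, Real.norm_of_nonneg (by linarith [hμ.2])]
    exact mul_le_mul_of_nonneg_left hm (by linarith [hμ.2])
  nlinarith [hμ.1]

/-- PROOF. `‖y - (1 - μ) m‖ ≥ 1 + 2 k - (1 - μ) (1 + k) = μ + 2 k - (1 - μ) k ≥ μ + k`. -/
theorem hball_pos {m y : V} {μ k : ℝ} (hμ : μ ∈ Icc (0 : ℝ) 1) (hm : ‖m‖ ≤ 1 + k) (hk : 0 < k)
    (h : 1 + 2 * k ≤ ‖y‖) : k ^ 2 ≤ hball m μ y := by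
  have h1 : ‖y‖ ≤ ‖y - (1 - μ) • m‖ + ‖(1 - μ) • m‖ := by
    calc ‖y‖ = ‖(y - (1 - μ) • m) + (1 - μ) • m‖ := by rw [sub_add_cancel]
      _ ≤ _ := norm_add_le _ _
  have h3 : ‖(1 - μ) • m‖ ≤ (1 - μ) * (1 + k) := by
    rw [norm_smul, Real.norm_of_nonneg (by linarith [hμ.2])]
    exact mul_le_mul_of_nonneg_left hm (by linarith [hμ.2])
  have h4 : μ + k ≤ ‖y - (1 - μ) • m‖ := by nlinarith [mul_nonneg hμ.1 hk.le]
  have h5 : (μ + k) ^ 2 ≤ ‖y - (1 - μ) • m‖ ^ 2 :=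
    pow_le_pow_left₀ (by linarith [hμ.1]) h4 2
  unfold hball
  nlinarith [mul_nonneg hμ.1 hk.le]

/-- Let `p` be a unit vector, `m = (1 + k) • p`, `k + √(2 k) < r0`. If `y` is on the sphere
`hball m μ y = 0` (`0 < μ ≤ 1`) and `r0 ≤ ‖y - p‖`, then the derivative of `hball m μ` in the direction
`m - y` is negative.
PROOF. Write `y - (1 - μ) m = μ ω`, `‖ω‖ = 1`. Then `m - y = μ m - μ ω` and
`⟪y - (1 - μ) m, m - y⟫ = μ ^ 2 (⟪ω, m⟫ - 1)`. If `⟪ω, m⟫ ≥ 1` then `⟪ω, p⟫ ≥ 1 / (1 + k)`,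
`‖ω - p‖ ^ 2 = 2 - 2 ⟪ω, p⟫ ≤ 2 k`, and
`y - p = (1 - μ) k p + μ (ω - p)`, so `‖y - p‖ ≤ k + √(2 k) < r0`. -/
theorem hball_dir {p y : V} (hp : ‖p‖ = 1) {k r0 μ : ℝ} (hk : 0 < k) (hkr : k + √(2 * k) < r0)
    (hμ : 0 < μ) (hμ1 : μ ≤ 1) (h : hball ((1 + k) • p) μ y = 0) (hy : r0 ≤ ‖y - p‖) :
    ⟪y - (1 - μ) • ((1 + k) • p), (1 + k) • p - y⟫ < 0 := by
  by_contra hcon
  push Not at hcon
  set a : V := y - (1 - μ) • ((1 + k) • p) with ha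
  have hna : ‖a‖ ^ 2 = μ ^ 2 := by
    have : ‖a‖ ^ 2 - μ ^ 2 = 0 := h
    linarith
  have hmy : (1 + k) • p - y = (μ * (1 + k)) • p - a := by
    rw [ha]
    module
  rw [hmy, inner_sub_right, inner_smul_right, real_inner_self_eq_norm_sq, hna] at hcon
  have hap : μ ≤ (1 + k) * ⟪a, p⟫ := by
    have h1 : μ * μ ≤ μ * ((1 + k) * ⟪a, p⟫) := by nlinarith
    exact le_of_mul_le_mul_left h1 hμ
  have h2 : ‖a - μ • p‖ ^ 2 ≤ 2 * k := by
    rw [norm_sub_sq_real, inner_smul_right, norm_smul, hp, hna, mul_one, Real.norm_of_nonneg hμ.le]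
    have h3 : μ * (1 - k) ≤ ⟪a, p⟫ := by
      by_contra h4
      push Not at h4
      have h5 : (1 + k) * ⟪a, p⟫ < (1 + k) * (μ * (1 - k)) :=
        mul_lt_mul_of_pos_left h4 (by linarith)
      nlinarith [mul_pos hμ (mul_pos hk hk)]
    nlinarith [mul_le_mul_of_nonneg_left h3 hμ.le, mul_le_mul hμ1 hμ1 hμ.le zero_le_one,
      mul_nonneg hk.le (mul_nonneg hμ.le hμ.le)]
  have h6 : ‖a - μ • p‖ ≤ √(2 * k) := Real.le_sqrt_of_sq_le h2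
  have h7 : y - p = (a - μ • p) + ((1 - μ) * k) • p := by
    rw [ha]
    module
  have h8 : ‖y - p‖ ≤ ‖a - μ • p‖ + ‖((1 - μ) * k) • p‖ := by
    rw [h7]
    exact norm_add_le _ _
  have h9 : ‖((1 - μ) * k) • p‖ ≤ k := by
    rw [norm_smul, hp, mul_one, Real.norm_of_nonneg (mul_nonneg (by linarith) hk.le)]
    nlinarith
  linarith

/-- The same for the small ball: `⟪y - p, (1 + k) p - y⟫ = - r0 ^ 2 + k ⟪y - p, p⟫ ≤ - r0 ^ 2 + k r0 < 0`. -/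
theorem sball_dir {p y : V} (hp : ‖p‖ = 1) {k r0 : ℝ} (hk : 0 < k) (hkr : k < r0)
    (hy : ‖y - p‖ = r0) : ⟪y - p, (1 + k) • p - y⟫ < 0 := by
  have h1 : (1 + k) • p - y = k • p - (y - p) := by module
  rw [h1, inner_sub_right, inner_smul_right, real_inner_self_eq_norm_sq, hy]
  have h2 : ⟪y - p, p⟫ ≤ r0 := by
    have := real_inner_le_norm (y - p) p
    rwa [hy, hp, mul_one] at this
  nlinarith [mul_le_mul_of_nonneg_left h2 hk.le]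

/-- For small `μ` the ball is inside of the small ball:
`‖y - p‖ ≤ k + μ (2 + k)`. -/
theorem hball_inside {p y : V} (hp : ‖p‖ = 1) {k r0 μ : ℝ} (hk : 0 < k) (hμ : 0 < μ) (hμ1 : μ ≤ 1)
    (hkr : k + μ * (2 + k) < r0) (h : hball ((1 + k) • p) μ y ≤ 0) : ‖y - p‖ < r0 := by
  set a : V := y - (1 - μ) • ((1 + k) • p) with ha
  have h1 : ‖a‖ ≤ μ := by
    unfold hball at h
    exact (le_abs_self _).trans (abs_le_of_sq_le_sq (by linarith) hμ.le)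
  have h7 : y - p = (a - μ • p) + ((1 - μ) * k) • p := by
    rw [ha]
    module
  have h8 : ‖y - p‖ ≤ ‖a - μ • p‖ + ‖((1 - μ) * k) • p‖ := by
    rw [h7]
    exact norm_add_le _ _
  have h9 : ‖((1 - μ) * k) • p‖ ≤ k := by
    rw [norm_smul, hp, mul_one, Real.norm_of_nonneg (mul_nonneg (by linarith) hk.le)]
    nlinarith
  have h10 : ‖a - μ • p‖ ≤ μ + μ := by
    have h11 := norm_sub_le a (μ • p)
    rw [norm_smul, hp, mul_one, Real.norm_of_nonneg hμ.le] at h11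
    linarith
  nlinarith [mul_pos hμ hk]

end Pool.Schoen
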