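import Pool.Agent.H.MP_6c077c_gt.Ix.GlB
import Pool.Agent.H.MP_6c077c_gt.Ix.GlC
import Pool.Agent.H.MP_6c077c_gt.Ix.GlD1
import Pool.Agent.H.MP_6c077c_gt.Ix.GlD2
import Pool.Agent.H.MP_6c077c_gt.Ix.GlE

/-! Gluing lemma, form near `A`. -/

set_option autoImplicit false

namespace Pool.Schoen

open Filter Set
open scoped Topology RealInnerProductSpace ContDiff

variable {V : Type*} [NormedAddCommGroup V] [InnerProductSpace ℝ V] [FiniteDimensional ℝ V]

/-- Gluing lemma, form near `A`: a ball `A` with a thin straight tube `τ` starting at a flat piece of its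
boundary is homotopic to the tube, inside of any neighbourhood `N` of `A` and the tube, and without
moving anything near the other end of the tube.
PROOF. `glue_moll`, `glue_theta`, `BCtx.small`, `glue_add_ball`, `glue_shrink`, `glue_remove_ball`,
`HomP.trans`; the smallest of the numbers `r` (`PhiG.mono`). `{A ≤ 0}` is bounded by `Hom.sign`. -/
theorem glue_near {A : V → ℝ} (hA : IsBall A) {q u : V} (hu : ‖u‖ = 1) {ℓ : ℝ} (hℓ : 0 < ℓ)
    (hflat : ∀ᶠ x in 𝓝 q, A x = ⟪u, x - q⟫) (hs : ∀ s ∈ Ioc (0 : ℝ) ℓ, 0 < A (q + s • u))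
    {N : Set V} (hN : IsOpen N) (hAN : ∀ x, A x ≤ 0 → x ∈ N) :
    ∃ r : ℝ, 0 < r ∧ ∀ᶠ ρ in 𝓝[>] (0 : ℝ), HomP (PhiG N (q + ℓ • u) r (tau q u ℓ ρ))
      (fun x => min (A x) (tau q u ℓ ρ x)) (tau q u ℓ ρ) := by
  have hgood : Good A := Hom.good_left hA
  have hb : Bornology.IsBounded {x | A x ≤ 0} := by
    obtain ⟨R, hR⟩ := Hom.sign hA
    refine (Metric.isBounded_closedBall (x := (0 : V)) (r := max R 1)).subset ?_
    intro x hx
    rw [Metric.mem_closedBall, dist_zero_right]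
    by_contra h
    push Not at h
    have h1 : R < ‖x‖ := lt_of_le_of_lt (le_max_left _ _) h
    have h2 : 1 < ‖x‖ := lt_of_le_of_lt (le_max_right _ _) h
    have h3 : 0 < A x * (‖x‖ ^ 2 - 1) := hR x h1
    have h4 : 0 < ‖x‖ ^ 2 - 1 := by nlinarith
    have h5 : A x ≤ 0 := hx
    nlinarith
  obtain ⟨F, hF, hAF, hFflat, hFs, hFN, -, r1, hr1, h1⟩ := glue_moll hgood hb hu hℓ hflat hs hN hAN
  have hbF : IsBall F := Hom.trans (Hom.symm hAF) hA
  obtain ⟨θ, ψ, r1', hB, hθN, r2, hr2, h2⟩ := glue_theta hF hbF hu hℓ hFflat hFs hN hFN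
  have hq : q ∈ N := by
    apply hAN
    rw [hflat.self_of_nhds, sub_self, inner_zero_right]
  obtain ⟨r0, hr0, hr0'⟩ := hB.small hN hq
  obtain ⟨r3, hr3, h3⟩ := glue_add_ball hB hθN hr0 hr0'
  obtain ⟨r4, hr4, h4⟩ := glue_shrink hB hN hθN hr0 hr0'
  obtain ⟨r5, hr5, h5⟩ := glue_remove_ball (N := N) hB hr0 hr0'
  refine ⟨min r1 (min r2 (min r3 (min r4 r5))), by positivity, ?_⟩
  filter_upwards [h1, h2, h3, h4, h5] with ρ g1 g2 g3 g4 g5
  have e1 : min r1 (min r2 (min r3 (min r4 r5))) ≤ r1 := min_le_left _ _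
  have e2 : min r1 (min r2 (min r3 (min r4 r5))) ≤ r2 := (min_le_right _ _).trans (min_le_left _ _)
  have e3 : min r1 (min r2 (min r3 (min r4 r5))) ≤ r3 :=
    (min_le_right _ _).trans ((min_le_right _ _).trans (min_le_left _ _))
  have e4 : min r1 (min r2 (min r3 (min r4 r5))) ≤ r4 :=
    (min_le_right _ _).trans ((min_le_right _ _).trans ((min_le_right _ _).trans (min_le_left _ _)))
  have e5 : min r1 (min r2 (min r3 (min r4 r5))) ≤ r5 :=
    (min_le_right _ _).trans ((min_le_right _ _).trans ((min_le_right _ _).trans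
      (min_le_right _ _)))
  exact ((((g1.mono fun m hm => hm.mono e1).trans (g2.mono fun m hm => hm.mono e2)).trans
    (g3.mono fun m hm => hm.mono e3)).trans (g4.mono fun m hm => hm.mono e4)).trans
      (g5.mono fun m hm => hm.mono e5)

end Pool.Schoen
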