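import Pool.Agent.H.MP_6c077c_gt.Ix.DescB

/-! Index theorem: homotopies of good functions form an equivalence relation. -/

set_option autoImplicit false

namespace Pool.Schoen

open Filter Set
open scoped Topology RealInnerProductSpace ContDiff

variable {V : Type*} [NormedAddCommGroup V] [InnerProductSpace ℝ V]
variable {f g k : V → ℝ}

private theorem HomA_slice {H : ℝ → V → ℝ} (hc : Continuous (fun p : ℝ × V => H p.1 p.2))
    (t : ℝ) : Continuous (H t) :=
  hc.comp (Continuous.prodMk continuous_const continuous_id)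

private theorem HomA_good {H : ℝ → V → ℝ} (hc : Continuous (fun p : ℝ × V => H p.1 p.2))
    {R : ℝ} (hR : ∀ t ∈ Icc (0 : ℝ) 1, ∀ x, H t x = 0 → ‖x‖ ≤ R)
    (hd : ∀ t ∈ Icc (0 : ℝ) 1, ∀ x, H t x = 0 → ∃ v, Desc H (𝓝[Icc 0 1] t) x v)
    {t : ℝ} (ht : t ∈ Icc (0 : ℝ) 1) : Good (H t) := by
  refine ⟨HomA_slice hc t, ?_, fun x hx => ?_⟩
  · refine (Metric.isBounded_closedBall (x := (0 : V)) (r := R)).subset fun x hx => ?_
    rw [Metric.mem_closedBall, dist_zero_right]
    exact hR t ht x hx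
  · obtain ⟨v, hv⟩ := hd t ht x hx
    exact ⟨v, hv.static (pure_le_nhdsWithin ht)⟩

private theorem HomA_tendsto {φ : ℝ → ℝ} (hφ : Continuous φ) {S T : Set ℝ} (h : MapsTo φ S T)
    (t : ℝ) : Tendsto φ (𝓝[S] t) (𝓝[T] (φ t)) :=
  hφ.continuousWithinAt.tendsto_nhdsWithin h

/-- `Desc.static` with `pure 0 ≤ 𝓝[Icc 0 1] 0`. -/
theorem Hom.good_left (h : Hom f g) : Good f := by
  obtain ⟨H, hc, h0, h1, ⟨R, hR⟩, hd⟩ := h
  rw [← h0]
  exact HomA_good hc hR hd ⟨le_refl _, zero_le_one⟩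

theorem Hom.good_right (h : Hom f g) : Good g := by
  obtain ⟨H, hc, h0, h1, ⟨R, hR⟩, hd⟩ := h
  rw [← h1]
  exact HomA_good hc hR hd ⟨zero_le_one, le_refl _⟩

theorem Good.refl (h : Good f) : Hom f f := by
  obtain ⟨R, hR⟩ := h.bdd.subset_closedBall (0 : V)
  refine ⟨fun _ => f, h.cont.comp continuous_snd, rfl, rfl, ⟨R, fun t _ x hx => ?_⟩,
    fun t _ x hx => ?_⟩
  · have := hR hx
    rwa [Metric.mem_closedBall, dist_zero_right] at this
  · obtain ⟨v, hv⟩ := h.desc x hx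
    exact ⟨v, hv.const _⟩

/-- Reverse the time. -/
theorem Hom.symm (h : Hom f g) : Hom g f := by
  obtain ⟨H, hc, h0, h1, ⟨R, hR⟩, hd⟩ := h
  have hmaps : MapsTo (fun t : ℝ => 1 - t) (Icc 0 1) (Icc 0 1) := by
    intro t ht
    exact ⟨by linarith [ht.2], by linarith [ht.1]⟩
  refine ⟨fun t => H (1 - t), ?_, ?_, ?_, ⟨R, fun t ht x hx => hR _ (hmaps ht) x hx⟩,
    fun t ht x hx => ?_⟩
  · exact hc.comp (Continuous.prodMk (continuous_const.sub continuous_fst) continuous_snd)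
  · show H (1 - 0) = g
    rw [sub_zero, h1]
  · show H (1 - 1) = f
    rw [sub_self, h0]
  · obtain ⟨v, hv⟩ := hd _ (hmaps ht) x hx
    exact ⟨v, hv.comp (HomA_tendsto (continuous_const.sub continuous_id) hmaps t)⟩

/-- Concatenation with a constant piece in the middle: `H (min (3 t) 1)` for `t ≤ 1/2`,
`K (max (3 t - 2) 0)` for `t > 1/2`.  At `t < 1/2` use `Desc.comp` with `t ↦ min (3 t) 1`, at
`t > 1/2` with `t ↦ max (3 t - 2) 0`; near `t = 1/2` the family is the constant `g`. -/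
theorem Hom.trans (h : Hom f g) (h' : Hom g k) : Hom f k := by
  obtain ⟨H, hc, h0, h1, ⟨R, hR⟩, hd⟩ := h
  obtain ⟨K, hc', h0', h1', ⟨R', hR'⟩, hd'⟩ := h'
  have hφ : Continuous (fun t : ℝ => min (3 * t) 1) :=
    (continuous_const.mul continuous_id).min continuous_const
  have hψ : Continuous (fun t : ℝ => max (3 * t - 2) 0) :=
    ((continuous_const.mul continuous_id).sub continuous_const).max continuous_const
  have hφm : MapsTo (fun t : ℝ => min (3 * t) 1) (Icc 0 1) (Icc 0 1) := by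
    intro t ht
    exact ⟨le_min (by linarith [ht.1]) zero_le_one, min_le_right _ _⟩
  have hψm : MapsTo (fun t : ℝ => max (3 * t - 2) 0) (Icc 0 1) (Icc 0 1) := by
    intro t ht
    exact ⟨le_max_right _ _, max_le (by linarith [ht.2]) zero_le_one⟩
  have hg : Continuous g := by
    rw [← h1]
    exact HomA_slice hc 1
  have hL : ∀ t : ℝ, t ≤ 2 / 3 → ∀ x, H (min (3 * t) 1) x + K (max (3 * t - 2) 0) x - g x =
      H (min (3 * t) 1) x := by
    intro t ht x
    rw [max_eq_right (by linarith : 3 * t - 2 ≤ 0), h0']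
    ring
  have hU : ∀ t : ℝ, 1 / 3 ≤ t → ∀ x, H (min (3 * t) 1) x + K (max (3 * t - 2) 0) x - g x =
      K (max (3 * t - 2) 0) x := by
    intro t ht x
    rw [min_eq_right (by linarith : 1 ≤ 3 * t), h1]
    ring
  refine ⟨fun t x => H (min (3 * t) 1) x + K (max (3 * t - 2) 0) x - g x, ?_, ?_, ?_,
    ⟨max R R', fun t ht x hx => ?_⟩, fun t ht x hx => ?_⟩
  · exact ((hc.comp (Continuous.prodMk (hφ.comp continuous_fst) continuous_snd)).add
      (hc'.comp (Continuous.prodMk (hψ.comp continuous_fst) continuous_snd))).sub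
      (hg.comp continuous_snd)
  · funext x
    beta_reduce
    rw [hL 0 (by norm_num), mul_zero, min_eq_left zero_le_one, h0]
  · funext x
    beta_reduce
    rw [hU 1 (by norm_num), mul_one, max_eq_left (by norm_num), ← h1']
    norm_num
  · beta_reduce at hx
    rcases le_or_gt t (1 / 2) with h | h
    · rw [hL t (by linarith)] at hx
      exact (hR _ (hφm ht) x hx).trans (le_max_left _ _)
    · rw [hU t (by linarith)] at hx
      exact (hR' _ (hψm ht) x hx).trans (le_max_right _ _)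
  · beta_reduce at hx
    rcases le_or_gt t (1 / 2) with h | h
    · have hx' := hx
      rw [hL t (by linarith)] at hx'
      obtain ⟨v, hv⟩ := hd _ (hφm ht) x hx'
      refine ⟨v, (hv.comp (HomA_tendsto hφ hφm t)).congr ?_⟩
      have he : ∀ᶠ s in 𝓝[Icc 0 1] t, s < 2 / 3 :=
        nhdsWithin_le_nhds (gt_mem_nhds (by linarith))
      exact he.prod_inl _ |>.mono fun p hp => (hL p.1 hp.le p.2).symm
    · have hx' := hx
      rw [hU t (by linarith)] at hx'
      obtain ⟨v, hv⟩ := hd' _ (hψm ht) x hx'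
      refine ⟨v, (hv.comp (HomA_tendsto hψ hψm t)).congr ?_⟩
      have he : ∀ᶠ s in 𝓝[Icc 0 1] t, 1 / 3 < s :=
        nhdsWithin_le_nhds (lt_mem_nhds (by linarith))
      exact he.prod_inl _ |>.mono fun p hp => (hU p.1 hp.le p.2).symm

/-- A homotopy over an interval `[a, b]`: reparametrise by `t ↦ projIcc a b (a + t (b - a))`
(clamped, so that the family is continuous for all real `t`). -/
theorem Hom.of_family {a b : ℝ} (hab : a ≤ b) (H : ℝ → V → ℝ)
    (hc : ContinuousOn (fun p : ℝ × V => H p.1 p.2) (Icc a b ×ˢ univ))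
    (hb : ∃ R : ℝ, ∀ t ∈ Icc a b, ∀ x, H t x = 0 → ‖x‖ ≤ R)
    (hd : ∀ t ∈ Icc a b, ∀ x, H t x = 0 → ∃ v, Desc H (𝓝[Icc a b] t) x v) : Hom (H a) (H b) := by
  obtain ⟨R, hR⟩ := hb
  have hψ : Continuous (fun t : ℝ => max a (min b (a + t * (b - a)))) :=
    continuous_const.max (continuous_const.min
      (continuous_const.add (continuous_id.mul continuous_const)))
  have hm : ∀ t : ℝ, max a (min b (a + t * (b - a))) ∈ Icc a b := fun t =>
    ⟨le_max_left _ _, max_le hab (min_le_left _ _)⟩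
  refine ⟨fun t => H (max a (min b (a + t * (b - a)))), ?_, ?_, ?_,
    ⟨R, fun t _ x hx => hR _ (hm t) x hx⟩, fun t ht x hx => ?_⟩
  · exact hc.comp_continuous (Continuous.prodMk (hψ.comp continuous_fst) continuous_snd)
      (fun p => ⟨hm p.1, mem_univ _⟩)
  · show H (max a (min b (a + 0 * (b - a)))) = H a
    rw [zero_mul, add_zero, min_eq_right hab, max_self]
  · show H (max a (min b (a + 1 * (b - a)))) = H b
    rw [one_mul, add_sub_cancel, min_self, max_eq_right hab]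
  · obtain ⟨v, hv⟩ := hd _ (hm t) x hx
    exact ⟨v, hv.comp (HomA_tendsto hψ (fun s _ => hm s) t)⟩

theorem Hom.neg (h : Hom f g) : Hom (fun x => -f x) (fun x => -g x) := by
  obtain ⟨H, hc, h0, h1, ⟨R, hR⟩, hd⟩ := h
  refine ⟨fun t x => -H t x, hc.neg, ?_, ?_, ⟨R, fun t ht x hx => hR t ht x (neg_eq_zero.1 hx)⟩,
    fun t ht x hx => ?_⟩
  · funext x
    beta_reduce
    rw [h0]
  · funext x
    beta_reduce
    rw [h1]
  · obtain ⟨v, hv⟩ := hd t ht x (neg_eq_zero.1 hx)
    exact ⟨-v, hv.neg⟩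

theorem Good.neg (h : Good f) : Good (fun x => -f x) := by
  refine ⟨h.cont.neg, ?_, fun x hx => ?_⟩
  · have h1 : {x | -f x = 0} = {x | f x = 0} := by
      ext x
      exact neg_eq_zero
    rw [h1]
    exact h.bdd
  · obtain ⟨v, hv⟩ := h.desc x (neg_eq_zero.1 hx)
    exact ⟨-v, Desc.neg hv⟩

/-- The sign of `H t x` does not depend on `t` for `‖x‖ > R`. -/
theorem Hom.sign (h : Hom f g) : ∃ R : ℝ, ∀ x, R < ‖x‖ → 0 < f x * g x := by
  obtain ⟨H, hc, h0, h1, ⟨R, hR⟩, hd⟩ := h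
  refine ⟨R, fun x hx => ?_⟩
  have hcx : ContinuousOn (fun t : ℝ => H t x) (Icc 0 1) :=
    (hc.comp (Continuous.prodMk continuous_id continuous_const)).continuousOn
  have hne : ∀ t ∈ Icc (0 : ℝ) 1, H t x ≠ 0 := fun t ht h => absurd (hR t ht x h) (not_le.2 hx)
  have hf : H 0 x ≠ 0 := hne 0 ⟨le_refl _, zero_le_one⟩
  have hg : H 1 x ≠ 0 := hne 1 ⟨zero_le_one, le_refl _⟩
  rw [← h0, ← h1]
  rcases lt_or_gt_of_ne hf with h2 | h2
  · rcases lt_or_gt_of_ne hg with h3 | h3
    · exact mul_pos_of_neg_of_neg h2 h3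
    · obtain ⟨t, ht, ht0⟩ := intermediate_value_Icc zero_le_one hcx ⟨h2.le, h3.le⟩
      exact absurd ht0 (hne t ht)
  · rcases lt_or_gt_of_ne hg with h3 | h3
    · obtain ⟨t, ht, ht0⟩ := intermediate_value_Icc' zero_le_one hcx ⟨h3.le, h2.le⟩
      exact absurd ht0 (hne t ht)
    · exact mul_pos h2 h3

end Pool.Schoen
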