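import Pool.Agent.H.MP_6c077c_gt.Ix.ModDef

/-! Index theorem: estimates for the model at an inward point. -/

set_option autoImplicit false

namespace Pool.Schoen

open Filter Set
open scoped Topology RealInnerProductSpace ContDiff

variable {V : Type*} [NormedAddCommGroup V] [InnerProductSpace ℝ V] [FiniteDimensional ℝ V]

/-- Taylor expansion of a `C²` function: with `B = fderiv (fderiv f) p`, `h = x - p`, for every `κ > 0`
and small `h`: `‖f' (x) - f' (p) - B h‖ ≤ κ ‖h‖` (definition of the derivative of `fderiv f` at `p`) and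
`|f x - f p - f' (p) h - B h h / 2| ≤ κ ‖h‖ ^ 2` (mean value inequality on the ball, the derivative of the
left side is `f' (x) - f' (p) - B h` because `B` is symmetric). Also `f` is `C¹` near `p`. -/
theorem taylor_two {f : V → ℝ} {p : V} (hf : ContDiffAt ℝ 2 f p) {κ : ℝ} (hκ : 0 < κ) :
    ∃ r : ℝ, 0 < r ∧ ∀ x, ‖x - p‖ < r → ContDiffAt ℝ 2 f x ∧
      ‖fderiv ℝ f x - fderiv ℝ f p - fderiv ℝ (fderiv ℝ f) p (x - p)‖ ≤ κ * ‖x - p‖ ∧
      |f x - f p - fderiv ℝ f p (x - p) - fderiv ℝ (fderiv ℝ f) p (x - p) (x - p) / 2| ≤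
        κ * ‖x - p‖ ^ 2 := by
  have hsym : ∀ w w' : V, fderiv ℝ (fderiv ℝ f) p w w' = fderiv ℝ (fderiv ℝ f) p w' w :=
    hf.isSymmSndFDerivAt (by simp)
  have h1 : ∀ᶠ x in 𝓝 p, ContDiffAt ℝ 2 f x := hf.eventually (by simp)
  have h2 : DifferentiableAt ℝ (fderiv ℝ f) p :=
    (hf.fderiv_right (m := 1) (by norm_num)).differentiableAt (by simp)
  have h3 := (h2.hasFDerivAt.isLittleO).def hκ
  obtain ⟨r, hr, h4⟩ := Metric.eventually_nhds_iff.1 (h1.and h3)
  refine ⟨r, hr, fun x hx => ?_⟩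
  have hx' := h4 (show dist x p < r by rwa [dist_eq_norm])
  refine ⟨hx'.1, hx'.2, ?_⟩
  set B := fderiv ℝ (fderiv ℝ f) p with hB
  set s := Metric.closedBall p ‖x - p‖ with hs
  have hsr : ∀ y ∈ s, dist y p < r := fun y hy => lt_of_le_of_lt hy hx
  let g : V → ℝ := fun y => f y - f p - fderiv ℝ f p (y - p) - B (y - p) (y - p) / 2
  have hg : ∀ y ∈ s, HasFDerivWithinAt g (fderiv ℝ f y - fderiv ℝ f p - B (y - p)) s y := by
    intro y hy
    have e1 : HasFDerivAt f (fderiv ℝ f y) y :=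
      ((h4 (hsr y hy)).1.differentiableAt (by simp)).hasFDerivAt
    have e0 : HasFDerivAt (fun y : V => y - p) (ContinuousLinearMap.id ℝ V) y :=
      (hasFDerivAt_id y).sub_const p
    have e2 : HasFDerivAt (fun y => fderiv ℝ f p (y - p)) (fderiv ℝ f p) y := by
      have := (fderiv ℝ f p).hasFDerivAt.comp y e0
      rw [ContinuousLinearMap.comp_id] at this
      exact this
    have e3 : HasFDerivAt (fun y => B (y - p)) B y := by
      have := B.hasFDerivAt.comp y e0
      rw [ContinuousLinearMap.comp_id] at this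
      exact this
    have e4 := e3.clm_apply e0
    have e5 := ((e1.sub_const (f p)).sub e2).sub (e4.mul_const ((2 : ℝ)⁻¹))
    have e6 : HasFDerivAt g (fderiv ℝ f y - fderiv ℝ f p - B (y - p)) y := by
      refine (e5.congr_fderiv (ContinuousLinearMap.ext fun v => ?_)).congr_of_eventuallyEq
        (Eventually.of_forall fun z => ?_)
      · simp only [_root_.sub_apply, _root_.smul_apply, _root_.add_apply,
          ContinuousLinearMap.comp_apply, ContinuousLinearMap.flip_apply,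
          ContinuousLinearMap.id_apply, smul_eq_mul]
        rw [hsym v (y - p)]
        ring
      · change f z - f p - fderiv ℝ f p (z - p) - B (z - p) (z - p) / 2 =
          f z - f p - fderiv ℝ f p (z - p) - B (z - p) (z - p) * (2 : ℝ)⁻¹
        ring
    exact e6.hasFDerivWithinAt
  have hbound : ∀ y ∈ s, ‖fderiv ℝ f y - fderiv ℝ f p - B (y - p)‖ ≤ κ * ‖x - p‖ := by
    intro y hy
    refine ((h4 (hsr y hy)).2).trans ?_
    have : ‖y - p‖ ≤ ‖x - p‖ := by rw [← dist_eq_norm]; exact hy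
    gcongr
  have hmv := (convex_closedBall p ‖x - p‖).norm_image_sub_le_of_norm_hasFDerivWithin_le hg
    hbound (Metric.mem_closedBall_self (norm_nonneg _)) (show x ∈ s by simp [hs, dist_eq_norm])
  have hgp : g p = 0 := by simp [g]
  rw [hgp, sub_zero, Real.norm_eq_abs] at hmv
  calc |f x - f p - fderiv ℝ f p (x - p) - B (x - p) (x - p) / 2| = |g x| := rfl
    _ ≤ κ * ‖x - p‖ * ‖x - p‖ := hmv
    _ = κ * ‖x - p‖ ^ 2 := by ring

/-- The second derivative is symmetric. -/
theorem hess_symm {f : V → ℝ} {p : V} (hf : ContDiffAt ℝ 2 f p) (w w' : V) :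
    hess f p w w' = hess f p w' w :=
  hf.isSymmSndFDerivAt (by simp) w w'

/-- Difference of `f` and its model `m = mdl0 (fderiv (fderiv f) p) μ e p`.
PROOF. With `h = x - p = z e + y`: `B h h = z ^ 2 B e e + 2 z B e y + B y y`, so
`|m - f| ≤ (3/2) ‖B‖ |z| ‖h‖ + κ ‖h‖ ^ 2`; and
`m' v - f' v = B y v_y - B h v - o(h) v = - z B e v_y - ⟪e, v⟫ B h e - o(h) v`, `v_y = orth e v`. -/
theorem mdl_close {f : V → ℝ} {e p : V} (he : ‖e‖ = 1) (hf : ContDiffAt ℝ 2 f p) (hp : f p = 0)
    {μ : ℝ} (hμ : ∀ v, fderiv ℝ f p v = -(μ * ⟪e, v⟫)) :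
    ∃ K : ℝ, 0 < K ∧ ∀ κ : ℝ, 0 < κ → ∃ r : ℝ, 0 < r ∧ ∀ x, ‖x - p‖ < r → ContDiffAt ℝ 2 f x ∧
      |mdl0 (fderiv ℝ (fderiv ℝ f) p) μ e p x - f x| ≤
        K * |⟪e, x - p⟫| * ‖x - p‖ + κ * ‖x - p‖ ^ 2 ∧
      ∀ v, |fderiv ℝ (mdl0 (fderiv ℝ (fderiv ℝ f) p) μ e p) x v - fderiv ℝ f x v| ≤
        K * ‖x - p‖ * |⟪e, v⟫| + (K * |⟪e, x - p⟫| + κ * ‖x - p‖) * ‖v‖ := by
  have hsym : ∀ w w' : V, fderiv ℝ (fderiv ℝ f) p w w' = fderiv ℝ (fderiv ℝ f) p w' w :=
    hf.isSymmSndFDerivAt (by simp)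
  set B := fderiv ℝ (fderiv ℝ f) p with hB
  refine ⟨2 * ‖B‖ + 1, by positivity, fun κ hκ => ?_⟩
  obtain ⟨r, hr, hT⟩ := taylor_two hf hκ
  refine ⟨r, hr, fun x hx => ?_⟩
  obtain ⟨h1, h2, h3⟩ := hT x hx
  rw [← hB] at h2 h3
  refine ⟨h1, ?_, ?_⟩
  · -- values
    set h := x - p with hh
    set z := ⟪e, h⟫ with hz
    set y := orth e h with hy
    have hdec : h = z • e + y := by simp [hy, orth, hz]
    have hzh : |z| ≤ ‖h‖ := by
      have := abs_real_inner_le_norm e h
      rwa [he, one_mul] at this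
    have hyh : ‖y‖ ≤ ‖h‖ := by
      have h4 := norm_sq_orth he h
      rw [← hy, ← hz] at h4
      refine abs_le_of_sq_le_sq' ?_ (norm_nonneg _) |>.2
      nlinarith [sq_nonneg z]
    have hBhh : B h h = z ^ 2 * B e e + 2 * z * B e y + B y y := by
      rw [hdec]
      simp only [map_add, map_smul, _root_.add_apply, _root_.smul_apply, smul_eq_mul]
      rw [hsym y e]
      ring
    have hb1 : |B e e| ≤ ‖B‖ := by
      have := B.le_opNorm₂ e e
      rw [he, Real.norm_eq_abs] at this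
      linarith
    have hb2 : |B e y| ≤ ‖B‖ * ‖h‖ := by
      have := B.le_opNorm₂ e y
      rw [he, Real.norm_eq_abs] at this
      have h5 : ‖B‖ * 1 * ‖y‖ ≤ ‖B‖ * ‖h‖ := by
        rw [mul_one]
        exact mul_le_mul_of_nonneg_left hyh (by positivity)
      linarith
    have hm : mdl0 B μ e p x - f x = -(z ^ 2 * B e e / 2 + z * B e y) -
        (f x - f p - fderiv ℝ f p h - B h h / 2) := by
      rw [hp, hμ h, hBhh]
      simp only [mdl0]
      rw [← hh, ← hz, ← hy]
      ring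
    rw [hm]
    have hz2 : |z ^ 2 * B e e / 2 + z * B e y| ≤ (2 * ‖B‖ + 1) * |z| * ‖h‖ := by
      calc |z ^ 2 * B e e / 2 + z * B e y| ≤ |z ^ 2 * B e e / 2| + |z * B e y| := abs_add_le _ _
        _ = |z| * |z| * |B e e| / 2 + |z| * |B e y| := by
            rw [abs_div, abs_mul, abs_mul, abs_pow, abs_two]
            ring
        _ ≤ |z| * ‖h‖ * ‖B‖ / 2 + |z| * (‖B‖ * ‖h‖) := by
            have e1 : |z| * |z| * |B e e| ≤ |z| * ‖h‖ * ‖B‖ := by
              have := abs_nonneg z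
              have e2 : |z| * |z| ≤ |z| * ‖h‖ := mul_le_mul_of_nonneg_left hzh this
              exact mul_le_mul e2 hb1 (abs_nonneg _) (by positivity)
            have e3 := mul_le_mul_of_nonneg_left hb2 (abs_nonneg z)
            linarith
        _ ≤ (2 * ‖B‖ + 1) * |z| * ‖h‖ := by
            have : 0 ≤ |z| * ‖h‖ * ‖B‖ := by positivity
            have : 0 ≤ |z| * ‖h‖ := by positivity
            nlinarith
    calc |-(z ^ 2 * B e e / 2 + z * B e y) - (f x - f p - fderiv ℝ f p h - B h h / 2)|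
        ≤ |-(z ^ 2 * B e e / 2 + z * B e y)| + |f x - f p - fderiv ℝ f p h - B h h / 2| :=
          abs_sub _ _
      _ ≤ (2 * ‖B‖ + 1) * |z| * ‖h‖ + κ * ‖h‖ ^ 2 := by
          rw [abs_neg]
          exact add_le_add hz2 h3
  · intro v
    set h := x - p with hh
    set z := ⟪e, h⟫ with hz
    set y := orth e h with hy
    have hdec : h = z • e + y := by simp [hy, orth, hz]
    have hvdec : v = ⟪e, v⟫ • e + orth e v := by simp [orth]
    have hov : ‖orth e v‖ ≤ ‖v‖ := by
      have h4 := norm_sq_orth he v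
      refine abs_le_of_sq_le_sq' ?_ (norm_nonneg _) |>.2
      nlinarith [sq_nonneg ⟪e, v⟫]
    have hm : fderiv ℝ (mdl0 B μ e p) x v - fderiv ℝ f x v =
        -(z * B e (orth e v)) - ⟪e, v⟫ * B h e -
        (fderiv ℝ f x - fderiv ℝ f p - B h) v := by
      rw [mdl0_fderiv, ← hh, ← hy, hsym (orth e v) y]
      have e1 : B h v = ⟪e, v⟫ * B h e + (z * B e (orth e v) + B y (orth e v)) := by
        conv_lhs => rw [hvdec]
        rw [map_add, map_smul, smul_eq_mul]
        congr 1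
        conv_lhs => rw [hdec]
        rw [map_add, map_smul]
        simp
      simp only [_root_.sub_apply]
      rw [hμ v, e1]
      ring
    rw [hm]
    have e2 : |(fderiv ℝ f x - fderiv ℝ f p - B h) v| ≤ κ * ‖h‖ * ‖v‖ := by
      have := (fderiv ℝ f x - fderiv ℝ f p - B h).le_opNorm v
      rw [Real.norm_eq_abs] at this
      exact this.trans (mul_le_mul_of_nonneg_right h2 (norm_nonneg _))
    have e3 : |z * B e (orth e v)| ≤ ‖B‖ * |z| * ‖v‖ := by
      have := B.le_opNorm₂ e (orth e v)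
      rw [he, Real.norm_eq_abs, mul_one] at this
      rw [abs_mul]
      calc |z| * |B e (orth e v)| ≤ |z| * (‖B‖ * ‖v‖) := by
            refine mul_le_mul_of_nonneg_left (this.trans ?_) (abs_nonneg _)
            exact mul_le_mul_of_nonneg_left hov (by positivity)
        _ = ‖B‖ * |z| * ‖v‖ := by ring
    have e4 : |⟪e, v⟫ * B h e| ≤ ‖B‖ * ‖h‖ * |⟪e, v⟫| := by
      have := B.le_opNorm₂ h e
      rw [he, Real.norm_eq_abs, mul_one] at this
      rw [abs_mul, mul_comm]
      exact mul_le_mul_of_nonneg_right this (abs_nonneg _)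
    calc |-(z * B e (orth e v)) - ⟪e, v⟫ * B h e - (fderiv ℝ f x - fderiv ℝ f p - B h) v|
        ≤ |-(z * B e (orth e v)) - ⟪e, v⟫ * B h e| +
          |(fderiv ℝ f x - fderiv ℝ f p - B h) v| := abs_sub _ _
      _ ≤ (|-(z * B e (orth e v))| + |⟪e, v⟫ * B h e|) +
          |(fderiv ℝ f x - fderiv ℝ f p - B h) v| := by
          gcongr
          exact abs_sub _ _
      _ ≤ (‖B‖ * |z| * ‖v‖ + ‖B‖ * ‖h‖ * |⟪e, v⟫|) + κ * ‖h‖ * ‖v‖ := by
          rw [abs_neg]
          gcongr
      _ ≤ (2 * ‖B‖ + 1) * ‖h‖ * |⟪e, v⟫| + ((2 * ‖B‖ + 1) * |z| + κ * ‖h‖) * ‖v‖ := by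
          have f1 : 0 ≤ ‖B‖ * |z| * ‖v‖ := by positivity
          have f2 : 0 ≤ |z| * ‖v‖ := by positivity
          have f3 : 0 ≤ ‖B‖ * ‖h‖ * |⟪e, v⟫| := by positivity
          have f4 : 0 ≤ ‖h‖ * |⟪e, v⟫| := by positivity
          nlinarith

/-- The operator of the second derivative on the hyperplane is injective, so bounded below: there are a
linear map `S` and `c > 0` with `⟪e, S y⟫ = 0`, `⟪S y, w⟫ = B y w` for `w ⊥ e`, and `c ‖y‖ ≤ ‖S y‖` for `y ⊥ e`.
PROOF. `S y = orth e (B y)^♯` with the Riesz isomorphism (`InnerProductSpace.toDual`). If `S y = 0`, `y ⊥ e`,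
then `B y w = 0` for all `w ⊥ e`. In the first case of `Inw.index` take `w = y`. In the second case write
`y = t u + w`: `B y u = t B u u` (symmetry, `B u w = 0`), so `t = 0`, and `B w w = 0`, so `w = 0`. Then
compactness of the unit sphere of the hyperplane. -/
theorem inw_operator {f : V → ℝ} {e p : V} (he : ‖e‖ = 1) (h : Inw f e p) :
    ∃ (S : V →L[ℝ] V) (c : ℝ), 0 < c ∧ (∀ y, ⟪e, S y⟫ = 0) ∧
      (∀ y w, ⟪e, w⟫ = 0 → ⟪S y, w⟫ = fderiv ℝ (fderiv ℝ f) p y w) ∧
      ∀ y, ⟪e, y⟫ = 0 → c * ‖y‖ ≤ ‖S y‖ := by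
  classical
  have hsym : ∀ w w' : V, fderiv ℝ (fderiv ℝ f) p w w' = fderiv ℝ (fderiv ℝ f) p w' w :=
    h.smooth.isSymmSndFDerivAt (by simp)
  set B := fderiv ℝ (fderiv ℝ f) p with hB
  let S₀ : V →ₗ[ℝ] V :=
    { toFun := fun y => orth e ((InnerProductSpace.toDual ℝ V).symm (B y))
      map_add' := fun y y' => by
        simp only [orth, map_add, inner_add_right, add_smul]
        abel
      map_smul' := fun a y => by
        simp only [orth, map_smul, RingHom.id_apply, smul_sub]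
        rw [inner_smul_right, smul_smul] }
  let S : V →L[ℝ] V := LinearMap.toContinuousLinearMap S₀
  have hS : ∀ y, S y = orth e ((InnerProductSpace.toDual ℝ V).symm (B y)) := fun y => rfl
  have h1 : ∀ y, ⟪e, S y⟫ = 0 := fun y => by rw [hS]; exact inner_orth he _
  have h2 : ∀ y w, ⟪e, w⟫ = 0 → ⟪S y, w⟫ = B y w := by
    intro y w hw
    rw [hS, orth, inner_sub_left, inner_smul_left, hw, mul_zero, sub_zero]
    exact InnerProductSpace.toDual_symm_apply
  have h3 : ∀ y, ⟪e, y⟫ = 0 → S y = 0 → y = 0 := by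
    intro y hy hSy
    have h4 : ∀ w, ⟪e, w⟫ = 0 → B y w = 0 := by
      intro w hw
      rw [← h2 y w hw, hSy, inner_zero_left]
    rcases h.index with hi | ⟨u, hu, heu, huu, huw, hww⟩
    · by_contra hne
      have := hi y hy hne
      rw [hess, ← hB, h4 y hy] at this
      exact lt_irrefl _ this
    · simp only [hess, ← hB] at huu huw hww
      set t := ⟪u, y⟫ with ht
      set w := y - t • u with hw
      have hew : ⟪e, w⟫ = 0 := by
        rw [hw, inner_sub_right, inner_smul_right, hy, heu]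
        ring
      have huw' : ⟪u, w⟫ = 0 := by
        rw [hw, inner_sub_right, inner_smul_right, real_inner_self_eq_norm_sq, hu]
        rw [← ht]
        ring
      have hyd : y = t • u + w := by rw [hw]; abel
      have e1 : B y u = t * B u u := by
        conv_lhs => rw [hyd]
        rw [map_add, map_smul, _root_.add_apply, _root_.smul_apply, smul_eq_mul, hsym w u,
          huw w hew huw', add_zero]
      rw [h4 u heu] at e1
      have ht0 : t = 0 := by
        rcases mul_eq_zero.1 e1.symm with h5 | h5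
        · exact h5
        · exact absurd h5 huu.ne
      have hyw : y = w := by rw [hyd, ht0]; simp
      by_contra hne
      have h6 := hww w hew huw' (by rwa [← hyw])
      rw [← hyw, h4 y hy] at h6
      exact lt_irrefl _ h6
  -- compactness
  have hproper : ProperSpace V := FiniteDimensional.proper ℝ V
  let K : Set V := Metric.sphere (0 : V) 1 ∩ {y | ⟪e, y⟫ = 0}
  have hK : IsCompact K := (isCompact_sphere 0 1).inter_right
    (isClosed_eq (continuous_const.inner continuous_id) continuous_const)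
  obtain ⟨c, hc, hcK⟩ := hK.exists_forall_le' (f := fun y => ‖S y‖) (by fun_prop) (a := 0)
    (fun y hy => by
      have hne : S y ≠ 0 := fun h0 => by
        have := h3 y hy.2 h0
        have h7 : ‖y‖ = 1 := by simpa using hy.1
        rw [this, norm_zero] at h7
        exact zero_ne_one h7
      exact norm_pos_iff.2 hne)
  refine ⟨S, c, hc, h1, h2, fun y hy => ?_⟩
  by_cases hy0 : y = 0
  · simp [hy0]
  have hn : 0 < ‖y‖ := norm_pos_iff.2 hy0
  have h8 := hcK (‖y‖⁻¹ • y) ⟨by
    rw [mem_sphere_zero_iff_norm, norm_smul, norm_inv, norm_norm]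
    exact inv_mul_cancel₀ hn.ne', by
    change ⟪e, ‖y‖⁻¹ • y⟫ = 0
    rw [inner_smul_right, hy, mul_zero]⟩
  simp only [map_smul, norm_smul, norm_inv, norm_norm] at h8
  rw [inv_mul_eq_div, le_div_iff₀ hn] at h8
  exact h8

end Pool.Schoen
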