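import Pool.Agent.H.MP_6c077c_gt.Ix.HomB
import Pool.Agent.H.MP_6c077c_gt.Ix.MollA
import Pool.Agent.H.MP_6c077c_gt.FamilySub

/-! Index theorem: smooth functions adapted to a good function. -/

set_option autoImplicit false

namespace Pool.Schoen

open Filter Set
open scoped Topology RealInnerProductSpace ContDiff

variable {V : Type*} [NormedAddCommGroup V] [InnerProductSpace ℝ V]

/-- `F` is a smooth function close to `f`: it decreases in the direction `v x` at all points `x`
with `|f x| ≤ δ`, differs from `f` by less than `δ` in the ball of radius `R`, and has the sign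
of `f` outside of it. -/
structure Adapted (f : V → ℝ) (v : V → V) (δ R : ℝ) (F : V → ℝ) : Prop where
  smooth : ContDiff ℝ ∞ F
  close : ∀ x, ‖x‖ ≤ R → |F x - f x| < δ
  sign : ∀ x, R ≤ ‖x‖ → 0 < F x * f x
  dir : ∀ x, ‖x‖ ≤ R → |f x| ≤ δ → fderiv ℝ F x (v x) < 0

/-- Two adapted functions are carried to each other: `family_sub` for
`G (s, x) = (1 - s) * F x + s * F' x` (smooth in both variables) and `K = closedBall 0 R`: at a zero
`‖x‖ < R` (signs), `|f x| < δ`, and the derivative in the direction `v x` is negative. -/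
theorem Adapted.carries [FiniteDimensional ℝ V] {f F F' : V → ℝ} {v : V → V} {δ R : ℝ}
    (h : Adapted f v δ R F) (h' : Adapted f v δ R F') :
    Carries2 {x | F x = 0} {x | F x ≤ 0} {x | F' x = 0} {x | F' x ≤ 0} := by
  have hF : ContDiff ℝ ∞ F := h.smooth
  have hF' : ContDiff ℝ ∞ F' := h'.smooth
  set G : ℝ × V → ℝ := fun q => (1 - q.1) * F q.2 + q.1 * F' q.2 with hG
  have hGs : ContDiff ℝ ∞ G := by
    have h1 : ContDiff ℝ ∞ (fun q : ℝ × V => F q.2) := hF.comp contDiff_snd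
    have h2 : ContDiff ℝ ∞ (fun q : ℝ × V => F' q.2) := hF'.comp contDiff_snd
    exact ((contDiff_const.sub contDiff_fst).mul h1).add (contDiff_fst.mul h2)
  have key := family_sub G hGs (Metric.closedBall (0 : V) R)
    (by have : ProperSpace V := FiniteDimensional.proper ℝ V
        exact isCompact_closedBall _ _) ?_
  · simpa [hG] using key
  intro s hs x hx
  have hs0 : 0 ≤ s := hs.1
  have hs1 : 0 ≤ 1 - s := by linarith [hs.2]
  have hx0 : (1 - s) * F x + s * F' x = 0 := hx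
  have hxR : ‖x‖ < R := by
    by_contra hcon
    push Not at hcon
    have h1 := h.sign x hcon
    have h2 := h'.sign x hcon
    have h3 : ((1 - s) * F x + s * F' x) * f x = (1 - s) * (F x * f x) + s * (F' x * f x) := by
      ring
    rw [hx0, zero_mul] at h3
    rcases eq_or_lt_of_le hs0 with h4 | h4
    · rw [← h4] at h3
      simp only [sub_zero, one_mul, zero_mul, add_zero] at h3
      linarith
    · have := mul_pos h4 h2
      have := mul_nonneg hs1 h1.le
      linarith
  have hfx : |f x| ≤ δ := by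
    have h1 := abs_lt.1 (h.close x hxR.le)
    have h2 := abs_lt.1 (h'.close x hxR.le)
    rw [abs_le]
    constructor
    · nlinarith
    · nlinarith
  refine ⟨by simpa using hxR.le, ?_⟩
  intro h0
  have h1 := h.dir x hxR.le hfx
  have h2 := h'.dir x hxR.le hfx
  have hd1 : HasFDerivAt F (fderiv ℝ F x) x :=
    (hF.differentiable (by simp)).differentiableAt.hasFDerivAt
  have hd2 : HasFDerivAt F' (fderiv ℝ F' x) x :=
    (hF'.differentiable (by simp)).differentiableAt.hasFDerivAt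
  have hd : HasFDerivAt (fun y => G (s, y)) ((1 - s) • fderiv ℝ F x + s • fderiv ℝ F' x) x :=
    (hd1.const_mul (1 - s)).add (hd2.const_mul s)
  rw [hd.fderiv] at h0
  have h3 := congrArg (fun L : V →L[ℝ] ℝ => L (v x)) h0
  simp only [_root_.add_apply, _root_.smul_apply, smul_eq_mul,
    _root_.zero_apply] at h3
  rcases eq_or_lt_of_le hs0 with h4 | h4
  · rw [← h4] at h3
    simp only [sub_zero, one_mul, zero_mul, add_zero] at h3
    linarith
  · have := mul_neg_of_pos_of_neg h4 h2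
    have := mul_nonpos_of_nonneg_of_nonpos hs1 h1.le
    linarith

/-- Uniform descent near `x` for parameters near `t`. -/
private def MollBP (H : ℝ → V → ℝ) (t : ℝ) (x : V) (e : ℝ) : Prop :=
  ∃ v : V, ∃ c : ℝ, 0 < c ∧ ∀ t' ∈ Icc (0 : ℝ) 1, |t' - t| < e → ∀ y, ‖y - x‖ < e →
    ∀ s, 0 < s → s < e → H t' (y + s • v) ≤ H t' y - c * s

private theorem MollBP_mono {H : ℝ → V → ℝ} {t : ℝ} {x : V} {e e' : ℝ} (h : MollBP H t x e)
    (he : e' ≤ e) : MollBP H t x e' := by
  obtain ⟨v, c, hc, h⟩ := h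
  exact ⟨v, c, hc, fun t' ht' h1 y h2 s hs h3 =>
    h t' ht' (h1.trans_le he) y (h2.trans_le he) s hs (h3.trans_le he)⟩

private theorem MollB_unif {H : ℝ → V → ℝ} {t : ℝ} {x v : V} (h : Desc H (𝓝[Icc 0 1] t) x v) :
    ∃ d : ℝ, 0 < d ∧ ∀ z, ‖z - x‖ < d → MollBP H t z d := by
  obtain ⟨c, hc, h⟩ := h
  rw [eventually_prod_iff] at h
  obtain ⟨pa, hpa, pb, hpb, h⟩ := h
  rw [eventually_prod_iff] at hpb
  obtain ⟨pc, hpc, pd, hpd, hpb⟩ := hpb
  rw [eventually_prod_iff] at hpd
  obtain ⟨pe, hpe, pf, hpf, hpd⟩ := hpd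
  have hv : pe v := hpe.self_of_nhds
  obtain ⟨d1, hd1, h1⟩ := Metric.eventually_nhds_iff.1 (eventually_nhdsWithin_iff.1 hpa)
  obtain ⟨d2, hd2, h2⟩ := Metric.eventually_nhds_iff.1 hpc
  obtain ⟨d3, hd3, h3⟩ := Metric.eventually_nhds_iff.1 (eventually_nhdsWithin_iff.1 hpf)
  refine ⟨min d1 (min (d2 / 2) d3), lt_min hd1 (lt_min (by linarith) hd3), ?_⟩
  intro z hz
  refine ⟨v, c, hc, ?_⟩
  intro t' ht' htt y hy s hs hsd
  have a1 : |t' - t| < d1 := htt.trans_le (min_le_left _ _)
  have a2 : ‖y - z‖ < d2 / 2 := hy.trans_le ((min_le_right _ _).trans (min_le_left _ _))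
  have a3 : ‖z - x‖ < d2 / 2 := hz.trans_le ((min_le_right _ _).trans (min_le_left _ _))
  have a4 : s < d3 := hsd.trans_le ((min_le_right _ _).trans (min_le_right _ _))
  have b1 : pa t' := h1 (by rwa [Real.dist_eq]) ht'
  have b2 : pc y := by
    apply h2
    rw [dist_eq_norm]
    calc ‖y - x‖ = ‖(y - z) + (z - x)‖ := by congr 1; abel
      _ ≤ ‖y - z‖ + ‖z - x‖ := norm_add_le _ _
      _ < d2 := by linarith
  have b3 : pf s := by
    refine h3 ?_ hs
    rw [Real.dist_eq, sub_zero, abs_of_pos hs]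
    exact a4
  exact @h t' b1 (y, (v, s)) (@hpb y b2 (v, s) (@hpd v hv s b3))

private theorem MollB_cover [FiniteDimensional ℝ V] (H : ℝ → V → ℝ)
    (hc : Continuous fun p : ℝ × V => H p.1 p.2)
    (hd : ∀ t ∈ Icc (0 : ℝ) 1, ∀ x, H t x = 0 → ∃ v, Desc H (𝓝[Icc 0 1] t) x v)
    (t : ℝ) (ht : t ∈ Icc (0 : ℝ) 1) (R : ℝ) :
    ∃ e : ℝ, 0 < e ∧ ∀ x, ‖x‖ ≤ R → |H t x| ≤ e → MollBP H t x e := by
  have : ProperSpace V := FiniteDimensional.proper ℝ V
  have hct : Continuous (H t) := hc.comp (continuous_const.prodMk continuous_id)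
  have hK : IsCompact (Metric.closedBall (0 : V) R) := isCompact_closedBall _ _
  have key : ∃ e : ℝ, 0 < e ∧ ∀ x ∈ Metric.closedBall (0 : V) R, |H t x| ≤ e → MollBP H t x e := by
    refine hK.induction_on (p := fun S => ∃ e : ℝ, 0 < e ∧ ∀ x ∈ S, |H t x| ≤ e →
      MollBP H t x e) ?_ ?_ ?_ ?_
    · exact ⟨1, one_pos, fun x hx => absurd hx (by simp)⟩
    · rintro S S' hSS ⟨e, he, h⟩
      exact ⟨e, he, fun x hx => h x (hSS hx)⟩
    · rintro S S' ⟨e, he, h⟩ ⟨e', he', h'⟩
      refine ⟨min e e', lt_min he he', ?_⟩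
      rintro x (hx | hx) hxe
      · exact MollBP_mono (h x hx (hxe.trans (min_le_left _ _))) (min_le_left _ _)
      · exact MollBP_mono (h' x hx (hxe.trans (min_le_right _ _))) (min_le_right _ _)
    · intro x _
      by_cases hx : H t x = 0
      · obtain ⟨v, hv⟩ := hd t ht x hx
        obtain ⟨d, hd0, h⟩ := MollB_unif hv
        refine ⟨Metric.ball x d, mem_nhdsWithin_of_mem_nhds (Metric.ball_mem_nhds x hd0), d, hd0,
          ?_⟩
        intro y hy _
        exact h y (by rwa [← dist_eq_norm])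
      · have hpos : 0 < |H t x| := abs_pos.2 hx
        refine ⟨{y | |H t x| / 2 < |H t y|}, mem_nhdsWithin_of_mem_nhds ?_, |H t x| / 2,
          by linarith, ?_⟩
        · exact (isOpen_lt continuous_const hct.abs).mem_nhds
            (show |H t x| / 2 < |H t x| by linarith)
        · intro y hy hy'
          exact absurd hy (not_lt.2 hy')
  obtain ⟨e, he, h⟩ := key
  exact ⟨e, he, fun x hx => h x (by simpa using hx)⟩

private theorem MollB_dir {F : V → ℝ} (hF : ContDiff ℝ ∞ F) {x v : V} {c e : ℝ} (hc : 0 < c)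
    (he : 0 < e) (h : ∀ s, 0 < s → s < e → F (x + s • v) ≤ F x - c * s) :
    fderiv ℝ F x v < 0 := by
  have hd1 : HasFDerivAt F (fderiv ℝ F x) (x + (0 : ℝ) • v) := by
    rw [zero_smul, add_zero]
    exact (hF.differentiable (by simp)).differentiableAt.hasFDerivAt
  have hd2 : HasDerivAt (fun s : ℝ => x + s • v) v 0 := by
    have := ((hasDerivAt_id (0 : ℝ)).smul_const v).const_add x
    simpa using this
  have hd3 : HasDerivAt (fun s : ℝ => F (x + s • v)) (fderiv ℝ F x v) 0 :=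
    hd1.comp_hasDerivAt 0 hd2
  have hd4 := hd3.tendsto_slope_zero_right
  have hle : fderiv ℝ F x v ≤ -c := by
    refine le_of_tendsto hd4 ?_
    filter_upwards [Ioo_mem_nhdsGT he] with s hs
    have h1 := h s hs.1 hs.2
    simp only [zero_add, zero_smul, add_zero, smul_eq_mul]
    have h2 : F (x + s • v) - F x ≤ -c * s := by linarith
    calc s⁻¹ * (F (x + s • v) - F x) ≤ s⁻¹ * (-c * s) :=
          mul_le_mul_of_nonneg_left h2 (inv_nonneg.2 hs.1.le)
      _ = -c := by
          have : s ≠ 0 := hs.1.ne'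
          field_simp
  linarith

private theorem MollB_sign [FiniteDimensional ℝ V] (H : ℝ → V → ℝ)
    (hc : Continuous fun p : ℝ × V => H p.1 p.2) (x : V)
    (hne : ∀ t ∈ Icc (0 : ℝ) 1, ∀ y, ‖y - x‖ < 1 → H t y ≠ 0)
    (t t' : ℝ) (ht : t ∈ Icc (0 : ℝ) 1) (ht' : t' ∈ Icc (0 : ℝ) 1) (hpos : 0 < H t x) :
    ∃ a, 0 < a ∧ ∀ y, ‖y - x‖ < 1 / 2 → a ≤ H t' y := by
  have : ProperSpace V := FiniteDimensional.proper ℝ V
  have hall : ∀ s ∈ Icc (0 : ℝ) 1, ∀ y, ‖y - x‖ < 1 → 0 < H s y := by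
    intro s hs y hy
    by_contra hcon
    push Not at hcon
    have hpre : IsPreconnected (Icc (0 : ℝ) 1 ×ˢ Metric.ball x 1) :=
      isPreconnected_Icc.prod (convex_ball x 1).isPreconnected
    have hiv := hpre.intermediate_value (f := fun p : ℝ × V => H p.1 p.2)
      (show ((s, y) : ℝ × V) ∈ Icc (0 : ℝ) 1 ×ˢ Metric.ball x 1 from
        ⟨hs, by simpa [dist_eq_norm] using hy⟩)
      (show ((t, x) : ℝ × V) ∈ Icc (0 : ℝ) 1 ×ˢ Metric.ball x 1 from
        ⟨ht, by simp⟩) hc.continuousOn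
    obtain ⟨p, hp, hp0⟩ := hiv (show (0 : ℝ) ∈ Icc (H s y) (H t x) from ⟨hcon, hpos.le⟩)
    exact hne p.1 hp.1 p.2 (by rw [← dist_eq_norm]; exact hp.2) hp0
  have hct : Continuous (H t') := hc.comp (continuous_const.prodMk continuous_id)
  have hK : IsCompact (Metric.closedBall x (1 / 2)) := isCompact_closedBall _ _
  obtain ⟨a, ha, h⟩ := hK.exists_forall_le' hct.continuousOn (a := 0) (fun y hy =>
    hall t' ht' y (by
      have : dist y x ≤ 1 / 2 := hy
      rw [← dist_eq_norm]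
      linarith))
  refine ⟨a, ha, fun y hy => h y ?_⟩
  show dist y x ≤ 1 / 2
  rw [dist_eq_norm]
  exact hy.le

/-- PROOF. Let `Z = {x | H t x = 0}`, compact (bounded by `R0`).  For each `x ∈ Z` a direction `v_x` with
`Desc H (𝓝[Icc 0 1] t) x v_x`, i.e. `c_x, d_x > 0` with
`H t' (y + s v_x) ≤ H t' y - c_x s` for `t' ∈ Icc 0 1`, `|t' - t| < d_x`, `‖y - x‖ < 2 d_x`, `0 < s < d_x`.
Finitely many balls `B(x_i, d_i)` cover `Z`; on the compact set `closedBall 0 R` (`R = R0 + 2`) minus the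
balls `|H t|` is at least `2 δ > 0`.  Put `v x = v_{x_i}` for some `i` with `x ∈ B(x_i, d_i)`.  Let `ε` be
small: `ε < 1`, `ε < d_i`, `|H t' y - H t x| < δ` for `‖x‖ ≤ R`, `‖y - x‖ < ε`, `t' ∈ Icc 0 1`,
`|t' - t| < ε` (uniform continuity on a compact set).  Then every `F` with `IsMoll (H t') ε F` is adapted:
`dir`: `IsMoll.drop` with `w = s v_i`, `c = c_i s`, and divide by `s → 0`; `sign`: for `‖x‖ ≥ R` the function
`H t'` has no zero in the ball `B(x, 1)`, nor has any `H t''`, so all `H t'' y`, `t'' ∈ Icc 0 1`,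
`‖y - x‖ < 1`, have the same sign (connectedness of `Icc 0 1 ×ˢ ball x 1`), and on the compact ball of
radius `ε` the absolute value is at least some `a > 0` (`IsMoll.ge`, `IsMoll.le`). -/
theorem adapted_near [FiniteDimensional ℝ V] (H : ℝ → V → ℝ)
    (hc : Continuous fun p : ℝ × V => H p.1 p.2)
    (hb : ∃ R : ℝ, ∀ t ∈ Icc (0 : ℝ) 1, ∀ x, H t x = 0 → ‖x‖ ≤ R)
    (hd : ∀ t ∈ Icc (0 : ℝ) 1, ∀ x, H t x = 0 → ∃ v, Desc H (𝓝[Icc 0 1] t) x v)
    (t : ℝ) (ht : t ∈ Icc (0 : ℝ) 1) :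
    ∃ (v : V → V) (δ R ε : ℝ), 0 < δ ∧ 0 < ε ∧ (∀ t' ∈ Icc (0 : ℝ) 1, |t' - t| < ε → ∀ F,
      IsMoll (H t') ε F → Adapted (H t) v δ R F) ∧
      (ContDiff ℝ ∞ (H t) → Adapted (H t) v δ R (H t)) := by
  classical
  have : ProperSpace V := FiniteDimensional.proper ℝ V
  obtain ⟨R0, hR0⟩ := hb
  set R : ℝ := |R0| + 2 with hR
  obtain ⟨e, he, hP⟩ := MollB_cover H hc hd t ht R
  set v : V → V := fun x => if h : MollBP H t x e then h.choose else 0 with hv
  have hvP : ∀ x, MollBP H t x e → ∃ c : ℝ, 0 < c ∧ ∀ t' ∈ Icc (0 : ℝ) 1, |t' - t| < e →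
      ∀ y, ‖y - x‖ < e → ∀ s, 0 < s → s < e → H t' (y + s • v x) ≤ H t' y - c * s := by
    intro x h
    have : v x = h.choose := by simp [hv, h]
    rw [this]
    exact h.choose_spec
  -- no zeros far away
  have hfar : ∀ s ∈ Icc (0 : ℝ) 1, ∀ y, R - 1 < ‖y‖ → H s y ≠ 0 := by
    intro s hs y hy h0
    have h1 := hR0 s hs y h0
    have h2 := le_abs_self R0
    linarith
  -- uniform continuity
  have huc : UniformContinuousOn (fun p : ℝ × V => H p.1 p.2)
      (Icc (0 : ℝ) 1 ×ˢ Metric.closedBall (0 : V) (R + 1)) :=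
    (isCompact_Icc.prod (isCompact_closedBall _ _)).uniformContinuousOn_of_continuous
      hc.continuousOn
  obtain ⟨ε1, hε1, huc⟩ := Metric.uniformContinuousOn_iff.1 huc (e / 2) (by linarith)
  set ε : ℝ := min (min e ε1) (1 / 2) with hε
  have hεpos : 0 < ε := lt_min (lt_min he hε1) (by norm_num)
  have hεe : ε ≤ e := (min_le_left _ _).trans (min_le_left _ _)
  have hεε1 : ε ≤ ε1 := (min_le_left _ _).trans (min_le_right _ _)
  have hεh : ε ≤ 1 / 2 := min_le_right _ _
  refine ⟨v, e, R, ε, he, hεpos, ?_, ?_⟩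
  · intro t' ht' htt F hF
    refine ⟨hF.smooth, ?_, ?_, ?_⟩
    · intro x hx
      have hnear : ∀ y, ‖y - x‖ < ε → |H t' y - H t x| < e / 2 := by
        intro y hy
        have hy1 : ‖y‖ ≤ R + 1 := by
          calc ‖y‖ = ‖(y - x) + x‖ := by congr 1; abel
            _ ≤ ‖y - x‖ + ‖x‖ := norm_add_le _ _
            _ ≤ R + 1 := by linarith
        have := huc (t', y) ⟨ht', by simpa using hy1⟩ (t, x)
          ⟨ht, by simpa using (by linarith : ‖x‖ ≤ R + 1)⟩ (by
            rw [Prod.dist_eq]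
            apply max_lt
            · rw [Real.dist_eq]; exact htt.trans_le hεε1
            · rw [dist_eq_norm]; exact hy.trans_le hεε1)
        rwa [Real.dist_eq] at this
      have h1 : H t x - e / 2 ≤ F x := hF.ge x _ (fun y hy => by
        have := abs_lt.1 (hnear y hy)
        linarith)
      have h2 : F x ≤ H t x + e / 2 := hF.le x _ (fun y hy => by
        have := abs_lt.1 (hnear y hy)
        linarith)
      rw [abs_lt]
      constructor <;> linarith
    · intro x hx
      have hne : ∀ s ∈ Icc (0 : ℝ) 1, ∀ y, ‖y - x‖ < 1 → H s y ≠ 0 := by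
        intro s hs y hy
        apply hfar s hs
        have : ‖x‖ ≤ ‖x - y‖ + ‖y‖ := by
          calc ‖x‖ = ‖(x - y) + y‖ := by congr 1; abel
            _ ≤ ‖x - y‖ + ‖y‖ := norm_add_le _ _
        rw [norm_sub_rev] at this
        linarith
      have hx0 : H t x ≠ 0 := hne t ht x (by simp)
      rcases lt_or_gt_of_ne hx0 with hneg | hpos
      · obtain ⟨a, ha, h⟩ := MollB_sign (fun s y => -H s y) (by exact hc.neg) x
          (fun s hs y hy => neg_ne_zero.2 (hne s hs y hy)) t t' ht ht' (by simpa using hneg)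
        have h1 : F x ≤ -a := hF.le x _ (fun y hy => by
          have := h y (hy.trans_le hεh)
          linarith)
        exact mul_pos_of_neg_of_neg (by linarith) hneg
      · obtain ⟨a, ha, h⟩ := MollB_sign H hc x hne t t' ht ht' hpos
        have h1 : a ≤ F x := hF.ge x _ (fun y hy => h y (hy.trans_le hεh))
        exact mul_pos (by linarith) hpos
    · intro x hx hxe
      obtain ⟨c, hc0, h⟩ := hvP x (hP x hx hxe)
      refine MollB_dir hF.smooth hc0 he (fun s hs hse => ?_)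
      exact hF.drop x _ _ (fun y hy =>
        h t' ht' (htt.trans_le hεe) y (hy.trans_le hεe) s hs hse)
  · intro hsm
    refine ⟨hsm, ?_, ?_, ?_⟩
    · intro x _
      simpa using he
    · intro x hx
      have : H t x ≠ 0 := hfar t ht x (by linarith)
      exact mul_self_pos.2 this
    · intro x hx hxe
      obtain ⟨c, hc0, h⟩ := hvP x (hP x hx hxe)
      refine MollB_dir hsm hc0 he (fun s hs hse => ?_)
      exact h t ht (by simpa using he) x (by simpa using he) s hs hse

end Pool.Schoen
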