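import Pool.Agent.H.MP_6c077c_gt.Ix.LiftA

/-! Index theorem: transfer of connectedness and of the lifting property. -/

set_option autoImplicit false

namespace Pool.Schoen

open Filter Set
open scoped Topology RealInnerProductSpace ContDiff

variable {V : Type*} [NormedAddCommGroup V] [InnerProductSpace ℝ V]

/-- PROOF. Every `x ∈ B` is joined inside of `B` to `g s (g s x) ∈ g s '' A` by the path
`σ ↦ g σ (g σ x)`; and `g s '' A ⊆ B` is connected. -/
theorem transfer_conn {A B : Set V} (g : ℝ → V → V) (hg : Continuous fun p : ℝ × V => g p.1 p.2)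
    (h0 : ∀ x, g 0 x = x) {s : ℝ} (hs : 0 ≤ s) (hBB : ∀ σ ∈ Icc (0 : ℝ) s, MapsTo (g σ) B B)
    (hAB : MapsTo (g s) A B) (hBA : MapsTo (g s) B A) (hA : IsConnected A) : IsConnected B := by
  obtain ⟨⟨a, ha⟩, hpre⟩ := hA
  have hgs : Continuous (g s) := hg.comp (Continuous.prodMk continuous_const continuous_id)
  refine ⟨⟨g s a, hAB ha⟩, ?_⟩
  refine isPreconnected_of_forall (g s a) (fun y hy => ?_)
  have hpath : Continuous fun σ : ℝ => g σ (g σ y) :=
    hg.comp (Continuous.prodMk continuous_id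
      (hg.comp (Continuous.prodMk continuous_id continuous_const)))
  refine ⟨g s '' A ∪ (fun σ : ℝ => g σ (g σ y)) '' Icc (0 : ℝ) s, ?_, ?_, ?_, ?_⟩
  · rintro z (⟨b, hb, rfl⟩ | ⟨σ, hσ, rfl⟩)
    · exact hAB hb
    · exact hBB σ hσ (hBB σ hσ hy)
  · exact Or.inl ⟨a, ha, rfl⟩
  · refine Or.inr ⟨0, ⟨le_refl 0, hs⟩, ?_⟩
    show g 0 (g 0 y) = y
    rw [h0, h0]
  · refine IsPreconnected.union (g s (g s y)) ⟨g s y, hBA hy, rfl⟩ ⟨s, ⟨hs, le_refl s⟩, rfl⟩ ?_ ?_
    · exact hpre.image _ hgs.continuousOn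
    · exact isPreconnected_Icc.image _ hpath.continuousOn

/-- PROOF. Given `u` on `B`. Then `u ∘ g s` on `A` lifts, `= exp (i v)`; so `u ∘ g s ∘ g s` on `B`
lifts with `v ∘ g s`; and `u` is homotopic to it by `u (g σ (g σ x))`, `σ ∈ [0, s]`; `lifts_homotopy` (reverse
the time and rescale: `U t x = u (g (s (1 - t)) (g (s (1 - t)) x))`). -/
theorem transfer_lift {A B : Set V} (hB : IsCompact B) (g : ℝ → V → V)
    (hg : Continuous fun p : ℝ × V => g p.1 p.2) (h0 : ∀ x, g 0 x = x) {s : ℝ} (hs : 0 ≤ s)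
    (hBB : ∀ σ ∈ Icc (0 : ℝ) s, MapsTo (g σ) B B) (hAB : MapsTo (g s) A B)
    (hBA : MapsTo (g s) B A) (hA : LiftS A) : LiftS B := by
  intro u hu hu1
  have hgs : Continuous (g s) := hg.comp (Continuous.prodMk continuous_const continuous_id)
  obtain ⟨v, hv, hvu⟩ := hA (fun x => u (g s x)) (hu.comp hgs.continuousOn hAB)
    (fun x hx => hu1 _ (hAB hx))
  have hmem : ∀ t ∈ Icc (0 : ℝ) 1, s * (1 - t) ∈ Icc (0 : ℝ) s := by
    intro t ht
    refine ⟨mul_nonneg hs (by linarith [ht.2]), ?_⟩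
    have h1 : 1 - t ≤ 1 := by linarith [ht.1]
    nlinarith
  have hcont : Continuous fun p : ℝ × V => g (s * (1 - p.1)) (g (s * (1 - p.1)) p.2) := by
    have hc : Continuous fun p : ℝ × V => s * (1 - p.1) :=
      continuous_const.mul (continuous_const.sub continuous_fst)
    exact hg.comp (Continuous.prodMk hc (hg.comp (Continuous.prodMk hc continuous_snd)))
  have hmaps : ∀ t ∈ Icc (0 : ℝ) 1, ∀ x ∈ B, g (s * (1 - t)) (g (s * (1 - t)) x) ∈ B :=
    fun t ht x hx => hBB _ (hmem t ht) (hBB _ (hmem t ht) hx)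
  have key : Lifts B (fun x => u (g (s * (1 - 1)) (g (s * (1 - 1)) x))) := by
    refine lifts_homotopy (Y := V) hB (fun t x => u (g (s * (1 - t)) (g (s * (1 - t)) x))) ?_ ?_ ?_
    · refine hu.comp hcont.continuousOn ?_
      rintro ⟨t, x⟩ ⟨ht, hx⟩
      exact hmaps t ht x hx
    · intro t ht x hx
      exact hu1 _ (hmaps t ht x hx)
    · refine ⟨fun x => v (g s x), hv.comp hgs.continuousOn hBA, fun x hx => ?_⟩
      have h1 := hvu (g s x) (hBA hx)
      show u (g (s * (1 - 0)) (g (s * (1 - 0)) x)) = _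
      rw [sub_zero, mul_one]
      exact h1
  obtain ⟨w, hw, hwu⟩ := key
  refine ⟨w, hw, fun x hx => ?_⟩
  have h1 : u (g (s * (1 - 1)) (g (s * (1 - 1)) x)) = Complex.exp (w x * Complex.I) := hwu x hx
  have h2 : g (s * (1 - 1)) (g (s * (1 - 1)) x) = x := by
    rw [sub_self, mul_zero, h0, h0]
  rw [h2] at h1
  exact h1

end Pool.Schoen
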