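import Pool.Agent.H.MP_6c077c_gt.Ix.Dz
import Pool.Agent.H.MP_6c077c_gt.Ix.TubeA

/-! Index theorem: straight tubes, descent directions. -/

set_option autoImplicit false

namespace Pool.Schoen

open Filter Set
open scoped Topology RealInnerProductSpace

variable {V : Type*} [NormedAddCommGroup V] [InnerProductSpace ℝ V]

/-- The linear part of `orth u`. -/
private noncomputable def TubeF_L (u : V) : V →L[ℝ] V :=
  ContinuousLinearMap.id ℝ V - (innerSL ℝ u).smulRight u

private theorem TubeF_L_apply (u x : V) : TubeF_L u x = orth u x := by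
  simp [TubeF_L, orth]

private theorem TubeF_combo (q x y : V) {a b : ℝ} (hab : a + b = 1) :
    a • x + b • y - q = a • (x - q) + b • (y - q) := by
  have h : q = (a + b) • q := by rw [hab, one_smul]
  conv_lhs => rw [h]
  rw [add_smul, smul_sub, smul_sub]
  abel

private theorem TubeF_orth_combo (u q x y : V) {a b : ℝ} (hab : a + b = 1) :
    orth u (a • x + b • y - q) = a • orth u (x - q) + b • orth u (y - q) := by
  rw [TubeF_combo q x y hab, ← TubeF_L_apply, ← TubeF_L_apply, ← TubeF_L_apply, map_add,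
    map_smul, map_smul]

private theorem TubeF_inner_combo (u q x y : V) {a b : ℝ} (hab : a + b = 1) :
    ⟪u, a • x + b • y - q⟫ = a * ⟪u, x - q⟫ + b * ⟪u, y - q⟫ := by
  rw [TubeF_combo q x y hab, inner_add_right, real_inner_smul_right, real_inner_smul_right]

theorem tubeF_convex (q u : V) (α β ρ : ℝ) : ConvexOn ℝ univ (tubeF q u α β ρ) := by
  have h1 : ConvexOn ℝ univ (fun x : V => α - ⟪u, x - q⟫) := by
    refine ⟨convex_univ, fun x _ y _ a b _ _ hab => ?_⟩
    have h := TubeF_inner_combo u q x y hab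
    simp only [smul_eq_mul]
    rw [h]
    have h2 : α = (a + b) * α := by rw [hab, one_mul]
    nlinarith
  have h2 : ConvexOn ℝ univ (fun x : V => ⟪u, x - q⟫ - β) := by
    refine ⟨convex_univ, fun x _ y _ a b _ _ hab => ?_⟩
    have h := TubeF_inner_combo u q x y hab
    simp only [smul_eq_mul]
    rw [h]
    have h2 : β = (a + b) * β := by rw [hab, one_mul]
    nlinarith
  have h3 : ConvexOn ℝ univ (fun x : V => ‖orth u (x - q)‖ ^ 2 - ρ ^ 2) := by
    have h4 : ConvexOn ℝ univ (fun z : V => ‖z‖ ^ 2) :=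
      (convexOn_norm convex_univ).pow (fun _ _ => norm_nonneg _) 2
    refine ⟨convex_univ, fun x _ y _ a b ha hb hab => ?_⟩
    have h5 := h4.2 (mem_univ (orth u (x - q))) (mem_univ (orth u (y - q))) ha hb hab
    simp only [smul_eq_mul] at h5 ⊢
    rw [TubeF_orth_combo u q x y hab]
    have h6 : ρ ^ 2 = (a + b) * ρ ^ 2 := by rw [hab, one_mul]
    nlinarith
  exact (h1.sup h2).sup h3

private theorem TubeF_inner_self {u : V} (hu : ‖u‖ = 1) : ⟪u, u⟫ = 1 := by
  rw [real_inner_self_eq_norm_sq, hu, one_pow]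

private theorem TubeF_centre {q u : V} (hu : ‖u‖ = 1) {α β ρ : ℝ} (hαβ : α < β) (hρ : 0 < ρ) :
    tubeF q u α β ρ (q + ((α + β) / 2) • u) < 0 := by
  rw [tubeF_lt hρ.le]
  have h1 : ⟪u, q + ((α + β) / 2) • u - q⟫ = (α + β) / 2 := by
    rw [add_sub_cancel_left, real_inner_smul_right, TubeF_inner_self hu, mul_one]
  have h2 : orth u (q + ((α + β) / 2) • u - q) = 0 := by
    unfold orth
    rw [h1, add_sub_cancel_left, sub_self]
  rw [h1, h2, norm_zero]
  exact ⟨by linarith, by linarith, hρ⟩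

/-- Every zero has a descent direction (`desc1_convex` with the centre of the tube). -/
theorem tubeF_desc {q u : V} (hu : ‖u‖ = 1) {α β ρ : ℝ} (hαβ : α < β) (hρ : 0 < ρ) (x : V)
    (hx : tubeF q u α β ρ x = 0) : ∃ v, Desc1 (tubeF q u α β ρ) x v :=
  ⟨_, desc1_convex (tubeF_convex q u α β ρ) (tubeF_continuous q u α β ρ)
    (o := q + ((α + β) / 2) • u) (by rw [hx]; exact TubeF_centre hu hαβ hρ)⟩

theorem tubeF_good {q u : V} (hu : ‖u‖ = 1) {α β ρ : ℝ} (hαβ : α < β) (hρ : 0 < ρ) :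
    Good (tubeF q u α β ρ) := by
  refine ⟨tubeF_continuous q u α β ρ, ?_, fun x hx => tubeF_desc hu hαβ hρ x hx⟩
  refine (Metric.isBounded_closedBall (x := q) (r := |α| + |β| + ρ)).subset fun x hx => ?_
  obtain ⟨h1, h2, h3⟩ := (tubeF_le hρ.le x).1 (le_of_eq hx)
  rw [Metric.mem_closedBall, dist_eq_norm]
  have h4 : |⟪u, x - q⟫| ≤ |α| + |β| := by
    rw [abs_le]
    have a1 := neg_abs_le α
    have a2 := le_abs_self β
    have a3 := abs_nonneg α
    have a4 := abs_nonneg β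
    constructor <;> linarith
  have h5 := norm_sq_orth hu (x - q)
  have h6 : ‖x - q‖ ^ 2 ≤ (|⟪u, x - q⟫| + ‖orth u (x - q)‖) ^ 2 := by
    have h7 : (|⟪u, x - q⟫| + ‖orth u (x - q)‖) ^ 2 = ⟪u, x - q⟫ ^ 2 + ‖orth u (x - q)‖ ^ 2 +
        2 * (|⟪u, x - q⟫| * ‖orth u (x - q)‖) := by
      rw [add_sq, sq_abs]; ring
    have h8 : 0 ≤ |⟪u, x - q⟫| * ‖orth u (x - q)‖ := by positivity
    rw [h7, h5]
    linarith
  have h9 : ‖x - q‖ ≤ |⟪u, x - q⟫| + ‖orth u (x - q)‖ :=
    le_of_sq_le_sq h6 (by positivity)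
  linarith

/-- The lateral function `‖orth u (x - q)‖ ^ 2 - R ^ 2` descends in the direction `v` if
`⟪orth u (x - q), v⟫ < 0` (here `⟪orth u a, orth u v⟫ = ⟪orth u a, v⟫`). -/
theorem desc1_lateral {q u : V} (hu : ‖u‖ = 1) (R : ℝ) {x v : V} (h : ⟪orth u (x - q), v⟫ < 0) :
    Desc1 (fun y => ‖orth u (y - q)‖ ^ 2 - R ^ 2) x v := by
  have h1 : HasFDerivAt (fun y : V => orth u (y - q)) (TubeF_L u) x := by
    have h2 : HasFDerivAt (fun y : V => y - q) (ContinuousLinearMap.id ℝ V) x :=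
      (hasFDerivAt_id x).sub_const q
    have h3 := (TubeF_L u).hasFDerivAt.comp x h2
    have h4 : (fun y : V => orth u (y - q)) = (TubeF_L u) ∘ (fun y : V => y - q) := by
      funext y
      exact (TubeF_L_apply u (y - q)).symm
    rw [h4]
    exact h3
  have h5 := (h1.norm_sq).sub_const (R ^ 2)
  have h6 : ContDiffAt ℝ 1 (fun y : V => ‖orth u (y - q)‖ ^ 2 - R ^ 2) x := by
    have h7 : ContDiff ℝ 1 (orth u) := (contDiff_orth u).of_le le_top
    exact (((h7.comp (contDiff_id.sub contDiff_const)).norm_sq ℝ).sub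
      contDiff_const).contDiffAt
  refine desc1_smooth h6 ?_
  rw [h5.fderiv]
  have h8 : ⟪orth u (x - q), orth u v⟫ = ⟪orth u (x - q), v⟫ := by
    have h9 : ⟪orth u (x - q), u⟫ = 0 := by rw [real_inner_comm]; exact inner_orth hu (x - q)
    conv_lhs => rw [orth.eq_1 u v]
    rw [inner_sub_right, real_inner_smul_right, h9, mul_zero, sub_zero]
  have h10 : (2 • (innerSL ℝ (orth u (x - q))).comp (TubeF_L u)) v =
      2 * ⟪orth u (x - q), orth u v⟫ := by
    simp [TubeF_L_apply, two_smul, two_mul]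
  rw [h10, h8]
  linarith

private theorem TubeF_side_neg {q u : V} {α β : ℝ} {x : V}
    (h1 : α < ⟪u, x - q⟫) (h2 : ⟪u, x - q⟫ < β) :
    max (α - ⟪u, x - q⟫) (⟪u, x - q⟫ - β) ≠ 0 := by
  have : max (α - ⟪u, x - q⟫) (⟪u, x - q⟫ - β) < 0 :=
    max_lt (by linarith) (by linarith)
  exact this.ne

/-- Between the two end faces only the lateral function matters. -/
theorem tubeF_dz1 {q u : V} (hu : ‖u‖ = 1) {α β ρ : ℝ} {x v : V}
    (h1 : α < ⟪u, x - q⟫) (h2 : ⟪u, x - q⟫ < β)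
    (h : ‖orth u (x - q)‖ ^ 2 = ρ ^ 2 → ⟪orth u (x - q), v⟫ < 0) :
    DZ1 (tubeF q u α β ρ) x v := by
  have hc : Continuous (orth u) := (contDiff_orth u).continuous
  have k1 : Continuous (fun y : V => max (α - ⟪u, y - q⟫) (⟪u, y - q⟫ - β)) := by fun_prop
  have k2 : Continuous (fun y : V => ‖orth u (y - q)‖ ^ 2 - ρ ^ 2) := by fun_prop
  exact dz1_max k1 k2 (dz1_of_ne (TubeF_side_neg h1 h2)) (fun h0 =>
    desc1_lateral hu ρ (h (by linarith)))

/-- The same with the radius depending on the parameter (`dz_max`, `dz_add_const`). -/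
theorem tubeF_dz {q u : V} (hu : ‖u‖ = 1) {α β : ℝ} {ρ : ℝ → ℝ} (hρ : Continuous ρ) {t : ℝ}
    {x v : V} (h1 : α < ⟪u, x - q⟫) (h2 : ⟪u, x - q⟫ < β)
    (h : ‖orth u (x - q)‖ ^ 2 = ρ t ^ 2 → ⟪orth u (x - q), v⟫ < 0) :
    DZ (fun s => tubeF q u α β (ρ s)) t x v := by
  have hc : Continuous (orth u) := (contDiff_orth u).continuous
  have k1 : Continuous (fun p : ℝ × V => max (α - ⟪u, p.2 - q⟫) (⟪u, p.2 - q⟫ - β)) := by
    fun_prop
  have k2 : Continuous (fun p : ℝ × V => ‖orth u (p.2 - q)‖ ^ 2 - ρ p.1 ^ 2) := by fun_prop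
  have k3 : DZ (fun s (y : V) => ‖orth u (y - q)‖ ^ 2 - ρ s ^ 2) t x v := by
    have k4 := dz_add_const (f := fun y : V => ‖orth u (y - q)‖ ^ 2) (t := t) (x := x) (v := v)
      (fun s => -(ρ s ^ 2)) (fun h0 => by
        have k5 := desc1_lateral hu 0 (h (by linarith))
        simpa using k5)
    simpa only [sub_eq_add_neg] using k4
  exact dz_max (H := fun _ y => max (α - ⟪u, y - q⟫) (⟪u, y - q⟫ - β))
    (K := fun s y => ‖orth u (y - q)‖ ^ 2 - ρ s ^ 2) k1 k2
    (dz_of_ne (TubeF_side_neg h1 h2)) k3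

/-- Moving lower end `α`: the direction `u - orth u (x - q)` below the upper end; and above it the
direction towards the centre.  PROOF. `dz_max` twice and `dz_add_const`: the derivatives of
`- ⟪u, x - q⟫` and of the lateral function in the direction `u - orth u (x - q)` are `-1` and
`- 2 ‖orth u (x - q)‖ ^ 2`. -/
theorem tubeF_dz_end {q u : V} (hu : ‖u‖ = 1) {α : ℝ → ℝ} (hα : Continuous α) {β ρ : ℝ} (hρ : 0 < ρ)
    {t : ℝ} {x : V} (h2 : ⟪u, x - q⟫ < β) :
    DZ (fun s => tubeF q u (α s) β ρ) t x (u - orth u (x - q)) := by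
  have hc : Continuous (orth u) := (contDiff_orth u).continuous
  have k1 : Continuous (fun p : ℝ × V => α p.1 - ⟪u, p.2 - q⟫) := by fun_prop
  have k2 : Continuous (fun p : ℝ × V => ⟪u, p.2 - q⟫ - β) := by fun_prop
  have k3 : Continuous (fun p : ℝ × V => max (α p.1 - ⟪u, p.2 - q⟫) (⟪u, p.2 - q⟫ - β)) :=
    k1.max k2
  have k4 : Continuous (fun p : ℝ × V => ‖orth u (p.2 - q)‖ ^ 2 - ρ ^ 2) := by fun_prop
  have e1 : ⟪u, u - orth u (x - q)⟫ = 1 := by
    rw [inner_sub_right, TubeF_inner_self hu, inner_orth hu, sub_zero]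
  have e2 : ⟪orth u (x - q), u - orth u (x - q)⟫ = -‖orth u (x - q)‖ ^ 2 := by
    have h9 : ⟪orth u (x - q), u⟫ = 0 := by rw [real_inner_comm]; exact inner_orth hu (x - q)
    rw [inner_sub_right, h9, real_inner_self_eq_norm_sq, zero_sub]
  have d1 : DZ (fun s (y : V) => α s - ⟪u, y - q⟫) t x (u - orth u (x - q)) := by
    have k5 := dz_add_const (f := fun y : V => ⟪-u, y - q⟫) (t := t) (x := x)
      (v := u - orth u (x - q)) α (fun _ => desc1_affine (-u) q (by
        rw [inner_neg_left, e1]; norm_num))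
    have k6 : (fun s (y : V) => α s - ⟪u, y - q⟫) = fun s (y : V) => ⟪-u, y - q⟫ + α s := by
      funext s y
      rw [inner_neg_left]
      ring
    rw [k6]
    exact k5
  have d2 : DZ (fun (_ : ℝ) (y : V) => ⟪u, y - q⟫ - β) t x (u - orth u (x - q)) :=
    dz_of_ne (by
      show ⟪u, x - q⟫ - β ≠ 0
      linarith)
  have d3 : DZ (fun (_ : ℝ) (y : V) => ‖orth u (y - q)‖ ^ 2 - ρ ^ 2) t x
      (u - orth u (x - q)) := by
    refine dz_static (fun h0 => desc1_lateral hu ρ ?_)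
    have h0' : ‖orth u (x - q)‖ ^ 2 - ρ ^ 2 = 0 := h0
    rw [e2]
    have := pow_pos hρ 2
    linarith
  exact dz_max (H := fun s y => max (α s - ⟪u, y - q⟫) (⟪u, y - q⟫ - β))
    (K := fun _ y => ‖orth u (y - q)‖ ^ 2 - ρ ^ 2) k3 k4
    (dz_max (H := fun s y => α s - ⟪u, y - q⟫) (K := fun _ y => ⟪u, y - q⟫ - β) k1 k2 d1 d2) d3

/-- The direction towards the centre of the tube at time `t`: `desc_convex`. -/
theorem tubeF_desc_move {q u : V} (hu : ‖u‖ = 1) {α : ℝ → ℝ} (hα : Continuous α) {β ρ : ℝ}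
    (hρ : 0 < ρ) {t : ℝ} (hαβ : α t < β) {x : V} (hx : tubeF q u (α t) β ρ x = 0) :
    ∃ v, Desc (fun s => tubeF q u (α s) β ρ) (𝓝[Icc 0 1] t) x v := by
  have hcont : Continuous fun p : ℝ × V => tubeF q u (α p.1) β ρ p.2 :=
    tubeF_continuous' q u hα continuous_const continuous_const
  set o : V := q + ((α t + β) / 2) • u with ho
  have h0 : tubeF q u (α t) β ρ o < 0 := TubeF_centre hu hαβ hρ
  have hle : ∀ z : V, (𝓝[Icc 0 1] t) ×ˢ 𝓝 z ≤ 𝓝 (t, z) := by
    intro z
    rw [nhds_prod_eq]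
    exact Filter.prod_mono nhdsWithin_le_nhds le_rfl
  have hc : 0 < -(tubeF q u (α t) β ρ o) / 2 := by linarith
  refine ⟨o - x, desc_convex (c := -(tubeF q u (α t) β ρ o) / 2) ?_ hc ?_ ?_⟩
  · exact Eventually.of_forall fun s => tubeF_convex q u (α s) β ρ
  · have h1 : ∀ᶠ p : ℝ × V in 𝓝 (t, o), tubeF q u (α p.1) β ρ p.2 <
        -(-(tubeF q u (α t) β ρ o) / 2) :=
      hcont.continuousAt.eventually_lt continuousAt_const (by
        show tubeF q u (α t) β ρ o < -(-(tubeF q u (α t) β ρ o) / 2)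
        linarith)
    exact (h1.filter_mono (hle o)).mono fun p hp => hp.le
  · have h1 : ∀ᶠ p : ℝ × V in 𝓝 (t, x), -(-(tubeF q u (α t) β ρ o) / 2 / 2) <
        tubeF q u (α p.1) β ρ p.2 :=
      continuousAt_const.eventually_lt hcont.continuousAt (by
        show -(-(tubeF q u (α t) β ρ o) / 2 / 2) < tubeF q u (α t) β ρ x
        rw [hx]
        linarith)
    exact (h1.filter_mono (hle x)).mono fun p hp => hp.le

end Pool.Schoen
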